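import Pool.Agent.Lib.MP_f80667_ag.Nf.Df
import Pool.Agent.Lib.MP_f80667_ag.Pe.Plc
import Pool.Agent.Lib.MP_f80667_ag.Pe.Lo

/-!
The elliptic curve as a variety: functor, base point, constant points; translations.
-/

open ZC BE PE Polynomial IntermediateField CV

namespace NE

variable {F : Type} [Field F]

/-- The reduction and automorphisms. -/
private theorem ee_red {K Ω : Type} [Field K] [Field Ω] [Algebra K Ω] [Algebra F K] [Algebra F Ω]
    [IsScalarTower F K Ω] {M : IntermediateField K Ω} {E : Type} [Field E] [Algebra M E]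
    [Algebra K E] [Algebra F E] [IsScalarTower K M E] {W : WeierstrassCurve F} (γ : Ω ≃ₐ[K] Ω)
    (w : Place M E Ω) {P : Pt W E} {Q : Pt W Ω} (h : Pt.Red W w P Q) :
    Pt.Red W (temb γ w) P (γ • Q) := by
  match P, h with
  | .zero, h =>
    change Q = 0 at h
    change γ • Q = 0
    rw [h, smul_zero]
  | .some x y _, h =>
    rcases h with ⟨hx, rfl⟩ | ⟨hx, hy, hn, rfl⟩
    · exact Or.inl ⟨hx, smul_zero _⟩
    · exact Or.inr ⟨hx, hy, (WeierstrassCurve.Affine.baseChange_nonsingular (W := W)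
        (f := (γ.restrictScalars F : Ω →ₐ[F] Ω)) γ.injective _ _).mpr hn, rfl⟩

/-- Proof: `Pt.map` is functorial; `gal`: by cases. -/
instance hfE (W : WeierstrassCurve F) : Hf (Ev W) where
  out :=
    { id := fun _ _ _ x => Pt.map_id' W x
      comp := fun _ _ _ _ _ _ _ _ _ σ τ x => (Pt.map_map' W σ τ x).symm
      gal := fun _ _ _ _ _ _ _ _ _ _ _ _ _ _ _ γ w _ _ h => ee_red γ w h }

/-- The base point. -/
noncomputable def bpE (W : WeierstrassCurve F) : Bp (Ev W) where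
  o _ _ _ := (0 : Pt W _)
  nat _ _ _ _ _ _ σ := map_zero (Pt.map W σ)
  red _ _ _ _ _ _ _ _ _ _ _ := rfl

private theorem ee_aff {W : WeierstrassCurve F} {L : Type} [Field L] [Algebra F L]
    {x y x' y' : L} (h : (W.baseChange L).toAffine.Nonsingular x y) (ex : x = x') (ey : y = y') :
    ∃ h' : (W.baseChange L).toAffine.Nonsingular x' y',
      (Pt.aff x y h : Pt W L) = Pt.aff x' y' h' := by
  subst ex
  subst ey
  exact ⟨h, rfl⟩

private theorem ee_fp {K Ω : Type} [Field K] [Field Ω] [Algebra K Ω] [Algebra F K] [Algebra F Ω]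
    [IsScalarTower F K Ω] [CharZero K] [IsAlgClosure K Ω] (W : WeierstrassCurve F) (x : Pt W Ω) :
    ∃ M : IntermediateField K Ω, FiniteDimensional K M ∧ Fx M x := by
  rcases Pt.cases' x with rfl | ⟨a, b, h, rfl⟩
  · exact ⟨⊥, inferInstance, fun γ _ => smul_zero γ⟩
  · have halg : Algebra.IsAlgebraic K Ω := IsAlgClosure.isAlgebraic
    refine ⟨IntermediateField.adjoin K {a, b},
      IntermediateField.finiteDimensional_adjoin fun z _ => (halg.isAlgebraic z).isIntegral,
      (fx_aff _ h).2 ⟨IntermediateField.subset_adjoin _ _ (Or.inl rfl),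
        IntermediateField.subset_adjoin _ _ (Or.inr rfl)⟩⟩

private theorem ee_cst {K Ω : Type} [Field K] [Field Ω] [Algebra K Ω] [Algebra F K] [Algebra F Ω]
    [IsScalarTower F K Ω] [CharZero K] [IsAlgClosure K Ω] (W : WeierstrassCurve F)
    (M : IntermediateField K Ω) (y : Pt W Ω) (hy : Fx M y) (E : Type) [Field E] [Algebra M E]
    [Algebra F E] [IsScalarTower F M E] :
    ∃ x' : Pt W (AlgebraicClosure E),
      (∀ σ : AlgebraicClosure E ≃ₐ[E] AlgebraicClosure E, σ • x' = x') ∧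
      ∀ w : Place M (AlgebraicClosure E) Ω, Pt.Red W w x' y := by
  rcases Pt.cases' y with rfl | ⟨a, b, h, rfl⟩
  · exact ⟨0, fun σ => smul_zero σ, fun w => rfl⟩
  · obtain ⟨ha, hb⟩ := (fx_aff M h).1 hy
    have hM : (W.baseChange M).toAffine.Nonsingular (⟨a, ha⟩ : M) ⟨b, hb⟩ :=
      (WeierstrassCurve.Affine.baseChange_nonsingular (W := W)
        (f := (IsScalarTower.toAlgHom F M Ω : M →ₐ[F] Ω)) (algebraMap M Ω).injective _ _).mp h
    have hE : (W.baseChange (AlgebraicClosure E)).toAffine.Nonsingular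
        (algebraMap M (AlgebraicClosure E) ⟨a, ha⟩) (algebraMap M (AlgebraicClosure E) ⟨b, hb⟩) :=
      (WeierstrassCurve.Affine.baseChange_nonsingular (W := W)
        (f := (IsScalarTower.toAlgHom F M (AlgebraicClosure E) : M →ₐ[F] AlgebraicClosure E))
        (algebraMap M (AlgebraicClosure E)).injective _ _).mpr hM
    refine ⟨Pt.aff _ _ hE, fun σ => (Gal_smul_aff hE σ).2 ⟨?_, ?_⟩, fun w => ?_⟩
    · rw [IsScalarTower.algebraMap_apply M E (AlgebraicClosure E), AlgEquiv.commutes]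
    · rw [IsScalarTower.algebraMap_apply M E (AlgebraicClosure E), AlgEquiv.commutes]
    · obtain ⟨h', e⟩ := ee_aff (W := W) h (w.res_k ⟨a, ha⟩).symm (w.res_k ⟨b, hb⟩).symm
      exact Or.inr ⟨w.mem _, w.mem _, h', e⟩

/-- Proof: `fp`: the coordinates generate a finite extension. `cst`: `(x, y)` with `x`, `y` in `M` (`fx_aff`). -/
instance kpE (W : WeierstrassCurve F) [W.IsElliptic] : Kp (Ev W) where
  fp _ _ _ _ _ _ _ _ _ _ x := ee_fp W x
  cst _ _ _ _ _ _ _ _ _ _ M y hy E _ _ _ _ := ee_cst W M y hy E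

variable {K Ω : Type} [Field K] [Field Ω] [Algebra K Ω] [Algebra F K] [Algebra F Ω]
  [IsScalarTower F K Ω] {n : ℕ} {W : Fin n → WeierstrassCurve F}

/-- The action on the points of the curve is the action of `Pe`. -/
theorem fpE {W : WeierstrassCurve F} {M : IntermediateField K Ω} {x : Pt W Ω} :
    Fp (Ev W) M x ↔ Fx M x := Iff.rfl

/-- A point of the product is a point over `M` if its coordinates are. -/
theorem fpX {M : IntermediateField K Ω} {x : (Xn W).pt Ω} :
    Fp (Xn W) M x ↔ ∀ i, Fx M (cx x i) :=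
  ⟨fun h i γ hγ => congrFun (h γ hγ) i, fun h γ hγ => funext fun i => h i γ hγ⟩

/-- The translation by `c`. -/
noncomputable def trl (c : (Xn W).pt Ω) (x : (Xn W).pt Ω) : (Xn W).pt Ω :=
  fun i => (cx x i + cx c i : Pt (W i) Ω)

/-- Translations and the Galois group. -/
private theorem ee_act {U : IntermediateField K Ω} {c : (Xn W).pt Ω} (hc : Fp (Xn W) U c)
    {γ : Ω ≃ₐ[K] Ω} (hγ : γ ∈ U.fixingSubgroup) (x : (Xn W).pt Ω) :
    (Xn W).act γ (trl c x) = trl c ((Xn W).act γ x) := by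
  funext i
  change γ • (cx x i + cx c i) = γ • cx x i + cx c i
  rw [smul_add, fpX.1 hc i γ hγ]

private theorem ee_map {U : IntermediateField K Ω} {c : (Xn W).pt Ω} (hc : Fp (Xn W) U c)
    {γ : Ω ≃ₐ[K] Ω} (hγ : γ ∈ U.fixingSubgroup) (z : (Xn W).pt Ω →₀ ℤ) :
    Finsupp.mapDomain (trl c) (γ • z) = γ • Finsupp.mapDomain (trl c) z := by
  rw [CV.smul_def, CV.smul_def, ← Finsupp.mapDomain_comp, ← Finsupp.mapDomain_comp]
  exact congrArg (fun g => Finsupp.mapDomain g z) (funext fun x => (ee_act hc hγ x).symm)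

private theorem ee_mono {M M' : IntermediateField K Ω} (h : M ≤ M') {x : (Xn W).pt Ω}
    (hx : Fp (Xn W) M x) : Fp (Xn W) M' x := fun γ hγ =>
  hx γ ((IntermediateField.mem_fixingSubgroup_iff M γ).2 fun a ha =>
    (IntermediateField.mem_fixingSubgroup_iff M' γ).1 hγ a (h ha))

/-- The translation by a point over `U` of a cycle rationally equivalent to `0` over `U`. Proof: as `Mo.ratEq` (`Cv/Mo.lean`) and
`mor_ratEq` (`Cv/NfA.lean`): the constant points of `Kp.cst`, `red_add'` (`Pe/Plc.lean`). -/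
theorem trl_ratEq [CharZero K] [IsAlgClosure K Ω] [∀ i, (W i).IsElliptic]
    {U : IntermediateField K Ω} {c : (Xn W).pt Ω} (hc : Fp (Xn W) U c) {z : (Xn W).pt Ω →₀ ℤ}
    (hz : z ∈ (Xn W).ratEq U Ω) : Finsupp.mapDomain (trl c) z ∈ (Xn W).ratEq U Ω := by
  have hU : CharZero U := charZero_of_injective_algebraMap (algebraMap K U).injective
  have h : (Xn W).ratEq U Ω ≤ ((Xn W).ratEq U Ω).comap
      (Finsupp.mapDomain.addMonoidHom (trl c)) := by
    rw [Vr.ratEq, AddSubgroup.closure_le]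
    rintro _ ⟨E, i1, i2, i3, i4, hE, g, x, hg, hx, S, m, y, hS, hv, rfl⟩
    change Finsupp.mapDomain (trl c) _ ∈ (Xn W).ratEq U Ω
    rw [Finsupp.mapDomain_finsetSum]
    choose x' hx' hr using fun i => ee_cst (W i) U (cx c i) (fpX.1 hc i) E
    refine AddSubgroup.subset_closure ⟨E, i1, i2, i3, i4, hE, g,
      (fun i => (cx x i + x' i : Pt (W i) (AlgebraicClosure E))), hg, fun σ => ?_, S, m,
      fun w => trl c (y w), hS, fun w hw => ⟨(hv w hw).1, ?_⟩, ?_⟩
    · refine funext fun i => ?_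
      change σ • (cx x i + x' i) = cx x i + x' i
      rw [smul_add, hx' i σ]
      exact congrArg (fun q => q + x' i) (congrFun (hx σ) i)
    · obtain ⟨w', h1, h2, h3⟩ := (hv w hw).2
      exact ⟨w', h1, h2, fun i => red_add' w' (h3 i) (hr i w')⟩
    · refine Finset.sum_congr rfl fun w _ => ?_
      rw [Finsupp.mapDomain_single]
  exact h hz

/-- Translations and unramified cycles. -/
theorem trl_uk {L : Ld K Ω} {U : IntermediateField K Ω} {N : ℕ} (hN : N ≠ 0) (hU : U ≤ L.Ur ⊥ N)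
    {c : (Xn W).pt Ω} (hc : Fp (Xn W) U c) {z : (Xn W).pt Ω →₀ ℤ} (hz : z ∈ Uk L (Xn W) U) :
    Finsupp.mapDomain (trl c) z ∈ Uk L (Xn W) U := by
  classical
  obtain ⟨h1, h2⟩ := hz
  refine ⟨fun γ hγ => ?_, fun x hx => ?_⟩
  · rw [← ee_map hc hγ, h1 γ hγ]
  · obtain ⟨x', hx', rfl⟩ := Finset.mem_image.1 (Finsupp.mapDomain_support hx)
    obtain ⟨N', hN', h⟩ := h2 x' hx'
    refine ⟨N * N', mul_ne_zero hN hN', fun γ hγ => ?_⟩
    have h3 : Fp (Xn W) (L.Ur ⊥ (N * N')) x' := ee_mono (Ld.ur_dvd ⊥ (Dvd.intro_left N rfl)) h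
    have h4 : Fp (Xn W) (L.Ur ⊥ (N * N')) c :=
      ee_mono (hU.trans (Ld.ur_dvd ⊥ (Dvd.intro N' rfl))) hc
    rw [ee_act h4 hγ, h3 γ hγ]

/-- Translations and norms. Proof: `hom_nm`. -/
theorem trl_nm [CharZero K] [IsAlgClosure K Ω] {U M : IntermediateField K Ω} [FiniteDimensional K M]
    (h : U ≤ M) {c : (Xn W).pt Ω} (hc : Fp (Xn W) U c) (x : (Xn W).pt Ω) :
    Finsupp.mapDomain (trl c) (Nm U M (Finsupp.single x (1 : ℤ) : (Xn W).pt Ω →₀ ℤ)) =
      Nm U M (Finsupp.single (trl c x) 1 : (Xn W).pt Ω →₀ ℤ) := by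
  have h1 := hom_nm (K := K) (Finsupp.mapDomain.addMonoidHom (M := ℤ) (trl c)) h
    (fun γ hγ a => ee_map hc hγ a) (Finsupp.single x (1 : ℤ))
  refine h1.trans (congrArg (Nm U M) ?_)
  exact Finsupp.mapDomain_single

end NE
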