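import Pool.Agent.Lib.MP_f80667_ag.Nf.Ee
import Pool.Agent.Lib.MP_f80667_ag.Pe.Re
import Pool.Agent.Lib.MP_f80667_ag.Cv.Pi
import Pool.Agent.Lib.MP_f80667_ag.Be.StP

/-!
The real places: cycles on a product of elliptic curves, all but at most one with connected real points.
-/

open ZC BE PE Polynomial IntermediateField CV

namespace NE

section pv

variable {F : Type} [Field F] {M Ω : Type} [Field M] [CharZero M] [Field Ω] [Algebra M Ω]
  [Algebra F M] [Algebra F Ω] [IsScalarTower F M Ω] [IsAlgClosed Ω]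

private theorem reN_aff {L : Type} [Field L] [Algebra F L] {W : WeierstrassCurve F} {x y x' y' : L}
    (h : (W.baseChange L).toAffine.Nonsingular x y)
    (h' : (W.baseChange L).toAffine.Nonsingular x' y') (e1 : x = x') (e2 : y = y') :
    (Pt.aff x y h : Pt W L) = Pt.aff x' y' h' := by
  subst e1 e2
  rfl

private theorem reN_map {L : Type} [Field L] [Algebra F L] {W : WeierstrassCurve F} {N : Type}
    [Field N] [Algebra F N] (σ : L →ₐ[F] N)
    {x y : L} (h : (W.baseChange L).toAffine.Nonsingular x y) :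
    ∃ h' : (W.baseChange N).toAffine.Nonsingular (σ x) (σ y),
      Pt.map W σ (Pt.aff x y h) = Pt.aff (σ x) (σ y) h' := by
  classical
  exact ⟨_, rfl⟩

omit [CharZero M] [Algebra F M] [IsScalarTower F M Ω] [IsAlgClosed Ω] in
private theorem reN_up {W : WeierstrassCurve F} {E : Type} [Field E] [Algebra M E] [Algebra F E]
    (w : Place M E Ω) (W' : Place M (AlgebraicClosure E) Ω) (hW : Above w W')
    (P : Pt W E) (Q : Pt W Ω) (h : Pt.Red W w P Q) :
    Pt.Red W W' (Pt.map W (IsScalarTower.toAlgHom F E (AlgebraicClosure E)) P) Q := by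
  classical
  match P, h with
  | .zero, h => exact h
  | .some x y hxy, h =>
    obtain ⟨h', e⟩ := reN_map (W := W) (IsScalarTower.toAlgHom F E (AlgebraicClosure E)) hxy
    change Pt.Red W W' (Pt.map W (IsScalarTower.toAlgHom F E (AlgebraicClosure E))
      (Pt.aff x y hxy)) Q
    rw [e]
    rcases h with ⟨hx, rfl⟩ | ⟨hx, hy, hn, rfl⟩
    · exact Or.inl ⟨fun hc => hx ((hW.1 x).1 hc), rfl⟩
    · have hx' : algebraMap E (AlgebraicClosure E) x ∈ W'.V := (hW.1 x).2 hx
      have hy' : algebraMap E (AlgebraicClosure E) y ∈ W'.V := (hW.1 y).2 hy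
      have e1 : W'.res ⟨_, hx'⟩ = w.res ⟨x, hx⟩ := hW.2 x hx hx'
      have e2 : W'.res ⟨_, hy'⟩ = w.res ⟨y, hy⟩ := hW.2 y hy hy'
      have hn' : (W.baseChange Ω).toAffine.Nonsingular (W'.res ⟨_, hx'⟩) (W'.res ⟨_, hy'⟩) := by
        rw [e1, e2]
        exact hn
      exact Or.inr ⟨hx', hy', hn', reN_aff _ _ e1.symm e2.symm⟩

private theorem reN_fix {W : WeierstrassCurve F} {E : Type} [Field E] [Algebra F E]
    (σ : AlgebraicClosure E ≃ₐ[E] AlgebraicClosure E) (P : Pt W E) :
    Pt.map W (σ.restrictScalars F : AlgebraicClosure E →ₐ[F] AlgebraicClosure E)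
      (Pt.map W (IsScalarTower.toAlgHom F E (AlgebraicClosure E)) P) =
      Pt.map W (IsScalarTower.toAlgHom F E (AlgebraicClosure E)) P := by
  rw [Pt.map_map']
  exact congrArg (fun τ => Pt.map W τ P) (AlgHom.ext fun x => σ.commutes x)

omit [CharZero M] [IsAlgClosed Ω] in
private theorem reN_cst {W : WeierstrassCurve F} {E : Type} [Field E] [Algebra M E] [Algebra F E]
    [IsScalarTower F M E] (w : Place M E Ω) (P : Pt W M) :
    Pt.Red W w (Pt.map W (IsScalarTower.toAlgHom F M E) P)
      (Pt.map W (IsScalarTower.toAlgHom F M Ω) P) := by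
  classical
  match P with
  | .zero => exact rfl
  | .some x y hxy =>
    obtain ⟨h', e⟩ := reN_map (W := W) (IsScalarTower.toAlgHom F M E) hxy
    obtain ⟨h'', e'⟩ := reN_map (W := W) (IsScalarTower.toAlgHom F M Ω) hxy
    change Pt.Red W w (Pt.map W (IsScalarTower.toAlgHom F M E) (Pt.aff x y hxy))
      (Pt.map W (IsScalarTower.toAlgHom F M Ω) (Pt.aff x y hxy))
    rw [e, e']
    have e1 : w.res ⟨algebraMap M E x, w.mem x⟩ = algebraMap M Ω x := w.res_k x
    have e2 : w.res ⟨algebraMap M E y, w.mem y⟩ = algebraMap M Ω y := w.res_k y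
    have hn : (W.baseChange Ω).toAffine.Nonsingular (w.res ⟨algebraMap M E x, w.mem x⟩)
        (w.res ⟨algebraMap M E y, w.mem y⟩) := by
      rw [e1, e2]
      exact h''
    exact Or.inr ⟨w.mem x, w.mem y, hn, reN_aff _ _ e1.symm e2.symm⟩

/-- Principal cycles on the product. -/
private theorem reN_pv {n : ℕ} {W : Fin n → WeierstrassCurve F} {z : (Xn W).pt Ω →₀ ℤ}
    (h : Pv (Xn W) M Ω z) : z ∈ (Xn W).ratEq M Ω := by
  obtain ⟨E, i1, i2, i3, i4, hE, g, ξ, hg, S, m, y, hS, hv, rfl⟩ := h
  refine AddSubgroup.subset_closure ⟨E, i1, i2, i3, i4, hE, g,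
    (Xn W).map (IsScalarTower.toAlgHom F E (AlgebraicClosure E)) ξ, hg, fun σ => ?_, S, m, y,
    hS, fun w hw => ⟨(hv w hw).1, ?_⟩, rfl⟩
  · exact funext fun i => reN_fix (W := W i) σ (ξ i)
  · obtain ⟨W', hW'⟩ := exists_above w
    exact ⟨W', hW'.1, hW'.2, fun i => reN_up w W' hW' (ξ i) _ ((hv w hw).2 i)⟩

/-- The line through a point over `M`. -/
private theorem reN_upd {n : ℕ} {W : Fin n → WeierstrassCurve F} (x₀ : ∀ j, Pt (W j) M) (i : Fin n)
    {z : Pt (W i) Ω →₀ ℤ} (h : Pv (Ev (W i)) M Ω z) :
    Pv (Xn W) M Ω (Finsupp.mapDomain (fun P : Pt (W i) Ω => ((Function.update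
      (fun j => Pt.map (W j) (IsScalarTower.toAlgHom F M Ω) (x₀ j)) i P :
        ∀ j, Pt (W j) Ω) : (Xn W).pt Ω)) z) := by
  obtain ⟨E, i1, i2, i3, i4, hE, g, ξ, hg, S, m, y, hS, hv, rfl⟩ := h
  refine ⟨E, i1, i2, i3, i4, hE, g, ((Function.update
    (fun j => Pt.map (W j) (IsScalarTower.toAlgHom F M E) (x₀ j)) i ξ : ∀ j, Pt (W j) E) :
      (Xn W).pt E), hg, S, m,
    fun w => ((Function.update (fun j => Pt.map (W j) (IsScalarTower.toAlgHom F M Ω) (x₀ j)) i
      (y w) : ∀ j, Pt (W j) Ω) : (Xn W).pt Ω), hS,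
    fun w hw => ⟨(hv w hw).1, fun j => ?_⟩, ?_⟩
  · change Pt.Red (W j) w (Function.update
      (fun j => Pt.map (W j) (IsScalarTower.toAlgHom F M E) (x₀ j)) i ξ j)
      (Function.update (fun j => Pt.map (W j) (IsScalarTower.toAlgHom F M Ω) (x₀ j)) i (y w) j)
    rcases eq_or_ne j i with rfl | hj
    · rw [Function.update_self, Function.update_self]
      exact (hv w hw).2
    · rw [Function.update_of_ne hj, Function.update_of_ne hj]
      exact reN_cst w (x₀ j)
  · exact (Finsupp.mapDomain_finsetSum (f := fun P : Pt (W i) Ω => ((Function.update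
      (fun j => Pt.map (W j) (IsScalarTower.toAlgHom F M Ω) (x₀ j)) i P :
        ∀ j, Pt (W j) Ω) : (Xn W).pt Ω))).trans
      (Finset.sum_congr rfl fun w _ => Finsupp.mapDomain_single)

end pv

variable {F : Type} [Field F] {K : Type} [Field K] [CharZero K] [Algebra F K] {n : ℕ}
  {W : Fin n → WeierstrassCurve F} [∀ i, (W i).IsElliptic]

omit [CharZero K] [Algebra F K] in
private theorem reN_bot (γ : AlgebraicClosure K ≃ₐ[K] AlgebraicClosure K) :
    γ ∈ (⊥ : IntermediateField K (AlgebraicClosure K)).fixingSubgroup := by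
  rw [IntermediateField.mem_fixingSubgroup_iff]
  intro x hx
  obtain ⟨a, rfl⟩ := IntermediateField.mem_bot.1 hx
  exact γ.commutes a

omit [CharZero K] in
/-- Twice an invariant point is a norm. -/
private theorem reN_two {V : Vr F} [Finite (AlgebraicClosure K ≃ₐ[K] AlgebraicClosure K)]
    (h2 : Nat.card (AlgebraicClosure K ≃ₐ[K] AlgebraicClosure K) = 2)
    {y : V.pt (AlgebraicClosure K)}
    (hy : ∀ γ : AlgebraicClosure K ≃ₐ[K] AlgebraicClosure K, V.act γ y = y) :
    (Finsupp.single y 2 : V.pt (AlgebraicClosure K) →₀ ℤ) ∈ V.nrm K (AlgebraicClosure K) := by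
  refine AddSubgroup.subset_closure ⟨y, ?_⟩
  have := Fintype.ofFinite (AlgebraicClosure K ≃ₐ[K] AlgebraicClosure K)
  rw [finsum_congr (g := fun _ => Finsupp.single y (1 : ℤ)) (fun σ => by rw [hy σ]),
    finsum_eq_sum_of_fintype, Finset.sum_const, Finset.card_univ, ← Nat.card_eq_fintype_card, h2,
    Finsupp.smul_single]
  rfl

/-- Changing one coordinate by twice a point over `K`. Proof: on the curve `[P + 2 c] + [P] - 2 [P + c]` is rationally equivalent to `0`
over `K`, push it forward to the line through `x` in direction `i`; twice a point over `K` is a norm, so `[x'] + [x]` and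
`[x'] - [x]` are in `ratEq + nrm`. -/
theorem re_mv [Finite (AlgebraicClosure K ≃ₐ[K] AlgebraicClosure K)]
    (h2 : Nat.card (AlgebraicClosure K ≃ₐ[K] AlgebraicClosure K) = 2) (i : Fin n)
    {x x' : (Xn W).pt (AlgebraicClosure K)} (hx : Fp (Xn W) (⊥ : IntermediateField K (AlgebraicClosure K)) x)
    {c : Pt (W i) (AlgebraicClosure K)} (hc : Fx (⊥ : IntermediateField K (AlgebraicClosure K)) c)
    (hi : cx x' i = cx x i + 2 • c) (hj : ∀ j ≠ i, cx x' j = cx x j) :
    (Finsupp.single x' 1 - Finsupp.single x 1 : (Xn W).pt (AlgebraicClosure K) →₀ ℤ) ∈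
      (Xn W).ratEq K (AlgebraicClosure K) ⊔ (Xn W).nrm K (AlgebraicClosure K) := by
  have hx1 : ∀ (γ : AlgebraicClosure K ≃ₐ[K] AlgebraicClosure K) (j : Fin n),
      γ • cx x j = cx x j := fun γ j => congrFun (hx γ (reN_bot γ)) j
  have hc1 : ∀ γ : AlgebraicClosure K ≃ₐ[K] AlgebraicClosure K, γ • c = c :=
    fun γ => hc γ (reN_bot γ)
  choose x₀ hx₀ using fun j => exists_desc (K := K) (fun γ => hx1 γ j)
  obtain ⟨f, hf⟩ : ∃ f : Pt (W i) (AlgebraicClosure K) → (Xn W).pt (AlgebraicClosure K),
      f = fun P => ((Function.update (fun j => Pt.map (W j)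
        (IsScalarTower.toAlgHom F K (AlgebraicClosure K)) (x₀ j)) i P :
          ∀ j, Pt (W j) (AlgebraicClosure K)) : (Xn W).pt (AlgebraicClosure K)) := ⟨_, rfl⟩
  have hfi : ∀ P, cx (f P) i = P := fun P => by
    rw [hf]
    change Function.update (fun j => Pt.map (W j)
      (IsScalarTower.toAlgHom F K (AlgebraicClosure K)) (x₀ j)) i P i = P
    rw [Function.update_self]
  have hfj : ∀ P, ∀ j ≠ i, cx (f P) j = cx x j := fun P j h => by
    rw [hf]
    change Function.update (fun j => Pt.map (W j)
      (IsScalarTower.toAlgHom F K (AlgebraicClosure K)) (x₀ j)) i P j = cx x j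
    rw [Function.update_of_ne h]
    exact hx₀ j
  obtain ⟨P, hP⟩ : ∃ P, P = cx x i := ⟨_, rfl⟩
  have f1 : f P = x := funext fun j => by
    change cx (f P) j = cx x j
    rcases eq_or_ne j i with rfl | h
    · rw [hfi, hP]
    · exact hfj P j h
  have f2 : f (P + (c + c)) = x' := funext fun j => by
    change cx (f (P + (c + c))) j = cx x' j
    rcases eq_or_ne j i with rfl | h
    · rw [hfi, hP, ← two_nsmul]
      exact hi.symm
    · exact (hfj _ j h).trans (hj j h).symm
  have hPf : ∀ γ : AlgebraicClosure K ≃ₐ[K] AlgebraicClosure K, γ • P = P := fun γ => by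
    rw [hP]
    exact hx1 γ i
  have f3 : ∀ γ : AlgebraicClosure K ≃ₐ[K] AlgebraicClosure K,
      (Xn W).act γ (f (P + c)) = f (P + c) := fun γ => funext fun j => by
    change γ • cx (f (P + c)) j = cx (f (P + c)) j
    rcases eq_or_ne j i with rfl | h
    · rw [hfi, smul_add, hPf, hc1]
    · rw [hfj _ j h]
      exact hx1 γ j
  have f4 : ∀ γ : AlgebraicClosure K ≃ₐ[K] AlgebraicClosure K, (Xn W).act γ x = x :=
    fun γ => hx γ (reN_bot γ)
  obtain ⟨z, hz⟩ : ∃ z : Pt (W i) (AlgebraicClosure K) →₀ ℤ,
      z = Finsupp.single (P + (c + c)) 1 + Finsupp.single P 1 + Finsupp.single (P + c) (-2) :=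
    ⟨_, rfl⟩
  have z1 : ∀ γ : AlgebraicClosure K ≃ₐ[K] AlgebraicClosure K,
      Finsupp.mapDomain (fun Q : Pt (W i) (AlgebraicClosure K) => γ • Q) z = z := by
    intro γ
    rw [hz, Finsupp.mapDomain_add, Finsupp.mapDomain_add, Finsupp.mapDomain_single,
      Finsupp.mapDomain_single, Finsupp.mapDomain_single, smul_add, smul_add, smul_add, hPf, hc1]
  have z2 : dg z = 0 := by
    rw [hz]
    simp only [dg, map_add, Finsupp.liftAddHom_apply_single, AddMonoidHom.id_apply]
    norm_num
  have z3 : sm z = 0 := by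
    rw [hz]
    simp only [sm, map_add, Finsupp.liftAddHom_apply_single, zmultiplesHom_apply, one_smul,
      neg_smul, two_smul]
    abel
  have z4 : Finsupp.mapDomain f z ∈ (Xn W).ratEq K (AlgebraicClosure K) := by
    have h1 := abel (K := K) z z1 z2 z3
    have h2 : AddSubgroup.closure {z | Pv (Ev (W i)) K (AlgebraicClosure K) z} ≤
        ((Xn W).ratEq K (AlgebraicClosure K)).comap (Finsupp.mapDomain.addMonoidHom (M := ℤ) f) := by
      refine (AddSubgroup.closure_le _).2 fun y hy => ?_
      rw [hf]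
      exact reN_pv (reN_upd x₀ i hy)
    exact h2 h1
  have z5 : Finsupp.mapDomain f z = Finsupp.single x' 1 + Finsupp.single x 1 +
      Finsupp.single (f (P + c)) (-2) := by
    rw [hz, Finsupp.mapDomain_add, Finsupp.mapDomain_add, Finsupp.mapDomain_single,
      Finsupp.mapDomain_single, Finsupp.mapDomain_single, f1, f2]
  rw [z5] at z4
  have n1 := reN_two (V := Xn W) h2 f3
  have n2 := reN_two (V := Xn W) h2 f4
  have e : (Finsupp.single x' 1 - Finsupp.single x 1 :
      (Xn W).pt (AlgebraicClosure K) →₀ ℤ) = (Finsupp.single x' 1 + Finsupp.single x 1 +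
      Finsupp.single (f (P + c)) (-2)) + (Finsupp.single (f (P + c)) 2 - Finsupp.single x 2) := by
    have e1 : (Finsupp.single (f (P + c)) (-2) : (Xn W).pt (AlgebraicClosure K) →₀ ℤ) =
        -Finsupp.single (f (P + c)) 2 := Finsupp.single_neg _ _
    have e2 : (Finsupp.single x 2 : (Xn W).pt (AlgebraicClosure K) →₀ ℤ) =
        Finsupp.single x 1 + Finsupp.single x 1 := by
      rw [← Finsupp.single_add]
      rfl
    rw [e1, e2]
    abel
  rw [e]
  exact add_mem (AddSubgroup.mem_sup_left z4) (AddSubgroup.mem_sup_right (sub_mem n1 n2))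

omit [CharZero K] in
/-- An invariant cycle is a sum of norms and points over `K`. -/
private theorem reN_inv {V : Vr F} [Hf V] {σ : AlgebraicClosure K ≃ₐ[K] AlgebraicClosure K}
    (hσ : σ ≠ 1) (hσ' : ∀ γ : AlgebraicClosure K ≃ₐ[K] AlgebraicClosure K, γ = 1 ∨ γ = σ)
    (R : AddSubgroup (V.pt (AlgebraicClosure K) →₀ ℤ))
    (h1 : ∀ x : V.pt (AlgebraicClosure K), (∀ γ : AlgebraicClosure K ≃ₐ[K] AlgebraicClosure K,
      V.act γ x = x) → Finsupp.single x 1 ∈ R)
    (h2 : ∀ x : V.pt (AlgebraicClosure K), Finsupp.single x 1 + Finsupp.single (V.act σ x) 1 ∈ R) :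
    ∀ (m : ℕ) (z : V.pt (AlgebraicClosure K) →₀ ℤ), z.support.card ≤ m →
      Finsupp.mapDomain (V.act σ) z = z → z ∈ R := by
  classical
  have hss : ∀ x : V.pt (AlgebraicClosure K), V.act σ (V.act σ x) = x := by
    intro x
    have h3 : σ * σ = 1 := by
      rcases hσ' (σ * σ) with h | h
      · exact h
      · exact absurd (mul_eq_left.1 h) hσ
    rw [← act_mul Hf.out, h3]
    exact act_one Hf.out x
  have hinj : Function.Injective (V.act σ) := fun x y h => by
    rw [← hss x, h, hss]
  intro m
  induction m with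
  | zero =>
    intro z hz _
    have h3 : z = 0 := Finsupp.card_support_eq_zero.1 (by omega)
    rw [h3]
    exact zero_mem _
  | succ m ih =>
    intro z hz hinv
    rcases eq_or_ne z 0 with h0 | h0
    · rw [h0]
      exact zero_mem _
    obtain ⟨x, hx⟩ := Finsupp.support_nonempty_iff.2 h0
    have hval : ∀ y, z (V.act σ y) = z y := fun y => by
      have h3 := Finsupp.mapDomain_apply hinj z y
      rw [hinv] at h3
      exact h3
    by_cases hfix : V.act σ x = x
    · have h3 : Finsupp.single x (1 : ℤ) ∈ R := h1 x fun γ => by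
        rcases hσ' γ with rfl | rfl
        · exact act_one Hf.out x
        · exact hfix
      have h4 : z - Finsupp.single x (z x) ∈ R := by
        refine ih _ ?_ ?_
        · have h5 : (z - Finsupp.single x (z x)).support ⊆ z.support.erase x := by
            intro y hy
            rw [Finsupp.mem_support_iff, Finsupp.sub_apply] at hy
            rw [Finset.mem_erase, Finsupp.mem_support_iff]
            rcases eq_or_ne y x with rfl | h6
            · rw [Finsupp.single_eq_same, sub_self] at hy
              exact absurd rfl hy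
            · rw [Finsupp.single_eq_of_ne h6, sub_zero] at hy
              exact ⟨h6, hy⟩
          have h6 := Finset.card_le_card h5
          rw [Finset.card_erase_of_mem hx] at h6
          omega
        · change Finsupp.mapDomain.addMonoidHom (V.act σ) (z - Finsupp.single x (z x)) = _
          rw [map_sub, Finsupp.mapDomain.addMonoidHom_apply, Finsupp.mapDomain.addMonoidHom_apply,
            hinv, Finsupp.mapDomain_single, hfix]
      have h5 : z = (z - Finsupp.single x (z x)) + z x • Finsupp.single x (1 : ℤ) := by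
        rw [Finsupp.smul_single, smul_eq_mul, mul_one, sub_add_cancel]
      rw [h5]
      exact add_mem h4 (zsmul_mem h3 _)
    · have h4 : z - z x • (Finsupp.single x (1 : ℤ) + Finsupp.single (V.act σ x) 1) ∈ R := by
        have happ : ∀ y, (z - z x • (Finsupp.single x (1 : ℤ) + Finsupp.single (V.act σ x) 1) :
            V.pt (AlgebraicClosure K) →₀ ℤ) y =
            z y - z x * ((if x = y then 1 else 0) + if V.act σ x = y then 1 else 0) := by
          intro y
          rw [Finsupp.sub_apply, Finsupp.smul_apply, Finsupp.add_apply, Finsupp.single_apply,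
            Finsupp.single_apply, smul_eq_mul]
        refine ih _ ?_ ?_
        · have h5 : (z - z x • (Finsupp.single x (1 : ℤ) +
              Finsupp.single (V.act σ x) 1)).support ⊆ z.support.erase x := by
            intro y hy
            rw [Finsupp.mem_support_iff, happ] at hy
            rw [Finset.mem_erase, Finsupp.mem_support_iff]
            rcases eq_or_ne y x with rfl | h6
            · rw [if_pos rfl, if_neg hfix] at hy
              exact absurd (by ring) hy
            · refine ⟨h6, fun h7 => hy ?_⟩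
              rw [if_neg h6.symm, h7]
              by_cases h8 : V.act σ x = y
              · rw [← h8, hval] at h7
                rw [h7]
                ring
              · rw [if_neg h8]
                ring
          have h6 := Finset.card_le_card h5
          rw [Finset.card_erase_of_mem hx] at h6
          omega
        · change Finsupp.mapDomain.addMonoidHom (V.act σ) (z - z x • (Finsupp.single x (1 : ℤ) +
            Finsupp.single (V.act σ x) 1)) = _
          rw [map_sub, map_zsmul, map_add, Finsupp.mapDomain.addMonoidHom_apply,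
            Finsupp.mapDomain.addMonoidHom_apply, Finsupp.mapDomain.addMonoidHom_apply,
            hinv, Finsupp.mapDomain_single, Finsupp.mapDomain_single, hss, add_comm]
      have h5 : z = (z - z x • (Finsupp.single x (1 : ℤ) + Finsupp.single (V.act σ x) 1)) +
          z x • (Finsupp.single x (1 : ℤ) + Finsupp.single (V.act σ x) 1) := by
        rw [sub_add_cancel]
      rw [h5]
      exact add_mem h4 (zsmul_mem (h2 x) _)

/-- Changing coordinates where all points are twice a point. -/
private theorem reN_chg [Finite (AlgebraicClosure K ≃ₐ[K] AlgebraicClosure K)]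
    (h2 : Nat.card (AlgebraicClosure K ≃ₐ[K] AlgebraicClosure K) = 2) (e : K ≃+* ℝ)
    (s : Finset (Fin n)) (hs : ∀ i ∈ s, e (algebraMap F K (W i).Δ) < 0) :
    ∀ x x' : (Xn W).pt (AlgebraicClosure K),
      (∀ γ : AlgebraicClosure K ≃ₐ[K] AlgebraicClosure K, (Xn W).act γ x = x) →
      (∀ γ : AlgebraicClosure K ≃ₐ[K] AlgebraicClosure K, (Xn W).act γ x' = x') →
      (∀ j, j ∉ s → cx x' j = cx x j) →
      (Finsupp.single x' 1 - Finsupp.single x 1 : (Xn W).pt (AlgebraicClosure K) →₀ ℤ) ∈
        (Xn W).ratEq K (AlgebraicClosure K) ⊔ (Xn W).nrm K (AlgebraicClosure K) := by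
  induction s using Finset.induction_on with
  | empty =>
    intro x x' _ _ hj
    have h1 : x' = x := funext fun j => hj j (Finset.notMem_empty j)
    rw [h1, sub_self]
    exact zero_mem _
  | insert i s hi ih =>
    intro x x' hx hx' hj
    obtain ⟨y, hy⟩ : ∃ y : (Xn W).pt (AlgebraicClosure K),
        y = (Function.update (fun j => cx x' j) i (cx x i) :
          ∀ j, Pt (W j) (AlgebraicClosure K)) := ⟨_, rfl⟩
    have y1 : cx y i = cx x i := by
      rw [hy]
      exact Function.update_self _ _ _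
    have y2 : ∀ j ≠ i, cx y j = cx x' j := fun j h => by
      rw [hy]
      exact Function.update_of_ne h _ _
    have y3 : ∀ γ : AlgebraicClosure K ≃ₐ[K] AlgebraicClosure K, (Xn W).act γ y = y :=
      fun γ => funext fun j => by
        change γ • cx y j = cx y j
        rcases eq_or_ne j i with rfl | h
        · rw [y1]
          exact congrFun (hx γ) j
        · rw [y2 j h]
          exact congrFun (hx' γ) j
    have h3 := ih (fun j hj => hs j (Finset.mem_insert_of_mem hj)) x y hx y3 fun j hjs => by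
      rcases eq_or_ne j i with rfl | h
      · exact y1
      · rw [y2 j h]
        exact hj j fun h4 => by
          rcases Finset.mem_insert.1 h4 with h5 | h5
          · exact h h5
          · exact hjs h5
    obtain ⟨c, hc, hc2⟩ := re_half (K := K) e (W i) (hs i (Finset.mem_insert_self _ _))
      (cx x' i - cx y i) fun γ => by
        rw [smul_sub]
        exact congrArg₂ _ (congrFun (hx' γ) i) (congrFun (y3 γ) i)
    have h4 := re_mv h2 i (x := y) (x' := x') (c := c) (fun γ _ => y3 γ) (fun γ _ => hc γ)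
      (by rw [hc2]; abel) (fun j h => (y2 j h).symm)
    have h5 := add_mem h4 h3
    rwa [sub_add_sub_cancel] at h5

/-- **The real places.** Proof: `z` is modulo norms a sum of points over `K` (see `dv_re`, `Pe/Glo.lean`); if `Δ(W i) < 0` every point of
`W i` over `K` is twice a point over `K` (`re_half`, `Pe/Re.lean`), so its coordinate `i` can be changed to `0` (`re_mv`). If all `Δ`
are negative `z` is equivalent to `deg z [0] = 0`, otherwise to the image of the push-forward to the remaining factor `i₀` under the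
section (`sc`, `Mo.sup`), which is in `ratEq + nrm` by `hz`. -/
theorem re_n (e : K ≃+* ℝ) (h : ∀ i j, i ≠ j → e (algebraMap F K (W i).Δ) < 0 ∨
      e (algebraMap F K (W j).Δ) < 0) (z : Zc (Xn W) K)
    (hz : ∀ i, (psh (V := fun i => Ev (W i)) i z).clN = 0) : z.clN = 0 := by
  obtain ⟨hfr, σ, hσ, hσ'⟩ := real_gal (Ω := AlgebraicClosure K) e
  have hfd : FiniteDimensional K (AlgebraicClosure K) :=
    Module.finite_of_finrank_pos (by rw [hfr]; exact two_pos)
  have h2 : Nat.card (AlgebraicClosure K ≃ₐ[K] AlgebraicClosure K) = 2 := by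
    rw [IsGalois.card_aut_eq_finrank, hfr]
  have hfin : Finite (AlgebraicClosure K ≃ₐ[K] AlgebraicClosure K) := inferInstance
  have hnm : ∀ x : (Xn W).pt (AlgebraicClosure K),
      (Finsupp.single x 1 + Finsupp.single ((Xn W).act σ x) 1 :
        (Xn W).pt (AlgebraicClosure K) →₀ ℤ) ∈ (Xn W).nrm K (AlgebraicClosure K) := by
    classical
    intro x
    refine AddSubgroup.subset_closure ⟨x, ?_⟩
    have := Fintype.ofFinite (AlgebraicClosure K ≃ₐ[K] AlgebraicClosure K)
    have h3 : (Finset.univ : Finset (AlgebraicClosure K ≃ₐ[K] AlgebraicClosure K)) = {1, σ} := by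
      ext γ
      simpa using hσ' γ
    rw [finsum_eq_sum_of_fintype, h3, Finset.sum_pair (Ne.symm hσ), act_one Hf.out]
  have hzinv : Finsupp.mapDomain ((Xn W).act σ) z.cy = z.cy := z.2.1 σ
  have hzdeg : (Xn W).deg (AlgebraicClosure K) z.cy = 0 := z.2.2
  rw [Zc.clN_zero]
  change z.cy - 0 ∈ _
  rw [sub_zero]
  by_cases hall : ∀ i, e (algebraMap F K (W i).Δ) < 0
  · -- all points over `K` are equivalent
    obtain ⟨o, ho⟩ : ∃ o : (Xn W).pt (AlgebraicClosure K),
        o = fun i => (0 : Pt (W i) (AlgebraicClosure K)) := ⟨_, rfl⟩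
    have ho' : ∀ γ : AlgebraicClosure K ≃ₐ[K] AlgebraicClosure K, (Xn W).act γ o = o := by
      intro γ
      rw [ho]
      exact funext fun i => (smul_zero γ : γ • (0 : Pt (W i) (AlgebraicClosure K)) = 0)
    obtain ⟨T, hT⟩ : ∃ T : ((Xn W).pt (AlgebraicClosure K) →₀ ℤ) →+
        ((Xn W).pt (AlgebraicClosure K) →₀ ℤ),
        T = AddMonoidHom.id _ - (Finsupp.singleAddHom o).comp ((Xn W).deg (AlgebraicClosure K)) :=
      ⟨_, rfl⟩
    have hT1 : ∀ u, T u = u - Finsupp.single o ((Xn W).deg (AlgebraicClosure K) u) := fun u => by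
      rw [hT]
      rfl
    have hdeg : ∀ (x : (Xn W).pt (AlgebraicClosure K)) (k : ℤ),
        (Xn W).deg (AlgebraicClosure K) (Finsupp.single x k) = k := fun x k => by
      rw [Vr.deg, Finsupp.liftAddHom_apply_single]
      rfl
    have key := reN_inv (V := Xn W) hσ hσ'
      (((Xn W).ratEq K (AlgebraicClosure K) ⊔ (Xn W).nrm K (AlgebraicClosure K)).comap T)
      (fun x hx => by
        rw [AddSubgroup.mem_comap, hT1, hdeg]
        exact reN_chg h2 e Finset.univ (fun i _ => hall i) o x ho' hx
          fun j hj => absurd (Finset.mem_univ j) hj)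
      (fun x => by
        rw [AddSubgroup.mem_comap, hT1, map_add, hdeg, hdeg]
        exact sub_mem (AddSubgroup.mem_sup_right (hnm x))
          (AddSubgroup.mem_sup_right (reN_two (V := Xn W) h2 ho')))
      _ z.cy le_rfl hzinv
    rw [AddSubgroup.mem_comap, hT1, hzdeg, Finsupp.single_zero, sub_zero] at key
    exact key
  · push Not at hall
    obtain ⟨i₀, hi₀⟩ := hall
    have hneg : ∀ j ≠ i₀, e (algebraMap F K (W j).Δ) < 0 := fun j hj => by
      rcases h j i₀ hj with h3 | h3
      · exact h3
      · exact absurd h3 (not_lt.2 hi₀)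
    obtain ⟨φ, hφ⟩ : ∃ φ : Mo (Xn W) (Xn W), φ = (sc (V := fun i => Ev (W i))
        (fun i => bpE (W i)) i₀).comp (pr (V := fun i => Ev (W i)) i₀) := ⟨_, rfl⟩
    have φ1 : ∀ x : (Xn W).pt (AlgebraicClosure K), cx (φ.f _ x) i₀ = cx x i₀ := fun x => by
      rw [hφ]
      have hu : ∀ inst : DecidableEq (Fin n), @Function.update (Fin n)
          (fun j => Pt (W j) (AlgebraicClosure K)) inst
          (fun j => (bpE (W j)).o (AlgebraicClosure K)) i₀ (cx x i₀) i₀ = cx x i₀ :=
        fun inst => Function.update_self _ _ _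
      exact hu fun a b => Classical.propDecidable (a = b)
    obtain ⟨T, hT⟩ : ∃ T : ((Xn W).pt (AlgebraicClosure K) →₀ ℤ) →+
        ((Xn W).pt (AlgebraicClosure K) →₀ ℤ),
        T = AddMonoidHom.id _ - Finsupp.mapDomain.addMonoidHom (φ.f (AlgebraicClosure K)) :=
      ⟨_, rfl⟩
    have hT1 : ∀ u, T u = u - Finsupp.mapDomain (φ.f (AlgebraicClosure K)) u := fun u => by
      rw [hT]
      rfl
    have key := reN_inv (V := Xn W) hσ hσ'
      (((Xn W).ratEq K (AlgebraicClosure K) ⊔ (Xn W).nrm K (AlgebraicClosure K)).comap T)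
      (fun x hx => by
        rw [AddSubgroup.mem_comap, hT1, Finsupp.mapDomain_single]
        refine reN_chg h2 e (Finset.univ.erase i₀)
          (fun i hi => hneg i (Finset.ne_of_mem_erase hi)) _ x (fun γ => ?_) hx fun j hj => ?_
        · rw [φ.act, hx]
        · have h3 : j = i₀ := by
            by_contra h4
            exact hj (Finset.mem_erase.2 ⟨h4, Finset.mem_univ j⟩)
          rw [h3]
          exact (φ1 x).symm)
      (fun x => by
        rw [AddSubgroup.mem_comap, hT1]
        exact AddSubgroup.mem_sup_right (sub_mem (hnm x) (φ.nrm (hnm x))))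
      _ z.cy le_rfl hzinv
    rw [AddSubgroup.mem_comap, hT1] at key
    have h3 := Zc.clN_zero.1 (hz i₀)
    have h4 : Finsupp.mapDomain ((pr (V := fun i => Ev (W i)) i₀).f (AlgebraicClosure K)) z.cy ∈
        (Ev (W i₀)).ratEq K (AlgebraicClosure K) ⊔ (Ev (W i₀)).nrm K (AlgebraicClosure K) := by
      have h5 : (psh (V := fun i => Ev (W i)) i₀ z).cy - 0 ∈
        (Ev (W i₀)).ratEq K (AlgebraicClosure K) ⊔ (Ev (W i₀)).nrm K (AlgebraicClosure K) := h3
      rw [sub_zero] at h5
      exact h5
    have h5 := (sc (V := fun i => Ev (W i)) (fun i => bpE (W i)) i₀).sup h4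
    rw [← Finsupp.mapDomain_comp] at h5
    have h6 : Finsupp.mapDomain (φ.f (AlgebraicClosure K)) z.cy ∈
        (Xn W).ratEq K (AlgebraicClosure K) ⊔ (Xn W).nrm K (AlgebraicClosure K) := by
      rw [hφ]
      exact h5
    have h7 := add_mem key h6
    rwa [sub_add_cancel] at h7

end NE
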