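import Pool.Agent.Lib.MP_f80667_ag.Nf.Gen
import Pool.Agent.Lib.MP_f80667_ag.Nf.Re
import Pool.Agent.Lib.MP_f80667_ag.Cv.Dv
import Pool.Agent.Lib.MP_f80667_ag.Pe.GloC

/-!
The adelic theorem for products of elliptic curves over `ℚ`.
-/

open ZC BE PE Polynomial IntermediateField IsDedekindDomain NumberField CV

namespace NE

section gen

variable {F : Type} [Field F] [NumberField F] {ι : Type} {V : ι → Vr F}

section dz

variable {W : Vr F} {K : Type} [Field K] [Algebra F K]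

omit [NumberField F] in
private theorem nad_cl : (Zc.clN (V := W) (K := K) (0 : Dz W K)) = 0 :=
  map_zero (Gb.clsH W K)

omit [NumberField F] in
private theorem nad_psh {V : ι → Vr F} (i : ι) :
    (Zc.clN (psh (K := K) i (0 : Dz (Vpi V) K))) = 0 :=
  map_zero ((Gb.clsH (V i) K).comp ((pr i).dz K))

end dz

/-- Families, all `n`. Proof: as `fam_bdA` (`Cv/GlbC.lean`) with `N = 1`: at the infinite places the class is `0`. -/
theorem fam_all (h : ∀ (v : HeightOneSpectrum (𝓞 F)) (m : ℕ), m ≠ 0 → DvP (FK F v) V m)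
    (hi : ∀ (v : InfinitePlace F) (z : Zc (Vpi V) (IK F v)), (∀ i, (psh i z).clN = 0) → z.clN = 0)
    (n : ℕ) (hn : n ≠ 0) (c : Fam (Vpi V)) (hc : AlbPA c) :
    ∃ c' : Fam (Vpi V), AlbPA c' ∧ c.cl = n • c'.cl := by
  have h1 : ∀ v, AlbP (c.f v) := fun v i => congrFun (congrArg Prod.fst (hc i)) v
  have h2 : ∀ (v : InfinitePlace F) (i : ι), (psh i (c.i v)).clN = 0 :=
    fun v i => congrFun (congrArg Prod.snd (hc i)) v
  choose g hg using fun v => h v n hn (c.f v) (h1 v)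
  refine ⟨(g, fun v => (0 : Dz (Vpi V) (IK F v))),
    fun i => Prod.ext (funext fun v => (hg v).1 i) (funext fun v => nad_psh i),
    Prod.ext (funext fun v => (hg v).2) (funext fun v => ?_)⟩
  change (c.i v).clN = n • Zc.clN (V := Vpi V) (K := IK F v) (0 : Dz (Vpi V) (IK F v))
  rw [hi v (c.i v) (h2 v), nad_cl, smul_zero]

/-- **The completed statement.** Proof: `imDeS_iff` (`Cv/Hat.lean`) for `Λ = Set.univ`. -/
theorem hat_all [Fintype ι] (o : ∀ i, Bp (V i))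
    (h : ∀ (v : HeightOneSpectrum (𝓞 F)) (m : ℕ), m ≠ 0 → DvP (FK F v) V m)
    (hi : ∀ (v : InfinitePlace F) (z : Zc (Vpi V) (IK F v)), (∀ i, (psh i z).clN = 0) → z.clN = 0)
    {z : LHat (FA (Vpi V))} {z' : ∀ i, LHat (FA (V i))} (hz : ∀ i, IsPs i z (z' i)) :
    ImDe z ↔ ∀ i, ImDe (z' i) := by
  have hS : ∀ m : ℕ, Sf Set.univ m := fun m l _ _ => Set.mem_univ l
  have e1 : ∀ {U : Vr F} (x : LHat (FA U)), ImDe x ↔ ImDeS Set.univ x := by
    intro U x
    constructor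
    · rintro ⟨y, hy⟩
      exact ⟨y, fun m _ => hy m⟩
    · rintro ⟨y, hy⟩
      exact ⟨y, fun m => hy m (hS _)⟩
  rw [e1, forall_congr' fun i => e1 (z' i)]
  refine imDeS_iff o (fun n hn _ c hc => ?_) hz
  obtain ⟨c', -, hc'⟩ := fam_all h hi n hn c hc
  exact ⟨c', hc'⟩

variable (V) in
/-- The condition at the finite places. -/
def CFn : Prop := ∀ (v : HeightOneSpectrum (𝓞 F)) (m : ℕ), m ≠ 0 → DvP (FK F v) V m

variable (V) in
/-- The condition at the infinite places. -/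
def CIn : Prop := ∀ (v : InfinitePlace F) (z : Zc (Vpi V) (IK F v)), (∀ i, (psh i z).clN = 0) → z.clN = 0

end gen

section nf

variable {F : Type} [Field F] [NumberField F] {n : ℕ}

/-- The condition at `v`. -/
structure Lvn (W : Fin n → WeierstrassCurve F) (v : HeightOneSpectrum (𝓞 F)) : Prop where
  unr : ∃ p : ℕ, p.Prime ∧ v.valuation F (p : F) = WithZero.exp (-1 : ℤ)
  int : ∀ i, v.valuation F (W i).a₁ ≤ 1 ∧ v.valuation F (W i).a₂ ≤ 1 ∧ v.valuation F (W i).a₃ ≤ 1 ∧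
    v.valuation F (W i).a₄ ≤ 1 ∧ v.valuation F (W i).a₆ ≤ 1
  disc : ∀ i, WithZero.exp (-1 : ℤ) ≤ v.valuation F (W i).Δ
  gd : ∀ i j, i ≠ j → v.valuation F (W i).Δ = 1 ∨ v.valuation F (W j).Δ = 1
  ss : v.valuation F (2 : F) < 1 → ∀ i j, i ≠ j →
    v.valuation F (W i).Δ = 1 ∧ v.valuation F (W i).a₁ < 1 ∨
      v.valuation F (W j).Δ = 1 ∧ v.valuation F (W j).a₁ < 1

/-- Values in `ℤᵐ⁰`. -/
private theorem nad_val {v : HeightOneSpectrum (𝓞 F)} {x : F} (hx : x ≠ 0) :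
    ∃ n : ℤ, v.valuation F x = WithZero.exp (-n) := by
  have h1 : v.valuation F x ≠ 0 := (Valuation.ne_zero_iff _).2 hx
  refine ⟨-(WithZero.log (v.valuation F x)), ?_⟩
  rw [neg_neg, WithZero.exp_log h1]

/-- The finite places. Proof: as `dv_fin` (`Pe/Glo.lean`): `exists_ld`, `Lh`, `loc_E`, `dvP_iff` (`Cv/Dv.lean`). -/
theorem cfn_of {W : Fin n → WeierstrassCurve F} (h : ∀ v : HeightOneSpectrum (𝓞 F), Lvn W v) :
    CFn fun i => Ev (W i) := by
  intro v m hm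
  obtain ⟨p, hp, hpv⟩ := (h v).unr
  obtain ⟨L, hLu, hLp, hL⟩ := exists_ld F v p hp hpv
  have hc : CharZero (FK F v) := charZero_of_injective_algebraMap (algebraMap F (FK F v)).injective
  have hp0 := L.p_pos
  have hp1 := L.lt
  have hle : ∀ x : F, v.valuation F x ≤ 1 → L.nm (algebraMap F _ x) ≤ 1 := by
    intro x hx
    by_cases h0 : x = 0
    · rw [h0, map_zero, L.zero]
      exact zero_le_one
    · obtain ⟨n, hn⟩ := nad_val (v := v) h0
      rw [hL x n hn]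
      have h1 : 0 ≤ n := by
        rw [hn, ← WithZero.exp_zero, WithZero.exp_le_exp] at hx
        omega
      obtain ⟨m, rfl⟩ := Int.eq_ofNat_of_zero_le h1
      rw [zpow_natCast]
      exact pow_le_one₀ hp0.le hp1.le
  have hlt : ∀ x : F, v.valuation F x < 1 → L.nm (algebraMap F _ x) < 1 := by
    intro x hx
    by_cases h0 : x = 0
    · rw [h0, map_zero, L.zero]
      exact zero_lt_one
    · obtain ⟨n, hn⟩ := nad_val (v := v) h0
      rw [hL x n hn]
      have h1 : 0 < n := by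
        rw [hn, ← WithZero.exp_zero, WithZero.exp_lt_exp] at hx
        omega
      obtain ⟨m, rfl⟩ := Int.eq_ofNat_of_zero_le h1.le
      rw [zpow_natCast]
      exact pow_lt_one₀ hp0.le hp1 (by omega)
  have hd : ∀ i, (W i).Δ ≠ 0 := by
    intro i h0
    have h1 := (h v).disc i
    rw [h0, map_zero, le_zero_iff] at h1
    exact WithZero.exp_ne_zero h1
  have he : ∀ i, (W i).IsElliptic := fun i => ⟨isUnit_iff_ne_zero.2 (hd i)⟩
  have hit : ∀ i, L.It (W i) := fun i =>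
    { a₁ := hle _ ((h v).int i).1
      a₂ := hle _ ((h v).int i).2.1
      a₃ := hle _ ((h v).int i).2.2.1
      a₄ := hle _ ((h v).int i).2.2.2.1
      a₆ := hle _ ((h v).int i).2.2.2.2 }
  have hgd : ∀ i, v.valuation F (W i).Δ = 1 → L.Gd (W i) := fun i hi =>
    { toIt := hit i
      disc := by
        have h1 : v.valuation F (W i).Δ = WithZero.exp (-0 : ℤ) := by
          rw [hi, neg_zero, WithZero.exp_zero]
        rw [hL _ 0 h1, zpow_zero] }
  have hlh : Lh L W :=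
    { hd := fun i =>
        { toIt := hit i
          disc := by
            obtain ⟨n, hn⟩ := nad_val (v := v) (hd i)
            have h1 := (h v).disc i
            rw [hn, WithZero.exp_le_exp] at h1
            rw [hL _ n hn]
            calc L.nm (L.p : AlgebraicClosure (FK F v)) =
                  L.nm (L.p : AlgebraicClosure (FK F v)) ^ (1 : ℤ) := (zpow_one _).symm
              _ ≤ _ := (zpow_le_zpow_iff_right_of_lt_one₀ hp0 hp1).2 (by omega) }
      gd := fun i j hij => ((h v).gd i j hij).imp (hgd i) (hgd j)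
      ss := by
        intro h2 i j hij
        have h3 : v.valuation F (2 : F) < 1 := by
          rw [← hLp, h2] at hpv
          rw [Nat.cast_ofNat] at hpv
          rw [hpv, ← WithZero.exp_zero, WithZero.exp_lt_exp]
          omega
        exact ((h v).ss h3 i j hij).imp (fun h4 => ⟨hgd i h4.1, hlt _ h4.2⟩)
          fun h4 => ⟨hgd j h4.1, hlt _ h4.2⟩ }
  exact (dvP_iff (V := fun i => Ev (W i)) (FK F v) m).2 (loc_E hlh hm)

/-- The infinite places. Proof: as `ci_of` (`Pe/GloC.lean`): `re_n`. -/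
theorem cin_of {W : Fin n → WeierstrassCurve F} (hW : ∀ i, (W i).IsElliptic)
    (hr : ∀ v : InfinitePlace F, v.IsReal)
    (h : ∀ (φ : F →+* ℝ) (i j : Fin n), i ≠ j → φ (W i).Δ < 0 ∨ φ (W j).Δ < 0) :
    CIn fun i => Ev (W i) := by
  intro v z hz
  have hc : CharZero (IK F v) := charZero_of_injective_algebraMap (algebraMap F (IK F v)).injective
  obtain ⟨e⟩ : Nonempty (IK F v ≃+* ℝ) :=
    ⟨InfinitePlace.Completion.ringEquivRealOfIsReal (hr v)⟩
  exact re_n (W := W) e (fun i j hij => h ((e : IK F v →+* ℝ).comp (algebraMap F (IK F v))) i j hij)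
    z hz

end nf

variable {n : ℕ}

/-- **The condition.** -/
structure OkN (W : Fin n → WeierstrassCurve ℤ) : Prop where
  sf : Squarefree (∏ i, (W i).Δ)
  two : ∀ i j, i ≠ j → (Even (W i).a₁ ∧ Odd (W i).a₃) ∨ (Even (W j).a₁ ∧ Odd (W j).a₃)
  neg : ∀ i j, i ≠ j → (W i).Δ < 0 ∨ (W j).Δ < 0

theorem OkN.ne {W : Fin n → WeierstrassCurve ℤ} (h : OkN W) (i : Fin n) : (W i).Δ ≠ 0 :=
  Finset.prod_ne_zero_iff.1 h.sf.ne_zero i (Finset.mem_univ i)

private theorem nad_le (v : HeightOneSpectrum (𝓞 ℚ)) (n : ℤ) : v.valuation ℚ (n : ℚ) ≤ 1 := by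
  have h : (n : ℚ) = algebraMap (𝓞 ℚ) ℚ (n : 𝓞 ℚ) := (map_intCast _ n).symm
  rw [h]
  exact v.valuation_le_one _

private theorem nad_odd {A : WeierstrassCurve ℤ} (h1 : Even A.a₁) (h3 : Odd A.a₃) :
    ¬ (2 : ℤ) ∣ A.Δ := by
  obtain ⟨c, hc⟩ := h1
  obtain ⟨d, hd⟩ := h3
  intro h
  have h4 : A.Δ = -(A.b₂ ^ 2 * A.b₈) - 8 * A.b₄ ^ 3 - 27 * A.b₆ ^ 2 + 9 * A.b₂ * A.b₄ * A.b₆ := by
    rw [WeierstrassCurve.Δ]
    ring
  have h2 : A.b₂ = 2 * (2 * c ^ 2 + 2 * A.a₂) := by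
    rw [WeierstrassCurve.b₂, hc]
    ring
  have h6 : A.b₆ = 2 * (2 * d ^ 2 + 2 * d + 2 * A.a₆) + 1 := by
    rw [WeierstrassCurve.b₆, hd]
    ring
  obtain ⟨k, hk⟩ := h
  rw [h2, h6] at h4
  have h5 : (2 : ℤ) ∣ 1 := by
    refine ⟨-k - 2 * (2 * c ^ 2 + 2 * A.a₂) ^ 2 * A.b₈ - 4 * A.b₄ ^ 3 -
      (54 * (2 * d ^ 2 + 2 * d + 2 * A.a₆) ^ 2 + 54 * (2 * d ^ 2 + 2 * d + 2 * A.a₆) + 13) +
      9 * (2 * c ^ 2 + 2 * A.a₂) * A.b₄ * (2 * (2 * d ^ 2 + 2 * d + 2 * A.a₆) + 1), ?_⟩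
    linear_combination h4 - hk
  norm_num at h5

/-- The local condition. Proof: as `ok_lv` (`Pe/Glo.lean`): `p² ∤ ∏ Δ`; if `p = 2` a curve with `a₁` even and `a₃` odd has an odd
discriminant. -/
theorem okn_lv {W : Fin n → WeierstrassCurve ℤ} (h : OkN W) (v : HeightOneSpectrum (𝓞 ℚ)) :
    Lvn (fun i => toQ (W i)) v := by
  obtain ⟨p, hp, hp1, hpn⟩ := exists_p v
  have hpu : ¬ IsUnit (p : ℤ) := by
    intro h1
    rw [Int.isUnit_iff_natAbs_eq, Int.natAbs_natCast] at h1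
    exact hp.one_lt.ne' h1
  have hd2 : ∀ i j, i ≠ j → ¬ ((p : ℤ) ∣ (W i).Δ ∧ (p : ℤ) ∣ (W j).Δ) := by
    rintro i j hij ⟨h1, h2⟩
    refine hpu (h.sf _ ?_)
    rw [← Finset.mul_prod_erase _ _ (Finset.mem_univ i)]
    exact mul_dvd_mul h1 (h2.trans (Finset.dvd_prod_of_mem (fun k => (W k).Δ)
      (Finset.mem_erase.2 ⟨hij.symm, Finset.mem_univ j⟩)))
  have hgd : ∀ i j, i ≠ j → v.valuation ℚ (toQ (W i)).Δ = 1 ∨
      v.valuation ℚ (toQ (W j)).Δ = 1 := by
    intro i j hij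
    rw [disc_toQ, disc_toQ, hpn, hpn]
    exact not_and_or.1 (hd2 i j hij)
  refine ⟨⟨p, hp, hp1⟩, fun i => ⟨nad_le v (W i).a₁, nad_le v (W i).a₂, nad_le v (W i).a₃,
    nad_le v (W i).a₄, nad_le v (W i).a₆⟩, fun i => ?_, hgd, fun h2 i j hij => ?_⟩
  · change WithZero.exp (-1 : ℤ) ≤ v.valuation ℚ (toQ (W i)).Δ
    rw [disc_toQ]
    by_cases h1 : (p : ℤ) ∣ (W i).Δ
    · obtain ⟨k, hk⟩ := h1
      have h1 : ¬ (p : ℤ) ∣ k := by
        rintro ⟨m, rfl⟩
        refine hpu (h.sf _ ?_)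
        refine Dvd.dvd.trans ?_ (Finset.dvd_prod_of_mem (fun k => (W k).Δ) (Finset.mem_univ i))
        exact ⟨m, by rw [hk]; ring⟩
      rw [hk]
      push_cast
      rw [map_mul, hp1, (hpn k).2 h1, mul_one]
    · rw [(hpn _).2 h1, ← WithZero.exp_zero]
      exact WithZero.exp_le_exp.2 (by norm_num)
  · have h3 : p = 2 := by
      by_contra hne
      have h4 : ¬ (p : ℤ) ∣ 2 := by
        intro h5
        have h6 : p ∣ 2 := by exact_mod_cast h5
        exact hne ((Nat.prime_dvd_prime_iff_eq hp Nat.prime_two).1 h6)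
      have h5 := (hpn 2).2 h4
      have h6 : ((2 : ℤ) : ℚ) = 2 := by norm_num
      rw [h6] at h5
      exact absurd h5 h2.ne
    have key : ∀ k, Even (W k).a₁ ∧ Odd (W k).a₃ → v.valuation ℚ (toQ (W k)).Δ = 1 ∧
        v.valuation ℚ (toQ (W k)).a₁ < 1 := by
      intro k hk
      constructor
      · rw [disc_toQ, hpn, h3]
        exact nad_odd hk.1 hk.2
      · have h4 : (p : ℤ) ∣ (W k).a₁ := by
          rw [h3]
          exact hk.1.two_dvd
        have h5 : v.valuation ℚ (((W k).a₁ : ℤ) : ℚ) ≠ 1 := fun h6 => ((hpn _).1 h6) h4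
        exact lt_of_le_of_ne (nad_le v (W k).a₁) h5
    exact (h.two i j hij).imp (key i) (key j)

theorem cfn_ok {W : Fin n → WeierstrassCurve ℤ} (h : OkN W) : CFn fun i => Ev (toQ (W i)) :=
  cfn_of (okn_lv h)

/-- Proof: `cin_of`, `neg_toQ`, `ell_toQ` (`Pe/GloC.lean`). -/
theorem cin_ok {W : Fin n → WeierstrassCurve ℤ} (h : OkN W) : CIn fun i => Ev (toQ (W i)) :=
  cin_of (fun i => ell_toQ (h.ne i)) (fun v => by
    rw [Subsingleton.elim v Rat.infinitePlace]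
    exact Rat.isReal_infinitePlace) fun φ i j hij =>
      (h.neg i j hij).imp (fun h => neg_toQ h φ) fun h => neg_toQ h φ

/-- **The theorem.** -/
theorem main_n {W : Fin n → WeierstrassCurve ℤ} (h : OkN W) :
    (∀ m : ℕ, m ≠ 0 → ∀ c : Fam (Vpi fun i => Ev (toQ (W i))), AlbPA c →
      ∃ c' : Fam (Vpi fun i => Ev (toQ (W i))), AlbPA c' ∧ c.cl = m • c'.cl) ∧
    ∀ (z : LHat (FA (Vpi fun i => Ev (toQ (W i))))) (z' : ∀ i, LHat (FA (Ev (toQ (W i))))),
      (∀ i, IsPs i z (z' i)) → (ImDe z ↔ ∀ i, ImDe (z' i)) :=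
  ⟨fun m hm => fam_all (cfn_ok h) (cin_ok h) m hm,
    fun _ _ hz => hat_all (fun i => bpE (toQ (W i))) (cfn_ok h) (cin_ok h) hz⟩

end NE
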