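import Pool.Agent.Lib.MP_f80667_ag.Nf.Sna
import Pool.Agent.Lib.MP_f80667_ag.Pe.El

/-!
Symbols over unramified fields: one curve with `v(Δ) ≤ 1`, the others with good reduction, all prime numbers `l ≠ p`.
-/

open ZC BE PE Polynomial IntermediateField

namespace NE

variable {F : Type} [Field F] {K Ω : Type} [Field K] [CharZero K] [Field Ω] [Algebra K Ω]
  [Algebra F K] [Algebra F Ω] [IsScalarTower F K Ω] [IsAlgClosure K Ω]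
  {ι : Type} [DecidableEq ι] [Fintype ι] {W : ι → WeierstrassCurve F} [∀ i, (W i).IsElliptic]

/-- Proof: as `Ld.el` (`Pe/El.lean`) with several entries, as in `sn_one` (`Nf/Snc.lean`). `exists_rf`: `f`, `M' = Ur M f`, `Rf M' f`. `x i₂ = Nm Q'` (`nsg`), `z_nm`: the symbol over `M'`.
The entries `≠ i₁` are `Q₀ i + l c i` with `Q₀ i` over `Ur ⊥ f` (`lift_rf`, `fm_div`); `Sn.z_rep`. `z_nm` for `Ur ⊥ f ≤ M'` and the entry `i₁`: `P₁ = Nm (x i₁)` over `Ur ⊥ f`;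
`dv_ur`, `fm_div`: `P₁ = l P'` over `Ur ⊥ (f g)`; `Q₀ i₂ = Nm Q₂`, `Q₂` over `Ur ⊥ (f g)` (`nsg`, `ur_ur`). -/
theorem sn_hd (L : Ld K Ω) [L.Unr] {i₁ i₂ : ι} (h12 : i₂ ≠ i₁) (h₁ : L.Hd (W i₁))
    (h₂ : ∀ i, i ≠ i₁ → L.Gd (W i)) {l : ℕ} (hl : l.Prime) (hlp : l ≠ L.p) {G : Type}
    [AddCommGroup G] (S : Sn ι K Ω (fun i => Pt (W i) Ω) G) (M : IntermediateField K Ω)
    (x : ∀ i, Pt (W i) Ω) (hM : FiniteDimensional K M) (hx : ∀ i, Fx M (x i)) : S.Z l M x := by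
  have hpl : ¬ L.p ∣ l := fun hd => hlp ((Nat.prime_dvd_prime_iff_eq L.pp hl).1 hd).symm
  obtain ⟨f, hf, hrf⟩ := Ld.exists_rf (L := L) M
  have hRf : L.Rf (L.Ur M f) f := hrf f hf dvd_rfl
  have hfin : FiniteDimensional K (L.Ur M f) := Ld.ur_fin M f hf
  obtain ⟨Q', hQ', hQe⟩ := Ld.nsg (h₂ i₂ h12) M hf (hx i₂)
  have hxe : x = Function.update x i₂ (Nm M (L.Ur M f) Q') := by
    rw [hQe, Function.update_eq_self]
  rw [hxe, Sn.z_nm Ld.ur_le (fun j _ => hx j) hQ']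
  obtain ⟨y, hy⟩ : ∃ y : ∀ i, Pt (W i) Ω, y = Function.update x i₂ Q' := ⟨_, rfl⟩
  rw [← hy]
  have hyF : ∀ i, Fx (L.Ur M f) (y i) := by
    intro i
    by_cases hi : i = i₂
    · subst hi
      rw [hy, Function.update_self]
      exact hQ'
    · rw [hy, Function.update_of_ne hi]
      exact (hx i).mono Ld.ur_le
  have hex : ∀ i, ∃ q c : Pt (W i) Ω, (i ≠ i₁ → Fx (L.Ur ⊥ f) q) ∧ Fx (L.Ur M f) q ∧
      Fx (L.Ur M f) c ∧ y i = q + l • c := by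
    intro i
    by_cases hi : i = i₁
    · refine ⟨y i, 0, fun h => absurd hi h, hyF i, Fx.zero, ?_⟩
      rw [smul_zero, add_zero]
    · obtain ⟨Q₀, hQ₀, hc⟩ := Ld.lift_rf (h₂ i hi).toIt hRf (Ld.ns_good (h₂ i hi) (y i)) (hyF i)
      have hQ₀' : Fx (L.Ur M f) Q₀ := hQ₀.mono (Ld.ur_bot_ur M f)
      obtain ⟨c, -, hc', he⟩ := Ld.fm_div (h₂ i hi).toIt (L.Ur M f) hpl
        (Ld.cg_symm (h₂ i hi).toIt hc) ((hyF i).sub hQ₀')
      refine ⟨Q₀, c, fun _ => hQ₀, hQ₀', hc', ?_⟩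
      rw [he]
      abel
  choose q c hq1 hq2 hc hyq using hex
  have hyq' : y = fun i => q i + l • c i := funext hyq
  rw [hyq']
  refine Sn.z_rep hq2 hc ?_
  have hfinB : FiniteDimensional K (L.Ur ⊥ f) := Ld.ur_fin ⊥ f hf
  have hqe : q = Function.update q i₁ (q i₁) := (Function.update_eq_self i₁ q).symm
  rw [hqe, ← Sn.z_nm (Ld.ur_bot_ur M f) (fun j hj => hq1 j hj) (hq2 i₁)]
  have hP₁ : Fx (L.Ur ⊥ f) (Nm (L.Ur ⊥ f) (L.Ur M f) (q i₁)) := nm_fx (Ld.ur_bot_ur M f) (hq2 i₁)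
  obtain ⟨P₁, hP₁e⟩ : ∃ P₁, P₁ = Nm (L.Ur ⊥ f) (L.Ur M f) (q i₁) := ⟨_, rfl⟩
  rw [← hP₁e] at hP₁ ⊢
  obtain ⟨g, hg, hdv⟩ := Ld.dv_ur h₁ hf hl.ne_zero hP₁
  have hN' : f * g ≠ 0 := mul_ne_zero hf hg
  obtain ⟨P', P'', hP₂, hP₃, hfm, he₁⟩ := hdv (f * g) hN' (dvd_mul_left g f) (dvd_mul_right f g)
  have hfinC : FiniteDimensional K (L.Ur ⊥ (f * g)) := Ld.ur_fin ⊥ (f * g) hN'
  obtain ⟨c₁, -, hc₁, he₂⟩ := Ld.fm_div h₁.toIt (L.Ur ⊥ (f * g)) hpl hfm hP₃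
  obtain ⟨Q₂, hQ₂, he₃⟩ := Ld.nsg (h₂ i₂ h12) (L.Ur ⊥ f) hN' (hq1 i₂ h12)
  rw [Ld.ur_ur ⊥ (dvd_mul_right f g)] at hQ₂ he₃
  have hle : L.Ur ⊥ f ≤ L.Ur ⊥ (f * g) := Ld.ur_dvd ⊥ (dvd_mul_right f g)
  obtain ⟨r, hr⟩ : ∃ r : ∀ i, Pt (W i) Ω, r = Function.update q i₁ P₁ := ⟨_, rfl⟩
  have hr2 : r i₂ = q i₂ := by
    rw [hr, Function.update_of_ne h12]
  have hrF : ∀ j, Fx (L.Ur ⊥ f) (r j) := by
    intro j
    by_cases hj : j = i₁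
    · subst hj
      rw [hr, Function.update_self]
      exact hP₁
    · rw [hr, Function.update_of_ne hj]
      exact hq1 j hj
  have hre : r = Function.update r i₂ (Nm (L.Ur ⊥ f) (L.Ur ⊥ (f * g)) Q₂) := by
    rw [he₃, ← hr2, Function.update_eq_self]
  rw [← hr, hre, Sn.z_nm hle (fun j _ => hrF j) hQ₂]
  have hfx : ∀ j, j ≠ i₁ → Fx (L.Ur ⊥ (f * g)) (Function.update q i₂ Q₂ j) := by
    intro j hj
    by_cases hj2 : j = i₂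
    · subst hj2
      rw [Function.update_self]
      exact hQ₂
    · rw [Function.update_of_ne hj2]
      exact (hq1 j hj).mono hle
  have hcomm : Function.update r i₂ Q₂ = Function.update (Function.update q i₂ Q₂) i₁
      (l • (P' + c₁)) := by
    rw [hr, Function.update_comm h12.symm, he₁, ← he₂, ← nsmul_add]
  rw [hcomm]
  exact Sn.z_mul hfx (hP₂.add hc₁)

end NE
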