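import Pool.Agent.Lib.MP_f80667_ag.Nf.SngB
import Pool.Agent.Lib.MP_f80667_ag.Nf.Snh
import Pool.Agent.Lib.MP_f80667_ag.Nf.Ad

/-!
Products of elliptic curves: odd numbers, no condition at the places above two.
-/

open ZC BE PE Polynomial IntermediateField IsDedekindDomain NumberField CV

namespace NE

section loc

variable {F : Type} [Field F] {n : ℕ} {W : Fin n → WeierstrassCurve F} [∀ i, (W i).IsElliptic]
  {K Ω : Type} [Field K] [Field Ω] [Algebra K Ω] [Algebra F K] [Algebra F Ω]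
  [IsScalarTower F K Ω] [CharZero K] [IsAlgClosure K Ω]

/-- Proof: `dvG_sn` (`Nf/SngB.lean`); all curves with index in `S` except one (`i₁`) are good; `sn_hd`. -/
theorem loc_hd (L : Ld K Ω) [L.Unr] (hd : ∀ i, L.Hd (W i))
    (gd : ∀ i j, i ≠ j → L.Gd (W i) ∨ L.Gd (W j)) {l : ℕ} (hl : l.Prime) (hlp : l ≠ L.p) :
    DvG (fun i => Ev (W i)) K Ω l := by
  refine dvG_sn fun S hS Y M x hM hx => ?_
  obtain ⟨i₁, hg⟩ : ∃ i₁ : {i // i ∈ S}, ∀ i : {i // i ∈ S}, i ≠ i₁ → L.Gd (W i) := by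
    by_cases hall : ∃ i₁ : {i // i ∈ S}, ¬ L.Gd (W i₁)
    · obtain ⟨i₁, h1⟩ := hall
      refine ⟨i₁, fun i hi => ?_⟩
      exact (gd i i₁ (fun h => hi (Subtype.ext h))).resolve_right h1
    · push Not at hall
      obtain ⟨i, hi⟩ := Finset.card_pos.1 (by omega : 0 < S.card)
      exact ⟨⟨i, hi⟩, fun j _ => hall j⟩
  obtain ⟨j, hj, hne⟩ := Finset.exists_mem_ne (by omega : 1 < S.card) (i₁ : Fin n)
  exact sn_hd L (i₁ := i₁) (i₂ := ⟨j, hj⟩) (fun h => hne (congrArg Subtype.val h)) (hd i₁) hg hl hlp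
    Y M x hM hx

end loc

section nf

variable {F : Type} [Field F] [NumberField F] {n : ℕ}

/-- The condition at `v` without the condition at two. -/
structure Lon (W : Fin n → WeierstrassCurve F) (v : HeightOneSpectrum (𝓞 F)) : Prop where
  unr : ∃ p : ℕ, p.Prime ∧ v.valuation F (p : F) = WithZero.exp (-1 : ℤ)
  int : ∀ i, v.valuation F (W i).a₁ ≤ 1 ∧ v.valuation F (W i).a₂ ≤ 1 ∧ v.valuation F (W i).a₃ ≤ 1 ∧
    v.valuation F (W i).a₄ ≤ 1 ∧ v.valuation F (W i).a₆ ≤ 1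
  disc : ∀ i, WithZero.exp (-1 : ℤ) ≤ v.valuation F (W i).Δ
  gd : ∀ i j, i ≠ j → v.valuation F (W i).Δ = 1 ∨ v.valuation F (W j).Δ = 1

private theorem odn_val {v : HeightOneSpectrum (𝓞 F)} {x : F} (h : x ≠ 0) :
    ∃ n : ℤ, v.valuation F x = WithZero.exp (-n) := by
  have h1 : v.valuation F x ≠ 0 := (Valuation.ne_zero_iff _).2 h
  refine ⟨-WithZero.log (v.valuation F x), ?_⟩
  rw [neg_neg, WithZero.exp_log h1]

/-- The finite places, odd prime numbers. Proof: as `cfn_of` (`Nf/Ad.lean`) and `dv_finO` (`Kf/Oz.lean`): `exists_ld`: `L`, `L.p = p`. If `l ≠ p`: `loc_hd`. If `l = p` then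
`p ≠ 2`, `Lh` (the condition `ss` is empty), `loc_E` (`Nf/Gen.lean`). `dvP_iff` (`Cv/Dv.lean`). -/
theorem dv_odd {W : Fin n → WeierstrassCurve F} {v : HeightOneSpectrum (𝓞 F)} (h : Lon W v)
    {l : ℕ} (hl : l.Prime) (h2 : l ≠ 2) : DvP (FK F v) (fun i => Ev (W i)) l := by
  obtain ⟨p, hp, hpv⟩ := h.unr
  obtain ⟨L, hLu, hLp, hL⟩ := exists_ld F v p hp hpv
  have hc : CharZero (FK F v) := charZero_of_injective_algebraMap (algebraMap F (FK F v)).injective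
  have hp0 := L.p_pos
  have hp1 := L.lt
  have hle : ∀ x : F, v.valuation F x ≤ 1 → L.nm (algebraMap F _ x) ≤ 1 := by
    intro x hx
    by_cases h0 : x = 0
    · rw [h0, map_zero, L.zero]
      exact zero_le_one
    · obtain ⟨n, hn⟩ := odn_val (v := v) h0
      rw [hL x n hn]
      have h1 : 0 ≤ n := by
        rw [hn, ← WithZero.exp_zero, WithZero.exp_le_exp] at hx
        omega
      obtain ⟨m, rfl⟩ := Int.eq_ofNat_of_zero_le h1
      rw [zpow_natCast]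
      exact pow_le_one₀ hp0.le hp1.le
  have hd0 : ∀ i, (W i).Δ ≠ 0 := by
    intro i h0
    have h1 := h.disc i
    rw [h0, map_zero, le_zero_iff] at h1
    exact WithZero.exp_ne_zero h1
  have he : ∀ i, (W i).IsElliptic := fun i => ⟨isUnit_iff_ne_zero.2 (hd0 i)⟩
  have hd : ∀ i, L.Hd (W i) := fun i =>
    { a₁ := hle _ (h.int i).1
      a₂ := hle _ (h.int i).2.1
      a₃ := hle _ (h.int i).2.2.1
      a₄ := hle _ (h.int i).2.2.2.1
      a₆ := hle _ (h.int i).2.2.2.2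
      disc := by
        obtain ⟨n, hn⟩ := odn_val (v := v) (hd0 i)
        have h1 := h.disc i
        rw [hn, WithZero.exp_le_exp] at h1
        rw [hL _ n hn]
        calc L.nm (L.p : AlgebraicClosure (FK F v)) = L.nm (L.p : AlgebraicClosure (FK F v)) ^ (1 : ℤ) :=
              (zpow_one _).symm
          _ ≤ _ := (zpow_le_zpow_iff_right_of_lt_one₀ hp0 hp1).2 (by omega) }
  have hg1 : ∀ i, v.valuation F (W i).Δ = 1 → L.Gd (W i) := fun i hi =>
    { a₁ := hle _ (h.int i).1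
      a₂ := hle _ (h.int i).2.1
      a₃ := hle _ (h.int i).2.2.1
      a₄ := hle _ (h.int i).2.2.2.1
      a₆ := hle _ (h.int i).2.2.2.2
      disc := by
        have h1 : v.valuation F (W i).Δ = WithZero.exp (-0 : ℤ) := by
          rw [hi, neg_zero, WithZero.exp_zero]
        rw [hL _ 0 h1, zpow_zero] }
  have gd : ∀ i j, i ≠ j → L.Gd (W i) ∨ L.Gd (W j) := fun i j hij =>
    (h.gd i j hij).imp (hg1 i) (hg1 j)
  rw [dvP_iff]
  by_cases hlp : l = L.p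
  · exact loc_E (L := L) ⟨hd, gd, fun h' => absurd (hlp.trans h') h2⟩ hl.ne_zero
  · exact loc_hd L hd gd hl hlp

/-- **The theorem for odd numbers.** Proof: `fam_dvP`, `imDeS_iff` (`Cv/Hat.lean`) with `bpE` (`Nf/Ee.lean`). -/
theorem main_on {W : Fin n → WeierstrassCurve F} (h : ∀ v : HeightOneSpectrum (𝓞 F), Lon W v) :
    (∀ m : ℕ, m ≠ 0 → Sf {l | l ≠ 2} m → ∀ c : Fam (Vpi fun i => Ev (W i)), AlbPA c →
      ∃ c' : Fam (Vpi fun i => Ev (W i)), AlbPA c' ∧ c.cl = m • c'.cl) ∧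
    ∀ (z : LHat (FA (Vpi fun i => Ev (W i)))) (z' : ∀ i, LHat (FA (Ev (W i)))),
      (∀ i, IsPs i z (z' i)) → (ImDeS {l | l ≠ 2} z ↔ ∀ i, ImDeS {l | l ≠ 2} (z' i)) := by
  have key : ∀ m : ℕ, m ≠ 0 → Sf {l | l ≠ 2} m → ∀ c : Fam (Vpi fun i => Ev (W i)), AlbPA c →
      ∃ c' : Fam (Vpi fun i => Ev (W i)), AlbPA c' ∧ c.cl = m • c'.cl := by
    intro m hm hS c hc
    exact fam_dvP (Λ := {l | l ≠ 2}) (fun h' => h' rfl) (fun l hl hp v => dv_odd (h v) hp hl) m hm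
      hS c hc
  refine ⟨key, fun z z' hz => imDeS_iff (fun i => bpE (W i)) (fun m hm hS c hc => ?_) hz⟩
  obtain ⟨c', -, hc'⟩ := key m hm hS c hc
  exact ⟨c', hc'⟩

end nf

private theorem odn_int (v : HeightOneSpectrum (𝓞 ℚ)) (n : ℤ) : v.valuation ℚ (n : ℚ) ≤ 1 := by
  have h : (n : ℚ) = algebraMap (𝓞 ℚ) ℚ (n : 𝓞 ℚ) := (map_intCast _ n).symm
  rw [h]
  exact v.valuation_le_one _

private theorem odn_sq {p : ℕ} (hp : p.Prime) {a : ℤ} (ha : Squarefree a) :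
    ¬ (p : ℤ) * p ∣ a := by
  intro h
  have h2 : IsUnit (p : ℤ) := ha _ h
  rw [Int.isUnit_iff_natAbs_eq, Int.natAbs_natCast] at h2
  exact hp.one_lt.ne' h2

/-- Proof: as `okn_lv` (`Nf/Ad.lean`) and `lo_z` (`Kf/Oz.lean`). -/
theorem sf_lon {n : ℕ} {W : Fin n → WeierstrassCurve ℤ} (h : Squarefree (∏ i, (W i).Δ))
    (v : HeightOneSpectrum (𝓞 ℚ)) : Lon (fun i => toQ (W i)) v := by
  obtain ⟨p, hp, hp1, hpn⟩ := exists_p v
  refine ⟨⟨p, hp, hp1⟩, fun i => ⟨odn_int v _, odn_int v _, odn_int v _, odn_int v _,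
    odn_int v _⟩, fun i => ?_, fun i j hij => ?_⟩
  · rw [disc_toQ]
    have hsf : Squarefree (W i).Δ :=
      h.squarefree_of_dvd (Finset.dvd_prod_of_mem (fun i => (W i).Δ) (Finset.mem_univ i))
    by_cases h1 : (p : ℤ) ∣ (W i).Δ
    · obtain ⟨k, hk⟩ := h1
      have h2 : ¬ (p : ℤ) ∣ k := by
        rintro ⟨m, rfl⟩
        exact odn_sq hp hsf ⟨m, by rw [hk]; ring⟩
      rw [hk]
      push_cast
      rw [map_mul, hp1, (hpn k).2 h2, mul_one]
    · rw [(hpn _).2 h1, ← WithZero.exp_zero]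
      exact WithZero.exp_le_exp.2 (by norm_num)
  · change v.valuation ℚ (toQ (W i)).Δ = 1 ∨ v.valuation ℚ (toQ (W j)).Δ = 1
    rw [disc_toQ, disc_toQ, hpn, hpn]
    by_contra hcon
    push Not at hcon
    refine odn_sq hp h ?_
    have h1 : (p : ℤ) ∣ ∏ k ∈ Finset.univ.erase i, (W k).Δ :=
      hcon.2.trans (Finset.dvd_prod_of_mem (fun i => (W i).Δ)
        (Finset.mem_erase.2 ⟨fun h' => hij h'.symm, Finset.mem_univ j⟩))
    rw [← Finset.mul_prod_erase Finset.univ (fun i => (W i).Δ) (Finset.mem_univ i)]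
    exact mul_dvd_mul hcon.1 h1

end NE
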