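import Pool.Agent.Lib.MP_f80667_ag.Nf.Thb

/-! Generic weights. -/

open Polynomial

namespace NE

variable {k : Type} [Field k] {n : ℕ}

/-- one family of coefficients -/
private theorem thd_one {d : Fin n → k} (h : ∃ i, d i ≠ 0) :
    ∃ s : Finset k, ∀ ω ∉ s, ∑ i : Fin n, ω ^ (i : ℕ) * d i ≠ 0 := by
  classical
  obtain ⟨i0, hi0⟩ := h
  obtain ⟨P, hP⟩ : ∃ P : k[X], P = ∑ i : Fin n, C (d i) * X ^ (i : ℕ) := ⟨_, rfl⟩
  have hc : P.coeff (i0 : ℕ) = d i0 := by
    rw [hP, finset_sum_coeff, Finset.sum_eq_single i0]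
    · rw [coeff_C_mul, coeff_X_pow, if_pos rfl, mul_one]
    · intro i _ hne
      rw [coeff_C_mul, coeff_X_pow, if_neg, mul_zero]
      intro h1
      exact hne (Fin.ext h1.symm)
    · intro h1
      exact absurd (Finset.mem_univ i0) h1
  have hP0 : P ≠ 0 := by
    intro h0
    rw [h0, coeff_zero] at hc
    exact hi0 hc.symm
  refine ⟨P.roots.toFinset, fun ω hω h0 => hω ?_⟩
  rw [Multiset.mem_toFinset, mem_roots hP0, IsRoot.def, hP, eval_finset_sum, ← h0]
  refine Finset.sum_congr rfl fun i _ => ?_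
  rw [eval_mul, eval_C, eval_pow, eval_X, mul_comm]

/-- finitely many families of coefficients -/
private theorem thd_all {ι : Type} [Fintype ι] (d : ι → Fin n → k) :
    ∃ s : Finset k, ∀ ω ∉ s, ∀ j, (∃ i, d j i ≠ 0) → ∑ i : Fin n, ω ^ (i : ℕ) * d j i ≠ 0 := by
  classical
  have h1 : ∀ j, ∃ s : Finset k, ∀ ω ∉ s, (∃ i, d j i ≠ 0) → ∑ i : Fin n, ω ^ (i : ℕ) * d j i ≠ 0 := by
    intro j
    by_cases h : ∃ i, d j i ≠ 0
    · obtain ⟨s, hs⟩ := thd_one h
      exact ⟨s, fun ω hω _ => hs ω hω⟩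
    · exact ⟨∅, fun ω _ h' => absurd h' h⟩
  choose s hs using h1
  refine ⟨Finset.univ.biUnion s, fun ω hω j hj => hs j ω (fun h2 => hω ?_) hj⟩
  exact Finset.mem_biUnion.2 ⟨j, Finset.mem_univ j, h2⟩

/-- The generic weights. Proof: the sums `∑ ω ^ i η_i` for the different families `η` are different if `ω` is not a root of the
polynomials `∑ (η_i - η'_i) X ^ i` (`Polynomial.roots` of finitely many nonzero polynomials), the families are `2 ^ n` because
`B_i² + 4 F_i ≠ 0`. -/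
theorem gen_sep [IsAlgClosed k] {B F : Fin n → k} (h : ∀ i, B i ^ 2 + 4 * F i ≠ 0) :
    ∃ s : Finset k, ∀ ω ∉ s, (th (fun i => ω ^ (i : ℕ)) B F).Separable := by
  classical
  have h1 : ∀ i, ∃ e : k, e ^ 2 + B i * e = F i := by
    intro i
    have hdeg : (X ^ 2 + C (B i) * X - C (F i) : k[X]).degree ≠ 0 := by
      have h2 : (X ^ 2 + C (B i) * X - C (F i) : k[X]).degree = 2 := by
        compute_degree!
      rw [h2]
      decide
    obtain ⟨e, he⟩ := IsAlgClosed.exists_root _ hdeg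
    refine ⟨e, ?_⟩
    have h3 : e ^ 2 + B i * e - F i = 0 := by
      simpa [IsRoot] using he
    linear_combination h3
  choose e he using h1
  obtain ⟨η, hη⟩ : ∃ η : Fin n → Bool → k, η = fun i b => if b = true then -B i - e i else e i :=
    ⟨_, rfl⟩
  have hf : ∀ i, η i false = e i := by
    intro i
    rw [hη]
    simp
  have ht : ∀ i, η i true = -B i - e i := by
    intro i
    rw [hη]
    simp
  have hd : ∀ i, η i false - η i true ≠ 0 := by
    intro i h0
    rw [hf, ht] at h0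
    refine h i ?_
    have h2 := he i
    linear_combination (2 * e i + B i) * h0 - 4 * h2
  have hne : ∀ (i : Fin n) (b b' : Bool), b ≠ b' → η i b - η i b' ≠ 0 := by
    intro i b b' hb h0
    cases b <;> cases b'
    · exact hb rfl
    · exact hd i h0
    · exact hd i (by linear_combination -h0)
    · exact hb rfl
  obtain ⟨s, hs⟩ := thd_all (fun (j : (Fin n → Bool) × (Fin n → Bool)) (i : Fin n) =>
    η i (j.1 i) - η i (j.2 i))
  refine ⟨s, fun ω hω => ?_⟩
  rw [th_prod (w := fun i : Fin n => ω ^ (i : ℕ)) (η := η)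
    (fun i => by rw [hf, ht]; ring)
    (fun i => by rw [hf, ht]; linear_combination -(he i))]
  rw [separable_prod_X_sub_C_iff]
  intro ε ε' hεε
  by_contra hcon
  have h2 : ∃ i, ε i ≠ ε' i := Function.ne_iff.1 hcon
  obtain ⟨i, hi⟩ := h2
  refine hs ω hω (ε, ε') ⟨i, hne i _ _ hi⟩ ?_
  have h3 : ∑ i : Fin n, ω ^ (i : ℕ) * η i (ε i) = ∑ i : Fin n, ω ^ (i : ℕ) * η i (ε' i) := hεε
  have h4 : ∑ i : Fin n, ω ^ (i : ℕ) * (η i (ε i) - η i (ε' i)) =
      ∑ i : Fin n, ω ^ (i : ℕ) * η i (ε i) - ∑ i : Fin n, ω ^ (i : ℕ) * η i (ε' i) := by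
    rw [← Finset.sum_sub_distrib]
    exact Finset.sum_congr rfl fun i _ => mul_sub _ _ _
  show ∑ i : Fin n, ω ^ (i : ℕ) * (η i (ε i) - η i (ε' i)) = 0
  rw [h4, h3, sub_self]

/-- Generic weights. -/
theorem gen_sum (d : Fin n → k) : ∃ s : Finset k, ∀ ω ∉ s, ∀ S : Finset (Fin n),
    (∃ i ∈ S, d i ≠ 0) → ∑ i ∈ S, ω ^ (i : ℕ) * d i ≠ 0 := by
  classical
  obtain ⟨s, hs⟩ := thd_all (fun (S : Finset (Fin n)) (i : Fin n) => if i ∈ S then d i else 0)
  refine ⟨s, fun ω hω S hS => ?_⟩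
  obtain ⟨i, hi, hdi⟩ := hS
  have h1 := hs ω hω S ⟨i, by rw [if_pos hi]; exact hdi⟩
  have h2 : ∑ i : Fin n, ω ^ (i : ℕ) * (if i ∈ S then d i else 0) = ∑ i ∈ S, ω ^ (i : ℕ) * d i := by
    rw [← Finset.sum_filter_add_sum_filter_not Finset.univ (fun i => i ∈ S)]
    have h3 : ∑ i ∈ Finset.univ.filter (fun i => i ∉ S),
        ω ^ (i : ℕ) * (if i ∈ S then d i else 0) = 0 := by
      refine Finset.sum_eq_zero fun i hi => ?_
      rw [Finset.mem_filter] at hi
      rw [if_neg hi.2, mul_zero]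
    rw [h3, add_zero, Finset.filter_mem_eq_inter, Finset.univ_inter]
    refine Finset.sum_congr rfl fun i hi => ?_
    rw [if_pos hi]
  rw [← h2]
  exact h1

end NE
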