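import Pool.Agent.Lib.MP_f80667_ag.Nf.Df
import Pool.Agent.Lib.MP_f80667_ag.Nf.Thd
import Pool.Agent.Lib.MP_f80667_ag.Pe.Ga

/-! The generic weights. -/

open ZC BE PE Polynomial IntermediateField CV GM

namespace NE

variable {F : Type} [Field F] {K Ω : Type} [Field K] [Field Ω] [Algebra K Ω] [Algebra F K]
  [Algebra F Ω] [IsScalarTower F K Ω] [CharZero K] [IsAlgClosure K Ω] {L : Ld K Ω} [L.Unr] {n : ℕ}
  {W : Fin n → WeierstrassCurve F} {M : IntermediateField K Ω} {N : ℕ} {x y : Fin n → Ω}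

omit [Algebra F K] [IsScalarTower F K Ω] [CharZero K] [IsAlgClosure K Ω] [L.Unr] in
private theorem cho_a {W₁ : WeierstrassCurve F} (h : L.It W₁) : L.rs.Hv (algebraMap F Ω W₁.a₁) (L.rc W₁).a₁ ∧
    L.rs.Hv (algebraMap F Ω W₁.a₂) (L.rc W₁).a₂ ∧ L.rs.Hv (algebraMap F Ω W₁.a₃) (L.rc W₁).a₃ ∧
    L.rs.Hv (algebraMap F Ω W₁.a₄) (L.rc W₁).a₄ ∧ L.rs.Hv (algebraMap F Ω W₁.a₆) (L.rc W₁).a₆ :=
  ⟨L.hv_rr h.a₁, L.hv_rr h.a₂, L.hv_rr h.a₃, L.hv_rr h.a₄, L.hv_rr h.a₆⟩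

/-- The discriminant polynomial is not `0`. -/
private theorem cho_disc {W₁ : WeierstrassCurve F} (h : L.Hd W₁) :
    (bk (L.rc W₁) X) ^ 2 + 4 * fk (L.rc W₁) X ≠ 0 := by
  obtain ⟨b₁, -, b₃, -, -⟩ := cho_a h.toIt
  have hch := L.char_κ
  by_cases hp : L.p = 2
  · have h4 : (4 : (L.κ)[X]) = 0 := by
      have h5 : ((2 : ℕ) : L.κ) = 0 := by
        have h6 := CharP.cast_eq_zero L.κ L.p
        rwa [hp] at h6
      have h6 : (4 : (L.κ)[X]) = C (((2 : ℕ) : L.κ)) * 2 := by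
        rw [Nat.cast_ofNat, map_ofNat]
        norm_num
      rw [h6, h5, map_zero, zero_mul]
    rw [h4, zero_mul, add_zero]
    refine pow_ne_zero 2 fun h0 => ?_
    have c1 := congrArg (fun q => Polynomial.coeff q 1) h0
    have c0 := congrArg (fun q => Polynomial.coeff q 0) h0
    simp only [bk, coeff_add, coeff_C_mul, coeff_X_one, coeff_X_zero, coeff_C_zero, mul_one,
      mul_zero, zero_add, coeff_zero, coeff_C_succ, add_zero] at c1 c0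
    rcases Ld.dy_two h hp with h1 | h1
    · exact (L.hv_ne b₁).2 h1 c1
    · exact (L.hv_ne b₃).2 h1 c0
  · have h4 : (4 : L.κ) ≠ 0 := by
      intro h5
      have h6 : ((4 : ℕ) : L.κ) = 0 := by
        rw [Nat.cast_ofNat]
        exact h5
      have h7 := (CharP.cast_eq_zero_iff L.κ L.p 4).1 h6
      have h8 : L.p ∣ 2 := L.pp.dvd_of_dvd_pow (n := 2) (by norm_num; exact h7)
      exact hp ((Nat.prime_dvd_prime_iff_eq L.pp Nat.prime_two).1 h8)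
    have h5 : (bk (L.rc W₁) X) ^ 2 + 4 * fk (L.rc W₁) X =
        (⟨4, (L.rc W₁).a₁ ^ 2 + 4 * (L.rc W₁).a₂, 2 * (L.rc W₁).a₁ * (L.rc W₁).a₃ +
          4 * (L.rc W₁).a₄, (L.rc W₁).a₃ ^ 2 + 4 * (L.rc W₁).a₆⟩ : Cubic L.κ).toPoly := by
      simp only [bk, fk, Cubic.toPoly, map_add, map_mul, map_pow, map_ofNat]
      ring
    rw [h5]
    exact Cubic.ne_zero_of_a_ne_zero h4

private theorem cho_disc_comp {W₁ : WeierstrassCurve F} (h : L.Hd W₁) {r : L.κ[X]}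
    (hr : 0 < r.natDegree) : (bk (L.rc W₁) r) ^ 2 + 4 * fk (L.rc W₁) r ≠ 0 := by
  intro h0
  have h1 : (bk (L.rc W₁) r) ^ 2 + 4 * fk (L.rc W₁) r =
      ((bk (L.rc W₁) X) ^ 2 + 4 * fk (L.rc W₁) X).comp r := by
    simp only [bk, fk, add_comp, mul_comp, pow_comp, C_comp, X_comp, ofNat_comp, Nat.cast_ofNat]
  rw [h1, Polynomial.comp_eq_zero_iff] at h0
  rcases h0 with h0 | h0
  · exact cho_disc h h0
  · have h2 := h0.2
    rw [h2, natDegree_C] at hr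
    exact lt_irrefl _ hr

/-- The generic residue `ω` of the weights `w_i = ω ^ i`, for given `r'`. Proof: `gab_disc` (private in `Pe/Ga.lean`, copy it) and
`r'_i` not constant: the polynomials `bk² + 4 fk` are not `0`; `c₁` outside their roots; `gen_sep` for the fibre at `c₁` (`tg_fib`),
`gen_sum` for the residues of the `dy`. -/
theorem cho_om (h : Gn L W M N x y) {r' : Fin n → Polynomial L.κ} (hr : ∀ i, 0 < (r' i).natDegree)
    {δ : Fin n → L.κ} (hδ : ∀ i, L.rs.Hv (dy (W i) (x i) (y i)) (δ i)) :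
    ∃ (c₁ : L.κ) (s : Finset L.κ), ∀ ω ∉ s, ω ≠ 0 ∧
      ((Tg (fun i => L.rc (W i)) r' fun i => ω ^ (i : ℕ)).map (evalRingHom c₁)).Separable ∧
      ∀ S : Finset (Fin n), (∃ i ∈ S, δ i ≠ 0) → ∑ i ∈ S, ω ^ (i : ℕ) * δ i ≠ 0 := by
  classical
  have hac : IsAlgClosed Ω := IsAlgClosure.isAlgClosed K
  have hκ : IsAlgClosed L.κ := L.κ_closed
  have hD : ∀ i, (bk (L.rc (W i)) (r' i)) ^ 2 + 4 * fk (L.rc (W i)) (r' i) ≠ 0 := fun i =>
    cho_disc_comp (h.hd i) (hr i)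
  obtain ⟨c₁, hc₁⟩ : ∃ c₁ : L.κ,
      (∏ i, ((bk (L.rc (W i)) (r' i)) ^ 2 + 4 * fk (L.rc (W i)) (r' i))).eval c₁ ≠ 0 := by
    by_contra hc
    push Not at hc
    exact Finset.prod_ne_zero_iff.2 (fun i _ => hD i)
      (Polynomial.funext (fun z => by rw [hc z, eval_zero]))
  rw [eval_prod, Finset.prod_ne_zero_iff] at hc₁
  obtain ⟨s₁, hs₁⟩ := gen_sep (k := L.κ)
    (B := fun i => (L.rc (W i)).a₁ * (r' i).eval c₁ + (L.rc (W i)).a₃)
    (F := fun i => (r' i).eval c₁ ^ 3 + (L.rc (W i)).a₂ * (r' i).eval c₁ ^ 2 +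
      (L.rc (W i)).a₄ * (r' i).eval c₁ + (L.rc (W i)).a₆) (fun i => by
    have h1 := hc₁ i (Finset.mem_univ i)
    simpa only [bk, fk, eval_add, eval_mul, eval_pow, eval_C, eval_ofNat] using h1)
  obtain ⟨s₂, hs₂⟩ := gen_sum δ
  refine ⟨c₁, insert 0 (s₁ ∪ s₂), fun ω hω => ?_⟩
  rw [Finset.mem_insert, Finset.mem_union, not_or, not_or] at hω
  refine ⟨hω.1, ?_, hs₂ ω hω.2.2⟩
  rw [tg_fib]
  exact hs₁ ω hω.2.1

end NE
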