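import Pool.Agent.Lib.MP_f80667_ag.Pe.Tm

/-! A polynomial with different residues of the roots. -/

open PE Polynomial IntermediateField

namespace NE

variable {K Ω : Type} [Field K] [Field Ω] [Algebra K Ω] [CharZero K] [IsAlgClosure K Ω] {L : Ld K Ω}
  [L.Unr]

/-- The function `b`: the product of `X - ζ_i` for `D` numbers `ζ_i` with different residues outside `s`. Proof: `exists_res` `D` times,
all in `Te (N l ^ j)` for one `j` (`te_dvd`). -/
theorem cho_b (s : Finset L.κ) {N l : ℕ} (hN : N ≠ 0) (hl : 1 < l) (d : ℕ) :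
    ∃ (j : ℕ) (b : Polynomial Ω), L.Ip (L.Ur ⊥ (N * l ^ j)) b ∧ b.Monic ∧ b.natDegree = d ∧
      ∀ z, b.eval z = 0 → (derivative b).eval z ≠ 0 ∧ z ∈ L.Te (N * l ^ j) ∧
        ∃ ρ, L.rs.Hv z ρ ∧ ρ ∉ s := by
  classical
  induction d with
  | zero =>
    refine ⟨0, 1, fun i => ?_, monic_one, natDegree_one, fun z hz => ?_⟩
    · rw [coeff_one]
      split_ifs
      · exact ⟨one_mem _, L.one.le⟩
      · exact ⟨zero_mem _, by rw [L.zero]; exact zero_le_one⟩
    · rw [eval_one] at hz
      exact absurd hz one_ne_zero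
  | succ d ih =>
    obtain ⟨j, b, h1, h2, h3, h4⟩ := ih
    obtain ⟨j', w, hw, r, hr, hrs⟩ := Ld.exists_res (s ∪ b.roots.toFinset.image L.rr) hN hl
    rw [Finset.mem_union, not_or] at hrs
    have hbw : b.eval w ≠ 0 := by
      intro h0
      apply hrs.2
      rw [Finset.mem_image]
      refine ⟨w, ?_, ?_⟩
      · rw [Multiset.mem_toFinset, mem_roots h2.ne_zero]
        exact h0
      · exact (L.hv_rr (L.hv_int hr)).uniq hr
    have hd1 : N * l ^ j ∣ N * l ^ (j + j') := mul_dvd_mul_left N (pow_dvd_pow l (Nat.le_add_right j j'))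
    have hd2 : N * l ^ j' ∣ N * l ^ (j + j') := mul_dvd_mul_left N (pow_dvd_pow l (Nat.le_add_left j' j))
    have hw' : w ∈ L.Te (N * l ^ (j + j')) := Ld.te_dvd hd2 hw
    refine ⟨j + j', b * (X - C w), (h1.mono (Ld.ur_dvd ⊥ hd1)).mul
      (Ld.Ip.X.sub (Ld.Ip.C (Ld.te_ur hw') (L.hv_int hr))), h2.mul (monic_X_sub_C w), ?_,
      fun z hz => ?_⟩
    · rw [h2.natDegree_mul (monic_X_sub_C w), h3, natDegree_X_sub_C]
    · have hder : (derivative (b * (X - C w))).eval z =
          (derivative b).eval z * (z - w) + b.eval z := by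
        rw [derivative_mul, derivative_X_sub_C, mul_one, eval_add, eval_mul, eval_sub, eval_X,
          eval_C]
      rw [eval_mul, mul_eq_zero] at hz
      rcases hz with hz | hz
      · obtain ⟨h5, h6, ρ, h7, h8⟩ := h4 z hz
        refine ⟨?_, Ld.te_dvd hd1 h6, ρ, h7, h8⟩
        rw [hder, hz, add_zero]
        refine mul_ne_zero h5 (sub_ne_zero.2 ?_)
        rintro rfl
        exact hbw hz
      · rw [eval_sub, eval_X, eval_C, sub_eq_zero] at hz
        subst hz
        refine ⟨?_, hw', r, hr, hrs.1⟩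
        rw [hder, sub_self, mul_zero, zero_add]
        exact hbw

end NE
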