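import Mathlib

/-!
Generic graphs: the curve `H(z, T) = 0` and the graph `T = A₀ + z ^ e (z ^ D + μ z + λ)`.
-/

open Polynomial

namespace NE

variable {k : Type} [Field k]

private lemma gg_hz (H : k[X][X]) : ∃ Hz : k[X][X], ∀ A : k[X],
    derivative (H.eval A) = Hz.eval A + (derivative H).eval A * derivative A := by
  induction H using Polynomial.induction_on' with
  | add p q hp hq =>
    obtain ⟨P, hP⟩ := hp
    obtain ⟨Q, hQ⟩ := hq
    refine ⟨P + Q, fun A => ?_⟩
    simp only [eval_add, derivative_add, hP, hQ]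
    ring
  | monomial n a =>
    refine ⟨monomial n (derivative a), fun A => ?_⟩
    simp only [eval_monomial, derivative_mul, derivative_pow, derivative_monomial, map_natCast]
    ring

/-- a Bezout identity for `H` and its derivative with a nonzero constant -/
private lemma gg_bez (H : k[X][X]) (hH : H.Monic) (c₁ : k)
    (h₁ : (H.map (evalRingHom c₁)).Separable) :
    ∃ (δ : k[X]) (V U : k[X][X]), δ ≠ 0 ∧ V * derivative H = C δ + H * U := by
  obtain ⟨u, v, huv⟩ := h₁
  have h2 : (u.map C * H + v.map C * derivative H - 1).map (evalRingHom c₁) = 0 := by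
    rw [Polynomial.map_sub, Polynomial.map_add, Polynomial.map_mul, Polynomial.map_mul,
      Polynomial.map_one, ← derivative_map, Polynomial.map_map, Polynomial.map_map]
    have h3 : (evalRingHom c₁).comp C = RingHom.id k := by ext; simp
    rw [h3, Polynomial.map_id, Polynomial.map_id, huv, sub_self]
  have h3 : C (X - C c₁) ∣ u.map C * H + v.map C * derivative H - 1 := by
    rw [C_dvd_iff_dvd_coeff]
    intro i
    rw [dvd_iff_isRoot, IsRoot.def]
    have := congrArg (fun p => p.coeff i) h2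
    simpa only [coeff_map, coe_evalRingHom, coeff_zero] using this
  obtain ⟨G, hG⟩ := h3
  have := hH.finite_adjoinRoot
  obtain ⟨ψ, hm, hψ⟩ := Algebra.IsIntegral.isIntegral (R := k[X]) (AdjoinRoot.mk H G)
  set y : k[X] := C c₁ - X with hy
  have h4 : aeval (algebraMap k[X] (AdjoinRoot H) y * AdjoinRoot.mk H G) (ψ.scaleRoots y) = 0 :=
    scaleRoots_aeval_eq_zero hψ
  have h5 := sub_dvd_eval_sub 1 (algebraMap k[X] (AdjoinRoot H) y * AdjoinRoot.mk H G)
    ((ψ.scaleRoots y).map (algebraMap k[X] (AdjoinRoot H)))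
  rw [eval_map_algebraMap, eval_map_algebraMap, h4, sub_zero] at h5
  obtain ⟨w, hw⟩ := h5
  obtain ⟨w, rfl⟩ := AdjoinRoot.mk_surjective w
  have h6 : aeval (1 : AdjoinRoot H) (ψ.scaleRoots y) =
      algebraMap k[X] (AdjoinRoot H) ((ψ.scaleRoots y).eval 1) := by
    rw [← map_one (algebraMap k[X] (AdjoinRoot H)), aeval_algebraMap_apply, coe_aeval_eq_eval]
  rw [h6, AdjoinRoot.algebraMap_eq, ← AdjoinRoot.mk_C, ← AdjoinRoot.mk_C, ← map_one
    (AdjoinRoot.mk H), ← map_mul, ← map_sub, ← map_mul, AdjoinRoot.mk_eq_mk] at hw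
  obtain ⟨z, hz⟩ := hw
  refine ⟨(ψ.scaleRoots y).eval 1, w * v.map C, -z - w * u.map C, ?_, ?_⟩
  · intro h7
    have h8 : ((ψ.scaleRoots y).map (evalRingHom c₁)).eval 1 = 0 := by
      have := congrArg (eval c₁) h7
      rw [eval_zero] at this
      rw [← this, eval_map, ← coe_evalRingHom, ← eval₂_at_apply, map_one]
    rw [map_scaleRoots _ _ _ (by rw [hm.leadingCoeff, map_one]; exact one_ne_zero)] at h8
    have h9 : evalRingHom c₁ y = 0 := by simp [hy]
    rw [h9, scaleRoots_zero, (hm.map _).leadingCoeff] at h8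
    simp at h8
  · have e1 : C y = - C (X - C c₁) := by rw [← C_neg, hy]; congr 1; ring
    rw [e1] at hz
    linear_combination (-1 : k[X][X]) * hz + w * hG

private lemma gg_int (H Q : k[X][X]) (hH : H.Monic) : ∃ χ : k[X][X], χ.Monic ∧
    ∀ (c τ : k), eval₂ (evalRingHom c) τ H = 0 → ∀ b : k[X],
      b.eval c = eval₂ (evalRingHom c) τ Q → (χ.eval b).eval c = 0 := by
  have := hH.finite_adjoinRoot
  obtain ⟨χ, hm, hχ⟩ := Algebra.IsIntegral.isIntegral (R := k[X]) (AdjoinRoot.mk H Q)
  refine ⟨χ, hm, fun c τ h0 b hb => ?_⟩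
  have h1 := congrArg (AdjoinRoot.lift (evalRingHom c) τ h0) hχ
  rw [hom_eval₂, AdjoinRoot.algebraMap_eq, AdjoinRoot.lift_comp_of, AdjoinRoot.lift_mk, ← hb,
    map_zero, ← coe_evalRingHom, eval₂_at_apply] at h1
  exact h1

/-- Let `H` be monic with a separable fibre at `c₁`. Then for generic `μ` and `λ` all roots `c ≠ 0` of `H(z, A)` are simple, and the
fibres of `H` there are separable. Proof: put `A_λ = A_μ + z ^ e λ`, `G_μ(z, λ) = H(z, A_λ)`; `G_μ(z, λ) = G_0(z, λ + μ z)`. `G_0` as a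
polynomial in `λ` over `k[z]` has the leading coefficient `z ^ (e d)` and is separable in `λ` over `k(z)` (the fibre at `c₁`; if
`c₁ = 0` move `c₁`: the resultant of `H`, `H_T` is a nonzero polynomial in `z`). Let `g` be a common irreducible factor of `G_μ` and
`∂_z G_μ` in `k[z, λ]`, not associated to `z`: `G_μ = g h`, `g ∣ (∂_z g) h`; `g ∤ h` since `G_μ` is separable in `λ` and `g` is not in
`k[z]` (a prime factor of the leading coefficient is `z`), so `g ∣ ∂_z g`, so `∂_z g = 0`. `g = g₀(z, λ + μ z)` for an irreducible factor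
`g₀` of `G_0` and `∂_z g = (∂_z g₀ + μ ∂_λ g₀)(z, λ + μ z)`; `∂_λ g₀ ≠ 0` by separability, so there is at most one such `μ` for each of
the finitely many `g₀` (up to units). Outside these `μ`: the gcd of `G_μ`, `∂_z G_μ` over `k(λ)` is a power of `z`: Bezout
`a G_μ + b ∂_z G_μ = d(λ) z ^ s`, `d ≠ 0`: exclude the roots of `d`. The fibres: `u H + v H_T = ρ(z)`, `ρ ≠ 0`; for each of the finitely many
roots `c ≠ 0` of `ρ` exclude the `λ` with `H(c, A_μ(c) + c ^ e λ) = 0`. -/
theorem gen_gr (H : k[X][X]) (hH : H.Monic) (c₁ : k) (h₁ : (H.map (evalRingHom c₁)).Separable)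
    (A₀ : k[X]) (e D : ℕ) : ∃ s : Finset k, ∀ μ ∉ s, ∃ t : Finset k, ∀ l ∉ t, ∀ c : k, c ≠ 0 →
      (H.eval (A₀ + X ^ e * (X ^ D + C μ * X + C l))).eval c = 0 →
      (derivative (H.eval (A₀ + X ^ e * (X ^ D + C μ * X + C l)))).eval c ≠ 0 ∧
        (H.map (evalRingHom c)).Separable := by
  classical
  obtain ⟨Hz, hz⟩ := gg_hz H
  obtain ⟨δ, V, U, hδ, hV⟩ := gg_bez H hH c₁ h₁
  obtain ⟨χ, hχ, hχ'⟩ := gg_int H (V * (C X * Hz + derivative H *
    (C (X * derivative A₀ - (e : k[X]) * A₀ + (D : k[X]) * X ^ (e + D)) + C (e : k[X]) * X))) hH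
  have ha : -(X ^ (e + 1) * δ) ≠ 0 := neg_ne_zero.2 (mul_ne_zero (pow_ne_zero _ X_ne_zero) hδ)
  have hinj : Function.Injective (fun μ : k => C μ * -(X ^ (e + 1) * δ)) := by
    intro μ μ' h
    exact C_injective (mul_right_cancel₀ ha h)
  refine ⟨χ.roots.toFinset.preimage _ hinj.injOn, fun μ hμ => ?_⟩
  have hρ : χ.eval (C μ * -(X ^ (e + 1) * δ)) ≠ 0 := by
    intro h
    apply hμ
    rw [Finset.mem_preimage, Multiset.mem_toFinset, mem_roots hχ.ne_zero]
    exact h
  refine ⟨(χ.eval (C μ * -(X ^ (e + 1) * δ)) * δ).roots.toFinset.biUnion (fun c =>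
    (H.map (evalRingHom c)).roots.toFinset.image
      (fun τ => (τ - A₀.eval c) / c ^ e - c ^ D - μ * c)), fun l hl c hc hP => ?_⟩
  have hτ : (A₀ + X ^ e * (X ^ D + C μ * X + C l)).eval c
      = A₀.eval c + c ^ e * (c ^ D + μ * c + l) := by simp
  have hev : ∀ p : k[X][X], (p.eval (A₀ + X ^ e * (X ^ D + C μ * X + C l))).eval c
      = eval₂ (evalRingHom c) (A₀.eval c + c ^ e * (c ^ D + μ * c + l)) p := by
    intro p
    rw [← coe_evalRingHom, ← eval₂_at_apply, coe_evalRingHom, hτ]
  have hH0 := hP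
  rw [hev] at hH0
  have hN : (χ.eval (C μ * -(X ^ (e + 1) * δ)) * δ).eval c ≠ 0 := by
    intro h
    apply hl
    rw [Finset.mem_biUnion]
    refine ⟨c, ?_, ?_⟩
    · rw [Multiset.mem_toFinset, mem_roots (mul_ne_zero hρ hδ)]
      exact h
    · rw [Finset.mem_image]
      refine ⟨A₀.eval c + c ^ e * (c ^ D + μ * c + l), ?_, ?_⟩
      · rw [Multiset.mem_toFinset, mem_roots (hH.map _).ne_zero, IsRoot.def, eval_map]
        exact hH0
      · have : c ^ e ≠ 0 := pow_ne_zero _ hc
        field_simp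
        ring
  rw [eval_mul] at hN
  have hδc : δ.eval c ≠ 0 := right_ne_zero_of_mul hN
  have hρc := left_ne_zero_of_mul hN
  refine ⟨fun hd => ?_, ?_⟩
  · apply hρc
    refine hχ' c _ hH0 _ ?_
    have hVc := congrArg (fun p => eval₂ (evalRingHom c)
      (A₀.eval c + c ^ e * (c ^ D + μ * c + l)) p) hV
    simp only [eval₂_mul, eval₂_add, eval₂_C, coe_evalRingHom, hH0, zero_mul, add_zero] at hVc
    rw [hz, eval_add, eval_mul, hev, hev] at hd
    have hA : (derivative (A₀ + X ^ e * (X ^ D + C μ * X + C l))).eval c * c =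
        c * (derivative A₀).eval c + (e : k) * (c ^ e * (c ^ D + μ * c + l)) +
          (D : k) * c ^ (e + D) + μ * c ^ (e + 1) := by
      have e1 : ∀ n : ℕ, (n : k) * c ^ (n - 1) * c = (n : k) * c ^ n := by
        intro n
        rcases n with _ | n
        · simp
        · simp [pow_succ]; ring
      have e2 := e1 e
      have e3 := e1 D
      simp only [derivative_add, derivative_mul, derivative_X_pow, derivative_C, derivative_X,
        eval_add, eval_mul, eval_C, eval_X, eval_pow, eval_natCast,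
        map_natCast, zero_mul, mul_one, zero_add, add_zero]
      rw [pow_add, pow_succ]
      linear_combination (c ^ D + μ * c + l) * e2 + c ^ e * e3
    simp only [eval₂_mul, eval₂_add, eval₂_C, eval₂_X, coe_evalRingHom, eval_add, eval_sub,
      eval_mul, eval_X, eval_pow, eval_natCast, eval_C, eval_neg]
    generalize eval₂ (evalRingHom c) (A₀.eval c + c ^ e * (c ^ D + μ * c + l)) V = v at *
    generalize eval₂ (evalRingHom c) (A₀.eval c + c ^ e * (c ^ D + μ * c + l)) Hz = z at *
    generalize eval₂ (evalRingHom c) (A₀.eval c + c ^ e * (c ^ D + μ * c + l))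
      (derivative H) = y at *
    linear_combination v * y * hA - v * c * hd + μ * c ^ (e + 1) * hVc
  · refine ⟨-(U.map (evalRingHom c)) * C (δ.eval c)⁻¹,
      V.map (evalRingHom c) * C (δ.eval c)⁻¹, ?_⟩
    have h1 := congrArg (fun p => p.map (evalRingHom c)) hV
    simp only [Polynomial.map_mul, Polynomial.map_add, Polynomial.map_C, coe_evalRingHom] at h1
    rw [← derivative_map] at h1
    have h2 : C (δ.eval c) * C (δ.eval c)⁻¹ = 1 := by rw [← C_mul, mul_inv_cancel₀ hδc, C_1]
    linear_combination C (δ.eval c)⁻¹ * h1 + h2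

end NE
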