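import Pool.Agent.Lib.MP_f80667_ag.Nf.Df
import Pool.Agent.Lib.MP_f80667_ag.Pe.Tm

/-! The roots of `Θ(z, A(z))`. -/

open ZC BE PE Polynomial IntermediateField CV GM

namespace NE

variable {K Ω : Type} [Field K] [Field Ω] [Algebra K Ω] [CharZero K] [IsAlgClosure K Ω] {L : Ld K Ω}
  [L.Unr] {M : IntermediateField K Ω} {N : ℕ}

/-- The polynomial `Θ(z, A(z))` vanishes at `π`, so it is `m m'` (`Tm.dvd`, `Ip.dvd`), and `m'(0)` is a unit. -/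
theorem va_fac {π : Ω} {e : ℕ} {m : Polynomial Ω} (hm : L.Tm M N 0 π e m) {D : ℕ} (hD : D ≠ 0)
    (hN : N ≠ 0) {f : Polynomial Ω} (hf : L.Ip (L.Ur ⊥ (N * D)) f) (h0 : f.eval π = 0)
    (h1 : L.nm (f.eval 0) = L.nm (L.p : Ω)) :
    ∃ m', L.Ip (L.Ur ⊥ (N * D)) m' ∧ f = m * m' ∧ L.nm (m'.eval 0) = 1 := by
  have hd := hm.dvd D hD _ (fun i => (hf i).1) h0
  obtain ⟨q, hq, he⟩ := hf.dvd (hm.ip.mono (Ld.ur_dvd ⊥ (dvd_mul_right N D))) hm.monic hd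
  refine ⟨q, hq, he, ?_⟩
  have h4 := h1
  rw [he, eval_mul, L.mul, hm.val] at h4
  exact (mul_eq_left₀ L.p_pos.ne').1 h4

/-- The roots. Proof: as `ga_roots` (`Pe/Ga.lean`): a root `z` is integral. If `nm z < 1`: `m'(z)` is a unit, `m(z) = 0`. Otherwise the
residue of `z` is not `0`: `hs`. -/
theorem va_roots {π : Ω} {e : ℕ} {m m' : Polynomial Ω} (hm : L.Tm M N 0 π e m) {D : ℕ} (hD : D ≠ 0)
    {f : Polynomial Ω} {f' : Polynomial L.κ} (hf : L.Ip (L.Ur ⊥ (N * D)) f) (hfm : f.Monic)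
    (hff : L.Hp f f') (hm' : L.Ip (L.Ur ⊥ (N * D)) m') (hfac : f = m * m')
    (hu : L.nm (m'.eval 0) = 1) (hs : ∀ c : L.κ, c ≠ 0 → f'.eval c = 0 → (derivative f').eval c ≠ 0)
    {z : Ω} (hz : f.eval z = 0) : (derivative f).eval z ≠ 0 ∧ L.nm z ≤ 1 ∧
      (L.nm z < 1 ∧ m.eval z = 0 ∨ L.nm z = 1 ∧ L.nm ((derivative f).eval z) = 1) := by
  have hz1 : L.nm z ≤ 1 := L.root_le hfm (fun i => (hf i).2) hz
  rcases hz1.lt_or_eq with hc | hc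
  · have h1 : L.nm (m'.eval z) = 1 := by
      rw [← hu]
      refine L.eq_of_close ?_
      rw [hu]
      exact hm'.close hz1 (by rw [sub_zero]; exact hc)
    have h2 : m'.eval z ≠ 0 := L.ne_zero (by rw [h1]; exact zero_lt_one)
    have h3 : m.eval z = 0 := by
      rw [hfac, eval_mul] at hz
      exact (mul_eq_zero.1 hz).resolve_right h2
    refine ⟨?_, hz1, Or.inl ⟨hc, h3⟩⟩
    rw [hfac, derivative_mul, eval_add, eval_mul, eval_mul, h3, zero_mul, add_zero]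
    exact mul_ne_zero (hm.sep z h3) h2
  · obtain ⟨ζ, hζ⟩ := L.hv_of hz1
    have hζ0 : ζ ≠ 0 := (L.hv_ne hζ).2 hc
    have h2 := hff.eval hζ
    rw [hz] at h2
    have h3 := hs ζ hζ0 (h2.uniq Rs.Hv.zero)
    have h4 := (L.hv_ne (hff.der.eval hζ)).1 h3
    exact ⟨L.ne_zero (by rw [h4]; exact zero_lt_one), hz1, Or.inr ⟨hc, h4⟩⟩

end NE
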