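import Pool.Agent.Lib.MP_f80667_ag.Nf.Va
import Pool.Agent.Lib.MP_f80667_ag.Nf.VaB
import Pool.Agent.Lib.MP_f80667_ag.Nf.ChoA
import Pool.Agent.Lib.MP_f80667_ag.Nf.ChoB
import Pool.Agent.Lib.MP_f80667_ag.Nf.Gg

/-!
The choice of the curve and of the functions.
-/

open ZC BE PE Polynomial IntermediateField CV GM

namespace NE

private theorem sep_fin {k : Type} [Field k] {H : k[X][X]} (hH : H.Monic) {c₁ : k}
    (h₁ : (H.map (evalRingHom c₁)).Separable) :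
    ∃ s : Finset k, ∀ c ∉ s, (H.map (evalRingHom c)).Separable := by
  classical
  by_cases hd : H.natDegree = 0
  · refine ⟨∅, fun c _ => ?_⟩
    rw [eq_one_of_monic_natDegree_zero hH hd, Polynomial.map_one]
    exact separable_one
  obtain ⟨p, q, -, -, hpq⟩ := exists_mul_add_mul_eq_C_resultant H (derivative H) le_rfl le_rfl
    (Or.inl hd)
  obtain ⟨ρ, hρ⟩ : ∃ ρ, ρ = resultant H (derivative H) := ⟨_, rfl⟩
  rw [← hρ] at hpq
  have h2 : ρ.eval c₁ ≠ 0 := by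
    have e1 : ρ.eval c₁ = resultant (H.map (evalRingHom c₁)) ((derivative H).map (evalRingHom c₁))
        H.natDegree (derivative H).natDegree := by
      rw [resultant_map_map, hρ]
      rfl
    have e2 : ((derivative H).map (evalRingHom c₁)).natDegree ≤ (derivative H).natDegree :=
      natDegree_map_le
    obtain ⟨t, ht⟩ := Nat.exists_eq_add_of_le e2
    have e3 : (H.map (evalRingHom c₁)).natDegree = H.natDegree := hH.natDegree_map _
    have e4 : (H.map (evalRingHom c₁)).coeff H.natDegree = 1 := by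
      rw [coeff_map, hH.coeff_natDegree, map_one]
    rw [e1, ht, resultant_add_right_deg _ _ _ _ _ le_rfl, e4, one_pow, one_mul, ← e3]
    refine resultant_ne_zero _ _ ?_
    rw [← derivative_map]
    exact h₁
  have hρ0 : ρ ≠ 0 := fun h0 => h2 (by rw [h0, eval_zero])
  refine ⟨ρ.roots.toFinset, fun c hc => ?_⟩
  have h3 : ρ.eval c ≠ 0 := by
    intro h0
    exact hc (Multiset.mem_toFinset.2 ((mem_roots hρ0).2 h0))
  have h4 := congrArg (Polynomial.map (evalRingHom c)) hpq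
  rw [Polynomial.map_add, Polynomial.map_mul, Polynomial.map_mul, map_C, ← derivative_map] at h4
  refine ⟨C (ρ.eval c)⁻¹ * p.map (evalRingHom c), C (ρ.eval c)⁻¹ * q.map (evalRingHom c), ?_⟩
  have h5 : C (ρ.eval c)⁻¹ * C (ρ.eval c) = (1 : k[X]) := by
    rw [← C_mul, inv_mul_cancel₀ h3, C_1]
  rw [← h5]
  have h6 : (evalRingHom c) ρ = ρ.eval c := rfl
  rw [h6] at h4
  rw [← h4]
  ring

section gal

variable {K Ω : Type} [Field K] [Field Ω] [Algebra K Ω]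

private theorem gal_ev {U : IntermediateField K Ω} {A : Polynomial (Polynomial Ω)} (hA : Rm U A)
    {γ : Ω ≃ₐ[K] Ω} (hγ : γ ∈ U.fixingSubgroup) (a b : Ω) :
    ev₂ (γ a, γ b) A = γ (ev₂ (a, b) A) := by
  obtain ⟨A', rfl⟩ := exists_up hA
  have key : (ev₂ (γ a, γ b)).comp (up₂ (algebraMap U Ω)) =
      ((γ : Ω →+* Ω).comp (ev₂ (a, b))).comp (up₂ (algebraMap U Ω)) := by
    refine Polynomial.ringHom_ext' (Polynomial.ringHom_ext' (RingHom.ext fun u => ?_) ?_) ?_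
    · have h1 : γ (algebraMap U Ω u) = algebraMap U Ω u :=
        (IntermediateField.mem_fixingSubgroup_iff U γ).1 hγ _ u.2
      have h2 : ev₂ (γ a, γ b) (up₂ (algebraMap U Ω) (C (C u))) = algebraMap U Ω u := by
        simp [ev₂, up₂]
      have h3 : ev₂ (a, b) (up₂ (algebraMap U Ω) (C (C u))) = algebraMap U Ω u := by
        simp [ev₂, up₂]
      change ev₂ (γ a, γ b) (up₂ (algebraMap U Ω) (C (C u))) =
        γ (ev₂ (a, b) (up₂ (algebraMap U Ω) (C (C u))))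
      rw [h2, h3, h1]
    · change ev₂ (γ a, γ b) (up₂ (algebraMap U Ω) (C X)) =
        γ (ev₂ (a, b) (up₂ (algebraMap U Ω) (C X)))
      simp [ev₂, up₂]
    · change ev₂ (γ a, γ b) (up₂ (algebraMap U Ω) X) =
        γ (ev₂ (a, b) (up₂ (algebraMap U Ω) X))
      simp [ev₂, up₂]
  exact congrArg (fun φ => φ A') key

private theorem gal_eval {U : IntermediateField K Ω} {A : Polynomial Ω}
    (hA : ∀ i, A.coeff i ∈ U) {γ : Ω ≃ₐ[K] Ω} (hγ : γ ∈ U.fixingSubgroup) (a : Ω) :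
    A.eval (γ a) = γ (A.eval a) := by
  have h1 : Rm U (C A) := by
    intro i j
    rw [coeff_C]
    split_ifs
    · exact hA j
    · rw [coeff_zero]
      exact zero_mem _
  have h2 := gal_ev h1 hγ a 0
  have h3 : ∀ P : Ω × Ω, ev₂ P (C A) = A.eval P.1 := fun P => by simp [ev₂]
  rwa [h3, h3] at h2

private theorem rm_dY {U : IntermediateField K Ω} {A : Polynomial (Polynomial Ω)} (hA : Rm U A) :
    Rm U (dY A) := by
  intro i j
  change ((derivative A).coeff i).coeff j ∈ U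
  rw [coeff_derivative]
  have h1 : (A.coeff (i + 1) * ((i : Polynomial Ω) + 1)).coeff j =
      (A.coeff (i + 1)).coeff j * ((i : Ω) + 1) := by
    have h2 : ((i : Polynomial Ω) + 1) = C ((i : Ω) + 1) := by simp
    rw [h2, coeff_mul_C]
  rw [h1]
  exact mul_mem (hA _ _) (add_mem (_root_.natCast_mem U i) (one_mem U))

end gal

section deg

variable {R : Type} [Field R]

private theorem cho_rad {m f : R[X]} {e : ℕ} (hm : m.Monic) (hd : m.natDegree = e)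
    (hf : f.natDegree < e) : (f + X * m).Monic ∧ (f + X * m).natDegree = e + 1 := by
  have h1 : (X * m).Monic := monic_X.mul hm
  have h2 : (X * m).natDegree = e + 1 := by
    rw [monic_X.natDegree_mul hm, natDegree_X, hd, add_comm]
  have h3 : f.natDegree < (X * m).natDegree := by omega
  refine ⟨?_, ?_⟩
  · rw [add_comm]
    exact h1.add_of_left (degree_lt_degree h3)
  · rw [natDegree_add_eq_right_of_natDegree_lt h3, h2]

private theorem cho_deg {m A₀ : R[X]} {e : ℕ} (hm : m.Monic) (hd : m.natDegree = e)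
    (hA : A₀.natDegree < 2 * e + 3) (μ l : R) :
    (A₀ + m * (X ^ (e + 3) + (C μ * X + C l))).Monic ∧
      (A₀ + m * (X ^ (e + 3) + (C μ * X + C l))).natDegree = 2 * e + 3 := by
  have h2 : (C μ * X + C l : R[X]).degree < ((e + 3 : ℕ) : WithBot ℕ) :=
    lt_of_le_of_lt degree_linear_le (by exact_mod_cast (by omega : 1 < e + 3))
  have h3 : (X ^ (e + 3) + (C μ * X + C l) : R[X]).Monic := monic_X_pow_add h2
  have h4 : (X ^ (e + 3) + (C μ * X + C l) : R[X]).natDegree = e + 3 := by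
    rw [natDegree_add_eq_left_of_degree_lt, natDegree_X_pow]
    rw [degree_X_pow]
    exact h2
  have h5 : (m * (X ^ (e + 3) + (C μ * X + C l))).Monic := hm.mul h3
  have h6 : (m * (X ^ (e + 3) + (C μ * X + C l))).natDegree = 2 * e + 3 := by
    rw [hm.natDegree_mul h3, hd, h4]
    ring
  have h7 : A₀.natDegree < (m * (X ^ (e + 3) + (C μ * X + C l))).natDegree := by omega
  refine ⟨?_, ?_⟩
  · rw [add_comm A₀]
    exact h5.add_of_left (degree_lt_degree h7)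
  · rw [natDegree_add_eq_right_of_natDegree_lt h7, h6]

private theorem sep_ne {p : R[X]} (hp : p.Separable) {c : R} (hc : p.eval c = 0) :
    (derivative p).eval c ≠ 0 := by
  obtain ⟨u, v, huv⟩ := hp
  intro h0
  have h1 := congrArg (Polynomial.eval c) huv
  rw [eval_add, eval_mul, eval_mul, hc, h0, mul_zero, mul_zero, add_zero, eval_one] at h1
  exact zero_ne_one h1

end deg

variable {F : Type} [Field F] {K Ω : Type} [Field K] [Field Ω] [Algebra K Ω] [Algebra F K]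
  [Algebra F Ω] [IsScalarTower F K Ω] [CharZero K] [IsAlgClosure K Ω] {L : Ld K Ω} [L.Unr] {n : ℕ}
  {W : Fin n → WeierstrassCurve F} {M : IntermediateField K Ω} {N : ℕ} {x y : Fin n → Ω}

/-- The derivative of the fibre at `π`. Proof: `rt_der`, `tg_dY`, `rt_fe`: the sums `∑ (i ∈ S) w_i dy_i` are not `0`: units if some
`dy_i`, `i ∈ S`, is a unit, otherwise `S = {i₀}` (`Gn.one`) and `dy ≠ 0`. -/
theorem cho_der (h : Gn L W M N x y) {w : Fin n → Ω} (hw1 : ∀ i, L.nm (w i) = 1)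
    (hS : ∀ S : Finset (Fin n), (∃ i ∈ S, L.nm (dy (W i) (x i) (y i)) = 1) →
      L.nm (∑ i ∈ S, w i * dy (W i) (x i) (y i)) = 1) {r : Fin n → Polynomial Ω} {π : Ω}
    (hr0 : ∀ i, (r i).eval π = x i) :
    ev₂ (π, ∑ i, w i * y i) (dY (To Ω W r w)) ≠ 0 := by
  have h1 : Rt w (fun i => ((W i).baseChange Ω).a₁ * x i + ((W i).baseChange Ω).a₃)
      (fun i => x i ^ 3 + ((W i).baseChange Ω).a₂ * x i ^ 2 + ((W i).baseChange Ω).a₄ * x i +
        ((W i).baseChange Ω).a₆) (∑ i, w i * y i) y := rt_fe.2 ⟨h.eq, rfl⟩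
  rw [tg_dY]
  have h2 : (fun i => (r i).eval (π, ∑ i, w i * y i).1) = x := funext hr0
  rw [h2]
  refine rt_der h1 fun S hSn => ?_
  have h3 : ∀ i ∈ S, w i * (2 * y i + (((W i).baseChange Ω).a₁ * x i +
      ((W i).baseChange Ω).a₃)) = w i * dy (W i) (x i) (y i) := by
    intro i _
    unfold dy
    rw [← add_assoc]
    rfl
  rw [Finset.sum_congr rfl h3]
  by_cases hu : ∃ i ∈ S, L.nm (dy (W i) (x i) (y i)) = 1
  · exact L.ne_zero (by rw [hS S hu]; exact zero_lt_one)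
  · push Not at hu
    obtain ⟨i₀, hi₀⟩ := hSn
    have h4 : S = {i₀} := by
      refine Finset.eq_singleton_iff_unique_mem.2 ⟨hi₀, fun j hj => ?_⟩
      by_contra hne
      rcases h.one j i₀ hne with h5 | h5
      · exact hu j hj h5
      · exact hu i₀ hi₀ h5
    rw [h4, Finset.sum_singleton]
    exact mul_ne_zero (L.ne_zero (by rw [hw1]; exact zero_lt_one)) (h.ne i₀)

omit [CharZero K] [IsAlgClosure K Ω] [L.Unr] in
private theorem hv_sum {u : Fin n → Ω} {v : Fin n → L.κ} (h : ∀ i, L.rs.Hv (u i) (v i))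
    (S : Finset (Fin n)) : L.rs.Hv (∑ i ∈ S, u i) (∑ i ∈ S, v i) := by
  classical
  induction S using Finset.induction_on with
  | empty =>
    rw [Finset.sum_empty, Finset.sum_empty]
    exact Rs.Hv.zero
  | insert i S hi ih =>
    rw [Finset.sum_insert hi, Finset.sum_insert hi]
    exact (h i).add ih

omit [CharZero K] [IsAlgClosure K Ω] [L.Unr] in
private theorem hp_sum {u : Fin n → Polynomial Ω} {v : Fin n → Polynomial L.κ}
    (h : ∀ i, L.Hp (u i) (v i)) (S : Finset (Fin n)) :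
    L.Hp (∑ i ∈ S, u i) (∑ i ∈ S, v i) := by
  classical
  induction S using Finset.induction_on with
  | empty =>
    rw [Finset.sum_empty, Finset.sum_empty]
    intro i
    rw [coeff_zero, coeff_zero]
    exact Rs.Hv.zero
  | insert i S hi ih =>
    rw [Finset.sum_insert hi, Finset.sum_insert hi]
    exact (h i).add ih

omit [CharZero K] [IsAlgClosure K Ω] [L.Unr] in
private theorem ip_sum {U : IntermediateField K Ω} {u : Fin n → Polynomial Ω}
    (h : ∀ i, L.Ip U (u i)) (S : Finset (Fin n)) : L.Ip U (∑ i ∈ S, u i) := by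
  classical
  induction S using Finset.induction_on with
  | empty =>
    rw [Finset.sum_empty]
    intro i
    rw [coeff_zero]
    exact ⟨zero_mem _, by rw [L.zero]; exact zero_le_one⟩
  | insert i S hi ih =>
    rw [Finset.sum_insert hi]
    exact (h i).add ih

omit [CharZero K] [IsAlgClosure K Ω] [L.Unr] in
/-- The derivative of a fibre with separable reduction. -/
private theorem cho_fib (h : ∀ i, L.It (W i)) {r : Fin n → Polynomial Ω}
    {r' : Fin n → Polynomial L.κ} (hr : ∀ i, L.Hp (r i) (r' i)) {w : Fin n → Ω}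
    {w' : Fin n → L.κ} (hw : ∀ i, L.rs.Hv (w i) (w' i)) {z : Ω} {ζ : L.κ} (hz : L.rs.Hv z ζ)
    (hs : ((Tg (fun i => L.rc (W i)) r' w').map (evalRingHom ζ)).Separable) {T : Ω}
    (hT1 : L.nm T ≤ 1)
    (hT : (Tf (fun i => (W i).baseChange Ω) w fun i => (r i).eval z).eval T = 0) :
    L.nm ((derivative (Tf (fun i => (W i).baseChange Ω) w fun i => (r i).eval z)).eval T) = 1 := by
  obtain ⟨τ, hτ⟩ := L.hv_of hT1
  have h1 := tf_hp h hw (fun i => (hr i).eval hz)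
  have h2 := h1.eval hτ
  rw [hT] at h2
  rw [tg_fib] at hs
  exact (L.hv_ne (h1.der.eval hτ)).1 (sep_ne hs (h2.uniq Rs.Hv.zero))

/-- **The choice.** Proof: `r_i = f_i + X m` with `f_i(π) = x_i` (`Tm.gen`), degree `d = e + 1`; `A₀(π) = ∑ w_i y_i`
(`Tm.gen` for the `y_i`). `ω` by `cho_om`, `exists_res`; `w_i = ω ^ i` (in `Te (N l ^ j)`). `gen_gr` over `κ` for `H = Tg (rc W) r' w'`
(monic: `tg_mc`), the residues of `A₀`, `e`, `D = e + 3`: `μ` by `exists_res`, `A₁ = A₀ + m (X ^ (e + 3) + μ X)`, then `l` by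
`exists_res` outside the sets of `gen_gr` and `va_zero`; `A = A₁ + l m`, of degree `2 e + 3`. `tg_ip`, `tg_monic`, `va_fac`, `va_roots`
with `tg_hp`; the roots with a unit derivative are unramified: `root_ur`; there the fibre is separable (`gen_gr`, `tf_hp`), so
`Θ_T ≠ 0`; at the roots of `m`, `z = γ π` (`Tm.conj`), `Θ_T(z, A(z)) = γ Θ_T(π, A(π)) ≠ 0` (`cho_der`). `b`: `cho_b` with `s` the set of
the `c` where the fibre `Tf (rc W) w' (r'(c))` is not separable (finite: the fibre at `c₁` is separable: resultant); over a root `z` of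
`b` all roots `T` of the fibre are simple modulo `m`, so in unramified extensions (`root_ur`, `tf_ip`). -/
theorem exists_ch (h : Gn L W M N x y) [FiniteDimensional K M] {π : Ω} {e : ℕ} {m : Polynomial Ω}
    (hm : L.Tm M N 0 π e m) (hu : L.Uf M π) {l : ℕ} (hl : 1 < l) :
    ∃ (j : ℕ) (r : Fin n → Polynomial Ω) (w : Fin n → Ω) (A b : Polynomial Ω),
      Ch L W (L.Ur ⊥ (N * l ^ j)) m r w A b (e + 1) ∧ (∀ i, (r i).eval π = x i) ∧
        A.eval π = ∑ i, w i * y i := by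
  classical
  have hac : IsAlgClosed Ω := IsAlgClosure.isAlgClosed K
  have hκ : IsAlgClosed L.κ := L.κ_closed
  have hN : N ≠ 0 := h.rf.ne
  have hl0 : l ≠ 0 := by omega
  have hIt : ∀ i, L.It (W i) := fun i => (h.hd i).toIt
  have hpw : ∀ i j : ℕ, i ≤ j → N * l ^ i ∣ N * l ^ j := fun i j hij =>
    Nat.mul_dvd_mul_left N (pow_dvd_pow l hij)
  have hle0 : ∀ j : ℕ, L.Ur (⊥ : IntermediateField K Ω) N ≤ L.Ur ⊥ (N * l ^ j) := fun j =>
    Ld.ur_dvd ⊥ (dvd_mul_right N _)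
  -- the polynomials `r i`
  choose f hf hfd hfx using fun i => hm.gen (x i) (h.xm i) (h.xl i)
  choose a ha had hay using fun i => hm.gen (y i) (h.ym i) (h.yl i)
  obtain ⟨r, hr⟩ : ∃ r : Fin n → Polynomial Ω, ∀ i, r i = f i + X * m := ⟨_, fun _ => rfl⟩
  have hrI : ∀ i, L.Ip (L.Ur ⊥ N) (r i) := fun i => by
    rw [hr]
    exact (hf i).add (Ld.Ip.X.mul hm.ip)
  have hrm : ∀ i, (r i).Monic ∧ (r i).natDegree = e + 1 := fun i => by
    rw [hr]
    exact cho_rad hm.monic hm.deg (hfd i)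
  have hrx : ∀ i, (r i).eval π = x i := fun i => by
    rw [hr, eval_add, eval_mul, hm.root, mul_zero, add_zero, hfx]
  choose r' hrr using fun i => (hrI i).hp
  have hr'n : ∀ i, (r' i).natDegree = e + 1 := fun i => by
    rw [((hrr i).monic (hrm i).1).2, (hrm i).2]
  have hr'd : ∀ i, 0 < (r' i).natDegree := fun i => by
    rw [hr'n]
    exact Nat.succ_pos _
  -- the weights
  have hdy1 : ∀ i, L.nm (dy (W i) (x i) (y i)) ≤ 1 := fun i => by
    rcases h.sg i with h1 | h1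
    · exact h1.le
    · exact h1.2.le
  choose δ hδ using fun i => L.hv_of (hdy1 i)
  obtain ⟨c₁, s, hs⟩ := cho_om h hr'd hδ
  obtain ⟨j₁, ω, hω, ω', hωω, hωs⟩ := Ld.exists_res s hN hl
  obtain ⟨hω0, hsep, hsum⟩ := hs ω' hωs
  obtain ⟨w, hw⟩ : ∃ w : Fin n → Ω, w = fun (i : Fin n) => ω ^ (i : ℕ) := ⟨_, rfl⟩
  obtain ⟨w', hw'⟩ : ∃ w' : Fin n → L.κ, w' = fun (i : Fin n) => ω' ^ (i : ℕ) := ⟨_, rfl⟩
  have hww : ∀ i, L.rs.Hv (w i) (w' i) := fun i => by
    rw [hw, hw']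
    exact hωω.pow i
  have hw1 : ∀ i, L.nm (w i) = 1 := fun i => (L.hv_ne (hww i)).1 (by
    rw [hw']
    exact pow_ne_zero _ hω0)
  have hwT : ∀ j, j₁ ≤ j → ∀ i, w i ∈ L.Ur (⊥ : IntermediateField K Ω) (N * l ^ j) :=
    fun j hj i => by
      rw [hw]
      exact pow_mem (Ld.te_ur (Ld.te_dvd (hpw _ _ hj) hω)) _
  have hS : ∀ S : Finset (Fin n), (∃ i ∈ S, L.nm (dy (W i) (x i) (y i)) = 1) →
      L.nm (∑ i ∈ S, w i * dy (W i) (x i) (y i)) = 1 := by
    rintro S ⟨i, hi, hi1⟩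
    have h1 : L.rs.Hv (∑ i ∈ S, w i * dy (W i) (x i) (y i)) (∑ i ∈ S, w' i * δ i) :=
      hv_sum (fun i => (hww i).mul (hδ i)) S
    refine (L.hv_ne h1).1 ?_
    rw [hw']
    exact hsum S ⟨i, hi, (L.hv_ne (hδ i)).2 hi1⟩
  obtain ⟨H, hH⟩ : ∃ H, H = Tg (fun i => L.rc (W i)) r' w' := ⟨_, rfl⟩
  rw [← hw', ← hH] at hsep
  have hHm : H.Monic := by
    rw [hH]
    exact (tg_mc (fun i => L.rc (W i)) (fun i => (hr'n i).le) w').monic
  -- the function `A₀`
  choose a' haa using fun i => (ha i).hp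
  obtain ⟨A₀, hA₀⟩ : ∃ A₀ : Polynomial Ω, A₀ = ∑ i, C (w i) * a i := ⟨_, rfl⟩
  obtain ⟨A₀', hA₀'⟩ : ∃ A₀' : Polynomial L.κ, A₀' = ∑ i, C (w' i) * a' i := ⟨_, rfl⟩
  have hAA₀ : L.Hp A₀ A₀' := by
    rw [hA₀, hA₀']
    exact hp_sum (fun i => (Ld.Hp.C (hww i)).mul (haa i)) _
  have hA₀I : ∀ j, j₁ ≤ j → L.Ip (L.Ur ⊥ (N * l ^ j)) A₀ := fun j hj => by
    rw [hA₀]
    exact ip_sum (fun i => (Ld.Ip.C (hwT j hj i) (hw1 i).le).mul ((ha i).mono (hle0 j))) _
  have hA₀π : A₀.eval π = ∑ i, w i * y i := by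
    rw [hA₀, eval_finsetSum]
    exact Finset.sum_congr rfl fun i _ => by rw [eval_mul, eval_C, hay]
  have hA₀d : A₀.natDegree < 2 * e + 3 := by
    have h1 : A₀.natDegree ≤ e := by
      rw [hA₀]
      refine natDegree_sum_le_of_forall_le _ _ fun i _ => ?_
      exact (natDegree_C_mul_le _ _).trans (had i).le
    omega
  have hmm : L.Hp m (X ^ e) := by
    have h1 := hm.red 0 Rs.Hv.zero
    rwa [C_0, sub_zero] at h1
  -- `μ`
  obtain ⟨s₁, hs₁⟩ := gen_gr H hHm c₁ hsep A₀' e (e + 3)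
  obtain ⟨j₂, μ, hμ, μ', hμ', hμs⟩ := Ld.exists_res s₁ hN hl
  obtain ⟨s₂, hs₂⟩ := hs₁ μ' hμs
  have hμ1 : L.nm μ ≤ 1 := L.hv_int hμ'
  obtain ⟨A₁, hA₁⟩ : ∃ A₁ : Polynomial Ω, A₁ = A₀ + m * (X ^ (e + 3) + C μ * X) := ⟨_, rfl⟩
  have hA₁I : ∀ j, j₁ ≤ j → j₂ ≤ j → L.Ip (L.Ur ⊥ (N * l ^ j)) A₁ := by
    intro j h1 h2
    rw [hA₁]
    have hμj : μ ∈ L.Ur (⊥ : IntermediateField K Ω) (N * l ^ j) := Ld.te_ur (Ld.te_dvd (hpw _ _ h2) hμ)
    exact (hA₀I j h1).add ((hm.ip.mono (hle0 j)).mul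
      (Ld.Ip.add (Ld.Ip.pow Ld.Ip.X _) (Ld.Ip.mul (Ld.Ip.C hμj hμ1) Ld.Ip.X)))
  have hA₁π : A₁.eval π = ∑ i, w i * y i := by
    rw [hA₁, eval_add, eval_mul, hm.root, zero_mul, add_zero, hA₀π]
  have hj12 : j₁ ≤ max j₁ j₂ ∧ j₂ ≤ max j₁ j₂ := ⟨le_max_left _ _, le_max_right _ _⟩
  have hD₀ : l ^ max j₁ j₂ ≠ 0 := pow_ne_zero _ hl0
  obtain ⟨s₃, hs₃⟩ := va_zero h hm hu hD₀ (fun i => (hrI i).mono (hle0 _)) hrx (hwT _ hj12.1) hw1
    (hA₁I _ hj12.1 hj12.2) hA₁π hS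
  obtain ⟨j₃, lam, hlam, lam', hlam', hlams⟩ := Ld.exists_res (s₂ ∪ s₃) hN hl
  rw [Finset.mem_union, not_or] at hlams
  -- `b`
  obtain ⟨sb, hsb⟩ := sep_fin hHm hsep
  obtain ⟨j₄, b, hbI, hbm, hbd, hbz⟩ := cho_b (K := K) (Ω := Ω) (L := L) sb hN hl
    (2 * (e + 1) + 1)
  -- the field
  obtain ⟨j, hj⟩ : ∃ j, j = max (max (max j₁ j₂) j₃) j₄ := ⟨_, rfl⟩
  have hj1 : max j₁ j₂ ≤ j := by
    rw [hj]
    exact (le_max_left _ _).trans (le_max_left _ _)
  have hj3 : j₃ ≤ j := by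
    rw [hj]
    exact (le_max_right _ _).trans (le_max_left _ _)
  have hj4 : j₄ ≤ j := by
    rw [hj]
    exact le_max_right _ _
  have hlj : l ^ j ≠ 0 := pow_ne_zero _ hl0
  have hNj : N * l ^ j ≠ 0 := mul_ne_zero hN hlj
  have hlam1 : L.nm lam ≤ 1 := L.hv_int hlam'
  have hlamj : lam ∈ L.Ur (⊥ : IntermediateField K Ω) (N * l ^ j) :=
    Ld.te_ur (Ld.te_dvd (hpw _ _ hj3) hlam)
  have hwj := hwT j (hj12.1.trans hj1)
  have hrIj : ∀ i, L.Ip (L.Ur ⊥ (N * l ^ j)) (r i) := fun i => (hrI i).mono (hle0 j)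
  have hv1 := hs₃ lam lam' ⟨l ^ j, hlj, pow_dvd_pow l hj1, hlamj⟩ hlam' hlams.2
  obtain ⟨A, hA⟩ : ∃ A, A = A₁ + C lam * m := ⟨_, rfl⟩
  rw [← hA] at hv1
  have hAI : L.Ip (L.Ur ⊥ (N * l ^ j)) A := by
    rw [hA]
    exact Ld.Ip.add (hA₁I j (hj12.1.trans hj1) (hj12.2.trans hj1))
      (Ld.Ip.mul (Ld.Ip.C hlamj hlam1) (hm.ip.mono (hle0 j)))
  have hAπ : A.eval π = ∑ i, w i * y i := by
    rw [hA, eval_add, eval_mul, hm.root, mul_zero, add_zero, hA₁π]
  have hAA : L.Hp A (A₀' + X ^ e * (X ^ (e + 3) + C μ' * X + C lam')) := by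
    have h1 : A = A₀ + m * (X ^ (e + 3) + C μ * X + C lam) := by
      rw [hA, hA₁]
      ring
    rw [h1]
    exact Ld.Hp.add hAA₀ (Ld.Hp.mul hmm (Ld.Hp.add (Ld.Hp.add (Ld.Hp.pow Ld.Hp.X _)
      (Ld.Hp.mul (Ld.Hp.C hμ') Ld.Hp.X)) (Ld.Hp.C hlam')))
  have hAm : A.Monic ∧ A.natDegree = 2 * e + 3 := by
    have h1 : A = A₀ + m * (X ^ (e + 3) + (C μ * X + C lam)) := by
      rw [hA, hA₁]
      ring
    rw [h1]
    exact cho_deg hm.monic hm.deg hA₀d μ lam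
  -- the polynomial `Θ(z, A(z))`
  obtain ⟨ν, hν⟩ : ∃ ν, ν = (To Ω W r w).eval A := ⟨_, rfl⟩
  rw [← hν] at hv1
  have hνI : L.Ip (L.Ur ⊥ (N * l ^ j)) ν := by
    rw [hν]
    exact tg_ip hIt hrIj hwj (fun i => (hw1 i).le) hAI
  have hνm : ν.Monic := by
    rw [hν]
    refine tg_monic (fun i => (W i).baseChange Ω) (fun i => (hrm i).2.le) w hAm.1 ?_
    rw [hAm.2]
    omega
  have hνπ : ν.eval π = 0 := by
    have h1 : Rt w (fun i => ((W i).baseChange Ω).a₁ * x i + ((W i).baseChange Ω).a₃)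
      (fun i => x i ^ 3 + ((W i).baseChange Ω).a₂ * x i ^ 2 + ((W i).baseChange Ω).a₄ * x i +
        ((W i).baseChange Ω).a₆) (∑ i, w i * y i) y := rt_fe.2 ⟨h.eq, rfl⟩
    have h2 : (fun i => (r i).eval π) = x := funext hrx
    rw [hν, tg_evA, h2, hAπ]
    exact rt_root h1
  have hνν : L.Hp ν (H.eval (A₀' + X ^ e * (X ^ (e + 3) + C μ' * X + C lam'))) := by
    rw [hν, hH]
    exact tg_hp hIt hrr hww hAA
  obtain ⟨m', hm'I, hfac, hm'0⟩ := va_fac hm hlj hN hνI hνπ hv1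
  have hRm : Rm (L.Ur ⊥ (N * l ^ j)) (To Ω W r w) :=
    tg_rm (fun i k => (hrIj i k).1) hwj
  have hmz : ∀ z, m.eval z = 0 → ν.eval z = 0 := fun z hz => by
    rw [hfac, eval_mul, hz, zero_mul]
  refine ⟨j, r, w, A, b, ⟨hrIj, fun i => (hrm i).2.le, hwj, hAI, hAm.1, ?_,
    hbI.mono (Ld.ur_dvd ⊥ (hpw _ _ hj4)), hbm, hbd, ?_, ?_, ?_⟩, hrx, hAπ⟩
  · rw [hAm.2]
    ring
  · intro z hz
    rw [← hν] at hz
    rw [← hν]
    obtain ⟨hd, hz1, hz2⟩ := va_roots hm hlj hνI hνm hνν hm'I hfac hm'0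
      (fun c hc hc' => (hs₂ lam' hlams.1 c hc hc').1) hz
    refine ⟨hd, ?_⟩
    rcases hz2 with ⟨-, h0⟩ | ⟨h1, h2⟩
    · refine ⟨?_, Or.inl h0⟩
      obtain ⟨γ, hγ, rfl⟩ := hm.conj (l ^ j) hlj z h0
      rw [gal_eval (fun i => (hAI i).1) hγ, hAπ, gal_ev (rm_dY hRm) hγ]
      exact (map_ne_zero γ).2 (cho_der h hw1 hS hrx)
    · obtain ⟨N', hN', -, hzN'⟩ := Ld.root_ur hNj hνI hνm hz h2
      refine ⟨?_, Or.inr ⟨N', hN', hzN'⟩⟩
      obtain ⟨ζ, hζ⟩ := L.hv_of hz1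
      have h3 : ζ ≠ 0 := (L.hv_ne hζ).2 h1
      have h4 := hνν.eval hζ
      rw [hz] at h4
      have h5 := (hs₂ lam' hlams.1 ζ h3 (h4.uniq Rs.Hv.zero)).2
      rw [hH] at h5
      have hAz1 : L.nm (A.eval z) ≤ 1 := L.hv_int (hAA.eval hζ)
      have h6 : (Tf (fun i => (W i).baseChange Ω) w fun i => (r i).eval z).eval (A.eval z) = 0 := by
        rw [← tg_evA, ← hz, hν]
      have h7 := cho_fib hIt hrr hww hζ h5 hAz1 h6
      rw [tg_dY]
      exact L.ne_zero (by rw [h7]; exact zero_lt_one)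
  · intro z hz
    rw [← hν]
    exact hmz z hz
  · intro z hz
    obtain ⟨hd, hzT, ρ, hρ, hρs⟩ := hbz z hz
    have hzU : z ∈ L.Ur (⊥ : IntermediateField K Ω) (N * l ^ j) :=
      Ld.te_ur (Ld.te_dvd (hpw _ _ hj4) hzT)
    refine ⟨hd, ⟨N * l ^ j, hNj, hzU⟩, fun T hT => ?_⟩
    rw [tg_ev] at hT
    have hz1 : L.nm z ≤ 1 := L.hv_int hρ
    have hTfI : L.Ip (L.Ur ⊥ (N * l ^ j))
        (Tf (fun i => (W i).baseChange Ω) w fun i => (r i).eval z) :=
      tf_ip hIt hwj (fun i => (hw1 i).le) (fun i => ((hrIj i).eval hzU hz1).1)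
        fun i => ((hrIj i).eval hzU hz1).2
    have hTfm : (Tf (fun i => (W i).baseChange Ω) w fun i => (r i).eval z).Monic :=
      (th_monic _ _ _).1
    have hT1 : L.nm T ≤ 1 := L.root_le hTfm (fun i => (hTfI i).2) hT
    have hsz := hsb ρ hρs
    rw [hH] at hsz
    have h7 := cho_fib hIt hrr hww hρ hsz hT1 hT
    obtain ⟨N', hN', -, hTN'⟩ := Ld.root_ur hNj hTfI hTfm hT h7
    refine ⟨?_, N', hN', hTN'⟩
    rw [tg_dY]
    exact L.ne_zero (by rw [h7]; exact zero_lt_one)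

end NE
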