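import Pool.Agent.Lib.MP_f80667_ag.Nf.Df
import Pool.Agent.Lib.MP_f80667_ag.Cv.HdB

/-! Norms of unramified cycles. -/

open ZC BE PE Polynomial IntermediateField CV GM

namespace NE

variable {F : Type} [Field F] {K Ω : Type} [Field K] [Field Ω] [Algebra K Ω] [Algebra F K]
  [Algebra F Ω] [IsScalarTower F K Ω] [CharZero K] [IsAlgClosure K Ω]

/-- The unramified cycles over `U = Ur ⊥ N` are generated by norms of unramified points. -/
private theorem uk_gen {L : Ld K Ω} {V : Vr F} [Hf V] {N : ℕ} (hN : N ≠ 0)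
    {z : V.pt Ω →₀ ℤ} (hz : z ∈ Uk L V (L.Ur ⊥ N)) :
    z ∈ AddSubgroup.closure {z | ∃ (N' : ℕ) (M' : IntermediateField K Ω) (x : V.pt Ω),
      N' ≠ 0 ∧ L.Ur ⊥ N ≤ M' ∧ M' ≤ L.Ur ⊥ N' ∧ FiniteDimensional K M' ∧ Fp V M' x ∧
      z = Nm (L.Ur ⊥ N) M' (Finsupp.single x 1)} := by
  classical
  induction hn : z.support.card using Nat.strong_induction_on generalizing z with
  | _ n ih =>
    by_cases h0 : z = 0
    · rw [h0]
      exact zero_mem _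
    obtain ⟨hzf, hzs⟩ := hz
    obtain ⟨x, hx⟩ := Finsupp.support_nonempty_iff.2 h0
    obtain ⟨N₀, hN₀, hfp⟩ := hzs x hx
    have hfU : FiniteDimensional K (L.Ur ⊥ N) := Ld.ur_fin ⊥ N hN
    have hfU₀ : FiniteDimensional K (L.Ur ⊥ N₀) := Ld.ur_fin ⊥ N₀ hN₀
    let H : Subgroup (Ω ≃ₐ[K] Ω) := (L.Ur ⊥ N).fixingSubgroup ⊓
      MulAction.stabilizer (Ω ≃ₐ[K] Ω) (Finsupp.single x 1 : V.pt Ω →₀ ℤ)
    have hopn : opn K Ω H := by
      refine ⟨L.Ur ⊥ N ⊔ L.Ur ⊥ N₀, inferInstance, fun γ hγ => ⟨fix_le le_sup_left hγ, ?_⟩⟩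
      exact fx_single hfp 1 γ (fix_le le_sup_right hγ)
    obtain ⟨M', hM', hH⟩ := exists_fix hopn
    have hle : L.Ur ⊥ N ≤ M' := le_of_fix_le (by rw [hH]; exact inf_le_left)
    have hx' : Fp V M' x := fp_of_fx fun γ hγ => by
      rw [hH] at hγ
      exact hγ.2
    have hle' : M' ≤ L.Ur ⊥ (N * N₀) := by
      refine le_of_fix_le fun γ hγ => ?_
      rw [hH]
      refine ⟨fix_le (Ld.ur_dvd ⊥ (Dvd.intro N₀ rfl)) hγ, ?_⟩
      exact fx_single hfp 1 γ (fix_le (Ld.ur_dvd ⊥ (Dvd.intro_left N rfl)) hγ)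
    -- values of `z` on the orbit
    have hinj : ∀ γ : Ω ≃ₐ[K] Ω, Function.Injective (V.act γ) := fun γ p q hpq => by
      have e := congrArg (V.act γ⁻¹) hpq
      rwa [← act_mul Hf.out, ← act_mul Hf.out, inv_mul_cancel, act_one Hf.out,
        act_one Hf.out] at e
    have hval : ∀ γ ∈ (L.Ur ⊥ N).fixingSubgroup, z (V.act γ x) = z x := by
      intro γ hγ
      calc z (V.act γ x) = (Finsupp.mapDomain (V.act γ) z) (V.act γ x) := by
            rw [← CV.smul_def, hzf γ hγ]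
        _ = z x := Finsupp.mapDomain_apply (hinj γ) z _
    let O : Finset (V.pt Ω) :=
      z.support.filter fun x' => ∃ γ ∈ (L.Ur ⊥ N).fixingSubgroup, V.act γ x = x'
    have hO : ∀ x', x' ∈ O ↔ ∃ γ ∈ (L.Ur ⊥ N).fixingSubgroup, V.act γ x = x' := by
      intro x'
      rw [Finset.mem_filter, and_iff_right_iff_imp]
      rintro ⟨γ, hγ, rfl⟩
      rw [Finsupp.mem_support_iff, hval γ hγ]
      exact Finsupp.mem_support_iff.1 hx
    have hNm : Nm (L.Ur ⊥ N) M' (Finsupp.single x 1 : V.pt Ω →₀ ℤ) =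
        ∑ x' ∈ O, Finsupp.single x' 1 := by
      rw [nm_conj hle (P := (Finsupp.single x 1 : V.pt Ω →₀ ℤ)) (fun γ hγ => ?_)
        (O.map ⟨fun x' => Finsupp.single x' 1, Finsupp.single_left_injective one_ne_zero⟩)
        (fun Q => ?_), Finset.sum_map]
      · rfl
      · rw [hH]
        exact ⟨fun e => ⟨hγ, e⟩, fun e => e.2⟩
      · rw [Finset.mem_map]
        constructor
        · rintro ⟨x', hx', rfl⟩
          obtain ⟨γ, hγ, rfl⟩ := (hO x').1 hx'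
          exact ⟨γ, hγ, (smul_single γ x 1).symm⟩
        · rintro ⟨γ, hγ, rfl⟩
          exact ⟨V.act γ x, (hO _).2 ⟨γ, hγ, rfl⟩, (smul_single γ x 1).symm⟩
    have hfN : Fx (L.Ur ⊥ N) (Nm (L.Ur ⊥ N) M' (Finsupp.single x 1 : V.pt Ω →₀ ℤ)) :=
      nm_fx hle (fx_single hx' 1)
    have hfz : Fx (L.Ur ⊥ N) (z x • Nm (L.Ur ⊥ N) M' (Finsupp.single x 1 : V.pt Ω →₀ ℤ)) :=
      fun γ hγ => by rw [smul_comm, hfN γ hγ]
    have hvalz : ∀ x', (z - z x • Nm (L.Ur ⊥ N) M' (Finsupp.single x 1 : V.pt Ω →₀ ℤ)) x' =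
        if x' ∈ O then 0 else z x' := by
      intro x'
      rw [Finsupp.sub_apply, Finsupp.smul_apply, hNm, Finsupp.finsetSum_apply]
      simp only [Finsupp.single_apply]
      rw [Finset.sum_ite_eq' O x']
      split_ifs with h1
      · obtain ⟨γ, hγ, rfl⟩ := (hO x').1 h1
        rw [hval γ hγ, smul_eq_mul, mul_one, sub_self]
      · rw [smul_zero, sub_zero]
    have hsub : (z - z x • Nm (L.Ur ⊥ N) M'
        (Finsupp.single x 1 : V.pt Ω →₀ ℤ)).support ⊆ z.support := by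
      intro x' hx'
      rw [Finsupp.mem_support_iff, hvalz] at hx'
      rw [Finsupp.mem_support_iff]
      intro e
      apply hx'
      rw [e, ite_self]
    have hcard : (z - z x • Nm (L.Ur ⊥ N) M'
        (Finsupp.single x 1 : V.pt Ω →₀ ℤ)).support.card < n := by
      rw [← hn]
      refine Finset.card_lt_card ((Finset.ssubset_iff_of_subset hsub).2 ⟨x, hx, ?_⟩)
      rw [Finsupp.mem_support_iff, hvalz, if_pos ((hO x).2 ⟨1, Subgroup.one_mem _,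
        act_one Hf.out x⟩)]
      exact fun e => e rfl
    have h1 := ih _ hcard (z := z - z x • Nm (L.Ur ⊥ N) M'
      (Finsupp.single x 1 : V.pt Ω →₀ ℤ)) ⟨hzf.sub hfz, fun y hy => hzs y (hsub hy)⟩ rfl
    have h3 : Nm (L.Ur ⊥ N) M' (Finsupp.single x 1 : V.pt Ω →₀ ℤ) ∈ AddSubgroup.closure
        {z | ∃ (N' : ℕ) (M' : IntermediateField K Ω) (x : V.pt Ω),
          N' ≠ 0 ∧ L.Ur ⊥ N ≤ M' ∧ M' ≤ L.Ur ⊥ N' ∧ FiniteDimensional K M' ∧ Fp V M' x ∧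
          z = Nm (L.Ur ⊥ N) M' (Finsupp.single x 1)} :=
      AddSubgroup.subset_closure
        ⟨N * N₀, M', x, mul_ne_zero hN hN₀, hle, hle', hM', hx', rfl⟩
    have h2 := add_mem h1 (zsmul_mem h3 (z x))
    rwa [sub_add_cancel] at h2

/-- The norm of an unramified cycle. Proof: as `fx_gen` (`Cv/HdB.lean`): a cycle over `U` is a sum of norms from the fields of
definition `M'` of its points, `U ≤ M' ≤ Ur ⊥ N'`; `nm_tr`. -/
theorem uk_uv {L : Ld K Ω} {V : Vr F} [Hf V] {N : ℕ} (hN : N ≠ 0)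
    {z : V.pt Ω →₀ ℤ} (hz : z ∈ Uk L V (L.Ur ⊥ N)) :
    Nm (⊥ : IntermediateField K Ω) (L.Ur ⊥ N) z ∈ Uv L V := by
  have hfU : FiniteDimensional K (L.Ur ⊥ N) := Ld.ur_fin ⊥ N hN
  have hadd : ∀ P Q : V.pt Ω →₀ ℤ, Nm (⊥ : IntermediateField K Ω) (L.Ur ⊥ N) (P + Q) =
      Nm ⊥ (L.Ur ⊥ N) P + Nm ⊥ (L.Ur ⊥ N) Q := fun P Q => nm_add bot_le P Q
  let f : (V.pt Ω →₀ ℤ) →+ (V.pt Ω →₀ ℤ) :=
    AddMonoidHom.mk' (fun P => Nm (⊥ : IntermediateField K Ω) (L.Ur ⊥ N) P) hadd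
  have key : AddSubgroup.closure {z | ∃ (N' : ℕ) (M' : IntermediateField K Ω) (x : V.pt Ω),
      N' ≠ 0 ∧ L.Ur ⊥ N ≤ M' ∧ M' ≤ L.Ur ⊥ N' ∧ FiniteDimensional K M' ∧ Fp V M' x ∧
      z = Nm (L.Ur ⊥ N) M' (Finsupp.single x 1)} ≤ (Uv L V).comap f := by
    rw [AddSubgroup.closure_le]
    rintro w ⟨N', M', x, hN', hle, hle', hM', hx, rfl⟩
    change Nm (⊥ : IntermediateField K Ω) (L.Ur ⊥ N)
      (Nm (L.Ur ⊥ N) M' (Finsupp.single x 1)) ∈ Uv L V
    rw [← nm_tr bot_le hle (fx_single hx 1)]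
    exact AddSubgroup.subset_closure ⟨N', M', x, hN', hle', hx, rfl⟩
  exact key (uk_gen hN hz)

end NE
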