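import Pool.Agent.Lib.MP_f80667_ag.Nf.Df
import Pool.Agent.Lib.MP_f80667_ag.Pe.Tm
import Pool.Agent.Lib.MP_f80667_ag.Pe.GbZ
import Pool.Agent.Lib.MP_f80667_ag.Cv.Eis

/-! Degrees. -/

open ZC BE PE Polynomial IntermediateField CV GM

namespace NE

variable {F : Type} [Field F] {K Ω : Type} [Field K] [Field Ω] [Algebra K Ω] [Algebra F K]
  [Algebra F Ω] [IsScalarTower F K Ω] [CharZero K] [IsAlgClosure K Ω] {L : Ld K Ω} [L.Unr]

/-- The degree. Proof: `Nm M (Ur M (N l ^ j)) [P] = d [P]` with `d` the index, a power of `l` (`ur_cyc`, `exists_frob`, `rf_frob`: `d = l ^ j`);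
`nm_const`. -/
theorem nm_deg {M : IntermediateField K Ω} [FiniteDimensional K M] {N : ℕ} (hM : L.Rf M N) {D : ℕ}
    (hD : D ≠ 0) {V : Vr F} [Hf V] {P : V.pt Ω} (hP : Fp V M P) :
    Nm M (L.Ur M (N * D)) (Finsupp.single P (1 : ℤ) : V.pt Ω →₀ ℤ) =
      D • (Finsupp.single P (1 : ℤ) : V.pt Ω →₀ ℤ) := by
  have hfin : FiniteDimensional K (L.Ur M (N * D)) := Ld.ur_fin M (N * D) (mul_ne_zero hM.ne hD)
  rw [nm_const Ld.ur_le (fx_single hP 1), Ld.gbz_deg hM hD]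

/-- Every `M` has an `N` with `Rf M N`. Proof: `exists_frob`, `frob_q`, `frob_te`. -/
theorem exists_rfM (M : IntermediateField K Ω) [FiniteDimensional K M] : ∃ N : ℕ, L.Rf M N := by
  obtain ⟨N, -, h⟩ := exists_ur (L := L) M
  exact ⟨N, h⟩

end NE
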