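import Pool.Agent.Lib.MP_f80667_ag.Nf.Df
import Pool.Agent.Lib.MP_f80667_ag.Cv.NfD2

/-!
The local theorem for a product of several varieties from the theorem for two varieties: the results of `Cv/NfA.lean`,
`Cv/NfC.lean`, `Cv/NfC2.lean`, `Cv/NfD.lean`, `Cv/NfD2.lean` for arbitrary varieties in the place of curves.
-/

open ZC BE PE Polynomial IntermediateField CV

namespace NE

variable {F : Type} [Field F] {K Ω : Type} [Field K] [Field Ω] [Algebra K Ω] [Algebra F K]
  [Algebra F Ω] [IsScalarTower F K Ω] [CharZero K] [IsAlgClosure K Ω] {L : Ld K Ω}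
  {ι : Type} {V : ι → Vr F} [∀ i, Hf (V i)] [∀ i, Kp (V i)]

/-- One coordinate of the new point. -/
private theorem nfA_coord {S₀ : Vr F} {M : IntermediateField K Ω} (D : Vr F) [Kp D]
    (f : S₀.pt Ω → D.pt Ω)
    (hf : (∃ φ : Mo S₀ D, ∀ x, f x = φ.f Ω x) ∨ ∃ y : D.pt Ω, Fp D M y ∧ ∀ x, f x = y)
    (E : Type) [Field E] [Algebra M E] [Algebra F E] [IsScalarTower F M E]
    (x : S₀.pt (AlgebraicClosure E)) (hx : S₀.Rat E x) :
    ∃ x' : D.pt (AlgebraicClosure E), D.Rat E x' ∧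
      ∀ (W : Place M (AlgebraicClosure E) Ω) (p : S₀.pt Ω), S₀.red W x p → D.red W x' (f p) := by
  rcases hf with ⟨φ, hφ⟩ | ⟨y, hy, hfy⟩
  · refine ⟨φ.f _ x, fun σ => ?_, fun W p hp => ?_⟩
    · change D.map _ (φ.f _ x) = φ.f _ x
      rw [φ.nat]
      exact congrArg (φ.f _) (hx σ)
    · rw [hφ]
      exact φ.red _ _ _ W x p hp
  · obtain ⟨x', hx', hr⟩ := Kp.cst K Ω M y hy E
    refine ⟨x', hx', fun W p _ => ?_⟩
    rw [hfy]
    exact hr W

/-- Proof: as `Mo.ratEq` (`Cv/Mo.lean`); a point of `C i` over `M` is the constant point over the algebraic closure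
of the function field `E / M` (`fp_val`), its value at every place `W` over `M` is the point (`W.mem`, `W.res_k`). -/
private theorem mor_ratEq {S₀ : Vr F} {M : IntermediateField K Ω}
    (f : S₀.pt Ω → (Vpi V).pt Ω)
    (hf : ∀ i, (∃ φ : Mo S₀ (V i), ∀ x, f x i = φ.f Ω x) ∨
      ∃ y : (V i).pt Ω, Fp (V i) M y ∧ ∀ x, f x i = y)
    {z : S₀.pt Ω →₀ ℤ} (hz : z ∈ S₀.ratEq M Ω) :
    Finsupp.mapDomain f z ∈ (Vpi V).ratEq M Ω := by
  have h : S₀.ratEq M Ω ≤ ((Vpi V).ratEq M Ω).comap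
      (Finsupp.mapDomain.addMonoidHom f) := by
    rw [Vr.ratEq, AddSubgroup.closure_le]
    rintro _ ⟨E, i1, i2, i3, i4, hE, g, x, hg, hx, S, m, y, hS, hv, rfl⟩
    change Finsupp.mapDomain f _ ∈ (Vpi V).ratEq M Ω
    rw [Finsupp.mapDomain_finsetSum]
    choose x' hx' hr using fun i => nfA_coord (V i) (fun p => f p i) (hf i) E x hx
    refine AddSubgroup.subset_closure ⟨E, i1, i2, i3, i4, hE, g, x', hg, fun σ => ?_, S, m,
      fun w => f (y w), hS, fun w hw => ⟨(hv w hw).1, ?_⟩, ?_⟩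
    · exact funext fun i => hx' i σ
    · obtain ⟨W, h1, h2, h3⟩ := (hv w hw).2
      exact ⟨W, h1, h2, fun i => hr i W (y w) h3⟩
    · refine Finset.sum_congr rfl fun w _ => ?_
      rw [Finsupp.mapDomain_single]
  exact h hz


open Classical in
/-- One coordinate changed. -/
private noncomputable def v₁ (w : (Vpi V).pt Ω) (i : ι) (p : (V i).pt Ω) :
    (Vpi V).pt Ω := Function.update (β := fun i => (V i).pt Ω) w i p

open Classical in
/-- Two coordinates changed. -/
private noncomputable def v₂ (w : (Vpi V).pt Ω) (i j : ι)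
    (p : (Vpr (V i) (V j)).pt Ω) : (Vpi V).pt Ω :=
  Function.update (β := fun i => (V i).pt Ω)
    (Function.update (β := fun i => (V i).pt Ω) w i p.1) j p.2

private theorem v₁_s (w : (Vpi V).pt Ω) (i : ι) (p : (V i).pt Ω) : v₁ w i p i = p := by
  classical
  exact Function.update_self (β := fun i => (V i).pt Ω) i p w

private theorem v₁_n (w : (Vpi V).pt Ω) {i j : ι} (h : j ≠ i) (p : (V i).pt Ω) :
    v₁ w i p j = w j := by
  classical
  exact Function.update_of_ne (β := fun i => (V i).pt Ω) h p w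

private theorem v₂_s (w : (Vpi V).pt Ω) (i j : ι) (p : (Vpr (V i) (V j)).pt Ω) :
    v₂ w i j p j = p.2 := by
  classical
  exact Function.update_self (β := fun i => (V i).pt Ω) j p.2 _

private theorem v₂_n (w : (Vpi V).pt Ω) {i j l : ι} (h : l ≠ j) (p : (Vpr (V i) (V j)).pt Ω) :
    v₂ w i j p l = v₁ w i p.1 l := by
  classical
  exact Function.update_of_ne (β := fun i => (V i).pt Ω) h p.2 _

private theorem v₂_sp (w : (Vpi V).pt Ω) (i j : ι) (a : (V i).pt Ω) (b : (V j).pt Ω) :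
    v₂ w i j (a, b) j = b := v₂_s w i j (a, b)

private theorem v₂_np (w : (Vpi V).pt Ω) {i j l : ι} (h : l ≠ j) (a : (V i).pt Ω)
    (b : (V j).pt Ω) : v₂ w i j (a, b) l = v₁ w i a l := v₂_n w h (a, b)

private theorem v₁_act {M : IntermediateField K Ω} {w : (Vpi V).pt Ω}
    (hw : Fp (Vpi V) M w) (i : ι) (p : (V i).pt Ω) {γ : Ω ≃ₐ[K] Ω}
    (hγ : γ ∈ M.fixingSubgroup) : (Vpi V).act γ (v₁ w i p) =
      v₁ w i ((V i).act γ p) := by
  funext j
  change (V j).act γ (v₁ w i p j) = v₁ w i ((V i).act γ p) j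
  rcases eq_or_ne j i with rfl | h
  · rw [v₁_s, v₁_s]
  · rw [v₁_n w h, v₁_n w h]
    exact congrFun (hw γ hγ) j

private theorem v₂_act {M : IntermediateField K Ω} {w : (Vpi V).pt Ω}
    (hw : Fp (Vpi V) M w) (i j : ι) (p : (Vpr (V i) (V j)).pt Ω) {γ : Ω ≃ₐ[K] Ω}
    (hγ : γ ∈ M.fixingSubgroup) : (Vpi V).act γ (v₂ w i j p) =
      v₂ w i j ((Vpr (V i) (V j)).act γ p) := by
  funext l
  change (V l).act γ (v₂ w i j p l) = v₂ w i j ((V i).act γ p.1, (V j).act γ p.2) l
  rcases eq_or_ne l j with rfl | h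
  · rw [v₂_s, v₂_sp]
  · rw [v₂_n w h, v₂_np w h]
    rcases eq_or_ne l i with rfl | h'
    · rw [v₁_s, v₁_s]
    · rw [v₁_n w h', v₁_n w h']
      exact congrFun (hw γ hγ) l

/-- Proof: `mor_ratEq`. -/
private theorem v₂_ratEq {M : IntermediateField K Ω} {w : (Vpi V).pt Ω}
    (hw : Fp (Vpi V) M w) {i j : ι} (hij : i ≠ j)
    {z : (Vpr (V i) (V j)).pt Ω →₀ ℤ} (hz : z ∈ (Vpr (V i) (V j)).ratEq M Ω) :
    Finsupp.mapDomain (v₂ w i j) z ∈ (Vpi V).ratEq M Ω := by
  refine mor_ratEq (v₂ w i j) (fun l => ?_) hz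
  rcases eq_or_ne l j with rfl | h
  · exact Or.inl ⟨⟨fun L _ _ x => x.2, fun _ _ _ _ _ _ _ _ => rfl,
      fun _ _ _ _ _ _ _ _ _ _ _ _ _ h => h.2⟩, fun x => v₂_s w i l x⟩
  · rcases eq_or_ne l i with rfl | h'
    · exact Or.inl ⟨⟨fun L _ _ x => x.1, fun _ _ _ _ _ _ _ _ => rfl,
        fun _ _ _ _ _ _ _ _ _ _ _ _ _ h => h.1⟩, fun x =>
          (v₂_n w h x).trans (v₁_s w l x.1)⟩
    · exact Or.inr ⟨w l, fun γ hγ => congrFun (hw γ hγ) l, fun x =>
        (v₂_n w h x).trans (v₁_n w h' x.1)⟩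

section base

variable (o : ∀ i, Bp (V i))

/-- The cycles generated by the symbols in two coordinates. -/
private noncomputable def Ts (M : IntermediateField K Ω) :
    AddSubgroup ((Vpi V).pt Ω →₀ ℤ) :=
  AddSubgroup.closure {z | ∃ (i j : ι) (w : (Vpi V).pt Ω) (p : (V i).pt Ω)
    (q : (V j).pt Ω), i ≠ j ∧ Fp (Vpi V) M w ∧ Fp (V i) M p ∧ Fp (V j) M q ∧
    z = Finsupp.mapDomain (v₂ w i j) (bx (rd (o i) (Finsupp.single p 1))
      (rd (o j) (Finsupp.single q 1)))}

/-- The base point. -/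
private def oV : (Vpi V).pt Ω := fun i => (o i).o Ω

variable (Ω) in
/-- The component in the Albanese kernel. -/
private noncomputable def tV [Fintype ι] : ((Vpi V).pt Ω →₀ ℤ) →+
    ((Vpi V).pt Ω →₀ ℤ) :=
  AddMonoidHom.id _ - ∑ i, Finsupp.mapDomain.addMonoidHom (fun x => v₁ (oV o) i (x i)) +
    ((Fintype.card ι : ℤ) - 1) • Finsupp.mapDomain.addMonoidHom (fun _ => oV o)

open Classical in
/-- The point `x` on `S` and the base point outside. -/
private noncomputable def xs (x : (Vpi V).pt Ω) (S : Finset ι) :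
    (Vpi V).pt Ω := fun i => if i ∈ S then x i else (o i).o Ω

private theorem bp_act (i : ι) (γ : Ω ≃ₐ[K] Ω) :
    (V i).act γ ((o i).o Ω) = (o i).o Ω :=
  (o i).nat Ω Ω _

private theorem xs_fp {M : IntermediateField K Ω} {x : (Vpi V).pt Ω}
    (hx : Fp (Vpi V) M x) (S : Finset ι) :
    Fp (Vpi V) M (xs o x S) := by
  intro γ hγ
  funext i
  change (V i).act γ (xs o x S i) = xs o x S i
  unfold xs
  split_ifs
  · exact congrFun (hx γ hγ) i
  · exact bp_act o i γ

private theorem rd_single (i : ι) (p : (V i).pt Ω) :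
    rd (o i) (Finsupp.single p 1) = Finsupp.single p 1 - Finsupp.single ((o i).o Ω) 1 := by
  rw [rd_apply]
  congr 2
  simp [Vr.deg]

open Classical in
private theorem bx_rd (w : (Vpi V).pt Ω) (i j : ι) (p : (V i).pt Ω)
    (q : (V j).pt Ω) :
    Finsupp.mapDomain (v₂ w i j) (bx (rd (o i) (Finsupp.single p 1))
      (rd (o j) (Finsupp.single q 1))) =
      (Finsupp.single (v₂ w i j (p, q)) 1 - Finsupp.single (v₂ w i j (p, (o j).o Ω)) 1 -
        Finsupp.single (v₂ w i j ((o i).o Ω, q)) 1 +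
        Finsupp.single (v₂ w i j ((o i).o Ω, (o j).o Ω)) 1 :
        (Vpi V).pt Ω →₀ ℤ) := by
  have h0 : bx (Finsupp.single p 1 - Finsupp.single ((o i).o Ω) 1)
      (Finsupp.single q 1 - Finsupp.single ((o j).o Ω) 1) =
      bx (Finsupp.single p 1) (Finsupp.single q 1) -
        bx (Finsupp.single ((o i).o Ω) 1) (Finsupp.single q 1) -
        (bx (Finsupp.single p 1) (Finsupp.single ((o j).o Ω) 1) -
          bx (Finsupp.single ((o i).o Ω) 1) (Finsupp.single ((o j).o Ω) 1)) := by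
    rw [map_sub (bx _), map_sub bx, AddMonoidHom.sub_apply, AddMonoidHom.sub_apply]
  rw [rd_single, rd_single, h0, bx_ss, bx_ss, bx_ss, bx_ss, mul_one]
  have h1 : ∀ z z' : (Vpr (V i) (V j)).pt Ω →₀ ℤ,
      Finsupp.mapDomain (v₂ w i j) (z - z') =
        Finsupp.mapDomain (v₂ w i j) z - Finsupp.mapDomain (v₂ w i j) z' := fun z z' =>
    (Finsupp.mapDomain.addMonoidHom (v₂ w i j)).map_sub z z'
  rw [h1, h1, h1, Finsupp.mapDomain_single, Finsupp.mapDomain_single, Finsupp.mapDomain_single,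
    Finsupp.mapDomain_single]
  unfold pp
  abel

open Classical in
private theorem gen_mem {M : IntermediateField K Ω} {x : (Vpi V).pt Ω}
    (hx : Fp (Vpi V) M x) {S : Finset ι} {j k : ι} (hj : j ∉ S) (hk : k ∉ S)
    (hjk : j ≠ k) :
    (Finsupp.single (xs o x (insert k (insert j S))) 1 - Finsupp.single (xs o x (insert j S)) 1 -
      Finsupp.single (xs o x (insert k S)) 1 + Finsupp.single (xs o x S) 1 :
      (Vpi V).pt Ω →₀ ℤ) ∈ Ts o M := by
  have h1 : (Finsupp.single (xs o x (insert k (insert j S))) 1 -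
      Finsupp.single (xs o x (insert j S)) 1 -
      Finsupp.single (xs o x (insert k S)) 1 + Finsupp.single (xs o x S) 1 :
      (Vpi V).pt Ω →₀ ℤ) = Finsupp.mapDomain (v₂ (xs o x S) j k)
        (bx (rd (o j) (Finsupp.single (x j) 1)) (rd (o k) (Finsupp.single (x k) 1))) := by
    rw [bx_rd]
    have e1 : v₂ (xs o x S) j k (x j, x k) = xs o x (insert k (insert j S)) := by
      funext i
      rcases eq_or_ne i k with rfl | hik
      · rw [v₂_sp]
        simp [xs]
      · rw [v₂_np _ hik]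
        rcases eq_or_ne i j with rfl | hij
        · rw [v₁_s]
          simp [xs]
        · rw [v₁_n _ hij]
          simp [xs, hik, hij]
    have e2 : v₂ (xs o x S) j k (x j, (o k).o Ω) = xs o x (insert j S) := by
      funext i
      rcases eq_or_ne i k with rfl | hik
      · rw [v₂_sp]
        simp [xs, hk, hjk.symm]
      · rw [v₂_np _ hik]
        rcases eq_or_ne i j with rfl | hij
        · rw [v₁_s]
          simp [xs]
        · rw [v₁_n _ hij]
          simp [xs, hij]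
    have e3 : v₂ (xs o x S) j k ((o j).o Ω, x k) = xs o x (insert k S) := by
      funext i
      rcases eq_or_ne i k with rfl | hik
      · rw [v₂_sp]
        simp [xs]
      · rw [v₂_np _ hik]
        rcases eq_or_ne i j with rfl | hij
        · rw [v₁_s]
          simp [xs, hj, hjk]
        · rw [v₁_n _ hij]
          simp [xs, hik]
    have e4 : v₂ (xs o x S) j k ((o j).o Ω, (o k).o Ω) = xs o x S := by
      funext i
      rcases eq_or_ne i k with rfl | hik
      · rw [v₂_sp]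
        simp [xs, hk]
      · rw [v₂_np _ hik]
        rcases eq_or_ne i j with rfl | hij
        · rw [v₁_s]
          simp [xs, hj]
        · rw [v₁_n _ hij]
    rw [e1, e2, e3, e4]
  rw [h1]
  exact AddSubgroup.subset_closure ⟨j, k, xs o x S, x j, x k, hjk, xs_fp o hx S,
    fun γ hγ => congrFun (hx γ hγ) j, fun γ hγ => congrFun (hx γ hγ) k, rfl⟩

open Classical in
private theorem step_mem {M : IntermediateField K Ω} {x : (Vpi V).pt Ω}
    (hx : Fp (Vpi V) M x) (S : Finset ι) {k : ι} (hk : k ∉ S) :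
    (Finsupp.single (xs o x (insert k S)) 1 - Finsupp.single (xs o x S) 1 -
      Finsupp.single (xs o x {k}) 1 + Finsupp.single (xs o x ∅) 1 :
      (Vpi V).pt Ω →₀ ℤ) ∈ Ts o M := by
  induction S using Finset.induction_on with
  | empty =>
    have h1 : (Finsupp.single (xs o x (insert k ∅)) 1 - Finsupp.single (xs o x ∅) 1 -
      Finsupp.single (xs o x {k}) 1 + Finsupp.single (xs o x ∅) 1 :
      (Vpi V).pt Ω →₀ ℤ) = 0 := by
      rw [insert_empty_eq]
      abel
    rw [h1]
    exact zero_mem _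
  | insert j S hj ih =>
    have hkj : k ≠ j := fun h => hk (h ▸ Finset.mem_insert_self _ _)
    have hkS : k ∉ S := fun h => hk (Finset.mem_insert_of_mem h)
    have h1 := add_mem (gen_mem o hx hj hkS hkj.symm) (ih hkS)
    have h2 : (Finsupp.single (xs o x (insert k (insert j S))) 1 -
        Finsupp.single (xs o x (insert j S)) 1 -
        Finsupp.single (xs o x {k}) 1 + Finsupp.single (xs o x ∅) 1 :
        (Vpi V).pt Ω →₀ ℤ) =
        (Finsupp.single (xs o x (insert k (insert j S))) 1 -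
          Finsupp.single (xs o x (insert j S)) 1 -
          Finsupp.single (xs o x (insert k S)) 1 + Finsupp.single (xs o x S) 1) +
        (Finsupp.single (xs o x (insert k S)) 1 - Finsupp.single (xs o x S) 1 -
          Finsupp.single (xs o x {k}) 1 + Finsupp.single (xs o x ∅) 1) := by
      abel
    rw [h2]
    exact h1

open Classical in
private theorem all_mem {M : IntermediateField K Ω} {x : (Vpi V).pt Ω}
    (hx : Fp (Vpi V) M x) (S : Finset ι) :
    (Finsupp.single (xs o x S) 1 - ∑ i ∈ S, Finsupp.single (xs o x {i}) 1 +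
      ((S.card : ℤ) - 1) • Finsupp.single (xs o x ∅) 1 :
      (Vpi V).pt Ω →₀ ℤ) ∈ Ts o M := by
  induction S using Finset.induction_on with
  | empty =>
    have h1 : (Finsupp.single (xs o x ∅) 1 - ∑ i ∈ (∅ : Finset ι), Finsupp.single (xs o x {i}) 1 +
      (((∅ : Finset ι).card : ℤ) - 1) • Finsupp.single (xs o x ∅) 1 :
      (Vpi V).pt Ω →₀ ℤ) = 0 := by
      rw [Finset.sum_empty, Finset.card_empty, Nat.cast_zero, zero_sub, neg_smul, one_smul]
      abel
    rw [h1]
    exact zero_mem _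
  | insert k S hk ih =>
    have h1 := add_mem (step_mem o hx S hk) ih
    have h2 : (Finsupp.single (xs o x (insert k S)) 1 -
        ∑ i ∈ insert k S, Finsupp.single (xs o x {i}) 1 +
        (((insert k S).card : ℤ) - 1) • Finsupp.single (xs o x ∅) 1 :
        (Vpi V).pt Ω →₀ ℤ) =
        (Finsupp.single (xs o x (insert k S)) 1 - Finsupp.single (xs o x S) 1 -
          Finsupp.single (xs o x {k}) 1 + Finsupp.single (xs o x ∅) 1) +
        (Finsupp.single (xs o x S) 1 - ∑ i ∈ S, Finsupp.single (xs o x {i}) 1 +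
          ((S.card : ℤ) - 1) • Finsupp.single (xs o x ∅) 1) := by
      rw [Finset.sum_insert hk, Finset.card_insert_of_notMem hk, Nat.cast_succ,
        add_sub_cancel_right, sub_smul, one_smul]
      abel
    rw [h2]
    exact h1

/-- Proof: for finite sets `S` of indices let `x_S` be `x` on `S` and `∞` outside: by induction on `S`,
`[x_S] - ∑ (i ∈ S) [x_{i}] + (|S| - 1) [∞] ∈ Ts`: for `k ∉ S`, `[x_(S ∪ k)] - [x_S] - [x_{k}] + [∞] ∈ Ts` by induction on
`S`: for `j ∉ S`, `j ≠ k`, `[x_(S ∪ j ∪ k)] - [x_(S ∪ j)] - [x_(S ∪ k)] + [x_S]` is the generator with `w = x_S`, `p = x j`,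
`q = x k`. -/
private theorem tele [Fintype ι] {M : IntermediateField K Ω} {x : (Vpi V).pt Ω}
    (hx : Fp (Vpi V) M x) : tV Ω o (Finsupp.single x 1) ∈ Ts o M := by
  classical
  have h1 := all_mem o hx Finset.univ
  have e0 : xs o x ∅ = oV o := by
    funext i
    simp [xs, oV]
  have e1 : xs o x Finset.univ = x := by
    funext i
    simp [xs]
  have e2 : ∀ i, xs o x {i} = v₁ (oV o) i (x i) := by
    intro i
    funext j
    rcases eq_or_ne j i with rfl | hj
    · rw [v₁_s]
      simp [xs]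
    · rw [v₁_n _ hj]
      simp [xs, oV, hj]
  rw [e0, e1, Finset.card_univ] at h1
  have h2 : tV Ω o (Finsupp.single x 1) =
      Finsupp.single x 1 - ∑ i ∈ Finset.univ, Finsupp.single (xs o x {i}) 1 +
        ((Fintype.card ι : ℤ) - 1) • Finsupp.single (oV o) 1 := by
    rw [tV, AddMonoidHom.add_apply, AddMonoidHom.sub_apply, AddMonoidHom.finsetSum_apply,
      AddMonoidHom.id_apply, AddMonoidHom.smul_apply, Finsupp.mapDomain.addMonoidHom_apply,
      Finsupp.mapDomain_single]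
    congr 2
    refine Finset.sum_congr rfl fun i _ => ?_
    rw [Finsupp.mapDomain.addMonoidHom_apply, Finsupp.mapDomain_single, e2]
  rw [h2]
  exact h1

/-- The base point of the product. -/
private def nfC2_o : Bp (Vpi V) where
  o L _ _ := fun i => (o i).o L
  nat L M _ _ _ _ σ := funext fun i => (o i).nat L M σ
  red K L Ω _ _ _ _ _ _ _ w := fun i => (o i).red K L Ω w

/-- The composite of a projection and a section. -/
private noncomputable def nfC2_s (i : ι) : Mo (Vpi V) (Vpi V) :=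
  (sc (V := V) (fun j => (o j)) i).comp (pr (V := V) i)

private theorem nfC2_s_f (i : ι) (L : Type) [Field L] [Algebra F L] :
    (nfC2_s o i).f L = fun x => v₁ (oV o) i (x i) := rfl

private theorem nfC2_c_f (L : Type) [Field L] [Algebra F L] :
    (Mo.cst (Vpi V) (nfC2_o o)).f L = fun _ => oV o := rfl

private theorem nfC2_th [Fintype ι] (L : Type) [Field L] [Algebra F L]
    (z : (Vpi V).pt L →₀ ℤ) :
    tV L o z = z - ∑ i, Finsupp.mapDomain ((nfC2_s o i).f L) z +
      ((Fintype.card ι : ℤ) - 1) •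
        Finsupp.mapDomain ((Mo.cst (Vpi V) (nfC2_o o)).f L) z := by
  rw [tV, AddMonoidHom.add_apply, AddMonoidHom.sub_apply, AddMonoidHom.finsetSum_apply]
  rfl

/-- Proof: `Mo.ratEq` for `sc i` after `pr i` and the constant morphism. -/
private theorem th_ratEq [Fintype ι] (M : Type) [Field M] [Algebra F M] [Algebra M Ω]
    {z : (Vpi V).pt Ω →₀ ℤ} (hz : z ∈ (Vpi V).ratEq M Ω) :
    tV Ω o z ∈ (Vpi V).ratEq M Ω := by
  rw [nfC2_th]
  refine add_mem (sub_mem hz (sum_mem fun i _ => (nfC2_s o i).ratEq M Ω hz)) ?_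
  exact zsmul_mem ((Mo.cst (Vpi V) (nfC2_o o)).ratEq M Ω hz) _

private theorem nfC2_const {S₀ : Vr F} {Y : Type} (o : Y) (u : S₀.pt Ω →₀ ℤ) :
    Finsupp.mapDomain (fun _ : S₀.pt Ω => o) u = Finsupp.single o (S₀.deg Ω u) := by
  induction u using Finsupp.induction_linear with
  | zero => simp
  | add f g hf hg => rw [Finsupp.mapDomain_add, hf, hg, map_add, Finsupp.single_add]
  | single a n => rw [Finsupp.mapDomain_single, Vr.deg, Finsupp.liftAddHom_apply_single]; rfl

/-- On the Albanese kernel `th` is the identity modulo `ratEq`. -/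
private theorem th_id [Fintype ι] {z : (Vpi V).pt Ω →₀ ℤ}
    (hz : z ∈ (Vpi V).D0 K Ω)
    (h : ∀ i, Finsupp.mapDomain ((pr i).f Ω) z ∈ (V i).ratEq K Ω) :
    tV Ω o z - z ∈ (Vpi V).ratEq K Ω := by
  have hdeg : (Vpi V).deg Ω z = 0 := hz.2
  have h1 : Finsupp.mapDomain ((Mo.cst (Vpi V) (nfC2_o o)).f Ω) z = 0 := by
    rw [nfC2_c_f]
    have h2 := nfC2_const (S₀ := Vpi V) (oV (Ω := Ω) o) z
    rw [hdeg, Finsupp.single_zero] at h2
    exact h2
  have h3 : tV Ω o z - z = -∑ i, Finsupp.mapDomain ((nfC2_s o i).f Ω) z := by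
    rw [nfC2_th, h1, smul_zero]
    abel
  rw [h3]
  refine neg_mem (sum_mem fun i _ => ?_)
  have h4 : Finsupp.mapDomain ((nfC2_s o i).f Ω) z =
      Finsupp.mapDomain ((sc (V := V) (fun j => (o j)) i).f Ω)
        (Finsupp.mapDomain ((pr (V := V) i).f Ω) z) := by
    rw [← Finsupp.mapDomain_comp]
    rfl
  rw [h4]
  exact (sc (V := V) (fun j => (o j)) i).ratEq K Ω (h i)

private theorem nfC2_act (φ : Mo (Vpi V) (Vpi V)) (γ : Ω ≃ₐ[K] Ω)
    (z : (Vpi V).pt Ω →₀ ℤ) :
    γ • Finsupp.mapDomain (φ.f Ω) z = Finsupp.mapDomain (φ.f Ω) (γ • z) := by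
  rw [CV.smul_def, CV.smul_def, ← Finsupp.mapDomain_comp, ← Finsupp.mapDomain_comp]
  have h1 : (Vpi V).act γ ∘ φ.f Ω = φ.f Ω ∘ (Vpi V).act γ :=
    funext fun x => φ.act γ x
  rw [h1]

private theorem th_smul [Fintype ι] (γ : Ω ≃ₐ[K] Ω) (z : (Vpi V).pt Ω →₀ ℤ) :
    γ • tV Ω o z = tV Ω o (γ • z) := by
  rw [nfC2_th, nfC2_th, smul_add, smul_sub, Finset.smul_sum, smul_comm γ, nfC2_act]
  congr 2
  exact Finset.sum_congr rfl fun i _ => nfC2_act _ γ z

end base

omit [CharZero K] [IsAlgClosure K Ω] in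
/-- Invariant cycles are cycles over `M`. -/
private theorem nfD_fx_cyc {S₀ : Vr F} [Hf S₀] {M : IntermediateField K Ω} {z : S₀.pt Ω →₀ ℤ} :
    Fx M z ↔ z ∈ S₀.cyc M Ω := by
  constructor
  · intro h σ
    have hγ : σ.restrictScalars K ∈ M.fixingSubgroup := by
      rw [IntermediateField.mem_fixingSubgroup_iff]
      intro x hx
      exact σ.commutes ⟨x, hx⟩
    exact h (σ.restrictScalars K) hγ
  · intro h γ hγ
    exact h (IntermediateField.fixingSubgroupEquiv M ⟨γ, hγ⟩)

omit [CharZero K] [IsAlgClosure K Ω] in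
private theorem nfD_smul {S₀ S₁ : Vr F} [Hf S₀] [Hf S₁] (φ : Mo S₀ S₁) (γ : Ω ≃ₐ[K] Ω)
    (z : S₀.pt Ω →₀ ℤ) :
    Finsupp.mapDomain (φ.f Ω) (γ • z) = γ • Finsupp.mapDomain (φ.f Ω) z := by
  rw [CV.smul_def, CV.smul_def, ← Finsupp.mapDomain_comp, ← Finsupp.mapDomain_comp]
  exact congrArg (fun g => Finsupp.mapDomain g z) (funext fun x => (φ.act γ x).symm)

private theorem nfD_v₂_smul {M : IntermediateField K Ω} {w : (Vpi V).pt Ω}
    (hw : Fp (Vpi V) M w) (i j : ι) {γ : Ω ≃ₐ[K] Ω} (hγ : γ ∈ M.fixingSubgroup)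
    (z : (Vpr (V i) (V j)).pt Ω →₀ ℤ) :
    Finsupp.mapDomain (v₂ w i j) (γ • z) = γ • Finsupp.mapDomain (v₂ w i j) z := by
  rw [CV.smul_def, CV.smul_def, ← Finsupp.mapDomain_comp, ← Finsupp.mapDomain_comp]
  exact congrArg (fun g => Finsupp.mapDomain g z) (funext fun x => (v₂_act hw i j x hγ).symm)

private theorem nfD_v₂_fx {M : IntermediateField K Ω} {w : (Vpi V).pt Ω}
    (hw : Fp (Vpi V) M w) (i j : ι) {z : (Vpr (V i) (V j)).pt Ω →₀ ℤ}
    (hz : Fx M z) : Fx M (Finsupp.mapDomain (v₂ w i j) z) := fun γ hγ => by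
  rw [← nfD_v₂_smul hw i j hγ, hz γ hγ]

private theorem nfD_nm_zero {S₀ : Vr F} [Hf S₀] {M : IntermediateField K Ω}
    [FiniteDimensional K M] : Nm (⊥ : IntermediateField K Ω) M (0 : S₀.pt Ω →₀ ℤ) = 0 := by
  obtain ⟨s, -, -, -, h3⟩ := nm_rep (M := (⊥ : IntermediateField K Ω)) (N := M) bot_le
  rw [h3]
  exact Finset.sum_eq_zero fun γ _ => smul_zero γ

private theorem nfD_nm_deg {S₀ : Vr F} [Hf S₀] {M : IntermediateField K Ω}
    [FiniteDimensional K M] {z : S₀.pt Ω →₀ ℤ} (h : S₀.deg Ω z = 0) :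
    S₀.deg Ω (Nm (⊥ : IntermediateField K Ω) M z) = 0 := by
  obtain ⟨s, -, -, -, h3⟩ := nm_rep (M := (⊥ : IntermediateField K Ω)) (N := M) bot_le
  rw [h3, map_sum]
  exact Finset.sum_eq_zero fun γ _ => by rw [deg_smul, h]

private theorem nfD_nm_D0 {S₀ : Vr F} [Hf S₀] {M : IntermediateField K Ω}
    [FiniteDimensional K M] {z : S₀.pt Ω →₀ ℤ} (h : Fx M z) (h0 : S₀.deg Ω z = 0) :
    Nm (⊥ : IntermediateField K Ω) M z ∈ S₀.D0 K Ω := by
  refine ⟨fun γ => ?_, nfD_nm_deg h0⟩
  refine nm_fx (M := (⊥ : IntermediateField K Ω)) (N := M) bot_le h γ ?_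
  rw [IntermediateField.fixingSubgroup_bot]
  trivial

private theorem nfD_const {S₀ S₁ : Vr F} (o : S₁.pt Ω) (u : S₀.pt Ω →₀ ℤ) :
    Finsupp.mapDomain (fun _ => o) u = Finsupp.single o (S₀.deg Ω u) := by
  induction u using Finsupp.induction_linear with
  | zero => rw [Finsupp.mapDomain_zero, map_zero, Finsupp.single_zero]
  | add f g hf hg => rw [Finsupp.mapDomain_add, hf, hg, map_add, Finsupp.single_add]
  | single a n =>
    rw [Finsupp.mapDomain_single, Vr.deg, Finsupp.liftAddHom_apply_single]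
    rfl

/-- The first projection. -/
private def nfD_p₁ (S₀ S₁ : Vr F) : Mo (Vpr S₀ S₁) S₀ where
  f _ _ _ x := x.1
  nat _ _ _ _ _ _ _ _ := rfl
  red _ _ _ _ _ _ _ _ _ _ _ _ _ h := h.1

/-- The second projection. -/
private def nfD_p₂ (S₀ S₁ : Vr F) : Mo (Vpr S₀ S₁) S₁ where
  f _ _ _ x := x.2
  nat _ _ _ _ _ _ _ _ := rfl
  red _ _ _ _ _ _ _ _ _ _ _ _ _ h := h.2

/-- The norm of a symbol in two coordinates over `M` is `l` times a cycle in the Albanese kernel. Proof: `h2` for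
`bx (rd [p]) (rd [q])` (its push-forwards are `0`), push forward with `v₂ w i j` (`v₂_ratEq`, `v₂_act`), take the norm
(`nm_ratEq`, `nm_fx`). The push-forward of `(v₂ w i j) z'` to the factor `k ≠ i, j` is `deg z' [w k] = 0`, to the factors
`i`, `j` the push-forwards of `z'`. -/
private theorem to_dv {o : ∀ i, Bp (V i)} [Finite ι] {l : ℕ} {M : IntermediateField K Ω} [FiniteDimensional K M]
    (h2 : ∀ i j : ι, i ≠ j → DvR (V i) (V j) M Ω l)
    {z : (Vpi V).pt Ω →₀ ℤ} (hz : z ∈ Ts o M) :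
    ∃ z' ∈ (Vpi V).D0 K Ω,
      (∀ i, Finsupp.mapDomain ((pr i).f Ω) z' ∈ (V i).ratEq K Ω) ∧
      Nm (⊥ : IntermediateField K Ω) M z - l • z' ∈ (Vpi V).ratEq K Ω := by
  classical
  refine AddSubgroup.closure_induction (p := fun z _ =>
    ∃ z' ∈ (Vpi V).D0 K Ω,
      (∀ i, Finsupp.mapDomain ((pr i).f Ω) z' ∈ (V i).ratEq K Ω) ∧
      Nm (⊥ : IntermediateField K Ω) M z - l • z' ∈ (Vpi V).ratEq K Ω)
    ?_ ?_ ?_ ?_ hz
  · rintro _ ⟨i, j, w, p, q, hij, hw, hp, hq, rfl⟩
    set b : (Vpr (V i) (V j)).pt Ω →₀ ℤ := bx (rd (o i) (Finsupp.single p 1))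
      (rd (o j) (Finsupp.single q 1)) with hb
    have hbf : Fx M b := bx_fx (rd_fx _ (fx_single hp 1)) (rd_fx _ (fx_single hq 1))
    have hb1 : Finsupp.mapDomain (fun x : (Vpr (V i) (V j)).pt Ω => x.1) b = 0 := by
      rw [hb, bx_fst, rd_deg, zero_smul]
    have hb2 : Finsupp.mapDomain (fun x : (Vpr (V i) (V j)).pt Ω => x.2) b = 0 := by
      rw [hb, bx_snd, rd_deg, zero_smul]
    have hbd : (Vpr (V i) (V j)).deg Ω b = 0 := by
      have h := Mo.deg (V := Vpr (V i) (V j)) (V' := (V i))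
        (fun x : (Vpr (V i) (V j)).pt Ω => x.1) b
      rw [hb1, map_zero] at h
      exact h.symm
    obtain ⟨z', ⟨hz1, hz2⟩, h1, h2', h3⟩ := h2 i j hij b ⟨nfD_fx_cyc.1 hbf, hbd⟩
      (by rw [hb1]; exact zero_mem _) (by rw [hb2]; exact zero_mem _)
    have hzf : Fx M z' := nfD_fx_cyc.2 hz1
    have hzd : (Vpr (V i) (V j)).deg Ω z' = 0 := hz2
    have huf : Fx M (Finsupp.mapDomain (v₂ w i j) z') := nfD_v₂_fx hw i j hzf
    refine ⟨Nm (⊥ : IntermediateField K Ω) M (Finsupp.mapDomain (v₂ w i j) z'),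
      nfD_nm_D0 huf ((Mo.deg (V' := Vpi V) (v₂ w i j) z').trans hzd), ?_, ?_⟩
    · intro k
      have hk : Finsupp.mapDomain ((pr k).f Ω) (Nm (⊥ : IntermediateField K Ω) M
          (Finsupp.mapDomain (v₂ w i j) z')) = Nm (⊥ : IntermediateField K Ω) M
          (Finsupp.mapDomain (fun x => v₂ w i j x k) z') := by
        have h := hom_nm (M := (⊥ : IntermediateField K Ω)) (N := M)
          (Finsupp.mapDomain.addMonoidHom ((pr (V := V) k).f Ω)) bot_le
          (fun γ _ a => nfD_smul (pr (V := V) k) γ a)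
          (Finsupp.mapDomain (v₂ w i j) z')
        refine h.trans ?_
        congr 1
        exact (Finsupp.mapDomain_comp (v := z') (f := v₂ w i j)
          (g := (pr (V := V) k).f Ω)).symm
      rw [hk]
      rcases eq_or_ne k j with rfl | hkj
      · have e : (fun x => v₂ w i k x k) =
            fun x : (Vpr (V i) (V k)).pt Ω => x.2 :=
          funext fun x => v₂_s w i k x
        rw [e]
        refine nm_ratEq h2' fun γ hγ => ?_
        have h := nfD_smul (nfD_p₂ (V i) (V k)) γ z'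
        rw [hzf γ hγ] at h
        exact h.symm
      · rcases eq_or_ne k i with rfl | hki
        · have e : (fun x => v₂ w k j x k) =
              fun x : (Vpr (V k) (V j)).pt Ω => x.1 :=
            funext fun x => (v₂_n w hkj x).trans (v₁_s w k x.1)
          rw [e]
          refine nm_ratEq h1 fun γ hγ => ?_
          have h := nfD_smul (nfD_p₁ (V k) (V j)) γ z'
          rw [hzf γ hγ] at h
          exact h.symm
        · have e : (fun x => v₂ w i j x k) =
              fun _ : (Vpr (V i) (V j)).pt Ω => w k :=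
            funext fun x => (v₂_n w hkj x).trans (v₁_n w hki x.1)
          rw [e]
          have h := nfD_const (S₀ := Vpr (V i) (V j)) (S₁ := (V k)) (w k) z'
          rw [hzd, Finsupp.single_zero] at h
          have h' : Nm (⊥ : IntermediateField K Ω) M (Finsupp.mapDomain
              (fun _ : (Vpr (V i) (V j)).pt Ω => w k) z') = 0 := by
            rw [h]
            exact nfD_nm_zero
          rw [h']
          exact zero_mem _
    · have hsub : Nm (⊥ : IntermediateField K Ω) M (Finsupp.mapDomain (v₂ w i j) b) -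
          l • Nm (⊥ : IntermediateField K Ω) M (Finsupp.mapDomain (v₂ w i j) z') =
          Nm (⊥ : IntermediateField K Ω) M (Finsupp.mapDomain (v₂ w i j) (b - l • z')) := by
        have e1 : Finsupp.mapDomain (v₂ w i j) b =
            Finsupp.mapDomain (v₂ w i j) (b - l • z') +
              l • Finsupp.mapDomain (v₂ w i j) z' := by
          have e2 := (Finsupp.mapDomain.addMonoidHom (M := ℤ) (v₂ w i j)).map_nsmul l z'
          rw [Finsupp.mapDomain.addMonoidHom_apply, Finsupp.mapDomain.addMonoidHom_apply] at e2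
          rw [← e2, ← Finsupp.mapDomain_add, sub_add_cancel]
        rw [e1, nm_add bot_le, nm_nsmul bot_le, add_sub_cancel_right]
      rw [hsub]
      refine nm_ratEq (v₂_ratEq hw hij h3) (nfD_v₂_fx hw i j ?_)
      exact hbf.sub (hzf.nsmul l)
  · refine ⟨0, zero_mem _, fun i => ?_, ?_⟩
    · rw [Finsupp.mapDomain_zero]
      exact zero_mem _
    · rw [nfD_nm_zero, smul_zero, sub_zero]
      exact zero_mem _
  · rintro a b _ _ ⟨a', ha, ha1, ha2⟩ ⟨b', hb, hb1, hb2⟩
    refine ⟨a' + b', add_mem ha hb, fun i => ?_, ?_⟩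
    · rw [Finsupp.mapDomain_add]
      exact add_mem (ha1 i) (hb1 i)
    · rw [nm_add bot_le, smul_add, add_sub_add_comm]
      exact add_mem ha2 hb2
  · rintro a _ ⟨a', ha, ha1, ha2⟩
    refine ⟨-a', neg_mem ha, fun i => ?_, ?_⟩
    · have e := (Finsupp.mapDomain.addMonoidHom (M := ℤ)
        ((pr (V := V) i).f Ω)).map_neg a'
      exact (congrArg (fun y => y ∈ (V i).ratEq K Ω) e).mpr (neg_mem (ha1 i))
    · have e : Nm (⊥ : IntermediateField K Ω) M (-a) = -Nm (⊥ : IntermediateField K Ω) M a := by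
        obtain ⟨s, -, -, -, h3⟩ := nm_rep (M := (⊥ : IntermediateField K Ω)) (N := M) bot_le
        rw [h3, h3, ← Finset.sum_neg_distrib]
        exact Finset.sum_congr rfl fun γ _ => smul_neg γ a
      rw [e, smul_neg, ← neg_sub', neg_mem_iff]
      exact ha2


/-- Every point of the product has a finite field of definition. -/
private theorem exists_fp_pi [Finite ι] (x : (Vpi V).pt Ω) :
    ∃ M : IntermediateField K Ω, FiniteDimensional K M ∧ Fp (Vpi V) M x := by
  choose M hM hfp using fun i => Kp.fp (V := V i) K Ω (x i)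
  refine ⟨⨆ i, M i, ?_, ?_⟩
  · have : ∀ i, FiniteDimensional K (M i) := hM
    exact IntermediateField.finiteDimensional_iSup_of_finite
  · intro γ hγ
    exact funext fun i => hfp i γ (fix_le (le_iSup M i) hγ)

/-- The cycles which are divisible modulo rational equivalence. -/
private def dvs (V : ι → Vr F) [∀ i, Hf (V i)] (K Ω : Type) [Field K] [Field Ω] [Algebra K Ω] [Algebra F K]
    [Algebra F Ω] [IsScalarTower F K Ω] (l : ℕ) :
    AddSubgroup ((Vpi V).pt Ω →₀ ℤ) where
  carrier := {z | ∃ z' ∈ (Vpi V).D0 K Ω,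
    (∀ i, Finsupp.mapDomain ((pr i).f Ω) z' ∈ (V i).ratEq K Ω) ∧
      z - l • z' ∈ (Vpi V).ratEq K Ω}
  zero_mem' := by
    refine ⟨0, zero_mem _, fun i => ?_, ?_⟩
    · rw [Finsupp.mapDomain_zero]
      exact zero_mem _
    · rw [smul_zero, sub_zero]
      exact zero_mem _
  add_mem' := by
    rintro a b ⟨a', h1, h2, h3⟩ ⟨b', h1', h2', h3'⟩
    refine ⟨a' + b', add_mem h1 h1', fun i => ?_, ?_⟩
    · rw [Finsupp.mapDomain_add]
      exact add_mem (h2 i) (h2' i)
    · have e : a + b - l • (a' + b') = (a - l • a') + (b - l • b') := by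
        rw [smul_add]
        abel
      rw [e]
      exact add_mem h3 h3'
  neg_mem' := by
    rintro a ⟨a', h1, h2, h3⟩
    refine ⟨-a', neg_mem h1, fun i => ?_, ?_⟩
    · have e := (Finsupp.mapDomain.addMonoidHom (M := ℤ)
        ((pr i).f Ω : (Vpi V).pt Ω → (V i).pt Ω)).map_neg a'
      rw [Finsupp.mapDomain.addMonoidHom_apply, Finsupp.mapDomain.addMonoidHom_apply] at e
      rw [e]
      exact neg_mem (h2 i)
    · have e : -a - l • (-a') = -(a - l • a') := by
        rw [smul_neg]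
        abel
      rw [e]
      exact neg_mem h3

/-- Proof: as `loc_n` (`Cv/NfD2.lean`): copy the files `NfA` (`nfA_coord`: use `Kp.cst`), `NfC`, `NfC2`, `NfD`, `NfD2` with `(C i).V`
replaced by `V i`, `(C i).bp` by `o i`; `exists_fp_pi`: use `Kp.fp`. -/
theorem loc_V [Finite ι] (o : ∀ i, Bp (V i)) {l : ℕ}
    (h2 : ∀ (N : ℕ) (M : IntermediateField K Ω), N ≠ 0 → FiniteDimensional K M → M ≤ L.Ur ⊥ N →
      ∀ i j : ι, i ≠ j → DvR (V i) (V j) M Ω l)
    (hgen : ∀ (M : IntermediateField K Ω) (x : (Vpi V).pt Ω), FiniteDimensional K M →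
      Fp (Vpi V) M x → Nm (⊥ : IntermediateField K Ω) M (Finsupp.single x 1) ∈
        (Vpi V).ratEq K Ω ⊔ Uv L (Vpi V)) : DvG V K Ω l := by
  classical
  have _ : Fintype ι := Fintype.ofFinite ι
  intro z hz ha
  have hrat : (Vpi V).ratEq K Ω ≤ dvs V K Ω l := by
    intro a h
    refine ⟨0, zero_mem _, fun i => ?_, ?_⟩
    · rw [Finsupp.mapDomain_zero]
      exact zero_mem _
    · rw [smul_zero, sub_zero]
      exact h
  -- the unramified points
  have huo : Uv L (Vpi V) ≤ (dvs V K Ω l).comap (tV Ω o) := by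
    refine (AddSubgroup.closure_le _).2 ?_
    rintro _ ⟨N, M, y, hN, hM, hy, rfl⟩
    have hfin : FiniteDimensional K (L.Ur ⊥ N) := Ld.ur_fin ⊥ N hN
    have hfM : FiniteDimensional K M := fin_le hM
    change tV Ω o (Nm (⊥ : IntermediateField K Ω) M (Finsupp.single y 1)) ∈ dvs V K Ω l
    rw [hom_nm (tV Ω o) bot_le (fun γ _ a => (th_smul o γ a).symm)]
    exact to_dv (h2 N M hN hfM hM) (tele o hy)
  have hra : (Vpi V).ratEq K Ω ≤ (dvs V K Ω l).comap (tV Ω o) := fun a h =>
    hrat (th_ratEq o K h)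
  -- the cycle is a sum of norms of points
  have hfx : Fx (⊥ : IntermediateField K Ω) z := fun γ _ => hz.1 γ
  have hcl := fx_gen (V := Vpi V) exists_fp_pi hfx
  have hle : AddSubgroup.closure {z | ∃ (M' : IntermediateField K Ω)
      (x : (Vpi V).pt Ω), (⊥ : IntermediateField K Ω) ≤ M' ∧
      FiniteDimensional K M' ∧ Fp (Vpi V) M' x ∧
      z = Nm (⊥ : IntermediateField K Ω) M' (Finsupp.single x 1)} ≤
      (dvs V K Ω l).comap (tV Ω o) := by
    refine (AddSubgroup.closure_le _).2 ?_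
    rintro _ ⟨M', x, -, hf, hx, rfl⟩
    exact (sup_le hra huo) (hgen M' x hf hx)
  have h3 : tV Ω o z ∈ dvs V K Ω l := hle hcl
  have h4 := hrat (th_id o hz ha)
  have h5 := sub_mem h3 h4
  have e : tV Ω o z - (tV Ω o z - z) = z := by abel
  rw [e] at h5
  exact h5

end NE
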