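import Pool.Agent.Lib.MP_f80667_ag.Nf.MvA
import Pool.Agent.Lib.MP_f80667_ag.Pe.Tm
import Pool.Agent.Lib.MP_f80667_ag.Pe.Hh
import Pool.Agent.Lib.MP_f80667_ag.Pe.Lift

/-!
Moving points by points over `Ur ⊥ (N l ^ j)`, `l = 2` or `l = 3`.
-/

open ZC BE PE Polynomial IntermediateField CV

namespace NE

variable {F : Type} [Field F] {K Ω : Type} [Field K] [Field Ω] [Algebra K Ω] [Algebra F K]
  [Algebra F Ω] [IsScalarTower F K Ω] [CharZero K] [IsAlgClosure K Ω] {L : Ld K Ω} [L.Unr]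

omit [L.Unr] in
/-- A point congruent to an integral point with `dy` a unit is such a point. -/
private theorem mvz_dy {W : WeierstrassCurve F} (h : L.It W) {xr yr : Ω}
    (hr : (W.baseChange Ω).toAffine.Nonsingular xr yr) (h1 : L.nm xr ≤ 1) (h2 : L.nm yr ≤ 1)
    (h3 : L.nm (dy W xr yr) = 1) {P : Pt W Ω} (hc : L.Cg P (Pt.aff xr yr hr)) :
    ∃ (x y : Ω) (hx : (W.baseChange Ω).toAffine.Nonsingular x y), P = Pt.aff x y hx ∧
        L.nm x ≤ 1 ∧ L.nm y ≤ 1 ∧ L.nm (dy W x y) = 1 := by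
  have hns : L.Ns (Pt.aff xr yr hr : Pt W Ω) := (Ld.ns_aff h hr h1).2.2 (Or.inr h3)
  rcases Pt.cases' P with rfl | ⟨x, y, hx, rfl⟩
  · exfalso
    unfold Ld.Cg at hc
    rw [zero_sub] at hc
    have h4 := (Ld.fm_neg h hc).1
    rw [neg_neg] at h4
    exact absurd ((Ld.fm_aff h hr).1.1 h4) (not_lt.2 h1)
  · obtain ⟨h4, h5⟩ := (Ld.cg_aff h hr hx h1 hns).1 (Ld.cg_symm h hc)
    refine ⟨x, y, hx, rfl, ?_, ?_, ?_⟩
    · have e : x = (x - xr) + xr := by ring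
      rw [e]
      exact (L.add _ _).trans (max_le h4.le h1)
    · have e : y = (y - yr) + yr := by ring
      rw [e]
      exact (L.add _ _).trans (max_le h5.le h2)
    · have e : dy W x y = dy W xr yr + (2 * (y - yr) + algebraMap F Ω W.a₁ * (x - xr)) := by
        unfold dy
        ring
      rw [e, L.add_eq', h3]
      rw [h3]
      refine (L.add _ _).trans_lt (max_lt ?_ ?_)
      · rw [L.mul]
        exact (mul_le_of_le_one_left (L.nonneg _) L.two_le).trans_lt h5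
      · rw [L.mul]
        exact (mul_le_of_le_one_left (L.nonneg _) h.a₁).trans_lt h4

omit [IsScalarTower F K Ω] [CharZero K] [IsAlgClosure K Ω] [L.Unr] in
/-- The partial derivatives are integral. -/
private theorem mvz_le {W : WeierstrassCurve F} (h : L.It W) {x y : Ω} (hx : L.nm x ≤ 1)
    (hy : L.nm y ≤ 1) : L.nm (dx W x y) ≤ 1 ∧ L.nm (dy W x y) ≤ 1 := by
  have hadd : ∀ {a b : Ω}, L.nm a ≤ 1 → L.nm b ≤ 1 → L.nm (a + b) ≤ 1 := fun ha hb =>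
    (L.add _ _).trans (max_le ha hb)
  have hmul : ∀ {a b : Ω}, L.nm a ≤ 1 → L.nm b ≤ 1 → L.nm (a * b) ≤ 1 := fun ha hb => by
    rw [L.mul]
    exact mul_le_one₀ ha (L.nonneg _) hb
  have h2 : L.nm (2 : Ω) ≤ 1 := L.two_le
  have h3 : L.nm (3 : Ω) ≤ 1 := L.nat_le 3
  refine ⟨?_, ?_⟩
  · refine (L.sub _ _).trans (max_le ?_ (hmul h.a₁ hy))
    refine hadd (hadd (hmul h3 ?_) (hmul (hmul h2 h.a₂) hx)) h.a₄
    rw [pow_two]
    exact hmul hx hx
  · exact hadd (hadd (hmul h2 hy) (hmul h.a₁ hx)) h.a₃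

omit [L.Unr] in
/-- Points with singular reduction. -/
private theorem mvz_sg {W : WeierstrassCurve F} (h : L.It W) {P : Pt W Ω} (hP : ¬ L.Ns P) :
    ∃ (x y : Ω) (hx : (W.baseChange Ω).toAffine.Nonsingular x y), P = Pt.aff x y hx ∧
      L.nm x ≤ 1 ∧ L.nm y ≤ 1 ∧ L.nm (dx W x y) < 1 ∧ L.nm (dy W x y) < 1 := by
  rcases Pt.cases' P with rfl | ⟨x, y, hxy, rfl⟩
  · exact absurd (Ld.ns_fm h Ld.fm_zero) hP
  · have hx1 : L.nm x ≤ 1 := by
      by_contra hc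
      exact hP (Ld.ns_fm h ((Ld.fm_aff h hxy).1.2 (not_le.1 hc)))
    obtain ⟨hy1, hns⟩ := Ld.ns_aff h hxy hx1
    rw [hns, not_or] at hP
    obtain ⟨h2, h3⟩ := mvz_le h hx1 hy1
    exact ⟨x, y, hxy, rfl, hx1, hy1, lt_of_le_of_ne h2 hP.1, lt_of_le_of_ne h3 hP.2⟩

omit [Algebra F K] [IsScalarTower F K Ω] [CharZero K] [IsAlgClosure K Ω] in
/-- Points of order two. -/
private theorem mvz_two {W : WeierstrassCurve F} {x y : Ω}
    (hx : (W.baseChange Ω).toAffine.Nonsingular x y) (hd : dy W x y = 0) :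
    (Pt.aff x y hx : Pt W Ω) + Pt.aff x y hx = 0 := by
  refine Pn.add_opp (W := W.baseChange Ω) hx hx rfl ?_
  change y = -y - algebraMap F Ω W.a₁ * x - algebraMap F Ω W.a₃
  have h1 : 2 * y + algebraMap F Ω W.a₁ * x + algebraMap F Ω W.a₃ = 0 := hd
  linear_combination h1

omit [Algebra F K] [IsScalarTower F K Ω] [IsAlgClosure K Ω] [L.Unr] [Algebra F Ω] in
/-- The norm of `2`. -/
private theorem mvz_nm : L.nm (L.p : Ω) ^ 2 < L.nm (2 : Ω) := by
  have hp := L.p_pos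
  have h1 : L.nm (L.p : Ω) ^ 2 < L.nm (L.p : Ω) := by
    calc L.nm (L.p : Ω) ^ 2 = L.nm (L.p : Ω) * L.nm (L.p : Ω) := pow_two _
      _ < L.nm (L.p : Ω) * 1 := mul_lt_mul_of_pos_left L.lt hp
      _ = L.nm (L.p : Ω) := mul_one _
  by_cases h2 : L.p ∣ 2
  · have h3 : L.p = 2 := (Nat.prime_dvd_prime_iff_eq L.pp Nat.prime_two).1 h2
    have h4 : (2 : Ω) = (L.p : Ω) := by rw [h3]; norm_num
    rw [h4]
    exact h1
  · have h3 := L.nat_unit h2
    have h4 : L.nm (2 : Ω) = 1 := by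
      have : ((2 : ℕ) : Ω) = 2 := by norm_num
      rw [← this]
      exact h3
    rw [h4]
    exact h1.trans L.lt

omit [L.Unr] in
/-- The point of the formal group with parameter `p²` does not have order two. -/
private theorem mvz_fm {W : WeierstrassCurve F} [W.IsElliptic] (h : L.It W) :
    ∃ c : Pt W Ω, L.Fm c ∧ (∀ M : IntermediateField K Ω, Fx M c) ∧ c + c ≠ 0 := by
  have hp := L.p_pos
  have hp1 := L.lt
  have ht : L.nm ((L.p : Ω) ^ 2) < 1 := by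
    rw [L.pow]
    exact pow_lt_one₀ (L.nonneg _) L.lt two_ne_zero
  obtain ⟨c, hc, htc⟩ := Ld.fm_exists h ht
  refine ⟨c, hc, fun M => ?_, ?_⟩
  · rw [Ld.fm_fx h hc M, htc]
    exact pow_mem (IntermediateField.natCast_mem M L.p) 2
  · intro h0
    obtain ⟨-, h2⟩ := Ld.fm_nsmul h hc 2
    have h3 : (2 : ℕ) • c = 0 := by rw [two_nsmul, h0]
    have h4 : tp (0 : Pt W Ω) = 0 := rfl
    rw [h3, h4, htc] at h2
    simp only [Nat.choose_self, Nat.cast_one, mul_one, Nat.cast_ofNat, L.pow] at h2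
    have h5 : 2 * (L.p : Ω) ^ 2 = algebraMap F Ω W.a₁ * ((L.p : Ω) ^ 2) ^ 2 -
        (0 - (2 * (L.p : Ω) ^ 2 - algebraMap F Ω W.a₁ * ((L.p : Ω) ^ 2) ^ 2)) +
        0 := by ring
    have h6 : L.nm (2 * (L.p : Ω) ^ 2) ≤ (L.nm (L.p : Ω) ^ 2) ^ 2 := by
      have h7 : L.nm (algebraMap F Ω W.a₁ * ((L.p : Ω) ^ 2) ^ 2) ≤ (L.nm (L.p : Ω) ^ 2) ^ 2 := by
        rw [L.mul, L.pow, L.pow]
        exact mul_le_of_le_one_left (by positivity) h.a₁
      have h8 : (L.nm (L.p : Ω) ^ 2) ^ 3 ≤ (L.nm (L.p : Ω) ^ 2) ^ 2 := by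
        refine pow_le_pow_of_le_one (by positivity) ?_ (by norm_num)
        exact pow_le_one₀ hp.le hp1.le
      have h9 : 2 * (L.p : Ω) ^ 2 = algebraMap F Ω W.a₁ * ((L.p : Ω) ^ 2) ^ 2 -
          (0 - (2 * (L.p : Ω) ^ 2 - algebraMap F Ω W.a₁ * ((L.p : Ω) ^ 2) ^ 2)) := by ring
      rw [h9]
      exact (L.sub _ _).trans (max_le h7 (h2.trans h8))
    rw [L.mul, L.pow, pow_two (L.nm (L.p : Ω) ^ 2)] at h6
    exact absurd (le_of_mul_le_mul_right h6 (by positivity)) (not_le.2 mvz_nm)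

/-- **Moving a point.** Proof: let `d` be the point of `exists_sm`. If `P` has nonsingular reduction: `P = Q + b` with `Q` over
`Ur ⊥ (N l ^ j)` and `b` in the formal group (`lift_rf` for `Ur M (N l ^ j)`, `rf_ur`); `c = d - Q`, `P + c = d + b`: `tr_x`, so `dy` is a
unit. Otherwise `P = (x, y)` is integral, `dx`, `dy` are not units (`ns_aff`, `fm_aff`, `ns_fm`); if `dy ≠ 0` take `c = 0`; if `dy = 0`,
`2 P = 0`: let `c` be the point of the formal group with parameter `p²` (`fm_exists`, `fm_fx`), `2 c ≠ 0` (`fm_nsmul`: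
the norm of the parameter of `2 c` is `nm (2 p²)` up to `nm p ^ 4`), `P + c` does not have nonsingular reduction (`ns_add`, `ns_neg`), so
it is integral with `dx`, `dy` not units, and `dy ≠ 0` because `2 (P + c) = 2 c ≠ 0`. For larger `j`: `ur_dvd`, `Fx.mono`. -/
theorem mv_pt {l : ℕ} (hl : l = 2 ∨ l = 3) {W : WeierstrassCurve F} [W.IsElliptic] (h : L.Hd W)
    {M : IntermediateField K Ω} [FiniteDimensional K M] {N : ℕ} (hM : L.Rf M N) {P : Pt W Ω}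
    (hP : Fx M P) : ∃ j₀ : ℕ, ∀ j ≥ j₀, ∃ (c : Pt W Ω) (x y : Ω)
      (hx : (W.baseChange Ω).toAffine.Nonsingular x y), Fx (L.Ur ⊥ (N * l ^ j)) c ∧
        P + c = Pt.aff x y hx ∧ L.nm x ≤ 1 ∧ L.nm y ≤ 1 ∧ dy W x y ≠ 0 ∧
        (L.nm (dy W x y) = 1 ∨ L.nm (dx W x y) < 1 ∧ L.nm (dy W x y) < 1) := by
  by_cases hns : L.Ns P
  · obtain ⟨j₁, xd, yd, hxd, hyd, hx1, hy1, hfe, hdy⟩ := exists_sm hl h hM
    have hd : (W.baseChange Ω).toAffine.Nonsingular xd yd := aff_of_fe hfe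
    obtain ⟨Q, hQ, hQc⟩ := Ld.lift_rf h.toIt hM hns hP
    refine ⟨j₁, fun j hj => ?_⟩
    have hd1 : N ∣ N * l ^ j := dvd_mul_right _ _
    have hd2 : N * l ^ j₁ ∣ N * l ^ j := mul_dvd_mul_left N (pow_dvd_pow l hj)
    have hcf : Fx (L.Ur ⊥ (N * l ^ j)) (Pt.aff xd yd hd - Q) :=
      (((fx_aff _ hd).2 ⟨hxd, hyd⟩).mono (Ld.ur_dvd ⊥ hd2)).sub (hQ.mono (Ld.ur_dvd ⊥ hd1))
    have hcg : L.Cg (P + (Pt.aff xd yd hd - Q)) (Pt.aff xd yd hd) := by
      have h1 := Ld.cg_symm h.toIt hQc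
      unfold Ld.Cg at h1 ⊢
      have e : P + (Pt.aff xd yd hd - Q) - Pt.aff xd yd hd = P - Q := by abel
      rw [e]
      exact h1
    obtain ⟨x, y, hx, e, h4, h5, h6⟩ := mvz_dy h.toIt hd hx1 hy1 hdy hcg
    refine ⟨_, x, y, hx, hcf, e, h4, h5, ?_, Or.inl h6⟩
    intro h0
    rw [h0, L.zero] at h6
    exact zero_ne_one h6
  · obtain ⟨x, y, hx, rfl, hx1, hy1, hdx, hdy⟩ := mvz_sg h.toIt hns
    by_cases h0 : dy W x y = 0
    · obtain ⟨c, hc, hcf, hc2⟩ := mvz_fm (L := L) h.toIt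
      have hns' : ¬ L.Ns (Pt.aff x y hx + c : Pt W Ω) := by
        intro h1
        refine hns ?_
        have h2 := Ld.ns_add h.toIt h1 (Ld.ns_neg h.toIt (Ld.ns_fm h.toIt hc))
        rwa [add_neg_cancel_right] at h2
      obtain ⟨x', y', hx', e, hx1', hy1', hdx', hdy'⟩ := mvz_sg h.toIt hns'
      refine ⟨0, fun j _ => ⟨c, x', y', hx', hcf _, e, hx1', hy1', ?_, Or.inr ⟨hdx', hdy'⟩⟩⟩
      intro h1
      have h2 := mvz_two hx' h1
      have h3 := mvz_two hx h0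
      rw [← e] at h2
      have h4 : (Pt.aff x y hx + c + (Pt.aff x y hx + c) : Pt W Ω) =
          (Pt.aff x y hx + Pt.aff x y hx) + (c + c) := by abel
      rw [h4, h3, zero_add] at h2
      exact hc2 h2
    · exact ⟨0, fun j _ => ⟨0, x, y, hx, Fx.zero, add_zero _, hx1, hy1, h0,
        Or.inr ⟨hdx, hdy⟩⟩⟩

/-- Good reduction excludes the second case of `mv_pt`. Proof: `ns_good`, `ns_aff`. -/
theorem gd_dy {W : WeierstrassCurve F} (h : L.Gd W) {x y : Ω}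
    (hx : (W.baseChange Ω).toAffine.Nonsingular x y) (hx1 : L.nm x ≤ 1)
    (hd : L.nm (dy W x y) = 1 ∨ L.nm (dx W x y) < 1 ∧ L.nm (dy W x y) < 1) :
    L.nm (dy W x y) = 1 := by
  rcases hd with hd | ⟨hd1, hd2⟩
  · exact hd
  · rcases (Ld.ns_aff h.toIt hx hx1).2.1 (Ld.ns_good h _) with h1 | h1
    · exact absurd h1 hd1.ne
    · exact h1

end NE
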