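import Pool.Agent.Lib.MP_f80667_ag.Nf.Df
import Pool.Agent.Lib.MP_f80667_ag.Ng.W
import Pool.Agent.Lib.MP_f80667_ag.Pe.Glo

/-!
The theorem for two elliptic curves over unramified extensions.
-/

open ZC BE PE Polynomial IntermediateField CV

namespace NE

variable {F : Type} [Field F] {K Ω : Type} [Field K] [Field Ω] [Algebra K Ω] [Algebra F K]
  [Algebra F Ω] [IsScalarTower F K Ω] [CharZero K] [IsAlgClosure K Ω]

private theorem pr_abel {W : WeierstrassCurve F} [W.IsElliptic] {z : Pt W Ω →₀ ℤ}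
    (hc : ∀ γ : Ω ≃ₐ[K] Ω, Finsupp.mapDomain (fun x => γ • x) z = z) (hd : dg z = 0)
    (hs : sm z = 0) : z ∈ (Ev W).ratEq K Ω := by
  have hO : IsAlgClosed Ω := IsAlgClosure.isAlgClosed K
  exact (AddSubgroup.closure_le _).2 (fun y hy => pv_ratEq_ev hy) (abel (K := K) z hc hd hs)

private theorem pr_mk {A : Type} [AddCommGroup A] (R : AddSubgroup A) (u v : A) {l : ℕ}
    (h : QuotientAddGroup.mk' R u = l • QuotientAddGroup.mk' R v) : u - l • v ∈ R := by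
  rw [← map_nsmul, ← sub_eq_zero, ← map_sub] at h
  exact (QuotientAddGroup.eq_zero_iff _).1 h

/-- The same with the product `Xv`. -/
private def PrX (W₁ W₂ : WeierstrassCurve F) (K Ω : Type) [Field K] [Algebra F K] [Field Ω]
    [Algebra K Ω] [Algebra F Ω] [IsScalarTower F K Ω] (l : ℕ) : Prop :=
  ∀ z : Pt W₁ Ω × Pt W₂ Ω →₀ ℤ, z ∈ (Xv W₁ W₂).D0 K Ω →
    Finsupp.mapDomain Prod.fst z ∈ (Ev W₁).ratEq K Ω →
    Finsupp.mapDomain Prod.snd z ∈ (Ev W₂).ratEq K Ω →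
    ∃ z' : Pt W₁ Ω × Pt W₂ Ω →₀ ℤ, z' ∈ (Xv W₁ W₂).D0 K Ω ∧
      Finsupp.mapDomain Prod.fst z' ∈ (Ev W₁).ratEq K Ω ∧
      Finsupp.mapDomain Prod.snd z' ∈ (Ev W₂).ratEq K Ω ∧ z - l • z' ∈ (Xv W₁ W₂).ratEq K Ω

omit [CharZero K] [IsAlgClosure K Ω] in
private theorem pr_iff {W₁ W₂ : WeierstrassCurve F} {l : ℕ} :
    DvR (Ev W₁) (Ev W₂) K Ω l ↔ PrX W₁ W₂ K Ω l := Iff.rfl

private theorem pr_fst {W₁ W₂ : WeierstrassCurve F} {z : Pt W₁ Ω × Pt W₂ Ω →₀ ℤ}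
    [W₁.IsElliptic] (hz : z ∈ (Xv W₁ W₂).D0 K Ω) (hs : sm (Finsupp.mapDomain Prod.fst z) = 0) :
    Finsupp.mapDomain Prod.fst z ∈ (Ev W₁).ratEq K Ω := by
  have hc : ∀ γ : Ω ≃ₐ[K] Ω, Finsupp.mapDomain (fun x : Pt W₁ Ω × Pt W₂ Ω => γ • x) z = z := hz.1
  have hd : dg z = 0 := hz.2
  refine pr_abel (fun γ => ?_) (by rw [← hd]; exact sib_dg_map Prod.fst z) hs
  rw [← Finsupp.mapDomain_comp]
  conv_rhs => rw [← hc γ]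
  rw [← Finsupp.mapDomain_comp]
  rfl

private theorem pr_snd {W₁ W₂ : WeierstrassCurve F} {z : Pt W₁ Ω × Pt W₂ Ω →₀ ℤ}
    [W₂.IsElliptic] (hz : z ∈ (Xv W₁ W₂).D0 K Ω) (hs : sm (Finsupp.mapDomain Prod.snd z) = 0) :
    Finsupp.mapDomain Prod.snd z ∈ (Ev W₂).ratEq K Ω := by
  have hc : ∀ γ : Ω ≃ₐ[K] Ω, Finsupp.mapDomain (fun x : Pt W₁ Ω × Pt W₂ Ω => γ • x) z = z := hz.1
  have hd : dg z = 0 := hz.2
  refine pr_abel (fun γ => ?_) (by rw [← hd]; exact sib_dg_map Prod.snd z) hs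
  rw [← Finsupp.mapDomain_comp]
  conv_rhs => rw [← hc γ]
  rw [← Finsupp.mapDomain_comp]
  rfl

private theorem pr_phi {W₁ W₂ : WeierstrassCurve F} {z : Pt W₁ Ω × Pt W₂ Ω →₀ ℤ}
    (hz : z ∈ (Xv W₁ W₂).D0 K Ω)
    (a₁ : Finsupp.mapDomain Prod.fst z ∈ (Ev W₁).ratEq K Ω)
    (a₂ : Finsupp.mapDomain Prod.snd z ∈ (Ev W₂).ratEq K Ω) :
    z - Phi z ∈ (Xv W₁ W₂).ratEq K Ω := by
  have hd : dg z = 0 := hz.2
  have b₁ := inl_ratEq (W₂ := W₂) a₁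
  have b₂ := inr_ratEq (W₁ := W₁) a₂
  rw [← Finsupp.mapDomain_comp] at b₁ b₂
  rw [Phi_apply, sib_const z (0, 0), hd, Finsupp.single_zero, add_zero]
  have e : z - (z - Finsupp.mapDomain (fun x : Pt W₁ Ω × Pt W₂ Ω => ((x.1, 0) : Pt W₁ Ω × Pt W₂ Ω)) z -
      Finsupp.mapDomain (fun x : Pt W₁ Ω × Pt W₂ Ω => ((0, x.2) : Pt W₁ Ω × Pt W₂ Ω)) z) =
      Finsupp.mapDomain (fun x : Pt W₁ Ω × Pt W₂ Ω => ((x.1, 0) : Pt W₁ Ω × Pt W₂ Ω)) z +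
        Finsupp.mapDomain (fun x : Pt W₁ Ω × Pt W₂ Ω => ((0, x.2) : Pt W₁ Ω × Pt W₂ Ω)) z := by
    abel
  rw [e]
  exact add_mem b₁ b₂

private theorem pr_loc (L : Ld K Ω) [L.Unr] {W₁ W₂ : WeierstrassCurve F} [W₁.IsElliptic]
    [W₂.IsElliptic] (h₁ : L.Hd W₁) (h₂ : L.Gd W₂)
    (hss : L.p = 2 → L.nm (algebraMap F Ω W₂.a₁) < 1) {l : ℕ} (hl : l ≠ 0) :
    PrX W₁ W₂ K Ω l := by
  intro z hz a₁ a₂
  have hc : ∀ γ : Ω ≃ₐ[K] Ω, Finsupp.mapDomain (fun x : Pt W₁ Ω × Pt W₂ Ω => γ • x) z = z := hz.1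
  have hw := pr_phi hz a₁ a₂
  have hT : QuotientAddGroup.mk' ((Xv W₁ W₂).ratEq K Ω) (Phi z) ∈
      (scX (K := K) (Ω := Ω) (W₁ := W₁) (W₂ := W₂) ((Xv W₁ W₂).ratEq K Ω) le_rfl).T := by
    refine ((AddSubgroup.closure_le ((scX (K := K) (W₁ := W₁) (W₂ := W₂)
      ((Xv W₁ W₂).ratEq K Ω) le_rfl).T.comap
      (QuotientAddGroup.mk' ((Xv W₁ W₂).ratEq K Ω)))).2 ?_) (sib_Phi hc)
    rintro _ ⟨M, P, Q, hM, hP, hQ, rfl⟩
    exact AddSubgroup.subset_closure ⟨M, P, Q, hM, hP, hQ, rfl⟩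
  obtain ⟨y, hy, he⟩ := Ld.loc (L := L) ((Xv W₁ W₂).ratEq K Ω) le_rfl h₁ h₂ hss l hl _ hT
  obtain ⟨z', hz', h3, h4, h5⟩ : ∃ z' : Pt W₁ Ω × Pt W₂ Ω →₀ ℤ, z' ∈ (Xv W₁ W₂).D0 K Ω ∧
      sm (Finsupp.mapDomain Prod.fst z') = 0 ∧ sm (Finsupp.mapDomain Prod.snd z') = 0 ∧
      QuotientAddGroup.mk' ((Xv W₁ W₂).ratEq K Ω) z' = y :=
    scX_mem (K := K) (Ω := Ω) (W₁ := W₁) (W₂ := W₂) ((Xv W₁ W₂).ratEq K Ω) le_rfl hy
  refine ⟨z', hz', pr_fst hz' h3, pr_snd hz' h4, ?_⟩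
  have h6 : Phi z - l • z' ∈ (Xv W₁ W₂).ratEq K Ω :=
    pr_mk (l := l) _ _ z' (he.trans (congrArg (fun t => l • t) h5.symm))
  have h7 := add_mem hw h6
  have h8 : z - Phi z + (Phi z - l • z') = z - l • z' := by abel
  exact h8 ▸ h7

/-- Two curves over a local field. Proof: `Ld.loc` (`Pe/Loc.lean`) for `R = ratEq`, `scX_gen`, `scX_mem` as in `dv_of` (`Pe/Glo.lean`);
`Vpr (Ev W₁) (Ev W₂)` is `Xv W₁ W₂`. -/
theorem dvR_loc (L : Ld K Ω) [L.Unr] {W₁ W₂ : WeierstrassCurve F} [W₁.IsElliptic] [W₂.IsElliptic]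
    (h₁ : L.Hd W₁) (h₂ : L.Gd W₂) (hss : L.p = 2 → L.nm (algebraMap F Ω W₂.a₁) < 1) {l : ℕ}
    (hl : l ≠ 0) : DvR (Ev W₁) (Ev W₂) K Ω l :=
  pr_iff.2 (pr_loc L h₁ h₂ hss hl)

private theorem pr_ss {A B : Type} (u : A × B →₀ ℤ) :
    Finsupp.mapDomain (Prod.swap (α := B) (β := A)) (Finsupp.mapDomain Prod.swap u) = u := by
  rw [← Finsupp.mapDomain_comp, Prod.swap_swap_eq, Finsupp.mapDomain_id]

omit [CharZero K] [IsAlgClosure K Ω] in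
private theorem pr_D0 {W₁ W₂ : WeierstrassCurve F} {z : Pt W₁ Ω × Pt W₂ Ω →₀ ℤ}
    (hz : z ∈ (Xv W₁ W₂).D0 K Ω) :
    Finsupp.mapDomain Prod.swap z ∈ (Xv W₂ W₁).D0 K Ω := by
  refine ⟨fun σ => ?_, ?_⟩
  · have h0 : Finsupp.mapDomain ((Xv W₁ W₂).act σ) z = z := hz.1 σ
    have h1 : (Xv W₂ W₁).act σ ∘ (Prod.swap : Pt W₁ Ω × Pt W₂ Ω → Pt W₂ Ω × Pt W₁ Ω) =
        Prod.swap ∘ (Xv W₁ W₂).act σ := rfl
    have h2 : Finsupp.mapDomain ((Xv W₂ W₁).act σ)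
        (Finsupp.mapDomain (Prod.swap : Pt W₁ Ω × Pt W₂ Ω → Pt W₂ Ω × Pt W₁ Ω) z) =
        Finsupp.mapDomain (Prod.swap : Pt W₁ Ω × Pt W₂ Ω → Pt W₂ Ω × Pt W₁ Ω)
          (Finsupp.mapDomain ((Xv W₁ W₂).act σ) z) := by
      refine Eq.trans (Finsupp.mapDomain_comp (f := (Prod.swap : Pt W₁ Ω × Pt W₂ Ω → _))
        (g := (Xv W₂ W₁).act σ) (v := z)).symm ?_
      exact Finsupp.mapDomain_comp (f := (Xv W₁ W₂).act σ)
        (g := (Prod.swap : Pt W₁ Ω × Pt W₂ Ω → Pt W₂ Ω × Pt W₁ Ω)) (v := z)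
    exact h2.trans (congrArg _ h0)
  · have h1 : ((Xv W₂ W₁).deg Ω).comp (Finsupp.mapDomain.addMonoidHom
        (Prod.swap : Pt W₁ Ω × Pt W₂ Ω → Pt W₂ Ω × Pt W₁ Ω)) = (Xv W₁ W₂).deg Ω := by
      refine Finsupp.addHom_ext fun x n => ?_
      have e2 : ∀ (A : Type) (a : A),
          Finsupp.liftAddHom (fun _ : A => AddMonoidHom.id ℤ) (Finsupp.single a n) = n :=
        fun A a => by simp
      have e1 : Finsupp.mapDomain (Prod.swap : Pt W₁ Ω × Pt W₂ Ω → Pt W₂ Ω × Pt W₁ Ω)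
          (Finsupp.single x n) = Finsupp.single x.swap n := Finsupp.mapDomain_single
      refine Eq.trans (congrArg ((Xv W₂ W₁).deg Ω) e1) ?_
      exact (e2 (Pt W₂ Ω × Pt W₁ Ω) x.swap).trans (e2 (Pt W₁ Ω × Pt W₂ Ω) x).symm
    have h2 : (Xv W₁ W₂).deg Ω z = 0 := hz.2
    rw [← h1] at h2
    exact h2

private theorem pr_swap {W₁ W₂ : WeierstrassCurve F} {l : ℕ} (h : PrX W₁ W₂ K Ω l) :
    PrX W₂ W₁ K Ω l := by
  intro z hz a₁ a₂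
  obtain ⟨z', hz', b₁, b₂, b₃⟩ := h (Finsupp.mapDomain Prod.swap z) (pr_D0 hz)
    (by
      rw [← Finsupp.mapDomain_comp]
      exact a₂)
    (by
      rw [← Finsupp.mapDomain_comp]
      exact a₁)
  refine ⟨Finsupp.mapDomain Prod.swap z', pr_D0 hz', ?_, ?_, ?_⟩
  · rw [← Finsupp.mapDomain_comp]
    exact b₂
  · rw [← Finsupp.mapDomain_comp]
    exact b₁
  · have h7 := swap_ratEq (W₁ := W₁) (W₂ := W₂) b₃
    have e : Finsupp.mapDomain (Prod.swap (α := Pt W₁ Ω) (β := Pt W₂ Ω))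
        (Finsupp.mapDomain (Prod.swap (α := Pt W₂ Ω) (β := Pt W₁ Ω)) z - l • z') =
        z - l • Finsupp.mapDomain (Prod.swap (α := Pt W₁ Ω) (β := Pt W₂ Ω)) z' := by
      have e1 := map_sub (Finsupp.mapDomain.addMonoidHom (M := ℤ)
        (Prod.swap (α := Pt W₁ Ω) (β := Pt W₂ Ω)))
        (Finsupp.mapDomain (Prod.swap (α := Pt W₂ Ω) (β := Pt W₁ Ω)) z) (l • z')
      rw [map_nsmul] at e1
      refine Eq.trans e1 ?_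
      exact congrArg₂ (fun a b => a - b) (pr_ss z) rfl
    rw [← e]
    exact h7

/-- The exchange of the factors. Proof: `swap_ratEq`. -/
theorem dvR_swap {W₁ W₂ : WeierstrassCurve F} {l : ℕ} (h : DvR (Ev W₁) (Ev W₂) K Ω l) :
    DvR (Ev W₂) (Ev W₁) K Ω l :=
  pr_iff.2 (pr_swap (pr_iff.1 h))

/-- Over unramified extensions. Proof: `dvR_loc` for `GX.xt L M` (`Ng/W.lean`), `Unr`: `ur_unr`. -/
theorem dvR_ur (L : Ld K Ω) [L.Unr] {W₁ W₂ : WeierstrassCurve F} [W₁.IsElliptic] [W₂.IsElliptic]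
    (h₁ : L.Hd W₁) (h₂ : L.Gd W₂) (hss : L.p = 2 → L.nm (algebraMap F Ω W₂.a₁) < 1) {l : ℕ}
    (hl : l ≠ 0) {N : ℕ} (hN : N ≠ 0) {M : IntermediateField K Ω} (hf : FiniteDimensional K M)
    (hM : M ≤ L.Ur ⊥ N) : DvR (Ev W₁) (Ev W₂) M Ω l ∧ DvR (Ev W₂) (Ev W₁) M Ω l := by
  have hcl : IsAlgClosed Ω := IsAlgClosure.isAlgClosed K
  have halg : Algebra.IsAlgebraic K Ω := IsAlgClosure.isAlgebraic
  have hac : IsAlgClosure M Ω := ⟨hcl, Algebra.IsAlgebraic.tower_top (K := K) M⟩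
  have hu : (GX.xt L M).Unr := ⟨fun x hx => by
    have hx0 : (x : Ω) ≠ 0 := fun h0 => hx (Subtype.ext h0)
    exact Ld.ur_unr (L := L) hN (hM x.2) hx0⟩
  have k₁ : (GX.xt L M).Hd W₁ :=
    { a₁ := h₁.a₁
      a₂ := h₁.a₂
      a₃ := h₁.a₃
      a₄ := h₁.a₄
      a₆ := h₁.a₆
      disc := h₁.disc }
  have k₂ : (GX.xt L M).Gd W₂ :=
    { a₁ := h₂.a₁
      a₂ := h₂.a₂
      a₃ := h₂.a₃
      a₄ := h₂.a₄
      a₆ := h₂.a₆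
      disc := h₂.disc }
  have h3 : DvR (Ev W₁) (Ev W₂) M Ω l := dvR_loc (GX.xt L M) k₁ k₂ hss hl
  exact ⟨h3, dvR_swap h3⟩

end NE
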