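import Pool.Agent.Lib.MP_f80667_ag.Nf.Nm
import Pool.Agent.Lib.MP_f80667_ag.Nf.GenA
import Pool.Agent.Lib.MP_f80667_ag.Nf.EeB
import Pool.Agent.Lib.MP_f80667_ag.Nf.Cho
import Pool.Agent.Lib.MP_f80667_ag.Nf.Mv
import Pool.Agent.Lib.MP_f80667_ag.Nf.Loc
import Pool.Agent.Lib.MP_f80667_ag.Nf.Pr

/-!
The points of a product of elliptic curves are rationally equivalent to unramified points; the local theorem.
-/

open ZC BE PE Polynomial IntermediateField CV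

namespace NE

variable {F : Type} [Field F] {K Ω : Type} [Field K] [Field Ω] [Algebra K Ω] [Algebra F K]
  [Algebra F Ω] [IsScalarTower F K Ω] [CharZero K] [IsAlgClosure K Ω] {L : Ld K Ω} [L.Unr] {n : ℕ}
  {W : Fin n → WeierstrassCurve F} [∀ i, (W i).IsElliptic]

/-- **The hypothesis on the reduction**: all curves but at most one have good reduction (supersingular if `p = 2`), the last one
has a discriminant with valuation at most `1`. -/
structure Lh (L : Ld K Ω) (W : Fin n → WeierstrassCurve F) : Prop where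
  hd : ∀ i, L.Hd (W i)
  gd : ∀ i j, i ≠ j → L.Gd (W i) ∨ L.Gd (W j)
  ss : L.p = 2 → ∀ i j, i ≠ j →
    L.Gd (W i) ∧ L.nm (algebraMap F Ω (W i).a₁) < 1 ∨ L.Gd (W j) ∧ L.nm (algebraMap F Ω (W j).a₁) < 1

/-- The points of `Gn`. Proof: `exists_tm` for the uniformizer (`exists_uf`), `exists_ch`, `rel_nm`. -/
theorem gen_gn {M : IntermediateField K Ω} [FiniteDimensional K M] {N : ℕ} {x y : Fin n → Ω}
    (h : Gn L W M N x y) {l : ℕ} (hl : 1 < l) {P : (Xn W).pt Ω}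
    (hP : ∀ i, ∃ h : ((W i).baseChange Ω).toAffine.Nonsingular (x i) (y i),
      cx P i = Pt.aff (x i) (y i) h) : ∃ j : ℕ,
    Nm (L.Ur ⊥ (N * l ^ j)) (L.Ur M (N * l ^ j)) (Finsupp.single P (1 : ℤ) : (Xn W).pt Ω →₀ ℤ) ∈
      (Xn W).ratEq (L.Ur ⊥ (N * l ^ j)) Ω ⊔ Uk L (Xn W) (L.Ur ⊥ (N * l ^ j)) := by
  obtain ⟨π, hπ⟩ := Ld.exists_uf (L := L) M
  obtain ⟨e, m, hm⟩ := Ld.exists_tm (d := 0) (z := π) h.rf (zero_mem _)
    (by rw [L.zero]; exact zero_le_one) (by rw [sub_zero]; exact hπ)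
  obtain ⟨j, r, w, A, b, hch, hr0, hA0⟩ := exists_ch h hm hπ hl
  refine ⟨j, rel_nm h.rf.ne (pow_ne_zero _ (by omega)) h.rf hm hπ.mem hch ?_⟩
  have h1 : ∀ i, ∃ h : ((W i).baseChange Ω).toAffine.Nonsingular ((r i).eval π) (y i),
      cx P i = Pt.aff ((r i).eval π) (y i) h := by
    intro i
    rw [hr0 i]
    exact hP i
  choose h2 h3 using h1
  exact ⟨y, h2, hA0.symm, funext h3⟩

/-- All points. Proof: `mv_pt` for all coordinates with a common `j₁`; `Rf (Ur M (N l ^ j₁)) (N l ^ j₁)` (`rf_ur`); `gen_gn` over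
`Ur M (N l ^ j₁)` for `P + c` (`ur_ur`), `gd_dy`; translate back by `- c` (`trl_ratEq`, `trl_uk`, `trl_nm`). -/
theorem gen_pt (hL : Lh L W) {M : IntermediateField K Ω} [FiniteDimensional K M] {N : ℕ}
    (hM : L.Rf M N) {l : ℕ} (hl : l = 2 ∨ l = 3) {P : (Xn W).pt Ω} (hP : Fp (Xn W) M P) : ∃ j : ℕ,
    Nm (L.Ur ⊥ (N * l ^ j)) (L.Ur M (N * l ^ j)) (Finsupp.single P (1 : ℤ) : (Xn W).pt Ω →₀ ℤ) ∈
      (Xn W).ratEq (L.Ur ⊥ (N * l ^ j)) Ω ⊔ Uk L (Xn W) (L.Ur ⊥ (N * l ^ j)) := by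
  classical
  have hl1 : 1 < l := by omega
  have hl0 : l ≠ 0 := by omega
  have hP' := fpX.1 hP
  choose j₀ hj₀ using fun i => mv_pt hl (hL.hd i) hM (hP' i)
  set j := Finset.univ.sup j₀ with hj
  choose c x y hx hc hs hx1 hy1 hdy hsg using fun i =>
    hj₀ i j (Finset.le_sup (f := j₀) (Finset.mem_univ i))
  have hlj : l ^ j ≠ 0 := pow_ne_zero _ hl0
  have hN' : N * l ^ j ≠ 0 := mul_ne_zero hM.ne hlj
  have hrf : L.Rf (L.Ur M (N * l ^ j)) (N * l ^ j) := Ld.rf_ur hM hlj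
  have hfin : FiniteDimensional K (L.Ur M (N * l ^ j)) := Ld.ur_fin M _ hN'
  have hmem : ∀ i, x i ∈ L.Ur M (N * l ^ j) ∧ y i ∈ L.Ur M (N * l ^ j) := by
    intro i
    rw [← fx_aff (K := K) _ (hx i), ← hs i]
    exact ((hP' i).mono Ld.ur_le).add ((hc i).mono (Ld.ur_bot_ur M _))
  have hgn : Gn L W (L.Ur M (N * l ^ j)) (N * l ^ j) x y :=
    { rf := hrf
      hd := hL.hd
      xm := fun i => (hmem i).1
      ym := fun i => (hmem i).2
      xl := hx1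
      yl := hy1
      eq := fun i => fe_zero (hx i)
      ne := hdy
      sg := hsg
      one := fun i k hik => by
        rcases hL.gd i k hik with h | h
        · exact Or.inl (gd_dy h (hx i) (hx1 i) (hsg i))
        · exact Or.inr (gd_dy h (hx k) (hx1 k) (hsg k)) }
  let cc : (Xn W).pt Ω := fun i => (c i : Pt (W i) Ω)
  let nc : (Xn W).pt Ω := fun i => (-c i : Pt (W i) Ω)
  obtain ⟨j', hj'⟩ := gen_gn hgn hl1 (P := trl cc P) fun i => ⟨hx i, hs i⟩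
  refine ⟨j + j', ?_⟩
  have e1 : N * l ^ (j + j') = N * l ^ j * l ^ j' := by rw [pow_add, mul_assoc]
  rw [e1]
  have e2 : L.Ur (L.Ur M (N * l ^ j)) (N * l ^ j * l ^ j') = L.Ur M (N * l ^ j * l ^ j') :=
    Ld.ur_ur M (dvd_mul_right _ _)
  rw [e2] at hj'
  set U := L.Ur ⊥ (N * l ^ j * l ^ j') with hU
  have hU0 : N * l ^ j * l ^ j' ≠ 0 := mul_ne_zero hN' (pow_ne_zero _ hl0)
  have hfin' : FiniteDimensional K (L.Ur M (N * l ^ j * l ^ j')) := Ld.ur_fin M _ hU0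
  have hnc : Fp (Xn W) U nc := fpX.2 fun i =>
    ((hc i).neg).mono (Ld.ur_dvd ⊥ (dvd_mul_right _ _))
  have e3 : trl nc (trl cc P) = P := by
    funext i
    change cx P i + c i + -c i = cx P i
    rw [add_neg_cancel_right]
  have e4 : Nm U (L.Ur M (N * l ^ j * l ^ j')) (Finsupp.single P (1 : ℤ) : (Xn W).pt Ω →₀ ℤ) =
      Finsupp.mapDomain (trl nc) (Nm U (L.Ur M (N * l ^ j * l ^ j'))
        (Finsupp.single (trl cc P) (1 : ℤ) : (Xn W).pt Ω →₀ ℤ)) := by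
    rw [trl_nm (Ld.ur_bot_ur M _) hnc, e3]
  rw [e4]
  obtain ⟨a, ha, b, hb, hab⟩ := AddSubgroup.mem_sup.1 hj'
  rw [← hab, Finsupp.mapDomain_add]
  exact AddSubgroup.add_mem_sup (trl_ratEq hnc ha) (trl_uk hU0 le_rfl hnc hb)

/-- **The generation.** Proof: `exists_rfM`, `gen_pt` for `l = 2`, `3`; `nm_ratEq`, `uk_uv`, `nm_tr`, `nm_deg`: `2 ^ j` and `3 ^ j'`
times the norm are in the group; they are coprime. -/
theorem gen_all (hL : Lh L W) (M : IntermediateField K Ω) (P : (Xn W).pt Ω)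
    (hf : FiniteDimensional K M) (hP : Fp (Xn W) M P) :
    Nm (⊥ : IntermediateField K Ω) M (Finsupp.single P 1) ∈
      (Xn W).ratEq K Ω ⊔ Uv L (Xn W) := by
  obtain ⟨N, hN⟩ := exists_rfM (L := L) M
  have key : ∀ l : ℕ, l = 2 ∨ l = 3 → ∃ j : ℕ, l ^ j • Nm (⊥ : IntermediateField K Ω) M
      (Finsupp.single P (1 : ℤ) : (Xn W).pt Ω →₀ ℤ) ∈ (Xn W).ratEq K Ω ⊔ Uv L (Xn W) := by
    intro l hl
    have hl0 : l ≠ 0 := by omega
    obtain ⟨j, hj⟩ := gen_pt hL hN hl hP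
    refine ⟨j, ?_⟩
    have hlj : l ^ j ≠ 0 := pow_ne_zero _ hl0
    have hN' : N * l ^ j ≠ 0 := mul_ne_zero hN.ne hlj
    have hfin : FiniteDimensional K (L.Ur M (N * l ^ j)) := Ld.ur_fin M _ hN'
    have hfinU : FiniteDimensional K (L.Ur ⊥ (N * l ^ j)) := Ld.ur_fin ⊥ _ hN'
    have hPM : Fx M (Finsupp.single P (1 : ℤ) : (Xn W).pt Ω →₀ ℤ) := fx_single hP 1
    have hPN : Fx (L.Ur M (N * l ^ j)) (Finsupp.single P (1 : ℤ) : (Xn W).pt Ω →₀ ℤ) :=
      hPM.mono Ld.ur_le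
    have e1 : l ^ j • Nm (⊥ : IntermediateField K Ω) M
        (Finsupp.single P (1 : ℤ) : (Xn W).pt Ω →₀ ℤ) =
        Nm (⊥ : IntermediateField K Ω) (L.Ur M (N * l ^ j)) (Finsupp.single P (1 : ℤ)) := by
      rw [nm_tr bot_le Ld.ur_le hPN, nm_deg hN hlj hP, nm_nsmul bot_le]
    rw [e1, nm_tr bot_le (Ld.ur_bot_ur M (N * l ^ j)) hPN]
    obtain ⟨a, ha, b, hb, hab⟩ := AddSubgroup.mem_sup.1 hj
    have hfx : Fx (L.Ur ⊥ (N * l ^ j)) a := by
      have h1 := nm_fx (Ld.ur_bot_ur M (N * l ^ j)) hPN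
      rw [← hab] at h1
      have h2 := h1.sub hb.1
      rwa [add_sub_cancel_right] at h2
    rw [← hab, nm_add bot_le]
    exact AddSubgroup.add_mem_sup (nm_ratEq ha hfx) (uk_uv hN' hb)
  obtain ⟨a, ha⟩ := key 2 (Or.inl rfl)
  obtain ⟨b, hb⟩ := key 3 (Or.inr rfl)
  have hcop : IsCoprime ((2 ^ a : ℕ) : ℤ) ((3 ^ b : ℕ) : ℤ) := by
    rw [Nat.isCoprime_iff_coprime]
    exact Nat.Coprime.pow _ _ (by norm_num)
  obtain ⟨u, v, huv⟩ := hcop
  have e : Nm (⊥ : IntermediateField K Ω) M (Finsupp.single P (1 : ℤ) : (Xn W).pt Ω →₀ ℤ) =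
      u • (2 ^ a • Nm (⊥ : IntermediateField K Ω) M (Finsupp.single P 1)) +
        v • (3 ^ b • Nm (⊥ : IntermediateField K Ω) M (Finsupp.single P 1)) := by
    rw [← natCast_zsmul, ← natCast_zsmul, smul_smul, smul_smul, ← add_smul, huv, one_smul]
  rw [e]
  exact add_mem (zsmul_mem ha u) (zsmul_mem hb v)

/-- **The local theorem.** Proof: `loc_V`, `gen_all`, `dvR_ur`. -/
theorem loc_E (hL : Lh L W) {l : ℕ} (hl : l ≠ 0) : DvG (fun i => Ev (W i)) K Ω l := by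
  refine loc_V (L := L) (fun i => bpE (W i)) ?_ fun M x hf hx => gen_all hL M x hf hx
  intro N M hN hf hM i j hij
  by_cases h2 : L.p = 2
  · rcases hL.ss h2 i j hij with h | h
    · exact (dvR_ur L (hL.hd j) h.1 (fun _ => h.2) hl hN hf hM).2
    · exact (dvR_ur L (hL.hd i) h.1 (fun _ => h.2) hl hN hf hM).1
  · rcases hL.gd i j hij with h | h
    · exact (dvR_ur L (hL.hd j) h (fun h => absurd h h2) hl hN hf hM).2
    · exact (dvR_ur L (hL.hd i) h (fun h => absurd h h2) hl hN hf hM).1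

end NE
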