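import Pool.Agent.Lib.MP_f80667_ag.Nf.Sna
import Pool.Agent.Lib.MP_f80667_ag.Pe.Bs

/-!
The symbols over a finite extension.
-/

open ZC BE PE Polynomial IntermediateField

namespace NE

namespace Sn

variable {ι : Type} [DecidableEq ι] {K Ω : Type} [Field K] [Field Ω] [Algebra K Ω]
  {A : ι → Type} [∀ i, AddCommGroup (A i)] [∀ i, DistribMulAction (Ω ≃ₐ[K] Ω) (A i)]
  {G : Type} [AddCommGroup G] [CharZero K] [IsAlgClosure K Ω]

/-- **The symbols over a finite extension.** Proof: as `exists_bs` (`Pe/Bs.lean`). -/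
theorem exists_bsn {A' : ι → Type} [∀ i, AddCommGroup (A' i)] (M : IntermediateField K Ω)
    [FiniteDimensional K M] [∀ i, DistribMulAction (Ω ≃ₐ[M] Ω) (A' i)] (S : Sn ι K Ω A G)
    (φ : ∀ i, A i ≃+ A' i)
    (hφ : ∀ i (σ : Ω ≃ₐ[M] Ω) (a : A i), φ i (σ.restrictScalars K • a) = σ • φ i a) :
    ∃ S' : Sn ι M Ω A' G, S'.T ≤ S.T ∧ ∀ (N : IntermediateField M Ω) (x : ∀ i, A i),
      S'.sy N (fun i => φ i (x i)) = S.sy (N.restrictScalars K) x := by
  have hφ' : ∀ (N : IntermediateField M Ω) (i : ι) (P : A' i), Fx N P →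
      Fx (N.restrictScalars K) ((φ i).symm P) := fun N i P h =>
    (bs_fx M (hφ i) N ((φ i).symm P)).1 (by rwa [AddEquiv.apply_symm_apply])
  have hle : ∀ N N' : IntermediateField M Ω, N ≤ N' →
      N.restrictScalars K ≤ N'.restrictScalars K := fun N N' h x hx => h hx
  have hup : ∀ (x : ∀ i, A' i) (i : ι) (P : A' i),
      (fun j => (φ j).symm (Function.update x i P j)) =
        Function.update (fun j => (φ j).symm (x j)) i ((φ i).symm P) := fun x i P =>
    funext fun j => Function.apply_update (fun j => (φ j).symm) x i P j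
  let S' : Sn ι M Ω A' G :=
    { sy := fun N x => S.sy (N.restrictScalars K) fun i => (φ i).symm (x i)
      add := by
        intro N _ i x P P' hx hP hP'
        have := bs_fin M N
        rw [hup, hup, hup, map_add]
        exact S.add _ _ _ _ _ (fun j hj => hφ' N j _ (hx j hj)) (hφ' N i P hP) (hφ' N i P' hP')
      nm := by
        intro N N' _ i x P h hx hP
        have := bs_fin M N'
        have h1 := bs_nm M (hφ i) h (P := (φ i).symm P) (hφ' N' i P hP)
        rw [AddEquiv.apply_symm_apply] at h1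
        rw [hup, hup, h1, AddEquiv.symm_apply_apply]
        exact S.nm _ _ _ _ _ (hle N N' h) (fun j hj => hφ' N j _ (hx j hj)) (hφ' N' i P hP) }
  refine ⟨S', ?_, fun N x => ?_⟩
  · unfold Sn.T
    rw [AddSubgroup.closure_le]
    rintro g ⟨N, x, hN, hx, rfl⟩
    have := hN
    exact AddSubgroup.subset_closure ⟨N.restrictScalars K, fun i => (φ i).symm (x i),
      bs_fin M N, fun i => hφ' N i _ (hx i), rfl⟩
  · change S.sy (N.restrictScalars K) (fun i => (φ i).symm (φ i (x i))) = _
    exact congrArg _ (funext fun i => (φ i).symm_apply_apply (x i))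

end Sn

end NE
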