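import Pool.Agent.Lib.MP_f80667_ag.Nf.Snd
import Pool.Agent.Lib.MP_f80667_ag.Nf.SnaB

/-!
All symbols are multiples of `l`, `l` different from the residue characteristic: potentially semistable curves.
-/

open ZC BE PE Polynomial IntermediateField

namespace NE

variable {F : Type} [Field F] {K Ω : Type} [Field K] [CharZero K] [Field Ω] [Algebra K Ω]
  [Algebra F K] [Algebra F Ω] [IsScalarTower F K Ω] [IsAlgClosure K Ω]
  {ι : Type} [DecidableEq ι] [Fintype ι]

omit [DecidableEq ι] in
/-- The compositum of finitely many extensions of degree prime to `l`. -/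
private theorem sndB_sup [Nonempty ι] {l : ℕ} (M : ι → IntermediateField K Ω)
    (hf : ∀ i, FiniteDimensional K (M i)) (hc : ∀ i, Cp l (M i)) :
    ∃ M₀ : IntermediateField K Ω, FiniteDimensional K M₀ ∧ Cp l M₀ ∧ ∀ i, M i ≤ M₀ := by
  classical
  have key : ∀ s : Finset ι, ∃ M₀ : IntermediateField K Ω, FiniteDimensional K M₀ ∧ Cp l M₀ ∧
      ∀ i ∈ s, M i ≤ M₀ := by
    intro s
    induction s using Finset.induction_on with
    | empty =>
      obtain ⟨i⟩ := ‹Nonempty ι›
      exact ⟨M i, hf i, hc i, fun j hj => absurd hj (Finset.notMem_empty j)⟩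
    | insert i s _ ih =>
      obtain ⟨M₀, h₁, h₂, h₃⟩ := ih
      have := hf i
      refine ⟨M i ⊔ M₀, IntermediateField.finiteDimensional_sup (M i) M₀, cp_sup (hc i) h₂,
        fun j hj => ?_⟩
      rcases Finset.mem_insert.1 hj with rfl | hj
      · exact le_sup_left
      · exact (h₃ j hj).trans le_sup_right
  obtain ⟨M₀, h₁, h₂, h₃⟩ := key Finset.univ
  exact ⟨M₀, h₁, h₂, fun i => h₃ i (Finset.mem_univ i)⟩

/-- **Local theorem for the symbols.** Proof: as `el_potE` (`Pe/ElgE.lean`): `M₀` is the compositum of the fields of `pot_ssE` for the `W i` (`cp_sup`: by induction over the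
finite set of indices there is a finite extension `M₀` with `Cp l M₀` containing them all), `exists_bsL`, `jc_ext`, `exists_bsn`, `sn_all`, `z_cop`. -/
theorem sn_pot (L : Ld K Ω) [Nontrivial ι] (W : ι → WeierstrassCurve F) [∀ i, (W i).IsElliptic]
    {l : ℕ} (hl : l.Prime) (h5 : 5 ≤ l) (hlp : l ≠ L.p) (hj : ∀ i, L.Jc l (W i)) {G : Type}
    [AddCommGroup G] (S : Sn ι K Ω (fun i => Pt (W i) Ω) G) (M : IntermediateField K Ω)
    (x : ∀ i, Pt (W i) Ω) (hM : FiniteDimensional K M) (hx : ∀ i, Fx M (x i)) : S.Z l M x := by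
  have hcz : CharZero Ω := charZero_of_injective_algebraMap (algebraMap K Ω).injective
  choose Mi hfi hci hMi using fun i => Ld.pot_ssE L (W i)
  obtain ⟨M₀, hf, hcp, hle⟩ := sndB_sup Mi hfi (fun i => hci i l hl h5)
  obtain ⟨L', hp, hL'⟩ := L.exists_bsL M₀
  choose W' φ he hg hφ hq using fun i => hMi i M₀ (hle i) L' hL'
  have hac : IsAlgClosed Ω := IsAlgClosure.isAlgClosed K
  have halg : Algebra.IsAlgebraic K Ω := IsAlgClosure.isAlgebraic
  have hcl : IsAlgClosure M₀ Ω := ⟨hac, Algebra.IsAlgebraic.tower_top (K := K) M₀⟩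
  have hj' : ∀ i, L'.Jc l (W' i) := fun i =>
    Ld.jc_ext L hl hcp L' hL' (W i) (W' i) (hq i) (hj i)
  obtain ⟨S', hT, hS'⟩ := Sn.exists_bsn M₀ S φ hφ
  let N : IntermediateField M₀ Ω := IntermediateField.extendScalars (le_sup_right : M₀ ≤ M ⊔ M₀)
  have hN : N.restrictScalars K = M ⊔ M₀ := IntermediateField.extendScalars_restrictScalars _
  have hfN : FiniteDimensional K (M ⊔ M₀ : IntermediateField K Ω) :=
    IntermediateField.finiteDimensional_sup M M₀
  have hfN' : FiniteDimensional M₀ N := by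
    have h1 : FiniteDimensional K N := by
      change FiniteDimensional K (N.restrictScalars K)
      rw [hN]
      exact hfN
    exact FiniteDimensional.right K M₀ N
  have hxN : ∀ i, Fx N (φ i (x i)) := by
    intro i
    rw [bs_fx M₀ (hφ i), hN]
    exact (hx i).mono le_sup_left
  obtain ⟨g, hg', hge⟩ := sn_all L' hg hl (by rw [hp]; exact hlp) hj' S' N
    (fun i => φ i (x i)) hfN' hxN
  rw [hS', hN] at hge
  exact Sn.z_cop le_sup_left hx (hcp M hM) ⟨g, hT hg', hge⟩

end NE
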