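import Pool.Agent.Lib.MP_f80667_ag.Nf.Sne
import Pool.Agent.Lib.MP_f80667_ag.Nf.Ee
import Pool.Agent.Lib.MP_f80667_ag.Nf.Loc

/-!
The Albanese kernel is generated by the traces of the cycles `tht S x`, `2 ≤ |S|`.
-/

open ZC BE PE Polynomial IntermediateField CV

namespace NE

variable {F : Type} [Field F] {n : ℕ} {W : Fin n → WeierstrassCurve F} [∀ i, (W i).IsElliptic]
  {K Ω : Type} [Field K] [Field Ω] [Algebra K Ω] [Algebra F K] [Algebra F Ω]
  [IsScalarTower F K Ω] [CharZero K] [IsAlgClosure K Ω]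

section

omit [∀ i, (W i).IsElliptic]

variable (W) in
/-- The composite of the projection and the section. -/
private noncomputable def sng_s (i : Fin n) : Mo (Xn W) (Xn W) :=
  (sc (V := fun i => Ev (W i)) (fun j => bpE (W j)) i).comp (pr (V := fun i => Ev (W i)) i)

variable (W) in
/-- The base point. -/
private noncomputable def sng_o : Bp (Xn W) where
  o L _ _ := fun i => (bpE (W i)).o L
  nat L M _ _ _ _ σ := funext fun i => (bpE (W i)).nat L M σ
  red K L Ω _ _ _ _ _ _ _ w := fun i => (bpE (W i)).red K L Ω w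

variable (W Ω) in
/-- The component in the Albanese kernel. -/
private noncomputable def sng_t : ((Xn W).pt Ω →₀ ℤ) →+ ((Xn W).pt Ω →₀ ℤ) :=
  AddMonoidHom.id _ - ∑ i, Finsupp.mapDomain.addMonoidHom ((sng_s W i).f Ω) +
    ((n : ℤ) - 1) • Finsupp.mapDomain.addMonoidHom ((Mo.cst (Xn W) (sng_o W)).f Ω)

private theorem sng_t_apply (z : (Xn W).pt Ω →₀ ℤ) :
    sng_t W Ω z = z - ∑ i, Finsupp.mapDomain ((sng_s W i).f Ω) z +
      ((n : ℤ) - 1) • Finsupp.mapDomain ((Mo.cst (Xn W) (sng_o W)).f Ω) z := by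
  rw [sng_t, AddMonoidHom.add_apply, AddMonoidHom.sub_apply, AddMonoidHom.finsetSum_apply]
  rfl

private theorem sng_s_f (i : Fin n) (x : (Xn W).pt Ω) : (sng_s W i).f Ω x = xt x {i} := by
  have e0 : (sng_s W i).f Ω x = @Function.update (Fin n) (fun i => (Ev (W i)).pt Ω)
      (fun a b => Classical.propDecidable (a = b)) (fun j => (bpE (W j)).o Ω) i (x i) := rfl
  funext j
  rw [e0]
  rcases eq_or_ne j i with rfl | h
  · have e1 : @Function.update (Fin n) (fun i => (Ev (W i)).pt Ω)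
        (fun a b => Classical.propDecidable (a = b)) (fun j => (bpE (W j)).o Ω) j (x j) j = x j :=
      @Function.update_self (Fin n) (fun i => (Ev (W i)).pt Ω)
        (fun a b => Classical.propDecidable (a = b)) j (x j) _
    have e2 : xt x {j} j = x j := if_pos (Finset.mem_singleton_self j)
    rw [e1, e2]
  · have e1 : @Function.update (Fin n) (fun i => (Ev (W i)).pt Ω)
        (fun a b => Classical.propDecidable (a = b)) (fun j => (bpE (W j)).o Ω) i (x i) j =
        (0 : Pt (W j) Ω) :=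
      @Function.update_of_ne (Fin n) (fun i => (Ev (W i)).pt Ω)
        (fun a b => Classical.propDecidable (a = b)) j i h (x i) _
    have e2 : xt x {i} j = (0 : Pt (W j) Ω) := if_neg (by rw [Finset.mem_singleton]; exact h)
    rw [e1, e2]

private theorem sng_card_one (x : (Xn W).pt Ω) :
    (∑ S ∈ (Finset.univ : Finset (Finset (Fin n))).filter (fun S => ¬ 2 ≤ S.card), tht S x :
      (Xn W).pt Ω →₀ ℤ) = tht ∅ x + ∑ i : Fin n, tht {i} x := by
  classical
  have h1 : (Finset.univ : Finset (Finset (Fin n))).filter (fun S => ¬ 2 ≤ S.card) =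
      insert ∅ (Finset.univ.image (fun i : Fin n => ({i} : Finset (Fin n)))) := by
    ext S
    rw [Finset.mem_filter, Finset.mem_insert, Finset.mem_image]
    constructor
    · rintro ⟨_, h⟩
      rcases Nat.lt_or_ge S.card 1 with h2 | h2
      · exact Or.inl (Finset.card_eq_zero.1 (by omega))
      · obtain ⟨i, hi⟩ := Finset.card_eq_one.1 (show S.card = 1 by omega)
        exact Or.inr ⟨i, Finset.mem_univ i, hi.symm⟩
    · rintro (rfl | ⟨i, _, rfl⟩)
      · exact ⟨Finset.mem_univ _, by simp⟩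
      · exact ⟨Finset.mem_univ _, by simp⟩
  rw [h1, Finset.sum_insert]
  · congr 1
    rw [Finset.sum_image]
    intro i _ j _ h
    exact Finset.singleton_injective h
  · rw [Finset.mem_image]
    rintro ⟨i, _, h⟩
    exact Finset.singleton_ne_empty i h

private theorem sng_t_single (x : (Xn W).pt Ω) :
    sng_t W Ω (Finsupp.single x 1) =
      ∑ S ∈ (Finset.univ : Finset (Finset (Fin n))).filter (fun S => 2 ≤ S.card), tht S x := by
  classical
  have h1 := tht_sum x
  rw [← Finset.sum_filter_add_sum_filter_not (Finset.univ : Finset (Finset (Fin n)))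
    (fun S => 2 ≤ S.card), sng_card_one, tht_emp] at h1
  have h2 : (∑ i : Fin n, tht {i} x : (Xn W).pt Ω →₀ ℤ) =
      ∑ i : Fin n, Finsupp.single (xt x {i}) 1 - (n : ℤ) • Finsupp.single (oX W Ω) 1 := by
    rw [Finset.sum_congr rfl (fun i _ => tht_one x i), Finset.sum_sub_distrib, Finset.sum_const,
      Finset.card_univ, Fintype.card_fin, natCast_zsmul]
  have h3 : (∑ i : Fin n, Finsupp.mapDomain ((sng_s W i).f Ω) (Finsupp.single x 1) :
      (Xn W).pt Ω →₀ ℤ) = ∑ i : Fin n, Finsupp.single (xt x {i}) 1 := by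
    refine Finset.sum_congr rfl fun i _ => ?_
    rw [Finsupp.mapDomain_single, sng_s_f]
  have h4 : Finsupp.mapDomain ((Mo.cst (Xn W) (sng_o W)).f Ω) (Finsupp.single x (1 : ℤ)) =
      Finsupp.single (oX W Ω) 1 := Finsupp.mapDomain_single
  rw [sng_t_apply, h3, h4, ← h1, h2, sub_smul, one_smul]
  abel

private theorem sng_act (φ : Mo (Xn W) (Xn W)) (γ : Ω ≃ₐ[K] Ω) (z : (Xn W).pt Ω →₀ ℤ) :
    γ • Finsupp.mapDomain (φ.f Ω) z = Finsupp.mapDomain (φ.f Ω) (γ • z) := by
  rw [CV.smul_def, CV.smul_def, ← Finsupp.mapDomain_comp, ← Finsupp.mapDomain_comp]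
  have h1 : (Xn W).act γ ∘ φ.f Ω = φ.f Ω ∘ (Xn W).act γ :=
    funext fun x => φ.act γ x
  rw [h1]

private theorem sng_smul (γ : Ω ≃ₐ[K] Ω) (z : (Xn W).pt Ω →₀ ℤ) :
    γ • sng_t W Ω z = sng_t W Ω (γ • z) := by
  rw [sng_t_apply, sng_t_apply, smul_add, smul_sub, Finset.smul_sum, smul_comm γ, sng_act]
  congr 2
  exact Finset.sum_congr rfl fun i _ => sng_act _ γ z

private theorem sng_const {S₀ : Vr F} {Y : Type} (o : Y) (u : S₀.pt Ω →₀ ℤ) :
    Finsupp.mapDomain (fun _ : S₀.pt Ω => o) u = Finsupp.single o (S₀.deg Ω u) := by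
  induction u using Finsupp.induction_linear with
  | zero => simp
  | add f g hf hg => rw [Finsupp.mapDomain_add, hf, hg, map_add, Finsupp.single_add]
  | single a n => rw [Finsupp.mapDomain_single, Vr.deg, Finsupp.liftAddHom_apply_single]; rfl

/-- On the Albanese kernel the component is the identity modulo `ratEq`. -/
private theorem sng_id {z : (Xn W).pt Ω →₀ ℤ} (hz : z ∈ (Xn W).D0 K Ω)
    (ha : ∀ i, Finsupp.mapDomain ((pr (V := fun i => Ev (W i)) i).f Ω) z ∈
      (Ev (W i)).ratEq K Ω) : z - sng_t W Ω z ∈ (Xn W).ratEq K Ω := by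
  have hdeg : (Xn W).deg Ω z = 0 := hz.2
  have h1 : Finsupp.mapDomain ((Mo.cst (Xn W) (sng_o W)).f Ω) z = 0 := by
    have h2 := sng_const (S₀ := Xn W) ((sng_o W).o Ω) z
    rw [hdeg, Finsupp.single_zero] at h2
    exact h2
  have h3 : z - sng_t W Ω z = ∑ i, Finsupp.mapDomain ((sng_s W i).f Ω) z := by
    rw [sng_t_apply, h1, smul_zero]
    abel
  rw [h3]
  refine sum_mem fun i _ => ?_
  have h4 : Finsupp.mapDomain ((sng_s W i).f Ω) z =
      Finsupp.mapDomain ((sc (V := fun i => Ev (W i)) (fun j => bpE (W j)) i).f Ω)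
        (Finsupp.mapDomain ((pr (V := fun i => Ev (W i)) i).f Ω) z) := by
    rw [← Finsupp.mapDomain_comp]
    rfl
  rw [h4]
  exact (sc (V := fun i => Ev (W i)) (fun j => bpE (W j)) i).ratEq K Ω (ha i)

private theorem sng_nm_zero {S₀ : Vr F} [Hf S₀] {M : IntermediateField K Ω}
    [FiniteDimensional K M] : Nm (⊥ : IntermediateField K Ω) M (0 : S₀.pt Ω →₀ ℤ) = 0 := by
  obtain ⟨s, -, -, -, h3⟩ := nm_rep (M := (⊥ : IntermediateField K Ω)) (N := M) bot_le
  rw [h3]
  exact Finset.sum_eq_zero fun γ _ => smul_zero γ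

private theorem sng_nm_sum {S₀ : Vr F} [Hf S₀] {M : IntermediateField K Ω}
    [FiniteDimensional K M] {ι : Type} (s : Finset ι) (f : ι → (S₀.pt Ω →₀ ℤ)) :
    Nm (⊥ : IntermediateField K Ω) M (∑ i ∈ s, f i) =
      ∑ i ∈ s, Nm (⊥ : IntermediateField K Ω) M (f i) := by
  obtain ⟨t, -, -, -, h3⟩ := nm_rep (M := (⊥ : IntermediateField K Ω)) (N := M) bot_le
  rw [h3, Finset.sum_congr rfl (fun i _ => h3 _ (f i)), Finset.sum_comm]
  exact Finset.sum_congr rfl fun γ _ => Finset.smul_sum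

private theorem sng_nm_D0 {S₀ : Vr F} [Hf S₀] {M : IntermediateField K Ω}
    [FiniteDimensional K M] {z : S₀.pt Ω →₀ ℤ} (h : Fx M z) (h0 : S₀.deg Ω z = 0) :
    Nm (⊥ : IntermediateField K Ω) M z ∈ S₀.D0 K Ω := by
  constructor
  · intro γ
    refine nm_fx (M := (⊥ : IntermediateField K Ω)) (N := M) bot_le h γ ?_
    rw [IntermediateField.fixingSubgroup_bot]
    trivial
  · obtain ⟨s, -, -, -, h3⟩ := nm_rep (M := (⊥ : IntermediateField K Ω)) (N := M) bot_le
    change S₀.deg Ω _ = 0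
    rw [h3, map_sum]
    exact Finset.sum_eq_zero fun γ _ => by rw [deg_smul, h0]

end

/-- Every point of the product has a finite field of definition. -/
private theorem sng_fp (x : (Xn W).pt Ω) :
    ∃ M : IntermediateField K Ω, FiniteDimensional K M ∧ Fp (Xn W) M x := by
  choose M hM hfp using fun i => Kp.fp (V := Ev (W i)) K Ω (x i)
  refine ⟨⨆ i, M i, ?_, ?_⟩
  · have : ∀ i, FiniteDimensional K (M i) := hM
    exact IntermediateField.finiteDimensional_iSup_of_finite
  · intro γ hγ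
    exact funext fun i => hfp i γ (fix_le (le_iSup M i) hγ)

/-- Proof: an invariant cycle is a sum of norms of points (as in `loc_V`, `Nf/Loc.lean`); `tht_sum`; the part with `S = ∅` is `deg z [0] = 0` (`tht_emp`), the sum of
the parts with `S = {i}` is the push-forward of `z` to the curve `i` and back, minus `deg z [0]` (`tht_one`; `Mo.ratEq` for `sc (fun j => bpE (W j)) i`, as in `Nf/Loc.lean`). -/
theorem tht_gen {z : (Xn W).pt Ω →₀ ℤ} (hz : z ∈ (Xn W).D0 K Ω)
    (ha : ∀ i, Finsupp.mapDomain ((pr (V := fun i => Ev (W i)) i).f Ω) z ∈ (Ev (W i)).ratEq K Ω) :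
    ∃ w ∈ AddSubgroup.closure {w : (Xn W).pt Ω →₀ ℤ | ∃ (S : Finset (Fin n))
        (M : IntermediateField K Ω) (x : (Xn W).pt Ω), 2 ≤ S.card ∧ FiniteDimensional K M ∧
        Fp (Xn W) M x ∧ w = Nm (⊥ : IntermediateField K Ω) M (tht S x)},
      z - w ∈ (Xn W).ratEq K Ω := by
  classical
  refine ⟨sng_t W Ω z, ?_, sng_id hz ha⟩
  have hfx : Fx (⊥ : IntermediateField K Ω) z := fun γ _ => hz.1 γ
  have hcl := fx_gen (V := Xn W) sng_fp hfx
  have hle : AddSubgroup.closure {z | ∃ (M' : IntermediateField K Ω)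
      (x : (Xn W).pt Ω), (⊥ : IntermediateField K Ω) ≤ M' ∧
      FiniteDimensional K M' ∧ Fp (Xn W) M' x ∧
      z = Nm (⊥ : IntermediateField K Ω) M' (Finsupp.single x 1)} ≤
      (AddSubgroup.closure {w : (Xn W).pt Ω →₀ ℤ | ∃ (S : Finset (Fin n))
        (M : IntermediateField K Ω) (x : (Xn W).pt Ω), 2 ≤ S.card ∧ FiniteDimensional K M ∧
        Fp (Xn W) M x ∧ w = Nm (⊥ : IntermediateField K Ω) M (tht S x)}).comap (sng_t W Ω) := by
    refine (AddSubgroup.closure_le _).2 ?_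
    rintro _ ⟨M', x, -, hf, hx, rfl⟩
    rw [SetLike.mem_coe, AddSubgroup.mem_comap, hom_nm (sng_t W Ω) bot_le (fun γ _ a => (sng_smul γ a).symm), sng_t_single, sng_nm_sum]
    refine sum_mem fun S hS => ?_
    rw [Finset.mem_filter] at hS
    exact AddSubgroup.subset_closure ⟨S, M', x, hS.2, hf, hx, rfl⟩
  exact hle hcl

/-- The traces of the cycles `tht S x` are in the Albanese kernel. Proof: `tht_pr`, `tht_deg`, `tht_act`, `nm_fx`, `hom_nm` (`Cv/Hc.lean`). -/
theorem tht_alb {S : Finset (Fin n)} (hS : 2 ≤ S.card) (M : IntermediateField K Ω)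
    [FiniteDimensional K M] {x : (Xn W).pt Ω} (hx : Fp (Xn W) M x) :
    (Nm (⊥ : IntermediateField K Ω) M (tht S x : (Xn W).pt Ω →₀ ℤ) : (Xn W).pt Ω →₀ ℤ) ∈
        (Xn W).D0 K Ω ∧
      ∀ i, Finsupp.mapDomain ((pr (V := fun i => Ev (W i)) i).f Ω)
        (Nm (⊥ : IntermediateField K Ω) M (tht S x : (Xn W).pt Ω →₀ ℤ)) ∈ (Ev (W i)).ratEq K Ω := by
  have hne : S.Nonempty := Finset.card_pos.1 (by omega)
  have hfx : Fx M (tht S x : (Xn W).pt Ω →₀ ℤ) := fun γ hγ => by
    have h1 : γ • (tht S x : (Xn W).pt Ω →₀ ℤ) = tht S ((Xn W).act γ x) := tht_act γ S x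
    rw [h1, hx γ hγ]
  refine ⟨sng_nm_D0 hfx (tht_deg hne x), fun i => ?_⟩
  have h := hom_nm (M := (⊥ : IntermediateField K Ω)) (N := M)
    (Finsupp.mapDomain.addMonoidHom ((pr (V := fun i => Ev (W i)) i).f Ω)) bot_le
    (fun γ _ a => by
      change Finsupp.mapDomain ((pr (V := fun i => Ev (W i)) i).f Ω) (γ • a) =
        γ • Finsupp.mapDomain ((pr (V := fun i => Ev (W i)) i).f Ω) a
      rw [CV.smul_def, CV.smul_def, ← Finsupp.mapDomain_comp, ← Finsupp.mapDomain_comp]
      exact congrArg (fun g => Finsupp.mapDomain g a)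
        (funext fun x => ((pr (V := fun i => Ev (W i)) i).act γ x).symm))
    (tht S x)
  have h0 : Finsupp.mapDomain ((pr (V := fun i => Ev (W i)) i).f Ω) (tht S x) = 0 := tht_pr hS i x
  have h2 : Finsupp.mapDomain ((pr (V := fun i => Ev (W i)) i).f Ω)
      (Nm (⊥ : IntermediateField K Ω) M (tht S x : (Xn W).pt Ω →₀ ℤ)) =
      Nm (⊥ : IntermediateField K Ω) M (Finsupp.mapDomain
        ((pr (V := fun i => Ev (W i)) i).f Ω) (tht S x)) := h
  rw [h2, h0, sng_nm_zero]
  exact zero_mem _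

end NE
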