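import Pool.Agent.Lib.MP_f80667_ag.Nf.SnfB
import Pool.Agent.Lib.MP_f80667_ag.Nf.SndB
import Pool.Agent.Lib.MP_f80667_ag.Nf.Sng

/-!
The local theorem for `l` different from the residue characteristic.
-/

open ZC BE PE Polynomial IntermediateField CV

namespace NE

variable {F : Type} [Field F] {n : ℕ} {W : Fin n → WeierstrassCurve F} [∀ i, (W i).IsElliptic]
  {K Ω : Type} [Field K] [Field Ω] [Algebra K Ω] [Algebra F K] [Algebra F Ω]
  [IsScalarTower F K Ω] [CharZero K] [IsAlgClosure K Ω]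

/-- The point `ex S x` is fixed if the entries are fixed. -/
private theorem sng_fp {S : Finset (Fin n)} {M : IntermediateField K Ω}
    {x : ∀ i : {i // i ∈ S}, Pt (W i) Ω} (hx : ∀ i, Fx M (x i)) : Fp (Xn W) M (ex S x) := by
  intro γ hγ
  funext i
  change (Ev (W i)).act γ (ex S x i) = ex S x i
  by_cases h : i ∈ S
  · have e : ex S x i = x ⟨i, h⟩ := dif_pos h
    rw [e]
    exact hx ⟨i, h⟩ γ hγ
  · have e : ex S x i = (0 : Pt (W i) Ω) := dif_neg h
    rw [e]
    exact (smul_zero γ : γ • (0 : Pt (W i) Ω) = 0)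

/-- The Albanese kernel. -/
private noncomputable def sngA (W : Fin n → WeierstrassCurve F) (K Ω : Type) [Field K] [Field Ω]
    [Algebra K Ω] [Algebra F K] [Algebra F Ω] [IsScalarTower F K Ω] :
    AddSubgroup ((Xn W).pt Ω →₀ ℤ) where
  carrier := {w | w ∈ (Xn W).D0 K Ω ∧
    ∀ i, Finsupp.mapDomain ((pr (V := fun i => Ev (W i)) i).f Ω) w ∈ (Ev (W i)).ratEq K Ω}
  zero_mem' := ⟨AddSubgroup.zero_mem _, fun i => by
    rw [Finsupp.mapDomain_zero]
    exact AddSubgroup.zero_mem _⟩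
  add_mem' := fun {a b} ha hb => ⟨AddSubgroup.add_mem _ ha.1 hb.1, fun i => by
    rw [Finsupp.mapDomain_add]
    exact AddSubgroup.add_mem _ (ha.2 i) (hb.2 i)⟩
  neg_mem' := fun {a} ha => ⟨AddSubgroup.neg_mem _ ha.1, fun i => by
    have h := (Finsupp.mapDomain.addMonoidHom (M := ℤ)
      ((pr (V := fun i => Ev (W i)) i).f Ω)).map_neg a
    change Finsupp.mapDomain _ (-a) ∈ _
    rw [← Finsupp.mapDomain.addMonoidHom_apply, h, Finsupp.mapDomain.addMonoidHom_apply]
    exact AddSubgroup.neg_mem _ (ha.2 i)⟩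

/-- The kernel is divisible if all symbols are divisible. Proof: `tht_gen`, `exists_sn`, `Sn.t_div`, `tht_alb`; `tht S x = tht S (ex S y)` (`tht_congr`). -/
theorem dvG_sn {l : ℕ} (h : ∀ (S : Finset (Fin n)), 2 ≤ S.card →
      ∀ (Y : Sn {i // i ∈ S} K Ω (fun i => Pt (W i) Ω) (((Xn W).pt Ω →₀ ℤ) ⧸ (Xn W).ratEq K Ω))
        (M : IntermediateField K Ω) (x : ∀ i : {i // i ∈ S}, Pt (W i) Ω), FiniteDimensional K M →
        (∀ i, Fx M (x i)) → Y.Z l M x) : DvG (fun i => Ev (W i)) K Ω l := by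
  intro z hz ha
  obtain ⟨w, hw, hzw⟩ := tht_gen (W := W) (K := K) (Ω := Ω) hz ha
  have key : ∃ w' ∈ sngA W K Ω, w - l • w' ∈ (Xn W).ratEq K Ω := by
    clear hzw
    induction hw using AddSubgroup.closure_induction with
    | mem w hw =>
      obtain ⟨S, M, x, hS, hM, hx, rfl⟩ := hw
      obtain ⟨Y, hY⟩ := exists_sn (W := W) (K := K) (Ω := Ω) S
      obtain ⟨g, hg, e⟩ := h S hS Y M (fun i => x i) hM fun i γ hγ => congrFun (hx γ hγ) i
      have hgen : ∃ w' ∈ sngA W K Ω, QuotientAddGroup.mk' ((Xn W).ratEq K Ω) w' = g := by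
        clear e
        induction hg using AddSubgroup.closure_induction with
        | mem g hg =>
          obtain ⟨M', x', hM', hx', rfl⟩ := hg
          exact ⟨_, tht_alb hS M' (sng_fp hx'), (hY M' x').symm⟩
        | zero => exact ⟨0, AddSubgroup.zero_mem _, map_zero _⟩
        | add a b _ _ iha ihb =>
          obtain ⟨a', ha', rfl⟩ := iha
          obtain ⟨b', hb', rfl⟩ := ihb
          exact ⟨a' + b', AddSubgroup.add_mem _ ha' hb', map_add _ _ _⟩
        | neg a _ iha =>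
          obtain ⟨a', ha', rfl⟩ := iha
          exact ⟨-a', AddSubgroup.neg_mem _ ha', map_neg _ _⟩
      obtain ⟨w', hw', rfl⟩ := hgen
      refine ⟨w', hw', ?_⟩
      rw [hY M fun i => x i] at e
      have e2 : tht S (ex S fun i : {i // i ∈ S} => (x i : Pt (W i) Ω)) = tht S x :=
        tht_congr fun i hi => dif_pos hi
      rw [e2, ← map_nsmul] at e
      have e3 := (QuotientAddGroup.mk'_eq_mk' _).1 e
      obtain ⟨r, hr, e4⟩ := e3
      rw [← e4]
      have e5 : (Nm (⊥ : IntermediateField K Ω) M (tht S x : (Xn W).pt Ω →₀ ℤ) :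
          (Xn W).pt Ω →₀ ℤ) - (Nm (⊥ : IntermediateField K Ω) M
          (tht S x : (Xn W).pt Ω →₀ ℤ) + r) = -r := by abel
      rw [e5]
      exact AddSubgroup.neg_mem _ hr
    | zero => exact ⟨0, AddSubgroup.zero_mem _, by
        rw [smul_zero, sub_zero]
        exact AddSubgroup.zero_mem _⟩
    | add a b _ _ iha ihb =>
      obtain ⟨a', ha', ea⟩ := iha
      obtain ⟨b', hb', eb⟩ := ihb
      refine ⟨a' + b', AddSubgroup.add_mem _ ha' hb', ?_⟩
      have e : a + b - l • (a' + b') = (a - l • a') + (b - l • b') := by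
        rw [nsmul_add]; abel
      rw [e]
      exact AddSubgroup.add_mem _ ea eb
    | neg a _ iha =>
      obtain ⟨a', ha', ea⟩ := iha
      refine ⟨-a', AddSubgroup.neg_mem _ ha', ?_⟩
      have e : -a - l • -a' = -(a - l • a') := by
        rw [smul_neg]; abel
      rw [e]
      exact AddSubgroup.neg_mem _ ea
  obtain ⟨w', hw', e⟩ := key
  refine ⟨w', hw'.1, hw'.2, ?_⟩
  have e2 : z - l • w' = (z - w) + (w - l • w') := by abel
  rw [e2]
  exact AddSubgroup.add_mem _ hzw e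

/-- **Local theorem.** Proof: `dvG_sn`, `sn_pot`. -/
theorem loc_lp (L : Ld K Ω) {l : ℕ} (hl : l.Prime) (h5 : 5 ≤ l) (hlp : l ≠ L.p)
    (hj : ∀ i, L.Jc l (W i)) : DvG (fun i => Ev (W i)) K Ω l := by
  refine dvG_sn fun S hS Y M x hM hx => ?_
  have hn : Nontrivial {i // i ∈ S} := by
    obtain ⟨a, ha, b, hb, hab⟩ := Finset.one_lt_card.1 (show 1 < S.card by omega)
    exact ⟨⟨⟨a, ha⟩, ⟨b, hb⟩, fun h => hab (congrArg Subtype.val h)⟩⟩
  exact sn_pot L (fun i : {i // i ∈ S} => W i) hl h5 hlp (fun i => hj i) Y M x hM hx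

end NE
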