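import Pool.Agent.Lib.MP_f80667_ag.Kf.Dsg
import Pool.Agent.Lib.MP_f80667_ag.Nf.Ad

/-!
A positive proportion of the families of `n` elliptic curves satisfies `OkN`.
-/

open Finset Filter PE

namespace NE

section count

variable {α : Type*} [DecidableEq α] {n : ℕ}

private theorem dsn_one (U B : Finset α) (i : Fin n) :
    #{f ∈ Fintype.piFinset (fun _ : Fin n => U) | f i ∈ B} * #U ≤ #B * #U ^ n := by
  have hF : #(Fintype.piFinset (fun _ : Fin n => U)) = #U ^ n := by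
    rw [Fintype.card_piFinset, prod_const, card_univ, Fintype.card_fin]
  rw [← hF, ← card_product, ← card_product]
  refine card_le_card_of_injOn (fun x : (Fin n → α) × α => (x.1 i, Function.update x.1 i x.2)) ?_ ?_
  · rintro ⟨f, a⟩ hx
    rw [mem_coe, mem_product, mem_filter, Fintype.mem_piFinset] at hx
    rw [mem_coe, mem_product, Fintype.mem_piFinset]
    refine ⟨hx.1.2, fun j => ?_⟩
    simp only
    rcases eq_or_ne j i with h | h
    · rw [h, Function.update_self]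
      exact hx.2
    · rw [Function.update_of_ne h]
      exact hx.1.1 j
  · rintro ⟨f, a⟩ _ ⟨g, b⟩ _ h
    simp only [Prod.mk.injEq] at h
    obtain ⟨h1, h2⟩ := h
    have h3 := congrFun h2 i
    rw [Function.update_self, Function.update_self] at h3
    have h4 : f = g := by
      funext j
      rcases eq_or_ne j i with h | h
      · rw [h, h1]
      · have h5 := congrFun h2 j
        rwa [Function.update_of_ne h, Function.update_of_ne h] at h5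
    rw [h3, h4]

private theorem dsn_two (U : Finset α) (Y : Finset (α × α)) {i j : Fin n} (hij : i ≠ j) :
    #{f ∈ Fintype.piFinset (fun _ : Fin n => U) | (f i, f j) ∈ Y} * #U ^ 2 ≤ #Y * #U ^ n := by
  have hF : #(Fintype.piFinset (fun _ : Fin n => U)) = #U ^ n := by
    rw [Fintype.card_piFinset, prod_const, card_univ, Fintype.card_fin]
  have hU : #U ^ 2 = #(U ×ˢ U) := by
    rw [card_product, sq]
  rw [← hF, hU, ← card_product, ← card_product]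
  refine card_le_card_of_injOn (fun x : (Fin n → α) × (α × α) =>
    ((x.1 i, x.1 j), Function.update (Function.update x.1 i x.2.1) j x.2.2)) ?_ ?_
  · rintro ⟨f, a, b⟩ hx
    rw [mem_coe, mem_product, mem_filter, Fintype.mem_piFinset, mem_product] at hx
    rw [mem_coe, mem_product, Fintype.mem_piFinset]
    refine ⟨hx.1.2, fun k => ?_⟩
    simp only
    rcases eq_or_ne k j with h | h
    · rw [h, Function.update_self]
      exact hx.2.2
    · rw [Function.update_of_ne h]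
      rcases eq_or_ne k i with h' | h'
      · rw [h', Function.update_self]
        exact hx.2.1
      · rw [Function.update_of_ne h']
        exact hx.1.1 k
  · rintro ⟨f, a, b⟩ _ ⟨g, a', b'⟩ _ h
    simp only [Prod.mk.injEq] at h
    obtain ⟨⟨h1, h1'⟩, h2⟩ := h
    have h3 := congrFun h2 j
    rw [Function.update_self, Function.update_self] at h3
    have h3' := congrFun h2 i
    rw [Function.update_of_ne hij, Function.update_of_ne hij, Function.update_self,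
      Function.update_self] at h3'
    have h4 : f = g := by
      funext k
      rcases eq_or_ne k i with h | h
      · rw [h, h1]
      · rcases eq_or_ne k j with h' | h'
        · rw [h', h1']
        · have h5 := congrFun h2 k
          rwa [Function.update_of_ne h', Function.update_of_ne h', Function.update_of_ne h,
            Function.update_of_ne h] at h5
    rw [h3, h3', h4]

open scoped Classical in
private theorem dsn_many (U B : Finset α) (Y : Finset (α × α)) (hU : 0 < #U) :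
    (#U : ℝ) ^ n * (1 - n * (#B / #U) - n ^ 2 * (#Y / (#U : ℝ) ^ 2)) ≤
      (#{f ∈ Fintype.piFinset (fun _ : Fin n => U) | (∀ i, f i ∉ B) ∧
        ∀ i j, i ≠ j → (f i, f j) ∉ Y} : ℝ) := by
  set F := Fintype.piFinset (fun _ : Fin n => U) with hFd
  have hF : #F = #U ^ n := by
    rw [hFd, Fintype.card_piFinset, prod_const, card_univ, Fintype.card_fin]
  have hu : (0 : ℝ) < #U := by exact_mod_cast hU
  have hsub : F ⊆ {f ∈ F | (∀ i, f i ∉ B) ∧ ∀ i j, i ≠ j → (f i, f j) ∉ Y} ∪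
      ((univ : Finset (Fin n)).biUnion (fun i => {f ∈ F | f i ∈ B}) ∪
        ((univ : Finset (Fin n × Fin n)).filter fun x => x.1 ≠ x.2).biUnion
          (fun x => {f ∈ F | (f x.1, f x.2) ∈ Y})) := by
    intro f hf
    by_cases h1 : ∀ i, f i ∉ B
    · by_cases h2 : ∀ i j, i ≠ j → (f i, f j) ∉ Y
      · exact mem_union_left _ (mem_filter.2 ⟨hf, h1, h2⟩)
      · push Not at h2
        obtain ⟨i, j, hij, h3⟩ := h2
        refine mem_union_right _ (mem_union_right _ (mem_biUnion.2 ⟨(i, j), ?_, ?_⟩))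
        · exact mem_filter.2 ⟨mem_univ _, hij⟩
        · exact mem_filter.2 ⟨hf, h3⟩
    · push Not at h1
      obtain ⟨i, h3⟩ := h1
      exact mem_union_right _ (mem_union_left _ (mem_biUnion.2 ⟨i, mem_univ _,
        mem_filter.2 ⟨hf, h3⟩⟩))
  have h1 := (card_le_card hsub).trans ((card_union_le _ _).trans (Nat.add_le_add_left
    (card_union_le _ _) _))
  have h2 : ((#((univ : Finset (Fin n)).biUnion (fun i => {f ∈ F | f i ∈ B})) : ℕ) : ℝ) ≤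
      n * (#B / #U) * (#U : ℝ) ^ n := by
    have h3 : ∀ i ∈ (univ : Finset (Fin n)), ((#{f ∈ F | f i ∈ B} : ℕ) : ℝ) ≤
        (#B / #U) * (#U : ℝ) ^ n := by
      intro i _
      have h4 := dsn_one U B i
      have h5 : ((#{f ∈ F | f i ∈ B} : ℕ) : ℝ) * #U ≤ #B * (#U : ℝ) ^ n := by exact_mod_cast h4
      rw [div_mul_eq_mul_div, le_div_iff₀ hu]
      exact h5
    have h4 : ((#((univ : Finset (Fin n)).biUnion (fun i => {f ∈ F | f i ∈ B})) : ℕ) : ℝ) ≤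
        ∑ i : Fin n, ((#{f ∈ F | f i ∈ B} : ℕ) : ℝ) := by exact_mod_cast card_biUnion_le
    refine h4.trans ((sum_le_sum h3).trans (le_of_eq ?_))
    rw [sum_const, card_univ, Fintype.card_fin, nsmul_eq_mul]
    ring
  have h3 : ((#(((univ : Finset (Fin n × Fin n)).filter fun x => x.1 ≠ x.2).biUnion
          (fun x => {f ∈ F | (f x.1, f x.2) ∈ Y})) : ℕ) : ℝ) ≤
      n ^ 2 * (#Y / (#U : ℝ) ^ 2) * (#U : ℝ) ^ n := by
    have h4 : ∀ x ∈ ((univ : Finset (Fin n × Fin n)).filter fun x => x.1 ≠ x.2),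
        ((#{f ∈ F | (f x.1, f x.2) ∈ Y} : ℕ) : ℝ) ≤ (#Y / (#U : ℝ) ^ 2) * (#U : ℝ) ^ n := by
      intro x hx
      have h5 := dsn_two U Y (mem_filter.1 hx).2
      have h6 : ((#{f ∈ F | (f x.1, f x.2) ∈ Y} : ℕ) : ℝ) * (#U : ℝ) ^ 2 ≤ #Y * (#U : ℝ) ^ n := by
        exact_mod_cast h5
      rw [div_mul_eq_mul_div, le_div_iff₀ (by positivity)]
      exact h6
    have h5 : ((#(((univ : Finset (Fin n × Fin n)).filter fun x => x.1 ≠ x.2).biUnion
          (fun x => {f ∈ F | (f x.1, f x.2) ∈ Y})) : ℕ) : ℝ) ≤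
        ∑ x ∈ ((univ : Finset (Fin n × Fin n)).filter fun x => x.1 ≠ x.2),
          ((#{f ∈ F | (f x.1, f x.2) ∈ Y} : ℕ) : ℝ) := by exact_mod_cast card_biUnion_le
    refine h5.trans ((sum_le_sum h4).trans ?_)
    rw [sum_const, nsmul_eq_mul, mul_assoc ((n : ℝ) ^ 2)]
    refine mul_le_mul_of_nonneg_right ?_ (by positivity)
    have h6 : #((univ : Finset (Fin n × Fin n)).filter fun x => x.1 ≠ x.2) ≤ n ^ 2 := by
      refine (card_filter_le _ _).trans ?_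
      rw [card_univ, Fintype.card_prod, Fintype.card_fin, sq]
    exact_mod_cast h6
  have h4 : (#U : ℝ) ^ n ≤ ((#{f ∈ F | (∀ i, f i ∉ B) ∧ ∀ i j, i ≠ j → (f i, f j) ∉ Y} : ℕ) : ℝ) +
      (((#((univ : Finset (Fin n)).biUnion (fun i => {f ∈ F | f i ∈ B})) : ℕ) : ℝ) +
      ((#(((univ : Finset (Fin n × Fin n)).filter fun x => x.1 ≠ x.2).biUnion
          (fun x => {f ∈ F | (f x.1, f x.2) ∈ Y})) : ℕ) : ℝ)) := by
    have h5 : ((#F : ℕ) : ℝ) = (#U : ℝ) ^ n := by rw [hF]; push_cast; rfl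
    rw [← h5]
    exact_mod_cast h1
  linarith

end count

/-- The family. -/
private def dsC (b u w : ℕ) : WeierstrassCurve ℤ := ⟨0, 0, 1, b ^ 2 * (1 + 3 * u), 3 * b ^ 2 * w⟩

private theorem dsC_Δ (b u w : ℕ) : (dsC b u w).Δ =
    -(64 * (b ^ 2 * (1 + 3 * u) : ℤ) ^ 3) - 27 * (1 + 4 * (3 * b ^ 2 * w)) ^ 2 := by
  simp only [dsC, WeierstrassCurve.Δ, WeierstrassCurve.b₂, WeierstrassCurve.b₄, WeierstrassCurve.b₆,
    WeierstrassCurve.b₈]
  ring

private theorem dsC_sq (b u w : ℕ) : -3 * (dsC b u w).Δ =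
    (9 + (108 * (b : ℤ) ^ 2) * (w : ℕ)) ^ 2 - (-192 * (b : ℤ) ^ 6) * (1 + (3 : ℤ) * (u : ℕ)) ^ 3 := by
  rw [dsC_Δ]
  ring

private theorem dsC_neg (b u w : ℕ) : (dsC b u w).Δ < 0 := by
  rw [dsC_Δ]
  have h1 : (0 : ℤ) ≤ 64 * (b ^ 2 * (1 + 3 * u) : ℤ) ^ 3 := by positivity
  have h2 : (0 : ℤ) < 27 * (1 + 4 * (3 * b ^ 2 * w)) ^ 2 := by positivity
  linarith

/-- The conditions on `b`. -/
private structure DsB (K b : ℕ) : Prop where
  pos : 0 < b
  small : ∀ p : ℕ, p.Prime → p ≤ K → p ≠ 3 → p ∣ b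
  three : ¬ 3 ∣ b
  large : ∀ p : ℕ, p.Prime → K < p → ¬ p ∣ b

private theorem dsB_ex (K : ℕ) : ∃ b : ℕ, DsB K b := by
  classical
  have hpr : ∀ p ∈ (range (K + 1)).filter (fun p => p.Prime ∧ p ≠ 3), p.Prime ∧ p ≠ 3 ∧ p ≤ K := by
    intro p hp
    rw [mem_filter, mem_range] at hp
    exact ⟨hp.2.1, hp.2.2, by omega⟩
  have hdv : ∀ p : ℕ, p.Prime → p ∣ ∏ q ∈ (range (K + 1)).filter (fun p => p.Prime ∧ p ≠ 3), q →
      p ≤ K ∧ p ≠ 3 := by
    intro p hp h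
    obtain ⟨q, hq, h1⟩ := (hp.prime.dvd_finsetProd_iff _).1 h
    obtain ⟨h2, h3, h4⟩ := hpr q hq
    rw [(Nat.prime_dvd_prime_iff_eq hp h2).1 h1]
    exact ⟨h4, h3⟩
  refine ⟨∏ p ∈ (range (K + 1)).filter (fun p => p.Prime ∧ p ≠ 3), p, ?_, ?_, ?_, ?_⟩
  · exact prod_pos fun p hp => (hpr p hp).1.pos
  · intro p hp h1 h2
    exact dvd_prod_of_mem _ (mem_filter.2 ⟨mem_range.2 (by omega), hp, h2⟩)
  · intro h
    exact (hdv 3 (by norm_num) h).2 rfl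
  · intro p hp h1 h2
    have := (hdv p hp h2).1
    omega

private theorem dsC_small {K b : ℕ} (hb : DsB K b) {p : ℕ} (hp : p.Prime) (hpK : p ≤ K) (u w : ℕ) :
    ¬ (p : ℤ) ∣ (dsC b u w).Δ := by
  intro h
  have hP := Nat.prime_iff_prime_int.1 hp
  rw [dsC_Δ] at h
  by_cases h3 : p = 3
  · subst h3
    have h4 : ((3 : ℕ) : ℤ) ∣ 64 * (b ^ 2 * (1 + 3 * u) : ℤ) ^ 3 := by
      have h5 : ((3 : ℕ) : ℤ) ∣ 27 * (1 + 4 * (3 * (b : ℤ) ^ 2 * w)) ^ 2 :=
        Dvd.dvd.mul_right (by norm_num) _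
      have h6 := dvd_add h h5
      rw [sub_add_cancel, dvd_neg] at h6
      exact h6
    rcases hP.dvd_or_dvd h4 with h5 | h5
    · norm_num at h5
    · have h6 := hP.dvd_of_dvd_pow h5
      rcases hP.dvd_or_dvd h6 with h7 | h7
      · have h8 := hP.dvd_of_dvd_pow h7
        exact hb.three (by exact_mod_cast h8)
      · push_cast at h7
        omega
  · have hpb : (p : ℤ) ∣ b := by exact_mod_cast hb.small p hp hpK h3
    have h4 : (p : ℤ) ∣ 64 * (b ^ 2 * (1 + 3 * u) : ℤ) ^ 3 :=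
      Dvd.dvd.mul_left (dvd_pow ((dvd_pow hpb two_ne_zero).mul_right _) three_ne_zero) _
    have h5 : (p : ℤ) ∣ 27 * (1 + 4 * (3 * (b : ℤ) ^ 2 * w)) ^ 2 := by
      have h6 := dvd_add h h4
      have h7 : -(64 * (b ^ 2 * (1 + 3 * u) : ℤ) ^ 3) - 27 * (1 + 4 * (3 * b ^ 2 * w)) ^ 2 +
          64 * (b ^ 2 * (1 + 3 * u) : ℤ) ^ 3 = -(27 * (1 + 4 * (3 * b ^ 2 * w)) ^ 2) := by ring
      rw [h7, dvd_neg] at h6
      exact h6
    rcases hP.dvd_or_dvd h5 with h6 | h6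
    · have h7 : p ∣ 3 ^ 3 := by
        have : (p : ℤ) ∣ ((3 ^ 3 : ℕ) : ℤ) := by norm_num; exact h6
        exact_mod_cast this
      exact h3 ((Nat.prime_dvd_prime_iff_eq hp (by norm_num)).1 (hp.dvd_of_dvd_pow h7))
    · have h7 := hP.dvd_of_dvd_pow h6
      have h8 : (p : ℤ) ∣ 4 * (3 * (b : ℤ) ^ 2 * w) :=
        Dvd.dvd.mul_left (Dvd.dvd.mul_right (Dvd.dvd.mul_left (dvd_pow hpb two_ne_zero) _) _) _
      have h9 : (p : ℤ) ∣ 1 := by
        have := dvd_sub h7 h8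
        rwa [add_sub_cancel_right] at this
      exact hP.not_isUnit (isUnit_of_dvd_one h9)

private theorem dsC_lt {b u w N : ℕ} (hN : 1 ≤ N) (hu : b ^ 2 * (1 + 3 * u) ≤ N ^ 2)
    (hw : 3 * b ^ 2 * w ≤ N ^ 3) : (dsC b u w).Δ.natAbs ≤ 739 * N ^ 6 := by
  have h1 : (dsC b u w).Δ = -(((64 * (b ^ 2 * (1 + 3 * u)) ^ 3 : ℕ) : ℤ) +
      ((27 * (1 + 4 * (3 * b ^ 2 * w)) ^ 2 : ℕ) : ℤ)) := by
    rw [dsC_Δ]
    push_cast
    ring
  have h2 : (dsC b u w).Δ.natAbs ≤ 64 * (b ^ 2 * (1 + 3 * u)) ^ 3 + 27 * (1 + 4 * (3 * b ^ 2 * w)) ^ 2 := by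
    rw [h1]
    omega
  have e1 : (b ^ 2 * (1 + 3 * u)) ^ 3 ≤ N ^ 6 := by
    calc (b ^ 2 * (1 + 3 * u)) ^ 3 ≤ (N ^ 2) ^ 3 := Nat.pow_le_pow_left hu 3
      _ = N ^ 6 := by ring
  have e2 : (1 + 4 * (3 * b ^ 2 * w)) ^ 2 ≤ 25 * N ^ 6 := by
    have e3 : 1 + 4 * (3 * b ^ 2 * w) ≤ 5 * N ^ 3 := by
      have : 1 ≤ N ^ 3 := Nat.one_le_pow _ _ hN
      omega
    calc (1 + 4 * (3 * b ^ 2 * w)) ^ 2 ≤ (5 * N ^ 3) ^ 2 := Nat.pow_le_pow_left e3 2
      _ = 25 * N ^ 6 := by ring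
  omega

/-- No square of a prime number divides the discriminant. -/
private theorem dsC_nsq {K b P u w : ℕ} (hb : DsB K b) (hP : (dsC b u w).Δ.natAbs < (P + 1) ^ 2)
    (hB : ¬ ∃ p ∈ dnP K P, ((p ^ 2 : ℕ) : ℤ) ∣
      (9 + (108 * (b : ℤ) ^ 2) * (w : ℕ)) ^ 2 - (-192 * (b : ℤ) ^ 6) * (1 + (3 : ℤ) * (u : ℕ)) ^ 3) :
    Squarefree (dsC b u w).Δ := by
  rw [← Int.squarefree_natAbs, Nat.squarefree_iff_prime_squarefree]
  intro p hp h
  have h0 : ((p ^ 2 : ℕ) : ℤ) ∣ (dsC b u w).Δ := by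
    rw [← sq] at h
    exact Int.natCast_dvd.2 h
  rcases le_or_gt p K with h1 | h1
  · refine dsC_small hb hp h1 u w ?_
    exact (by exact_mod_cast (dvd_pow_self p (two_ne_zero : (2 : ℕ) ≠ 0)) :
      (p : ℤ) ∣ ((p ^ 2 : ℕ) : ℤ)).trans h0
  · refine hB ⟨p, mem_dnP.2 ⟨⟨h1, ?_⟩, hp⟩, ?_⟩
    · have h2 := Int.natAbs_dvd_natAbs.2 h0
      rw [Int.natAbs_natCast] at h2
      have h3 := Nat.le_of_dvd (Int.natAbs_pos.2 (dsC_neg b u w).ne) h2
      have h4 : p ^ 2 < (P + 1) ^ 2 := by omega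
      have h5 := lt_of_pow_lt_pow_left₀ 2 (by omega) h4
      omega
    · rw [← dsC_sq]
      exact h0.mul_left _

/-- The product of the discriminants is squarefree. -/
private theorem dsC_prod {K b n : ℕ} (hb : DsB K b) (q : Fin n → ℕ × ℕ)
    (h1 : ∀ i, Squarefree (dsC b (q i).1 (q i).2).Δ)
    (h2 : ∀ i j, i ≠ j → ¬ ∃ p : ℕ, p.Prime ∧ K < p ∧ (p : ℤ) ∣ (dsC b (q i).1 (q i).2).Δ ∧
      (p : ℤ) ∣ (dsC b (q j).1 (q j).2).Δ) :
    Squarefree (∏ i, (dsC b (q i).1 (q i).2).Δ) := by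
  refine Finset.squarefree_prod_of_pairwise_isCoprime ?_ (fun i _ => h1 i)
  intro i _ j _ hij
  show IsRelPrime _ _
  refine IsCoprime.isRelPrime ?_
  rw [Int.isCoprime_iff_gcd_eq_one]
  by_contra hg
  obtain ⟨p, hp, hpd⟩ := Nat.exists_prime_and_dvd hg
  have h3 : (p : ℤ) ∣ (dsC b (q i).1 (q i).2).Δ := (Int.natCast_dvd_natCast.2 hpd).trans
    (Int.gcd_dvd_left _ _)
  have h4 : (p : ℤ) ∣ (dsC b (q j).1 (q j).2).Δ := (Int.natCast_dvd_natCast.2 hpd).trans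
    (Int.gcd_dvd_right _ _)
  rcases le_or_gt p K with h5 | h5
  · exact dsC_small hb hp h5 _ _ h3
  · exact h2 i j hij ⟨p, hp, h5, h3, h4⟩

/-- The asymptotics. -/
private theorem dsn_asym (n : ℕ) {M : ℕ} (hM : 0 < M) : ∃ N₀ : ℕ, ∀ N ≥ N₀, ∃ S T : ℕ, 1 ≤ N ∧
    M * S ≤ N ^ 2 ∧ M * T ≤ N ^ 3 ∧ 739 * N ^ 6 < T ^ 4 ∧ 0 < S ∧ 0 < T ∧
    (N : ℝ) ^ 2 / (4 * M) ≤ S ∧ (N : ℝ) ^ 3 / (4 * M) ≤ T ∧
    (n : ℝ) * (3 * (S * T) / ((100 * (n + 1) ^ 2 : ℕ) : ℝ) + 2 * S * Nat.primeCounting (32 * N ^ 3) +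
        (S + T) * (1 + Real.log ((3 * S + 1 : ℕ) : ℝ)) + ((3 * S + 1 : ℕ) : ℝ)) ≤ 1 / 4 * (S * T) ∧
    (n : ℝ) ^ 2 * (16 * (S * T) ^ 2 / ((100 * (n + 1) ^ 2 : ℕ) : ℝ) + 6 * S ^ 2 * T) ≤
      1 / 4 * (S * T) ^ 2 := by
  have hM' : (0 : ℝ) < M := by exact_mod_cast hM
  have hM1 : (1 : ℝ) ≤ M := by exact_mod_cast hM
  have hn0 : (0 : ℝ) ≤ n := Nat.cast_nonneg n
  set δ : ℝ := 1 / (40 * (n + 1)) with hδd
  have hδ : 0 < δ := by positivity
  have hδ1 : δ * (40 * (n + 1)) = 1 := by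
    rw [hδd]
    field_simp
  -- the floor of a quotient
  have hfl : ∀ x : ℕ, 4 * M ≤ x → (x : ℝ) / (4 * M) ≤ ((x / (2 * M) : ℕ) : ℝ) := by
    intro x hx
    have h1 : x < 2 * M * (x / (2 * M)) + 2 * M := by
      have := Nat.div_add_mod x (2 * M)
      have := Nat.mod_lt x (by omega : 2 * M > 0)
      omega
    have h2 : (x : ℝ) < 2 * M * ((x / (2 * M) : ℕ) : ℝ) + 2 * M := by exact_mod_cast h1
    have h3 : (4 : ℝ) * M ≤ x := by exact_mod_cast hx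
    rw [div_le_iff₀ (by positivity)]
    nlinarith
  -- limits
  have l1 : Tendsto (fun n : ℕ => ((32 * n ^ 3 : ℕ) : ℝ)) atTop atTop := by
    refine tendsto_natCast_atTop_atTop.comp (tendsto_atTop_mono (f := fun n : ℕ => n) (fun n => ?_) tendsto_id)
    rcases Nat.eq_zero_or_pos n with rfl | h
    · simp
    · calc n ≤ n ^ 3 := Nat.le_self_pow (by norm_num) n
        _ ≤ 32 * n ^ 3 := by omega
  have l2 : ∀ᶠ N : ℕ in atTop, (Nat.primeCounting (32 * N ^ 3) : ℝ) ≤ δ * ((N : ℝ) ^ 3 / (4 * M)) := by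
    have h1 := l1.eventually (Chebyshev.eventually_primeCounting_le one_pos)
    have h2 := (Real.tendsto_log_atTop.comp l1).eventually
      (eventually_ge_atTop ((Real.log 4 + 1) * (32 * (4 * M) * (40 * (n + 1)))))
    filter_upwards [h1, h2, eventually_ge_atTop 1] with N h3 h4 h5
    rw [Nat.floor_natCast] at h3
    simp only [Function.comp_apply] at h4
    refine h3.trans ?_
    have h6 : (0 : ℝ) < Real.log 4 + 1 := by
      have := Real.log_pos (by norm_num : (1 : ℝ) < 4)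
      linarith
    have h7 : (0 : ℝ) < Real.log ((32 * N ^ 3 : ℕ) : ℝ) := lt_of_lt_of_le (by positivity) h4
    rw [div_le_iff₀ h7]
    have h8 : (0 : ℝ) ≤ δ * ((N : ℝ) ^ 3 / (4 * M)) := by positivity
    refine le_trans (le_of_eq ?_) (mul_le_mul_of_nonneg_left h4 h8)
    rw [hδd]
    push_cast
    field_simp
  have l3 : Tendsto (fun n : ℕ => n ^ 2 / (2 * M)) atTop atTop := by
    refine (Nat.tendsto_div_const_atTop (by omega : 2 * M ≠ 0)).comp ?_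
    exact tendsto_pow_atTop (by norm_num)
  have l4 : Tendsto (fun n : ℕ => n ^ 3 / (2 * M)) atTop atTop := by
    refine (Nat.tendsto_div_const_atTop (by omega : 2 * M ≠ 0)).comp ?_
    exact tendsto_pow_atTop (by norm_num)
  have l5 : ∀ᶠ S : ℕ in atTop, 1 + Real.log ((3 * S + 1 : ℕ) : ℝ) ≤ δ * S := by
    have h1 : Tendsto (fun S : ℕ => ((3 * S + 1 : ℕ) : ℝ)) atTop atTop := by
      refine tendsto_natCast_atTop_atTop.comp (tendsto_atTop_mono (f := fun n : ℕ => n) (fun n => ?_) tendsto_id)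
      omega
    have h2 := h1.eventually (Real.isLittleO_log_id_atTop.bound (by positivity : (0 : ℝ) < δ / 8))
    filter_upwards [h2, eventually_ge_atTop (80 * (n + 1))] with S h3 h4
    have h5 : ((80 * (n + 1) : ℕ) : ℝ) ≤ S := by exact_mod_cast h4
    push_cast at h5
    have h6 := (le_abs_self _).trans h3
    simp only [id, Real.norm_eq_abs, Nat.abs_cast] at h6
    push_cast at h6 ⊢
    have h7 : (2 : ℝ) ≤ δ * S := by
      have := mul_le_mul_of_nonneg_left h5 hδ.le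
      linarith
    have h8 : δ ≤ δ * S := by
      refine le_mul_of_one_le_right hδ.le ?_
      linarith
    linarith
  obtain ⟨N₀, hN₀⟩ := (l2.and ((l3.eventually l5).and ((l3.eventually_ge_atTop 1).and
    ((l4.eventually_ge_atTop (40 * (n + 1) + 67 * n ^ 2)).and
    ((eventually_ge_atTop (4 * M)).and (eventually_ge_atTop (1 + 739 * 256 * M ^ 4))))))).exists_forall_of_atTop
  refine ⟨N₀, fun N hN => ⟨N ^ 2 / (2 * M), N ^ 3 / (2 * M), ?_⟩⟩
  obtain ⟨m1, m2, m3, m4, m5, m6⟩ := hN₀ N hN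
  have hn1 : 1 ≤ N := by omega
  set S : ℕ := N ^ 2 / (2 * M) with hS
  set T : ℕ := N ^ 3 / (2 * M) with hT
  have a1 : M * S ≤ N ^ 2 := by
    have := Nat.mul_div_le (N ^ 2) (2 * M)
    rw [← hS] at this
    nlinarith
  have a2 : M * T ≤ N ^ 3 := by
    have := Nat.mul_div_le (N ^ 3) (2 * M)
    rw [← hT] at this
    nlinarith
  have a3 : (N : ℝ) ^ 2 / (4 * M) ≤ S := by
    have h1 : 4 * M ≤ N ^ 2 := m5.trans (Nat.le_self_pow (by norm_num) N)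
    have := hfl (N ^ 2) h1
    push_cast at this
    exact this
  have a4 : (N : ℝ) ^ 3 / (4 * M) ≤ T := by
    have h1 : 4 * M ≤ N ^ 3 := m5.trans (Nat.le_self_pow (by norm_num) N)
    have := hfl (N ^ 3) h1
    push_cast at this
    exact this
  have hSR : (1 : ℝ) ≤ S := by exact_mod_cast m3
  have hTR : (40 * (n + 1) + 67 * n ^ 2 : ℝ) ≤ T := by exact_mod_cast m4
  have hST : (S : ℝ) ≤ T := by
    have : S ≤ T := by
      rw [hS, hT]
      refine Nat.div_le_div_right ?_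
      exact Nat.pow_le_pow_right hn1 (by norm_num)
    exact_mod_cast this
  have a5 : 739 * N ^ 6 < T ^ 4 := by
    have h1 : (N : ℝ) ^ 3 ≤ T * (4 * M) := by
      rwa [div_le_iff₀ (by positivity)] at a4
    have h2 : N ^ 3 ≤ T * (4 * M) := by exact_mod_cast h1
    have h3 : (N ^ 3) ^ 4 ≤ (T * (4 * M)) ^ 4 := Nat.pow_le_pow_left h2 4
    have h4 : (T * (4 * M)) ^ 4 = T ^ 4 * (256 * M ^ 4) := by ring
    have h5 : (N ^ 3) ^ 4 = N ^ 6 * N ^ 6 := by ring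
    rw [h4, h5] at h3
    have h6 : 739 * 256 * M ^ 4 < N ^ 6 :=
      lt_of_lt_of_le (by omega) (m6.trans (Nat.le_self_pow (by norm_num) N))
    have h7 : 0 < N ^ 6 := pow_pos (by omega) 6
    have h8 : 0 < 256 * M ^ 4 := by positivity
    refine lt_of_mul_lt_mul_right (a := 256 * M ^ 4) ?_ (Nat.zero_le _)
    calc 739 * N ^ 6 * (256 * M ^ 4) = N ^ 6 * (739 * 256 * M ^ 4) := by ring
      _ < N ^ 6 * N ^ 6 := Nat.mul_lt_mul_of_pos_left h6 h7
      _ ≤ _ := h3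
  refine ⟨hn1, a1, a2, a5, m3, by omega, a3, a4, ?_, ?_⟩
  · have hK : (0 : ℝ) < ((100 * (n + 1) ^ 2 : ℕ) : ℝ) := by positivity
    have b1 : (Nat.primeCounting (32 * N ^ 3) : ℝ) ≤ δ * T :=
      m1.trans (mul_le_mul_of_nonneg_left a4 hδ.le)
    have b2 : 1 + Real.log ((3 * S + 1 : ℕ) : ℝ) ≤ δ * S := m2
    have h1 : (1 : ℝ) ≤ δ * T := by
      have h2 : (40 * (n + 1) : ℝ) ≤ T := by nlinarith
      have := mul_le_mul_of_nonneg_left h2 hδ.le
      linarith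
    have b3 : ((3 * S + 1 : ℕ) : ℝ) ≤ 4 * δ * (S * T) := by
      push_cast
      have h2 : (S : ℝ) ≤ S * (δ * T) := le_mul_of_one_le_right (by positivity) h1
      nlinarith
    have b4 : (2 * S * (Nat.primeCounting (32 * N ^ 3) : ℝ)) ≤ 2 * δ * (S * T) := by
      have := mul_le_mul_of_nonneg_left b1 (by positivity : (0 : ℝ) ≤ 2 * S)
      linarith
    have b5 : ((S : ℝ) + T) * (1 + Real.log ((3 * S + 1 : ℕ) : ℝ)) ≤ 2 * δ * (S * T) := by
      have h1 : (0 : ℝ) ≤ 1 + Real.log ((3 * S + 1 : ℕ) : ℝ) := by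
        have : (0 : ℝ) ≤ Real.log ((3 * S + 1 : ℕ) : ℝ) := Real.log_natCast_nonneg _
        linarith
      calc ((S : ℝ) + T) * (1 + Real.log ((3 * S + 1 : ℕ) : ℝ)) ≤
          (2 * T) * (1 + Real.log ((3 * S + 1 : ℕ) : ℝ)) :=
            mul_le_mul_of_nonneg_right (by linarith) h1
        _ ≤ (2 * T) * (δ * S) := mul_le_mul_of_nonneg_left b2 (by positivity)
        _ = 2 * δ * (S * T) := by ring
    have b6 : n * (3 * ((S : ℝ) * T) / ((100 * (n + 1) ^ 2 : ℕ) : ℝ)) ≤ 1 / 20 * (S * T) := by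
      have h3 : n * (3 * ((S : ℝ) * T) / ((100 * (n + 1) ^ 2 : ℕ) : ℝ)) =
          (3 * n / ((100 * (n + 1) ^ 2 : ℕ) : ℝ)) * (S * T) := by ring
      rw [h3]
      refine mul_le_mul_of_nonneg_right ?_ (by positivity)
      rw [div_le_iff₀ hK]
      push_cast
      nlinarith
    have b7 : n * (8 * δ * ((S : ℝ) * T)) ≤ 1 / 5 * (S * T) := by
      have h3 : n * (8 * δ * ((S : ℝ) * T)) = (8 * (δ * n)) * (S * T) := by ring
      rw [h3]
      refine mul_le_mul_of_nonneg_right ?_ (by positivity)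
      have h4 : δ * n ≤ 1 / 40 := by nlinarith
      linarith
    have b8 : 2 * S * (Nat.primeCounting (32 * N ^ 3) : ℝ) +
        (S + T) * (1 + Real.log ((3 * S + 1 : ℕ) : ℝ)) + ((3 * S + 1 : ℕ) : ℝ) ≤ 8 * δ * (S * T) := by
      linarith
    have b9 := mul_le_mul_of_nonneg_left b8 hn0
    have c1 : (n : ℝ) * (3 * (S * T) / ((100 * (n + 1) ^ 2 : ℕ) : ℝ) + 2 * S * Nat.primeCounting (32 * N ^ 3) +
        (S + T) * (1 + Real.log ((3 * S + 1 : ℕ) : ℝ)) + ((3 * S + 1 : ℕ) : ℝ)) =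
        n * (3 * (S * T) / ((100 * (n + 1) ^ 2 : ℕ) : ℝ)) + n * (2 * S * (Nat.primeCounting (32 * N ^ 3) : ℝ) +
        (S + T) * (1 + Real.log ((3 * S + 1 : ℕ) : ℝ)) + ((3 * S + 1 : ℕ) : ℝ)) := by ring
    rw [c1]
    linarith
  · have hK : (0 : ℝ) < ((100 * (n + 1) ^ 2 : ℕ) : ℝ) := by positivity
    have b1 : (n : ℝ) ^ 2 * (16 * (S * T) ^ 2 / ((100 * (n + 1) ^ 2 : ℕ) : ℝ)) ≤ 4 / 25 * (S * T) ^ 2 := by
      have h3 : (n : ℝ) ^ 2 * (16 * (S * T) ^ 2 / ((100 * (n + 1) ^ 2 : ℕ) : ℝ)) =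
          (16 * n ^ 2 / ((100 * (n + 1) ^ 2 : ℕ) : ℝ)) * (S * T) ^ 2 := by ring
      rw [h3]
      refine mul_le_mul_of_nonneg_right ?_ (by positivity)
      rw [div_le_iff₀ hK]
      push_cast
      nlinarith
    have b2 : (n : ℝ) ^ 2 * (6 * S ^ 2 * T) ≤ 9 / 100 * (S * T) ^ 2 := by
      have h4 : (67 : ℝ) * n ^ 2 ≤ T := by nlinarith
      have h5 : (0 : ℝ) ≤ (S : ℝ) ^ 2 * T := by positivity
      have h6 := mul_le_mul_of_nonneg_right h4 h5
      have h7 : (0 : ℝ) ≤ (n : ℝ) ^ 2 * (S ^ 2 * T) := by positivity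
      nlinarith
    have c1 : (n : ℝ) ^ 2 * (16 * (S * T) ^ 2 / ((100 * (n + 1) ^ 2 : ℕ) : ℝ) + 6 * S ^ 2 * T) =
        (n : ℝ) ^ 2 * (16 * (S * T) ^ 2 / ((100 * (n + 1) ^ 2 : ℕ) : ℝ)) + (n : ℝ) ^ 2 * (6 * S ^ 2 * T) := by
      ring
    rw [c1]
    linarith

open scoped Classical in
/-- The number of good parameters. -/
private theorem dsn_count {n b N S T : ℕ} (hb : DsB (100 * (n + 1) ^ 2) b) (hN : 1 ≤ N)
    (hS : 3 * b ^ 2 * S ≤ N ^ 2) (hT : 3 * b ^ 2 * T ≤ N ^ 3) (hT4 : 739 * N ^ 6 < T ^ 4) (hS0 : 0 < S)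
    (hT0 : 0 < T)
    (hB : (n : ℝ) * (3 * (S * T) / ((100 * (n + 1) ^ 2 : ℕ) : ℝ) + 2 * S * Nat.primeCounting (32 * N ^ 3) +
        (S + T) * (1 + Real.log ((3 * S + 1 : ℕ) : ℝ)) + ((3 * S + 1 : ℕ) : ℝ)) ≤ 1 / 4 * (S * T))
    (hY : (n : ℝ) ^ 2 * (16 * (S * T) ^ 2 / ((100 * (n + 1) ^ 2 : ℕ) : ℝ) + 6 * S ^ 2 * T) ≤
      1 / 4 * (S * T) ^ 2) :
    ∃ G : Finset (Fin n → ℕ × ℕ), 1 / 2 * ((S : ℝ) * T) ^ n ≤ #G ∧
      ∀ q ∈ G, (∀ i, b ^ 2 * (1 + 3 * (q i).1) ≤ N ^ 2 ∧ 3 * b ^ 2 * (q i).2 ≤ N ^ 3) ∧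
        OkN fun i => dsC b (q i).1 (q i).2 := by
  set K : ℕ := 100 * (n + 1) ^ 2 with hK
  have hK100 : 100 ≤ K := by
    have : 1 ≤ (n + 1) ^ 2 := Nat.one_le_pow _ _ (by omega)
    omega
  set P : ℕ := 32 * N ^ 3 with hP
  have k1 : ∀ p : ℕ, p.Prime → K < p → ∀ k m : ℕ, 0 < k → k ∣ 2 ^ 6 * 3 ^ 3 → ¬ p ∣ k * b ^ m := by
    intro p hp h1 k m _ hk h2
    rcases (Nat.Prime.dvd_mul hp).1 h2 with h | h
    · rcases (Nat.Prime.dvd_mul hp).1 (h.trans hk) with h | h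
      · have := Nat.le_of_dvd (by norm_num) (hp.dvd_of_dvd_pow h)
        omega
      · have := Nat.le_of_dvd (by norm_num) (hp.dvd_of_dvd_pow h)
        omega
    · exact hb.large p hp h1 (hp.dvd_of_dvd_pow h)
  have k2 : ∀ p : ℕ, p.Prime → K < p → ¬ (p : ℤ) ∣ 108 * (b : ℤ) ^ 2 := fun p hp h h1 =>
    k1 p hp h 108 2 (by norm_num) ⟨16, by norm_num⟩ (by exact_mod_cast h1)
  have k3 : ∀ p : ℕ, p.Prime → K < p → ¬ (p : ℤ) ∣ -192 * (b : ℤ) ^ 6 := fun p hp h h1 => by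
    rw [neg_mul, dvd_neg] at h1
    exact k1 p hp h 192 6 (by norm_num) ⟨9, by norm_num⟩ (by exact_mod_cast h1)
  have k4 : ∀ p : ℕ, p.Prime → K < p → ¬ (p : ℤ) ∣ 3 := fun p hp h h1 => by
    have h2 : p ∣ 3 := by exact_mod_cast h1
    have := Nat.le_of_dvd (by norm_num) h2
    omega
  set U : Finset (ℕ × ℕ) := range S ×ˢ range T with hU
  have hUc : #U = S * T := by rw [hU, card_product, card_range, card_range]
  set B : Finset (ℕ × ℕ) := {q ∈ U | ∃ p ∈ dnP K P, ((p ^ 2 : ℕ) : ℤ) ∣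
      (9 + (108 * (b : ℤ) ^ 2) * (q.2 : ℕ)) ^ 2 - (-192 * (b : ℤ) ^ 6) * (1 + (3 : ℤ) * (q.1 : ℕ)) ^ 3}
    with hBd
  have hBE := dn_bad (x₀ := fun _ => 9) (x₁ := 108 * (b : ℤ) ^ 2) (κ := -192 * (b : ℤ) ^ 6) (d₁ := 3)
    (K := K) (by omega)
    (fun p hp h => ⟨by omega, k2 p hp h, k3 p hp h, k4 p hp h⟩)
    (fun s h => by omega) S T P
  rw [← hU, ← hBd] at hBE
  have hn3 : ((3 : ℤ).natAbs : ℕ) = 3 := rfl
  rw [hn3] at hBE
  have hs : ∀ s < S, b ^ 2 * (1 + 3 * s) ≤ N ^ 2 := by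
    intro s h
    calc b ^ 2 * (1 + 3 * s) ≤ b ^ 2 * (3 * S) := Nat.mul_le_mul_left _ (by omega)
      _ = 3 * b ^ 2 * S := by ring
      _ ≤ N ^ 2 := hS
  have ht : ∀ t < T, 3 * b ^ 2 * t ≤ N ^ 3 := fun t h => (Nat.mul_le_mul_left _ h.le).trans hT
  have hP2 : 739 * N ^ 6 < (P + 1) ^ 2 := by
    have : (P + 1) ^ 2 = 1024 * N ^ 6 + 64 * N ^ 3 + 1 := by
      rw [hP]
      ring
    omega
  have hfam : ∀ p : ℕ, p.Prime → K < p → #{q ∈ U | (p : ℤ) ∣ (dsC b q.1 q.2).Δ} ≤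
      S * (2 * (T / p + 1)) := by
    intro p hp h
    have h1 := dn_fam₁ hp (x₀ := fun _ => 9) (x₁ := 108 * (b : ℤ) ^ 2)
      (D := fun s => (-192 * (b : ℤ) ^ 6) * (1 + (3 : ℤ) * (s : ℕ)) ^ 3) (k2 p hp h) S T
    refine (card_le_card fun q hq => ?_).trans h1
    rw [mem_filter] at hq ⊢
    refine ⟨hq.1, ?_⟩
    rw [← dsC_sq]
    exact hq.2.mul_left _
  have hlt : ∀ q ∈ U, (dsC b q.1 q.2).Δ.natAbs ≤ 739 * N ^ 6 := by
    intro q hq
    rw [hU, mem_product, mem_range, mem_range] at hq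
    exact dsC_lt hN (hs _ hq.1) (ht _ hq.2)
  have hYE := dn_pair (K := K) (S := S) (T := T) (by omega) hUc
    (f := fun q => (dsC b q.1 q.2).Δ) (g := fun q => (dsC b q.1 q.2).Δ) hfam hfam
    (B := B) (fun q _ _ => (dsC_neg b q.1 q.2).ne) (fun q hq => (hlt q hq).trans_lt hT4)
  set Y : Finset ((ℕ × ℕ) × (ℕ × ℕ)) := {w ∈ U ×ˢ U | w.1 ∉ B ∧ ∃ p : ℕ, p.Prime ∧ K < p ∧
    (p : ℤ) ∣ (dsC b w.1.1 w.1.2).Δ ∧ (p : ℤ) ∣ (dsC b w.2.1 w.2.2).Δ} with hYd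
  have hSR : (0 : ℝ) < S := by exact_mod_cast hS0
  have hTR : (0 : ℝ) < T := by exact_mod_cast hT0
  have hST : (0 : ℝ) < (S : ℝ) * T := by positivity
  have hmany := dsn_many (n := n) U B Y (by rw [hUc]; positivity)
  have hUr : (#U : ℝ) = S * T := by rw [hUc]; push_cast; ring
  rw [hUr] at hmany
  have c1 : (n : ℝ) * (#B / (S * T)) ≤ 1 / 4 := by
    rw [← mul_div_assoc, div_le_iff₀ hST]
    exact (mul_le_mul_of_nonneg_left hBE (Nat.cast_nonneg n)).trans hB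
  have c2 : (n : ℝ) ^ 2 * (#Y / ((S : ℝ) * T) ^ 2) ≤ 1 / 4 := by
    rw [← mul_div_assoc, div_le_iff₀ (by positivity)]
    exact (mul_le_mul_of_nonneg_left hYE (by positivity)).trans hY
  refine ⟨_, le_trans ?_ hmany, fun q hq => ?_⟩
  · have h1 : (0 : ℝ) ≤ ((S : ℝ) * T) ^ n := by positivity
    have h2 : (1 : ℝ) / 2 ≤ 1 - n * (#B / (S * T)) - n ^ 2 * (#Y / ((S : ℝ) * T) ^ 2) := by linarith
    have := mul_le_mul_of_nonneg_left h2 h1
    linarith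
  · rw [mem_filter, Fintype.mem_piFinset] at hq
    obtain ⟨hqU, hqB, hqY⟩ := hq
    have hqU' : ∀ i, (q i).1 < S ∧ (q i).2 < T := by
      intro i
      have := hqU i
      rwa [hU, mem_product, mem_range, mem_range] at this
    refine ⟨fun i => ⟨hs _ (hqU' i).1, ht _ (hqU' i).2⟩, ?_, ?_, ?_⟩
    · refine dsC_prod hb q (fun i => ?_) (fun i j hij h => ?_)
      · refine dsC_nsq hb ((hlt _ (hqU i)).trans_lt hP2) fun h => hqB i ?_
        rw [hBd, mem_filter]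
        exact ⟨hqU i, h⟩
      · refine hqY i j hij ?_
        rw [hYd, mem_filter, mem_product]
        exact ⟨⟨hqU i, hqU j⟩, hqB i, h⟩
    · intro i j _
      exact Or.inl ⟨Even.zero, odd_one⟩
    · intro i j _
      exact Or.inl (dsC_neg _ _ _)

/-- **The proportion.** Proof: as `ok₂_dens` (`Kf/Dsf.lean`) with one family: `K ≥ 100 n²`, `a`, `M` natural numbers all of whose prime
factors are at most `K`, `M` divisible by `p` for all prime numbers `p ≤ K`, `a ≡ 0` modulo `p` for the prime numbers `p ≤ K`, `p ≠ 3`,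
`a ≡ 1` modulo `3`, `a ∣ M` (`a` a square prime to `3`, `M = 3 a`): the discriminants of
`⟨0, 0, 1, a + M u, M w⟩` are negative (`- 64 a₄³ - 27 (1 + 4 a₆)²`) and prime to all `p ≤ K` (`≡ - 27` modulo `p ≠ 3`, `≡ 2` modulo `3`).
`dn_bad` for the squares of the prime numbers `p > K`, `dn_pair` (with `f = g`) for the common prime numbers of two curves; the number of
the families of `n` parameters for which two curves have a common prime number, or the discriminant of one is not squarefree, is at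
most `n² (16 / K + o(1)) (S T) ^ n + n (3 / K + o(1)) (S T) ^ n ≤ (S T) ^ n / 2`. -/
theorem okn_dens (n : ℕ) : ∃ c : ℝ, 0 < c ∧ ∃ N₀ : ℕ, ∀ N ≥ N₀, c * ((Eqs N).ncard : ℝ) ^ n ≤
    ({W : Fin n → WeierstrassCurve ℤ | (∀ i, W i ∈ Eqs N) ∧ OkN W}.ncard : ℝ) := by
  obtain ⟨b, hb⟩ := dsB_ex (100 * (n + 1) ^ 2)
  have hb0 := hb.pos
  have hM : 0 < 3 * b ^ 2 := by positivity
  have hM' : (0 : ℝ) < ((3 * b ^ 2 : ℕ) : ℝ) := by exact_mod_cast hM
  obtain ⟨N₀, hN₀⟩ := dsn_asym n hM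
  refine ⟨1 / 2 * (1 / (108 * (4 * ((3 * b ^ 2 : ℕ) : ℝ)) ^ 2)) ^ n, by positivity, N₀, fun N hN => ?_⟩
  obtain ⟨S, T, h1, hS, hT, hT4, hS0, hT0, hSn, hTn, hB, hY⟩ := hN₀ N hN
  obtain ⟨G, hG, hg⟩ := dsn_count hb h1 hS hT hT4 hS0 hT0 hB hY
  obtain ⟨hfin, hE⟩ := eqs_le h1
  set X : Set (Fin n → WeierstrassCurve ℤ) := {W | (∀ i, W i ∈ Eqs N) ∧ OkN W} with hX
  have hXf : X.Finite := (Set.Finite.pi' fun _ : Fin n => hfin).subset fun W hW => hW.1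
  set φ : (Fin n → ℕ × ℕ) → Fin n → WeierstrassCurve ℤ := fun q i => dsC b (q i).1 (q i).2 with hφ
  have hbz : (b : ℤ) ^ 2 ≠ 0 := by positivity
  have hinj : Function.Injective φ := by
    intro q q' h
    funext i
    have h2 := congrFun h i
    simp only [hφ, dsC, WeierstrassCurve.mk.injEq, true_and] at h2
    obtain ⟨h3, h4⟩ := h2
    have e1 := mul_left_cancel₀ hbz h3
    have e2 := mul_left_cancel₀ (mul_ne_zero three_ne_zero hbz) h4
    refine Prod.ext ?_ ?_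
    · omega
    · exact_mod_cast e2
  have himg : φ '' (G : Set (Fin n → ℕ × ℕ)) ⊆ X := by
    rintro _ ⟨q, hqG, rfl⟩
    obtain ⟨b1, b2⟩ := hg q hqG
    refine ⟨fun i => ⟨Or.inl rfl, ?_, Or.inr rfl, ?_, ?_⟩, b2⟩
    · simp [hφ, dsC]
    · simp only [hφ, dsC]
      rw [abs_of_nonneg (by positivity)]
      exact_mod_cast (b1 i).1
    · simp only [hφ, dsC]
      rw [abs_of_nonneg (by positivity)]
      exact_mod_cast (b1 i).2
  have hcard : #G ≤ X.ncard := by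
    have h2 := Set.ncard_le_ncard himg hXf
    rwa [Set.ncard_image_of_injective _ hinj, Set.ncard_coe_finset] at h2
  have hcard' : (#G : ℝ) ≤ X.ncard := by exact_mod_cast hcard
  refine le_trans ?_ (hG.trans hcard')
  have hE' : ((Eqs N).ncard : ℝ) ≤ 108 * (N : ℝ) ^ 5 := by exact_mod_cast hE
  have h4 : (N : ℝ) ^ 5 / (4 * ((3 * b ^ 2 : ℕ) : ℝ)) ^ 2 ≤ S * T := by
    have h6 : (N : ℝ) ^ 5 / (4 * ((3 * b ^ 2 : ℕ) : ℝ)) ^ 2 =
        ((N : ℝ) ^ 2 / (4 * ((3 * b ^ 2 : ℕ) : ℝ))) * ((N : ℝ) ^ 3 / (4 * ((3 * b ^ 2 : ℕ) : ℝ))) := by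
      field_simp
    rw [h6]
    exact mul_le_mul hSn hTn (by positivity) (by positivity)
  rw [mul_assoc, ← mul_pow]
  refine mul_le_mul_of_nonneg_left (pow_le_pow_left₀ (by positivity) ?_ n) (by norm_num)
  refine le_trans ?_ h4
  calc 1 / (108 * (4 * ((3 * b ^ 2 : ℕ) : ℝ)) ^ 2) * ((Eqs N).ncard : ℝ) ≤
      1 / (108 * (4 * ((3 * b ^ 2 : ℕ) : ℝ)) ^ 2) * (108 * (N : ℝ) ^ 5) :=
        mul_le_mul_of_nonneg_left hE' (by positivity)
    _ = (N : ℝ) ^ 5 / (4 * ((3 * b ^ 2 : ℕ) : ℝ)) ^ 2 := by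
        field_simp

end NE
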