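import Pool.Agent.Lib.MP_f80667_ag.Kf.Dte

/-!
For all `ε > 0` the theorem holds for the prime numbers greater than `L(ε)` for the proportion `1 - ε` of the families of `n` curves.
-/

open Finset PE

namespace NE

variable {n : ℕ}

/-- The condition: the discriminants are not divisible by `p ^ L`; for `p > L` the discriminants and the products of two of them are not divisible by `p ^ 2`. -/
structure DtN (L : ℕ) (W : Fin n → WeierstrassCurve ℤ) : Prop where
  lo : ∀ i, ∀ p : ℕ, p.Prime → ¬ (p : ℤ) ^ L ∣ (W i).Δ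
  hi : ∀ i, ∀ p : ℕ, p.Prime → L < p → ¬ (p : ℤ) ^ 2 ∣ (W i).Δ
  hh : ∀ i j, i ≠ j → ∀ p : ℕ, p.Prime → L < p → ¬ (p : ℤ) ^ 2 ∣ (W i).Δ * (W j).Δ

open Classical in
private theorem cnt1 {α : Type*} (E : Finset α) (B : Finset α) (i : Fin n) :
    #{W ∈ Fintype.piFinset (fun _ : Fin n => E) | W i ∈ B} * #E ≤ #B * #E ^ n := by
  have h1 : #E ^ n = #(Fintype.piFinset (fun _ : Fin n => E)) := by
    rw [Fintype.card_piFinset, prod_const, card_univ, Fintype.card_fin]
  rw [h1, ← card_product, ← card_product]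
  refine card_le_card_of_injOn (fun w => (w.1 i, Function.update w.1 i w.2)) ?_ ?_
  · rintro ⟨W, a⟩ hw
    rw [mem_coe, mem_product, mem_filter, Fintype.mem_piFinset] at hw
    rw [mem_coe, mem_product, Fintype.mem_piFinset]
    refine ⟨hw.1.2, fun k => ?_⟩
    by_cases hk : k = i
    · subst hk
      simpa using hw.2
    · simpa [Function.update_of_ne hk] using hw.1.1 k
  · rintro ⟨W, a⟩ _ ⟨W', a'⟩ _ h
    simp only [Prod.mk.injEq] at h
    obtain ⟨h2, h3⟩ := h
    have h4 : a = a' := by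
      have := congrFun h3 i
      simpa using this
    have h5 : W = W' := by
      funext k
      by_cases hk : k = i
      · subst hk
        exact h2
      · have := congrFun h3 k
        simpa [Function.update_of_ne hk] using this
    rw [h4, h5]

open Classical in
private theorem cnt2 {α : Type*} (E : Finset α) (B : Finset (α × α)) {i j : Fin n} (hij : i ≠ j) :
    #{W ∈ Fintype.piFinset (fun _ : Fin n => E) | (W i, W j) ∈ B} * #E ^ 2 ≤ #B * #E ^ n := by
  have h1 : #E ^ n = #(Fintype.piFinset (fun _ : Fin n => E)) := by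
    rw [Fintype.card_piFinset, prod_const, card_univ, Fintype.card_fin]
  rw [h1, pow_two, ← card_product E E, ← card_product, ← card_product]
  refine card_le_card_of_injOn
    (fun w => ((w.1 i, w.1 j), Function.update (Function.update w.1 i w.2.1) j w.2.2)) ?_ ?_
  · rintro ⟨W, a, b⟩ hw
    rw [mem_coe, mem_product, mem_filter, Fintype.mem_piFinset, mem_product] at hw
    rw [mem_coe, mem_product, Fintype.mem_piFinset]
    refine ⟨hw.1.2, fun k => ?_⟩
    by_cases hk : k = j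
    · subst hk
      simpa using hw.2.2
    · by_cases hk' : k = i
      · subst hk'
        simpa [Function.update_of_ne hk] using hw.2.1
      · simpa [Function.update_of_ne hk, Function.update_of_ne hk'] using hw.1.1 k
  · rintro ⟨W, a, b⟩ _ ⟨W', a', b'⟩ _ h
    simp only [Prod.mk.injEq] at h
    obtain ⟨⟨h2, h2'⟩, h3⟩ := h
    have h4 : b = b' := by
      have := congrFun h3 j
      simpa using this
    have h4' : a = a' := by
      have := congrFun h3 i
      simpa [Function.update_of_ne hij] using this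
    have h5 : W = W' := by
      funext k
      by_cases hk : k = j
      · subst hk
        exact h2'
      · by_cases hk' : k = i
        · subst hk'
          exact h2
        · have := congrFun h3 k
          simpa [Function.update_of_ne hk, Function.update_of_ne hk'] using this
    rw [h4, h4', h5]

/-- Proof: `dtG_dens` (`Kf/Dte.lean`) for `ε / (n + 1) ^ 2`; the number of the families which do not satisfy the condition is at most `n` times the number of the
curves which do not satisfy `lo` and `hi`, times `|Eqs N| ^ (n - 1)`, and `n ^ 2` times the number of the pairs which do not satisfy the condition, times `|Eqs N| ^ (n - 2)`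
(`n = 1`: a curve which does not satisfy `lo`, `hi` gives `|Eqs N|` such pairs). -/
theorem dtN_dens (n : ℕ) {ε : ℝ} (hε : 0 < ε) (N₁ : ℕ) : ∃ L : ℕ, N₁ ≤ L ∧ ∃ N₀ : ℕ, ∀ N ≥ N₀,
    (1 - ε) * ((Eqs N).ncard : ℝ) ^ n ≤
      ({W : Fin n → WeierstrassCurve ℤ | (∀ i, W i ∈ Eqs N) ∧ DtN L W}.ncard : ℝ) := by
  classical
  have hn0 : (0 : ℝ) < ((n : ℝ) + 1) ^ 2 := by positivity
  set δ : ℝ := ε / ((n : ℝ) + 1) ^ 2 with hδ
  have hδ0 : 0 < δ := div_pos hε hn0
  obtain ⟨L, hL, N₀, hN⟩ := dtG_dens hδ0 N₁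
  refine ⟨L, hL, N₀, fun N hNN => ?_⟩
  have h0 := hN N hNN
  set E : Finset (WeierstrassCurve ℤ) := (eqs_fin N).toFinset with hE
  have hmE : ∀ A, A ∈ E ↔ A ∈ Eqs N := fun A => (eqs_fin N).mem_toFinset
  have hM : (Eqs N).ncard = #E := Set.ncard_eq_toFinset_card _ (eqs_fin N)
  rw [hM] at h0 ⊢
  have hEpos : 0 < #E := by
    refine card_pos.2 ⟨⟨0, 0, 0, 0, 0⟩, (hmE _).2 ⟨Or.inl rfl, by simp, Or.inl rfl, by simp, by simp⟩⟩
  have hEr : (0 : ℝ) < (#E : ℝ) := by exact_mod_cast hEpos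
  -- the good pairs, the bad pairs
  set G : Finset (WeierstrassCurve ℤ × WeierstrassCurve ℤ) := {w ∈ E ×ˢ E | DtG L w.1 w.2} with hG
  set B2 : Finset (WeierstrassCurve ℤ × WeierstrassCurve ℤ) := {w ∈ E ×ˢ E | ¬ DtG L w.1 w.2} with hB2
  have hGs : ({w : WeierstrassCurve ℤ × WeierstrassCurve ℤ | w.1 ∈ Eqs N ∧ w.2 ∈ Eqs N ∧ DtG L w.1 w.2} : Set _)
      = (G : Set _) := by
    ext w
    simp only [hG, Set.mem_setOf_eq, coe_filter, mem_product, hmE]
    tauto
  rw [hGs, Set.ncard_coe_finset] at h0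
  have hB2c : (#B2 : ℝ) ≤ δ * (#E : ℝ) ^ 2 := by
    have h1 : #G + #B2 = #E * #E := by
      rw [← card_product]
      exact card_filter_add_card_filter_not _
    have h2 : (#G : ℝ) + #B2 = (#E : ℝ) ^ 2 := by
      rw [pow_two]
      exact_mod_cast h1
    linarith
  set B1 : Finset (WeierstrassCurve ℤ) := {A ∈ E | ¬ ((∀ p : ℕ, p.Prime → ¬ (p : ℤ) ^ L ∣ A.Δ) ∧
    ∀ p : ℕ, p.Prime → L < p → ¬ (p : ℤ) ^ 2 ∣ A.Δ)} with hB1
  have hB1c : (#B1 : ℝ) ≤ δ * (#E : ℝ) := by
    have h1 : B1 ×ˢ E ⊆ B2 := by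
      rintro ⟨A, C⟩ hw
      obtain ⟨h2, h3⟩ := mem_product.1 hw
      obtain ⟨h4, h5⟩ := mem_filter.1 h2
      refine mem_filter.2 ⟨mem_product.2 ⟨h4, h3⟩, fun h6 => h5 ⟨fun p hp => (h6.lo p hp).1, fun p hp hl h7 => ?_⟩⟩
      exact h6.hi p hp hl (dvd_mul_of_dvd_left h7 _)
    have h2 := card_le_card h1
    rw [card_product] at h2
    have h3 : (#B1 : ℝ) * #E ≤ δ * (#E : ℝ) ^ 2 := le_trans (by exact_mod_cast h2) hB2c
    have h4 : (#B1 : ℝ) * #E ≤ (δ * #E) * #E := by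
      rw [mul_assoc, ← pow_two]
      exact h3
    exact le_of_mul_le_mul_right h4 hEr
  -- all families
  set P : Finset (Fin n → WeierstrassCurve ℤ) := Fintype.piFinset (fun _ : Fin n => E) with hP
  have hPc : #P = #E ^ n := by
    rw [hP, Fintype.card_piFinset, prod_const, card_univ, Fintype.card_fin]
  set X : Finset (Fin n → WeierstrassCurve ℤ) := {W ∈ P | DtN L W} with hX
  have hXs : ({W : Fin n → WeierstrassCurve ℤ | (∀ i, W i ∈ Eqs N) ∧ DtN L W} : Set _) = (X : Set _) := by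
    ext W
    simp only [hX, hP, Set.mem_setOf_eq, coe_filter, Fintype.mem_piFinset, hmE]
  rw [hXs, Set.ncard_coe_finset]
  have hcov : P ⊆ X ∪ ((univ : Finset (Fin n)).biUnion (fun i => {W ∈ P | W i ∈ B1}) ∪
      ((univ : Finset (Fin n × Fin n)).filter (fun q => q.1 ≠ q.2)).biUnion
        (fun q => {W ∈ P | (W q.1, W q.2) ∈ B2})) := by
    intro W hW
    have hWE : ∀ i, W i ∈ E := Fintype.mem_piFinset.1 hW
    by_cases h1 : ∃ i, W i ∈ B1
    · obtain ⟨i, hi⟩ := h1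
      exact mem_union_right _ (mem_union_left _ (mem_biUnion.2 ⟨i, mem_univ _, mem_filter.2 ⟨hW, hi⟩⟩))
    by_cases h2 : ∃ i j, i ≠ j ∧ (W i, W j) ∈ B2
    · obtain ⟨i, j, hij, hi⟩ := h2
      exact mem_union_right _ (mem_union_right _ (mem_biUnion.2 ⟨(i, j), mem_filter.2 ⟨mem_univ _, hij⟩,
        mem_filter.2 ⟨hW, hi⟩⟩))
    push_neg at h1 h2
    refine mem_union_left _ (mem_filter.2 ⟨hW, ?_⟩)
    have h3 : ∀ i, (∀ p : ℕ, p.Prime → ¬ (p : ℤ) ^ L ∣ (W i).Δ) ∧
        ∀ p : ℕ, p.Prime → L < p → ¬ (p : ℤ) ^ 2 ∣ (W i).Δ := by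
      intro i
      by_contra h
      exact h1 i (mem_filter.2 ⟨hWE i, h⟩)
    refine ⟨fun i => (h3 i).1, fun i => (h3 i).2, fun i j hij => ?_⟩
    have h4 : DtG L (W i) (W j) := by
      by_contra h
      exact h2 i j hij (mem_filter.2 ⟨mem_product.2 ⟨hWE i, hWE j⟩, h⟩)
    exact h4.hi
  have hc1 : ∀ i : Fin n, (#{W ∈ P | W i ∈ B1} : ℝ) ≤ δ * (#E : ℝ) ^ n := by
    intro i
    have h1 := cnt1 E B1 i
    have h2 : (#{W ∈ P | W i ∈ B1} : ℝ) * #E ≤ (#B1 : ℝ) * (#E : ℝ) ^ n := by exact_mod_cast h1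
    have h3 : (#B1 : ℝ) * (#E : ℝ) ^ n ≤ (δ * (#E : ℝ) ^ n) * #E := by
      calc (#B1 : ℝ) * (#E : ℝ) ^ n ≤ (δ * #E) * (#E : ℝ) ^ n :=
            mul_le_mul_of_nonneg_right hB1c (by positivity)
        _ = _ := by ring
    exact le_of_mul_le_mul_right (h2.trans h3) hEr
  have hc2 : ∀ q ∈ (univ : Finset (Fin n × Fin n)).filter (fun q => q.1 ≠ q.2),
      (#{W ∈ P | (W q.1, W q.2) ∈ B2} : ℝ) ≤ δ * (#E : ℝ) ^ n := by
    intro q hq
    have h1 := cnt2 E B2 (mem_filter.1 hq).2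
    have h2 : (#{W ∈ P | (W q.1, W q.2) ∈ B2} : ℝ) * (#E : ℝ) ^ 2 ≤ (#B2 : ℝ) * (#E : ℝ) ^ n := by
      exact_mod_cast h1
    have h3 : (#B2 : ℝ) * (#E : ℝ) ^ n ≤ (δ * (#E : ℝ) ^ n) * (#E : ℝ) ^ 2 := by
      calc (#B2 : ℝ) * (#E : ℝ) ^ n ≤ (δ * (#E : ℝ) ^ 2) * (#E : ℝ) ^ n :=
            mul_le_mul_of_nonneg_right hB2c (by positivity)
        _ = _ := by ring
    exact le_of_mul_le_mul_right (h2.trans h3) (by positivity)
  have hU : (#((univ : Finset (Fin n)).biUnion (fun i => {W ∈ P | W i ∈ B1})) : ℝ) ≤ n * (δ * (#E : ℝ) ^ n) := by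
    have h1 : (#((univ : Finset (Fin n)).biUnion (fun i => {W ∈ P | W i ∈ B1})) : ℝ)
        ≤ ∑ i : Fin n, (#{W ∈ P | W i ∈ B1} : ℝ) := by exact_mod_cast card_biUnion_le
    refine h1.trans ((sum_le_sum fun i _ => hc1 i).trans (le_of_eq ?_))
    rw [sum_const, card_univ, Fintype.card_fin, nsmul_eq_mul]
  have hV : (#(((univ : Finset (Fin n × Fin n)).filter (fun q => q.1 ≠ q.2)).biUnion
        (fun q => {W ∈ P | (W q.1, W q.2) ∈ B2})) : ℝ) ≤ ((n : ℝ) * n) * (δ * (#E : ℝ) ^ n) := by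
    have h1 : (#(((univ : Finset (Fin n × Fin n)).filter (fun q => q.1 ≠ q.2)).biUnion
        (fun q => {W ∈ P | (W q.1, W q.2) ∈ B2})) : ℝ)
        ≤ ∑ q ∈ (univ : Finset (Fin n × Fin n)).filter (fun q => q.1 ≠ q.2),
          (#{W ∈ P | (W q.1, W q.2) ∈ B2} : ℝ) := by exact_mod_cast card_biUnion_le
    refine h1.trans ((sum_le_sum fun q hq => hc2 q hq).trans ?_)
    rw [sum_const, nsmul_eq_mul]
    refine mul_le_mul_of_nonneg_right ?_ (by positivity)
    have h2 : #((univ : Finset (Fin n × Fin n)).filter (fun q => q.1 ≠ q.2)) ≤ n * n := by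
      refine (card_filter_le _ _).trans (le_of_eq ?_)
      rw [card_univ, Fintype.card_prod, Fintype.card_fin]
    exact_mod_cast h2
  have hfin : (#P : ℝ) ≤ #X + ((n : ℝ) * (δ * (#E : ℝ) ^ n) + ((n : ℝ) * n) * (δ * (#E : ℝ) ^ n)) := by
    have h1 := (card_le_card hcov).trans ((card_union_le _ _).trans
      (Nat.add_le_add_left (card_union_le _ _) _))
    have h2 : (#P : ℝ) ≤ #X + ((#((univ : Finset (Fin n)).biUnion (fun i => {W ∈ P | W i ∈ B1})) : ℝ) +
      (#(((univ : Finset (Fin n × Fin n)).filter (fun q => q.1 ≠ q.2)).biUnion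
        (fun q => {W ∈ P | (W q.1, W q.2) ∈ B2})) : ℝ)) := by exact_mod_cast h1
    linarith
  have hPr : (#P : ℝ) = (#E : ℝ) ^ n := by exact_mod_cast hPc
  have hδε : ((n : ℝ) + n * n) * δ ≤ ε := by
    have h1 : ((n : ℝ) + n * n) * δ ≤ ((n : ℝ) + 1) ^ 2 * δ := by
      refine mul_le_mul_of_nonneg_right ?_ hδ0.le
      have : (0 : ℝ) ≤ (n : ℝ) := Nat.cast_nonneg _
      nlinarith
    have h2 : ((n : ℝ) + 1) ^ 2 * δ = ε := by
      rw [hδ]
      field_simp
    linarith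
  have hE0 : (0 : ℝ) ≤ (#E : ℝ) ^ n := by positivity
  have h5 := mul_le_mul_of_nonneg_right hδε hE0
  rw [hPr] at hfin
  nlinarith

end NE
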