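import Pool.Agent.Lib.MP_f80667_ag.Nf.SngB
import Pool.Agent.Lib.MP_f80667_ag.Nf.Ad

/-!
Products of elliptic curves over a number field: explicit conditions on the prime number `l`.
-/

open ZC BE PE Polynomial IntermediateField IsDedekindDomain NumberField CV

namespace NE

variable {F : Type} [Field F] [NumberField F] {n : ℕ}

/-- The conditions on the prime number `l`: the conditions `Lvn` at the places above `l`; at the other places the exponents of the denominators of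
the `j`-invariants are not positive multiples of `l`. -/
structure Gln (W : Fin n → WeierstrassCurve F) [∀ i, (W i).IsElliptic] (l : ℕ) : Prop where
  pr : l.Prime
  le : 5 ≤ l
  ab : ∀ v : HeightOneSpectrum (𝓞 F), v.valuation F (l : F) < 1 → Lvn W v
  jv : ∀ v : HeightOneSpectrum (𝓞 F), v.valuation F (l : F) = 1 → ∀ i, Jv l v (W i)

/-- Values in `ℤᵐ⁰`. -/
private theorem gln_val {v : HeightOneSpectrum (𝓞 F)} {x : F} (hx : x ≠ 0) :
    ∃ n : ℤ, v.valuation F x = WithZero.exp (-n) := by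
  have h1 : v.valuation F x ≠ 0 := (Valuation.ne_zero_iff _).2 hx
  refine ⟨-(WithZero.log (v.valuation F x)), ?_⟩
  rw [neg_neg, WithZero.exp_log h1]

/-- The places above `l`. Proof: as `cfn_of` (`Nf/Ad.lean`) for one place. -/
theorem dv_ab {W : Fin n → WeierstrassCurve F} {v : HeightOneSpectrum (𝓞 F)} (h : Lvn W v) {m : ℕ}
    (hm : m ≠ 0) : DvP (FK F v) (fun i => Ev (W i)) m := by
  obtain ⟨p, hp, hpv⟩ := h.unr
  obtain ⟨L, hLu, hLp, hL⟩ := exists_ld F v p hp hpv
  have hc : CharZero (FK F v) := charZero_of_injective_algebraMap (algebraMap F (FK F v)).injective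
  have hp0 := L.p_pos
  have hp1 := L.lt
  have hle : ∀ x : F, v.valuation F x ≤ 1 → L.nm (algebraMap F _ x) ≤ 1 := by
    intro x hx
    by_cases h0 : x = 0
    · rw [h0, map_zero, L.zero]
      exact zero_le_one
    · obtain ⟨n, hn⟩ := gln_val (v := v) h0
      rw [hL x n hn]
      have h1 : 0 ≤ n := by
        rw [hn, ← WithZero.exp_zero, WithZero.exp_le_exp] at hx
        omega
      obtain ⟨m, rfl⟩ := Int.eq_ofNat_of_zero_le h1
      rw [zpow_natCast]
      exact pow_le_one₀ hp0.le hp1.le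
  have hlt : ∀ x : F, v.valuation F x < 1 → L.nm (algebraMap F _ x) < 1 := by
    intro x hx
    by_cases h0 : x = 0
    · rw [h0, map_zero, L.zero]
      exact zero_lt_one
    · obtain ⟨n, hn⟩ := gln_val (v := v) h0
      rw [hL x n hn]
      have h1 : 0 < n := by
        rw [hn, ← WithZero.exp_zero, WithZero.exp_lt_exp] at hx
        omega
      obtain ⟨m, rfl⟩ := Int.eq_ofNat_of_zero_le h1.le
      rw [zpow_natCast]
      exact pow_lt_one₀ hp0.le hp1 (by omega)
  have hd : ∀ i, (W i).Δ ≠ 0 := by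
    intro i h0
    have h1 := h.disc i
    rw [h0, map_zero, le_zero_iff] at h1
    exact WithZero.exp_ne_zero h1
  have he : ∀ i, (W i).IsElliptic := fun i => ⟨isUnit_iff_ne_zero.2 (hd i)⟩
  have hi : ∀ i, L.Hd (W i) := fun i =>
    { a₁ := hle _ (h.int i).1
      a₂ := hle _ (h.int i).2.1
      a₃ := hle _ (h.int i).2.2.1
      a₄ := hle _ (h.int i).2.2.2.1
      a₆ := hle _ (h.int i).2.2.2.2
      disc := by
        obtain ⟨n, hn⟩ := gln_val (v := v) (hd i)
        have h1 := h.disc i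
        rw [hn, WithZero.exp_le_exp] at h1
        rw [hL _ n hn]
        calc L.nm (L.p : AlgebraicClosure (FK F v)) = L.nm (L.p : AlgebraicClosure (FK F v)) ^ (1 : ℤ) :=
              (zpow_one _).symm
          _ ≤ _ := (zpow_le_zpow_iff_right_of_lt_one₀ hp0 hp1).2 (by omega) }
  have hg : ∀ i, v.valuation F (W i).Δ = 1 → L.Gd (W i) := fun i hΔ =>
    { a₁ := hle _ (h.int i).1
      a₂ := hle _ (h.int i).2.1
      a₃ := hle _ (h.int i).2.2.1
      a₄ := hle _ (h.int i).2.2.2.1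
      a₆ := hle _ (h.int i).2.2.2.2
      disc := by
        have h1 : v.valuation F (W i).Δ = WithZero.exp (-0 : ℤ) := by
          rw [hΔ, neg_zero, WithZero.exp_zero]
        rw [hL _ 0 h1, zpow_zero] }
  refine (dvP_iff (FK F v) m).2 (loc_E (L := L) (W := W) ⟨hi, fun i j hij => ?_, fun h2 i j hij => ?_⟩ hm)
  · exact (h.gd i j hij).imp (hg i) (hg j)
  · have h3 : v.valuation F (2 : F) < 1 := by
      rw [← hLp, h2] at hpv
      rw [Nat.cast_ofNat] at hpv
      rw [hpv, ← WithZero.exp_zero, WithZero.exp_lt_exp]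
      omega
    exact (h.ss h3 i j hij).imp (fun h4 => ⟨hg i h4.1, hlt _ h4.2⟩)
      fun h4 => ⟨hg j h4.1, hlt _ h4.2⟩

/-- The places which are not above `l`. Proof: as `dv_plE` (`Pe/GlE.lean`): `exists_ldE`, `jc_of`, `loc_lp`, `dvP_iff` (`Cv/Dv.lean`). -/
theorem dv_lp {W : Fin n → WeierstrassCurve F} [∀ i, (W i).IsElliptic]
    {v : HeightOneSpectrum (𝓞 F)} {l : ℕ} (hl : l.Prime) (h5 : 5 ≤ l)
    (hv : v.valuation F (l : F) = 1) (hj : ∀ i, Jv l v (W i)) :
    DvP (FK F v) (fun i => Ev (W i)) l := by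
  have hc : CharZero (FK F v) := charZero_of_injective_algebraMap (algebraMap F (FK F v)).injective
  obtain ⟨L, c, hc0, hc1, hL, hL'⟩ := exists_ldE v
  have hlp : l ≠ L.p := by
    intro h
    have h1 := hL (l : F) 0 (by rw [hv, neg_zero, WithZero.exp_zero])
    rw [zpow_zero, map_natCast, h] at h1
    exact absurd L.lt (not_lt.2 h1.ge)
  exact (dvP_iff (FK F v) l).2 (loc_lp L hl h5 hlp fun i => jc_of (hj i) hc0 hc1 hL hL')

/-- Proof: as `dv_gl` (`Pe/GlE.lean`). -/
theorem dv_gln {W : Fin n → WeierstrassCurve F} [∀ i, (W i).IsElliptic] {l : ℕ} (h : Gln W l)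
    (v : HeightOneSpectrum (𝓞 F)) : DvP (FK F v) (fun i => Ev (W i)) l := by
  have hle : v.valuation F (l : F) ≤ 1 := by
    have h1 : (l : F) = algebraMap (𝓞 F) F (l : 𝓞 F) := (map_natCast _ l).symm
    rw [h1]
    exact v.valuation_le_one _
  rcases hle.lt_or_eq with h1 | h1
  · exact dv_ab (h.ab v h1) h.pr.ne_zero
  · exact dv_lp h.pr h.le h1 (h.jv v h1)

/-- **The theorem.** Proof: `fam_dvP`, `imDeS_iff` (`Cv/Hat.lean`) with `bpE` (`Nf/Ee.lean`). -/
theorem main_gn {W : Fin n → WeierstrassCurve F} [∀ i, (W i).IsElliptic] {Λ : Set ℕ}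
    (h : ∀ l ∈ Λ, Gln W l) :
    (∀ m : ℕ, m ≠ 0 → Sf Λ m → ∀ c : Fam (Vpi fun i => Ev (W i)), AlbPA c →
      ∃ c' : Fam (Vpi fun i => Ev (W i)), AlbPA c' ∧ c.cl = m • c'.cl) ∧
    ∀ (z : LHat (FA (Vpi fun i => Ev (W i)))) (z' : ∀ i, LHat (FA (Ev (W i)))),
      (∀ i, IsPs i z (z' i)) → (ImDeS Λ z ↔ ∀ i, ImDeS Λ (z' i)) := by
  have h2 : 2 ∉ Λ := fun h3 => by
    have h4 := (h 2 h3).le
    omega
  have hd := fun (m : ℕ) (hm : m ≠ 0) (hS : Sf Λ m) (c : Fam (Vpi fun i => Ev (W i)))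
    (hc : AlbPA c) => fam_dvP h2 (fun l hl _ v => dv_gln (h l hl) v) m hm hS c hc
  refine ⟨hd, fun z z' hz => imDeS_iff (fun i => bpE (W i)) (fun m hm hS c hc => ?_) hz⟩
  obtain ⟨c', -, hc'⟩ := hd m hm hS c hc
  exact ⟨c', hc'⟩

end NE
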