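import Pool.Agent.Lib.MP_f80667_ag.Nf.Thc
import Pool.Agent.Lib.MP_f80667_ag.Cv.NfD

/-!
Products of elliptic curves: the definitions for the local theorem.

* `Kp V`: every point has a finite field of definition, a point over `M` is a constant point over the function fields over `M`.
* `Uv L V`: the norms of points over unramified extensions; `Uk L V U`: the cycles over `U` whose points are unramified.
* `Gn`: `n` points `(x i, y i)` over `M` with integral coordinates, at most one has singular reduction.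
* `Ch`: the choice of the curve and the functions.
-/

open ZC BE PE Polynomial IntermediateField CV GM

namespace NE

section var

variable {F : Type} [Field F]

/-- Points over `M` are constant points, every point has a finite field of definition. -/
class Kp (V : Vr F) : Prop where
  fp : ∀ (K Ω : Type) [Field K] [Field Ω] [Algebra K Ω] [Algebra F K] [Algebra F Ω]
    [IsScalarTower F K Ω] [CharZero K] [IsAlgClosure K Ω] (x : V.pt Ω),
    ∃ M : IntermediateField K Ω, FiniteDimensional K M ∧ Fp V M x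
  cst : ∀ (K Ω : Type) [Field K] [Field Ω] [Algebra K Ω] [Algebra F K] [Algebra F Ω]
    [IsScalarTower F K Ω] [CharZero K] [IsAlgClosure K Ω] (M : IntermediateField K Ω) (y : V.pt Ω),
    Fp V M y → ∀ (E : Type) [Field E] [Algebra M E] [Algebra F E] [IsScalarTower F M E],
    ∃ x' : V.pt (AlgebraicClosure E), V.Rat E x' ∧
      ∀ w : Place M (AlgebraicClosure E) Ω, V.red w x' y

variable {K Ω : Type} [Field K] [Field Ω] [Algebra K Ω] [Algebra F K] [Algebra F Ω]
  [IsScalarTower F K Ω]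

/-- The cycles generated by the norms of the points over unramified extensions. -/
noncomputable def Uv (L : Ld K Ω) (V : Vr F) [Hf V] : AddSubgroup (V.pt Ω →₀ ℤ) :=
  AddSubgroup.closure {z | ∃ (N : ℕ) (M : IntermediateField K Ω) (y : V.pt Ω),
    N ≠ 0 ∧ M ≤ L.Ur ⊥ N ∧ Fp V M y ∧ z = Nm (⊥ : IntermediateField K Ω) M (Finsupp.single y 1)}

/-- The cycles over `U` whose points are defined over unramified extensions. -/
noncomputable def Uk (L : Ld K Ω) (V : Vr F) [Hf V] (U : IntermediateField K Ω) :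
    AddSubgroup (V.pt Ω →₀ ℤ) where
  carrier := {z | Fx U z ∧ ∀ x ∈ z.support, ∃ N : ℕ, N ≠ 0 ∧ Fp V (L.Ur ⊥ N) x}
  zero_mem' := ⟨fun γ _ => smul_zero γ, fun x hx => absurd hx (by simp)⟩
  add_mem' := by
    classical
    rintro a b ⟨ha, ha'⟩ ⟨hb, hb'⟩
    refine ⟨fun γ hγ => by rw [smul_add, ha γ hγ, hb γ hγ], fun x hx => ?_⟩
    rcases Finset.mem_union.1 (Finsupp.support_add hx) with h | h
    · exact ha' x h
    · exact hb' x h
  neg_mem' := by
    rintro a ⟨ha, ha'⟩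
    exact ⟨fun γ hγ => by rw [smul_neg, ha γ hγ], fun x hx => ha' x (by simpa using hx)⟩

end var

section ell

variable {F : Type} [Field F] {n : ℕ}

/-- The product of the curves. -/
noncomputable abbrev Xn (W : Fin n → WeierstrassCurve F) : Vr F := Vpi fun i => Ev (W i)

variable {K Ω : Type} [Field K] [Field Ω] [Algebra K Ω] [Algebra F K] [Algebra F Ω]
  [IsScalarTower F K Ω]

/-- The coordinates of a point. -/
def cx {W : Fin n → WeierstrassCurve F} (x : (Xn W).pt Ω) (i : Fin n) : Pt (W i) Ω := x i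

/-- The situation. -/
structure Gn (L : Ld K Ω) (W : Fin n → WeierstrassCurve F) (M : IntermediateField K Ω) (N : ℕ)
    (x y : Fin n → Ω) : Prop where
  rf : L.Rf M N
  hd : ∀ i, L.Hd (W i)
  xm : ∀ i, x i ∈ M
  ym : ∀ i, y i ∈ M
  xl : ∀ i, L.nm (x i) ≤ 1
  yl : ∀ i, L.nm (y i) ≤ 1
  eq : ∀ i, fe (W i) (x i) (y i) = 0
  ne : ∀ i, dy (W i) (x i) (y i) ≠ 0
  sg : ∀ i, L.nm (dy (W i) (x i) (y i)) = 1 ∨
    L.nm (dx (W i) (x i) (y i)) < 1 ∧ L.nm (dy (W i) (x i) (y i)) < 1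
  one : ∀ i j, i ≠ j → L.nm (dy (W i) (x i) (y i)) = 1 ∨ L.nm (dy (W j) (x j) (y j)) = 1

/-- The curve over `Ω`. -/
noncomputable abbrev To (Ω : Type) [Field Ω] [Algebra F Ω] (W : Fin n → WeierstrassCurve F)
    (r : Fin n → Polynomial Ω) (w : Fin n → Ω) : Polynomial (Polynomial Ω) :=
  Tg (fun i => (W i).baseChange Ω) r w

/-- The choice: the curve `Θ(z, T) = 0` for `r`, `w`, the functions `A - T` and `b`; `m` is the minimal polynomial of a uniformizer. -/
structure Ch (L : Ld K Ω) (W : Fin n → WeierstrassCurve F) (U : IntermediateField K Ω)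
    (m : Polynomial Ω) (r : Fin n → Polynomial Ω) (w : Fin n → Ω) (A b : Polynomial Ω) (d : ℕ) :
    Prop where
  ri : ∀ i, L.Ip U (r i)
  rd : ∀ i, (r i).natDegree ≤ d
  wi : ∀ i, w i ∈ U
  Ai : L.Ip U A
  Am : A.Monic
  Ad : A.natDegree = 2 * d + 1
  bi : L.Ip U b
  bm : b.Monic
  bd : b.natDegree = 2 * d + 1
  za : ∀ z, ((To Ω W r w).eval A).eval z = 0 → (derivative ((To Ω W r w).eval A)).eval z ≠ 0 ∧
    ev₂ (z, A.eval z) (dY (To Ω W r w)) ≠ 0 ∧ (m.eval z = 0 ∨ ∃ N : ℕ, N ≠ 0 ∧ z ∈ L.Ur ⊥ N)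
  zm : ∀ z, m.eval z = 0 → ((To Ω W r w).eval A).eval z = 0
  zb : ∀ z, b.eval z = 0 → (derivative b).eval z ≠ 0 ∧ (∃ N : ℕ, N ≠ 0 ∧ z ∈ L.Ur ⊥ N) ∧
    ∀ T, ev₂ (z, T) (To Ω W r w) = 0 → ev₂ (z, T) (dY (To Ω W r w)) ≠ 0 ∧
      ∃ N : ℕ, N ≠ 0 ∧ T ∈ L.Ur ⊥ N

/-- `x` is the point with the coordinates `(r i (z), η i)`, `∑ w i η i = T`, for `P = (z, T)`. -/
def Pw (W : Fin n → WeierstrassCurve F) (r : Fin n → Polynomial Ω) (w : Fin n → Ω) (P : Ω × Ω)
    (x : (Xn W).pt Ω) : Prop :=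
  ∃ (η : Fin n → Ω) (h : ∀ i, ((W i).baseChange Ω).toAffine.Nonsingular ((r i).eval P.1) (η i)),
    ∑ i, w i * η i = P.2 ∧ x = fun i => (Pt.aff _ _ (h i) : Pt (W i) Ω)

end ell

end NE
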