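import Pool.Agent.Lib.MP_f80667_ag.Nf.Gln
import Pool.Agent.Lib.MP_f80667_ag.Nf.Dtn
import Pool.Agent.Lib.MP_f80667_ag.Kf.Dtf

/-!
The theorem for the prime numbers greater than `L`.
-/

open ZC BE PE Polynomial IntermediateField IsDedekindDomain NumberField CV

namespace NE

variable {n : ℕ}

theorem DtN.ne {W : Fin n → WeierstrassCurve ℤ} {L : ℕ} (h : DtN L W) (i : Fin n) : (W i).Δ ≠ 0 :=
  fun h0 => h.lo i 2 Nat.prime_two (by rw [h0]; exact dvd_zero _)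

private theorem dtnb_int (v : HeightOneSpectrum (𝓞 ℚ)) (n : ℤ) : v.valuation ℚ (n : ℚ) ≤ 1 := by
  have h : (n : ℚ) = algebraMap (𝓞 ℚ) ℚ (n : 𝓞 ℚ) := (map_intCast _ n).symm
  rw [h]
  exact v.valuation_le_one _

private theorem dtnb_iv (v : HeightOneSpectrum (𝓞 ℚ)) (A : WeierstrassCurve ℤ) : Iv v (toQ A) :=
  ⟨dtnb_int v A.a₁, dtnb_int v A.a₂, dtnb_int v A.a₃, dtnb_int v A.a₄, dtnb_int v A.a₆⟩

/-- The value of an integer. -/
private theorem dtnb_val {v : HeightOneSpectrum (𝓞 ℚ)} {p : ℕ} (hp : p.Prime)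
    (hp1 : v.valuation ℚ (p : ℚ) = WithZero.exp (-1 : ℤ))
    (hpn : ∀ n : ℤ, v.valuation ℚ (n : ℚ) = 1 ↔ ¬ (p : ℤ) ∣ n) {L : ℕ} {x : ℤ}
    (h : ¬ (p : ℤ) ^ L ∣ x) : ∃ k : ℕ, k < L ∧ v.valuation ℚ (x : ℚ) = WithZero.exp (-(k : ℤ)) := by
  have h1 := emultiplicity_lt_iff_not_dvd.2 h
  obtain ⟨k, hk⟩ := ENat.ne_top_iff_exists.1 (ne_top_of_lt h1)
  rw [← hk] at h1
  have h2 : k < L := by exact_mod_cast h1
  have h3 : (p : ℤ) ^ k ∣ x := by
    rw [pow_dvd_iff_le_emultiplicity, ← hk]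
  obtain ⟨y, hy⟩ := h3
  have h4 : ¬ (p : ℤ) ∣ y := by
    rintro ⟨z, rfl⟩
    have h5 : (p : ℤ) ^ (k + 1) ∣ x := ⟨z, by rw [hy]; ring⟩
    rw [pow_dvd_iff_le_emultiplicity, ← hk] at h5
    have h6 : k + 1 ≤ k := by exact_mod_cast h5
    omega
  refine ⟨k, h2, ?_⟩
  rw [hy]
  push_cast
  rw [map_mul, map_pow, hp1, (hpn y).2 h4, mul_one, ← WithZero.exp_nsmul]
  congr 1
  simp

/-- The denominator of the `j`-invariant. -/
private theorem dtnb_jv {A : WeierstrassCurve ℤ} {v : HeightOneSpectrum (𝓞 ℚ)} {L l : ℕ} (hL : L < l)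
    (h : ∀ p : ℕ, p.Prime → ¬ (p : ℤ) ^ L ∣ A.Δ) [(toQ A).IsElliptic] : Jv l v (toQ A) := by
  intro n hn hd
  obtain ⟨p, hp, hp1, hpn⟩ := exists_p v
  obtain ⟨k, hk, hv⟩ := dtnb_val hp hp1 hpn (h p hp)
  by_contra hc
  have h1 := Int.le_of_dvd (by omega) hd
  have hj : (toQ A).j * (toQ A).Δ = (toQ A).c₄ ^ 3 := by
    rw [WeierstrassCurve.j, mul_right_comm, ← (toQ A).coe_Δ', Units.inv_mul, one_mul]
  have h2 := congrArg (v.valuation ℚ) hj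
  rw [map_mul, hn, disc_toQ, hv, map_pow, ← WithZero.exp_add] at h2
  have h3 : (toQ A).c₄ = ((A.c₄ : ℤ) : ℚ) := by
    unfold toQ
    rw [WeierstrassCurve.baseChange, WeierstrassCurve.map_c₄]
    rfl
  rw [h3] at h2
  have h4 : v.valuation ℚ ((A.c₄ : ℤ) : ℚ) ^ 3 ≤ 1 := pow_le_one₀ zero_le (dtnb_int v _)
  rw [← h2, ← WithZero.exp_zero, WithZero.exp_le_exp] at h4
  omega

/-- The prime number of a place above `l`. -/
private theorem dtnb_pl {v : HeightOneSpectrum (𝓞 ℚ)} {p l : ℕ} (hp : p.Prime) (hl : l.Prime)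
    (hpn : ∀ n : ℤ, v.valuation ℚ (n : ℚ) = 1 ↔ ¬ (p : ℤ) ∣ n)
    (hv : v.valuation ℚ (l : ℚ) < 1) : p = l := by
  by_contra hne
  have h2 : v.valuation ℚ ((l : ℤ) : ℚ) = 1 := by
    rw [hpn]
    intro h3
    have h4 : p ∣ l := by exact_mod_cast h3
    exact hne ((Nat.prime_dvd_prime_iff_eq hp hl).1 h4)
  rw [Int.cast_natCast] at h2
  rw [h2] at hv
  exact lt_irrefl _ hv

/-- The conditions at the prime numbers greater than `L`. Proof: as `dtG_gl` (`Kf/Dtf.lean`, its private lemmas: copy). -/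
theorem dtN_gln {W : Fin n → WeierstrassCurve ℤ} {L l : ℕ} (hL : 4 ≤ L) (h : DtN L W)
    (hl : l.Prime) (hLl : L < l) [∀ i, (toQ (W i)).IsElliptic] : Gln (fun i => toQ (W i)) l where
  pr := hl
  le := by omega
  ab := fun v hv => by
    obtain ⟨p, hp, hp1, hpn⟩ := exists_p v
    have h1 : p = l := dtnb_pl hp hl hpn hv
    have h2 : p ≠ 2 := by omega
    have hLp : L < p := by omega
    refine ⟨⟨p, hp, hp1⟩, fun i => ⟨dtnb_int v (W i).a₁, dtnb_int v (W i).a₂, dtnb_int v (W i).a₃,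
      dtnb_int v (W i).a₄, dtnb_int v (W i).a₆⟩, fun i => ?_, fun i j hij => ?_, fun h3 => ?_⟩
    · obtain ⟨k, hk, hv⟩ := dtnb_val hp hp1 hpn (h.hi i p hp hLp)
      rw [disc_toQ, hv]
      exact WithZero.exp_le_exp.2 (by omega)
    · rw [disc_toQ, disc_toQ, hpn, hpn]
      by_contra hc
      rw [not_or, not_not, not_not] at hc
      refine h.hh i j hij p hp hLp ?_
      rw [pow_two]
      exact mul_dvd_mul hc.1 hc.2
    · have h4 : v.valuation ℚ ((2 : ℤ) : ℚ) = 1 := by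
        rw [hpn]
        intro h4
        have h5 : p ∣ 2 := by exact_mod_cast h4
        exact h2 ((Nat.prime_dvd_prime_iff_eq hp Nat.prime_two).1 h5)
      rw [show (2 : ℚ) = ((2 : ℤ) : ℚ) by norm_num, h4] at h3
      exact absurd h3 (lt_irrefl _)
  jv := fun v _ i => dtnb_jv hLl fun p hp => h.lo i p hp

/-- **Theorem.** Proof: as `dtG_main` (`Kf/Dtf.lean`). -/
theorem dtN_main {W : Fin n → WeierstrassCurve ℤ} {L : ℕ} (hL : 4 ≤ L) (h : DtN L W) :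
    (∀ m : ℕ, m ≠ 0 → Sf {l | L < l} m → ∀ c : Fam (Vpi fun i => Ev (toQ (W i))), AlbPA c →
      ∃ c' : Fam (Vpi fun i => Ev (toQ (W i))), AlbPA c' ∧ c.cl = m • c'.cl) ∧
    ∀ (z : LHat (FA (Vpi fun i => Ev (toQ (W i))))) (z' : ∀ i, LHat (FA (Ev (toQ (W i))))),
      (∀ i, IsPs i z (z' i)) → (ImDeS {l | L < l} z ↔ ∀ i, ImDeS {l | L < l} (z' i)) := by
  have hE : ∀ i, (toQ (W i)).IsElliptic := fun i => ell_toQ (h.ne i)
  have h1 := main_gn (W := fun i => toQ (W i)) (Λ := {l | l.Prime ∧ L < l})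
    fun l hl => dtN_gln hL h hl.1 hl.2
  have h2 : ∀ m : ℕ, Sf {l | L < l} m → Sf {l | l.Prime ∧ L < l} m := fun m hm l hl hd => ⟨hl, hm l hl hd⟩
  have h3 : ∀ m : ℕ, Sf {l | l.Prime ∧ L < l} m → Sf {l | L < l} m := fun m hm l hl hd => (hm l hl hd).2
  refine ⟨fun m hm hS => h1.1 m hm (h2 m hS), fun z z' hz => ?_⟩
  have h4 := h1.2 z z' hz
  constructor
  · rintro ⟨x, hx⟩ i
    obtain ⟨y, hy⟩ := h4.1 ⟨x, fun m hm => hx m (h3 m hm)⟩ i
    exact ⟨y, fun m hm => hy m (h2 m hm)⟩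
  · intro h5
    obtain ⟨x, hx⟩ := h4.2 fun i => by
      obtain ⟨y, hy⟩ := h5 i
      exact ⟨y, fun m hm => hy m (h3 m hm)⟩
    exact ⟨x, fun m hm => hx m (h2 m hm)⟩

end NE
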