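import Pool.Agent.Lib.MP_f80667_ag.Nf.Ee

/-!
The point of the product of elliptic curves over the function fields of the components of the curve `Θ(z, T) = 0`.
-/

open ZC BE PE Polynomial IntermediateField CV GM

namespace NE

section aux

private theorem gpe_aff {F : Type} [Field F] {W : WeierstrassCurve F} {L : Type} [Field L]
    [Algebra F L] {x x' y y' : L} (hx : x = x') (hy : y = y')
    (h : (W.baseChange L).toAffine.Nonsingular x y)
    (h' : (W.baseChange L).toAffine.Nonsingular x' y') :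
    (Pt.aff x y h : Pt W L) = Pt.aff x' y' h' := by
  subst hx
  subst hy
  rfl

private theorem gpe_map {F : Type} [Field F] {W : WeierstrassCurve F} {L M : Type} [Field L]
    [Field M] [Algebra F L] [Algebra F M] (σ : L →ₐ[F] M) {x y : L}
    (h : (W.baseChange L).toAffine.Nonsingular x y) :
    ∃ h' : (W.baseChange M).toAffine.Nonsingular (σ x) (σ y),
      Pt.map W σ (Pt.aff x y h) = Pt.aff (σ x) (σ y) h' :=
  ⟨(WeierstrassCurve.Affine.baseChange_nonsingular W.toAffine σ.injective x y).mpr h, rfl⟩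

/-- The element of a valuation ring. -/
private theorem gpe_int {L : Type} [Field L] (V : ValuationSubring L) {b f y : L} (hb : b ∈ V)
    (hf : f ∈ V) (h : y ^ 2 + b * y = f) : y ∈ V := by
  by_contra hy
  have h1 : y⁻¹ ∈ V := (V.mem_or_inv_mem y).resolve_left hy
  have h0 : y ≠ 0 := fun h0 => hy (by rw [h0]; exact V.zero_mem)
  apply hy
  have h2 : y = f * y⁻¹ - b := by
    rw [← h]
    field_simp
    ring
  rw [h2]
  exact sub_mem (mul_mem hf h1) hb

/-- The values of polynomials of two variables. -/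
private theorem gpe_ev {k R : Type} [Field k] [CommRing R] (φ : k[X][X] →+* R) (ι : k →+* R)
    (h : ∀ a, φ (C (C a)) = ι a) (A : k[X][X]) : φ A = ev₂ (φ (C X), φ X) (up₂ ι A) := by
  have h1 : φ = (ev₂ (φ (C X), φ X)).comp (up₂ ι) := by
    refine Polynomial.ringHom_ext' (Polynomial.ringHom_ext' (RingHom.ext fun a => ?_) ?_) ?_
    · change φ (C (C a)) = ev₂ (φ (C X), φ X) (up₂ ι (C (C a)))
      rw [h]
      simp [ev₂, up₂]
    · change φ (C X) = ev₂ (φ (C X), φ X) (up₂ ι (C X))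
      simp [ev₂, up₂]
    · change φ X = ev₂ (φ (C X), φ X) (up₂ ι X)
      simp [ev₂, up₂]
  exact RingHom.congr_fun h1 A

private theorem gpe_evC {k R : Type} [Field k] [CommRing R] (φ : k[X][X] →+* R) (ι : k →+* R)
    (h : ∀ a, φ (C (C a)) = ι a) (f : k[X]) : φ (C f) = (f.map ι).eval (φ (C X)) := by
  rw [gpe_ev φ ι h]
  simp [ev₂, up₂]

private theorem gpe_up {F U L : Type} [Field F] [Field U] [Field L] [Algebra F U] [Algebra F L]
    {n : ℕ} (W : Fin n → WeierstrassCurve F) (ι : U →+* L)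
    (hι : ∀ a : F, ι (algebraMap F U a) = algebraMap F L a) (r' : Fin n → U[X])
    (w' : Fin n → U) :
    up₂ ι (Tg (fun i => (W i).baseChange U) r' w') =
      Tg (fun i => (W i).baseChange L) (fun i => (r' i).map ι) (fun i => ι (w' i)) := by
  have h1 : (fun i => ((W i).baseChange U).map ι) = fun i => (W i).baseChange L := by
    funext i
    have h2 : ι.comp (algebraMap F U) = algebraMap F L := RingHom.ext hι
    rw [WeierstrassCurve.baseChange, WeierstrassCurve.baseChange, WeierstrassCurve.map_map, h2]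
  rw [tg_map, h1]

/-- The values of `Θ`. -/
private theorem gpe_th {F U L : Type} [Field F] [Field U] [Field L] [Algebra F U] [Algebra F L]
    {n : ℕ} (W : Fin n → WeierstrassCurve F) (φ : U[X][X] →+* L) (ι : U →+* L)
    (h : ∀ a, φ (C (C a)) = ι a) (hι : ∀ a : F, ι (algebraMap F U a) = algebraMap F L a)
    (r' : Fin n → U[X]) (w' : Fin n → U) :
    φ (Tg (fun i => (W i).baseChange U) r' w') =
      (Tf (fun i => (W i).baseChange L) (fun i => ι (w' i)) (fun i => φ (C (r' i)))).eval (φ X) ∧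
    φ (dY (Tg (fun i => (W i).baseChange U) r' w')) =
      (derivative (Tf (fun i => (W i).baseChange L) (fun i => ι (w' i))
        (fun i => φ (C (r' i))))).eval (φ X) := by
  have h3 : (fun i => φ (C (r' i))) = fun i => ((r' i).map ι).eval (φ (C X)) :=
    funext fun i => gpe_evC φ ι h (r' i)
  have hdY : ∀ A : U[X][X], up₂ ι (dY A) = dY (up₂ ι A) := by
    intro A
    change (derivative A).map _ = derivative (A.map _)
    rw [derivative_map]
  constructor
  · rw [gpe_ev φ ι h, gpe_up W ι hι, tg_ev, h3]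
  · rw [gpe_ev φ ι h, hdY, gpe_up W ι hι, tg_dY, h3]

/-- The values of a family at a place. -/
private theorem gpe_red {A L Ω : Type} [CommRing A] [Field L] [Field Ω] (V : ValuationSubring L)
    (ρ : V →+* Ω) (φ : A →+* L) (e : A →+* Ω) (h : ∀ a, ∃ h : φ a ∈ V, ρ ⟨φ a, h⟩ = e a) {n : ℕ}
    {w b f : Fin n → A} {T : A} {η : Fin n → L}
    (hη : Rt (fun i => φ (w i)) (fun i => φ (b i)) (fun i => φ (f i)) (φ T) η) :
    ∃ hV : ∀ i, η i ∈ V, Rt (fun i => e (w i)) (fun i => e (b i)) (fun i => e (f i)) (e T)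
      (fun i => ρ ⟨η i, hV i⟩) := by
  have hV : ∀ i, η i ∈ V := fun i => gpe_int V (h (b i)).1 (h (f i)).1 (hη.1 i)
  refine ⟨hV, fun i => ?_, ?_⟩
  · obtain ⟨h1, h2⟩ := h (b i)
    obtain ⟨h3, h4⟩ := h (f i)
    have h5 : (⟨η i, hV i⟩ : V) ^ 2 + ⟨φ (b i), h1⟩ * ⟨η i, hV i⟩ = ⟨φ (f i), h3⟩ :=
      Subtype.ext (hη.1 i)
    have h6 := congrArg ρ h5
    rw [map_add, map_pow, map_mul, h2, h4] at h6
    exact h6
  · obtain ⟨h3, h4⟩ := h T
    have h5 : ∑ i, (⟨φ (w i), (h (w i)).1⟩ : V) * ⟨η i, hV i⟩ = ⟨φ T, h3⟩ := by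
      apply V.subtype_injective
      rw [map_sum]
      exact hη.2
    have h6 := congrArg ρ h5
    rw [map_sum, h4] at h6
    rw [← h6]
    refine Finset.sum_congr rfl fun i _ => ?_
    rw [map_mul, (h (w i)).2]

/-- The polynomial `a₁ x + a₃`. -/
private noncomputable def gpb {F U : Type} [Field F] [Field U] [Algebra F U]
    (W : WeierstrassCurve F) (q : U[X]) : U[X][X] :=
  C (C (algebraMap F U W.a₁)) * C q + C (C (algebraMap F U W.a₃))

/-- The polynomial `x³ + a₂ x² + a₄ x + a₆`. -/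
private noncomputable def gpf {F U : Type} [Field F] [Field U] [Algebra F U]
    (W : WeierstrassCurve F) (q : U[X]) : U[X][X] :=
  C q ^ 3 + C (C (algebraMap F U W.a₂)) * C q ^ 2 + C (C (algebraMap F U W.a₄)) * C q +
    C (C (algebraMap F U W.a₆))

private theorem gpb_eq {F U L : Type} [Field F] [Field U] [Field L] [Algebra F U] [Algebra F L]
    (W : WeierstrassCurve F) (φ : U[X][X] →+* L)
    (h : ∀ a : F, φ (C (C (algebraMap F U a))) = algebraMap F L a) (q : U[X]) :
    φ (gpb W q) = (W.baseChange L).a₁ * φ (C q) + (W.baseChange L).a₃ := by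
  rw [gpb, map_add, map_mul, h, h]
  rfl

private theorem gpf_eq {F U L : Type} [Field F] [Field U] [Field L] [Algebra F U] [Algebra F L]
    (W : WeierstrassCurve F) (φ : U[X][X] →+* L)
    (h : ∀ a : F, φ (C (C (algebraMap F U a))) = algebraMap F L a) (q : U[X]) :
    φ (gpf W q) = φ (C q) ^ 3 + (W.baseChange L).a₂ * φ (C q) ^ 2 +
      (W.baseChange L).a₄ * φ (C q) + (W.baseChange L).a₆ := by
  rw [gpf, map_add, map_add, map_add, map_mul, map_mul, map_pow, map_pow, h, h, h]
  rfl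

end aux

variable {F : Type} [Field F] {K Ω : Type} [Field K] [Field Ω] [Algebra K Ω] [Algebra F K]
  [Algebra F Ω] [IsScalarTower F K Ω] [CharZero K] [IsAlgClosure K Ω] {n : ℕ}
  {W : Fin n → WeierstrassCurve F} [∀ i, (W i).IsElliptic]

/-- The hypothesis of `pr_m` for products of elliptic curves. Proof: let `E` be the function field of the component `g₁`, `z`, `T` in `E`.
In the algebraic closure of `E` choose `η i` with `(r i (z), η i)` on `W i` and `∑ w i η i = T` (`root_rt`; `Θ(z, T) = 0` in `E`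
because `g₁ ∣ Θ`: `tg_map`, `tg_ev`). The family is unique: `g₁` has a point `P ∈ Φ` with `Θ_T(P) ≠ 0`, so `g₁ ∤ Θ_T` and
`Θ_T(z, T) ≠ 0` in `E` (`rt_uniq`); so the point is fixed by the automorphisms over `E` (`Rat`). Let `w` be a place with the values
`P = (c, T₀)`: extend it to the algebraic closure (`IsVal`: see `gpm_h`, `Gm/GpK.lean`); the `η i` are integral over the values, their
values `η₀ i` satisfy the equations and `∑ w i η₀ i = T₀`, so they are the coordinates of `pt P` (`rt_uniq`, `Θ_T(P) ≠ 0`). -/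
theorem gpm_E {U : IntermediateField K Ω} {r : Fin n → Polynomial Ω} {w : Fin n → Ω}
    (hr : ∀ i j, (r i).coeff j ∈ U) (hw : ∀ i, w i ∈ U) {Φ : Finset (Ω × Ω)}
    (hΦ : ∀ P ∈ Φ, ev₂ P (To Ω W r w) = 0 ∧ ev₂ P (dY (To Ω W r w)) ≠ 0)
    {pt : Ω × Ω → (Xn W).pt Ω} (hpt : ∀ P ∈ Φ, Pw W r w P (pt P)) :
    Gpm (Xn W) U (To Ω W r w) Φ pt := by
  have hΩ : IsAlgClosed Ω := IsAlgClosure.isAlgClosed K
  -- the polynomials over `U`
  have h0 : ∀ i, ∃ q : U[X], q.map (algebraMap U Ω) = r i := by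
    intro i
    have h1 : r i ∈ lifts (algebraMap U Ω) := by
      rw [lifts_iff_coeff_lifts]
      intro j
      exact ⟨⟨_, hr i j⟩, rfl⟩
    exact (mem_lifts _).1 h1
  choose r' hr' using h0
  obtain ⟨w', hw'⟩ : ∃ w' : Fin n → U, ∀ i, algebraMap U Ω (w' i) = w i :=
    ⟨fun i => ⟨w i, hw i⟩, fun i => rfl⟩
  have hιΩ : ∀ a : F, algebraMap U Ω (algebraMap F U a) = algebraMap F Ω a := fun a => rfl
  obtain ⟨g', hg'⟩ : ∃ g', g' = Tg (fun i => (W i).baseChange U) r' w' := ⟨_, rfl⟩
  have hr'' : (fun i => (r' i).map (algebraMap U Ω)) = r := funext hr'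
  have hw'' : (fun i => algebraMap U Ω (w' i)) = w := funext hw'
  have hup : up₂ (algebraMap U Ω) g' = To Ω W r w := by
    rw [hg', gpe_up W (algebraMap U Ω) hιΩ, hr'', hw'']
  have hdY : up₂ (algebraMap U Ω) (dY g') = dY (To Ω W r w) := by
    rw [← hup]
    change (derivative g').map _ = derivative (g'.map _)
    rw [derivative_map]
  intro g₁ h1 h2 h3 ⟨P₀, hP₀, hg₁⟩
  rw [← hup] at h3
  have h4 : g₁ ∣ g' := dvd_up h1 h3
  intro E _ _ _ _ _ _ _
  let ψ : U[X][X] →+* E := (algebraMap (AdjoinRoot g₁) E).comp (AdjoinRoot.mk g₁)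
  have hψk : ∀ a : U, ψ (C (C a)) = algebraMap U E a := by
    intro a
    change algebraMap (AdjoinRoot g₁) E (algebraMap U (AdjoinRoot g₁) a) = _
    rw [← IsScalarTower.algebraMap_apply U (AdjoinRoot g₁) E]
  have hψ0 : ψ g' = 0 := by
    change algebraMap (AdjoinRoot g₁) E (AdjoinRoot.mk g₁ g') = 0
    rw [AdjoinRoot.mk_eq_zero.2 h4, map_zero]
  have hψ1 : ψ (dY g') ≠ 0 := by
    intro h
    have h5 : AdjoinRoot.mk g₁ (dY g') = 0 :=
      IsFractionRing.injective (AdjoinRoot g₁) E (by rw [map_zero]; exact h)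
    refine (hΦ P₀ hP₀).2 ?_
    rw [← hdY]
    change evk P₀ (dY g') = 0
    rw [← phi_mk hg₁, h5, map_zero]
  let φ : U[X][X] →+* AlgebraicClosure E := (algebraMap E (AlgebraicClosure E)).comp ψ
  let ι : U →+* AlgebraicClosure E := (algebraMap E (AlgebraicClosure E)).comp (algebraMap U E)
  have hφk : ∀ a : U, φ (C (C a)) = ι a := by
    intro a
    change algebraMap E (AlgebraicClosure E) (ψ (C (C a))) = _
    rw [hψk]
    rfl
  have hιF : ∀ a : F, ι (algebraMap F U a) = algebraMap F (AlgebraicClosure E) a := by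
    intro a
    change algebraMap E (AlgebraicClosure E) (algebraMap U E (algebraMap F U a)) = _
    rw [← IsScalarTower.algebraMap_apply F U E, ← IsScalarTower.algebraMap_apply F E]
  have hφF : ∀ a : F, φ (C (C (algebraMap F U a))) = algebraMap F (AlgebraicClosure E) a := by
    intro a
    rw [hφk, hιF]
  have hφ0 : φ g' = 0 := by
    change algebraMap E (AlgebraicClosure E) (ψ g') = 0
    rw [hψ0, map_zero]
  have hφ1 : φ (dY g') ≠ 0 := by
    intro h
    exact hψ1 ((map_eq_zero (algebraMap E (AlgebraicClosure E))).1 h)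
  obtain ⟨e1, e2⟩ := gpe_th W φ ι hφk hιF r' w'
  rw [← hg', hφ0] at e1
  rw [← hg'] at e2
  rw [e2] at hφ1
  obtain ⟨η, hη⟩ := root_rt (k := AlgebraicClosure E) e1.symm
  have hb : ∀ i, φ (gpb (W i) (r' i)) = _ := fun i => gpb_eq (W i) φ hφF (r' i)
  have hf : ∀ i, φ (gpf (W i) (r' i)) = _ := fun i => gpf_eq (W i) φ hφF (r' i)
  have hη' : Rt (fun i => φ (C (C (w' i)))) (fun i => φ (gpb (W i) (r' i)))
      (fun i => φ (gpf (W i) (r' i))) (φ X) η := by
    rw [funext hb, funext hf, funext fun i => hφk (w' i)]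
    exact hη
  have hη1 : ∀ i, fe (W i) (φ (C (r' i))) (η i) = 0 := (rt_fe.1 hη).1
  refine ⟨fun i => Pt.aff (φ (C (r' i))) (η i) (aff_of_fe (hη1 i)), ?_, ?_⟩
  · intro σ
    have hσ : ∀ A, σ (φ A) = φ A := fun A => σ.commutes (ψ A)
    have hR : Rt (fun i => φ (C (C (w' i)))) (fun i => φ (gpb (W i) (r' i)))
        (fun i => φ (gpf (W i) (r' i))) (φ X) (fun i => σ (η i)) := by
      refine ⟨fun i => ?_, ?_⟩
      · have h5 := congrArg σ (hη'.1 i)
        rw [map_add, map_pow, map_mul, hσ, hσ] at h5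
        exact h5
      · have h5 := congrArg σ hη'.2
        rw [map_sum, hσ] at h5
        rw [← h5]
        refine Finset.sum_congr rfl fun i _ => ?_
        rw [map_mul, hσ]
    rw [funext hb, funext hf, funext fun i => hφk (w' i)] at hR
    have h5 := rt_uniq hφ1 hη hR
    funext i
    obtain ⟨h', e⟩ := gpe_map (W := W i)
      (σ.restrictScalars F : AlgebraicClosure E →ₐ[F] AlgebraicClosure E)
      (aff_of_fe (hη1 i))
    change Pt.map (W i) (σ.restrictScalars F : AlgebraicClosure E →ₐ[F] AlgebraicClosure E)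
      (Pt.aff (φ (C (r' i))) (η i) (aff_of_fe (hη1 i))) =
      Pt.aff (φ (C (r' i))) (η i) (aff_of_fe (hη1 i))
    rw [e]
    exact gpe_aff (hσ _) (congrFun h5 i).symm _ _
  · intro P hP v hv
    obtain ⟨V', h5, h6⟩ := exists_above v
    obtain ⟨e, he⟩ : ∃ e : U[X][X] →+* Ω, ∀ A, e A = evk P A :=
      ⟨((evk P : U[X][X] →ₐ[U] Ω) : U[X][X] →+* Ω), fun _ => rfl⟩
    have hV : ∀ A : U[X][X], ∃ h : φ A ∈ V'.V, V'.res ⟨φ A, h⟩ = e A := by
      intro A
      obtain ⟨h7, h8⟩ := hv A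
      refine ⟨(h5 _).2 h7, ?_⟩
      rw [he, ← h8]
      exact h6 _ h7 _
    obtain ⟨hVη, hR⟩ := gpe_red V'.V V'.res φ e hV hη'
    obtain ⟨η₀, h₀, hs, hx⟩ := hpt P hP
    have hc : ∀ a : U, e (C (C a)) = algebraMap U Ω a := by
      intro a
      rw [he]
      exact (evk P : U[X][X] →ₐ[U] Ω).commutes a
    have hcF : ∀ a : F, e (C (C (algebraMap F U a))) = algebraMap F Ω a := fun a => hc _
    have hxe : ∀ i, e (C (r' i)) = (r i).eval P.1 := by
      intro i
      rw [he, evk_Cf, ← hr' i, eval_map_algebraMap]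
    have hb' : ∀ i, e (gpb (W i) (r' i)) = _ := fun i => gpb_eq (W i) e hcF (r' i)
    have hf' : ∀ i, e (gpf (W i) (r' i)) = _ := fun i => gpf_eq (W i) e hcF (r' i)
    have hT : e X = P.2 := (he _).trans (evk_Y P)
    rw [funext hb', funext hf', funext fun i => hc (w' i), hT, hw''] at hR
    simp only [hxe] at hR
    have hR0 := rt_fe.2 ⟨fun i => fe_zero (h₀ i), hs⟩
    have hd := (hΦ P hP).2
    rw [tg_dY] at hd
    have h7 := rt_uniq hd hR hR0
    refine ⟨V', h5, h6, fun i => ?_⟩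
    obtain ⟨h8, h9⟩ := hV (C (r' i))
    rw [hxe] at h9
    have h10 : V'.res ⟨η i, hVη i⟩ = η₀ i := congrFun h7 i
    rw [hx]
    refine Or.inr ⟨h8, hVη i, ?_, ?_⟩
    · rw [h9, h10]
      exact h₀ i
    · exact gpe_aff h9.symm h10.symm _ _

end NE
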