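import Pool.Agent.Lib.MP_f80667_ag.Nf.Df
import Pool.Agent.Lib.MP_f80667_ag.Pe.Tm
import Pool.Agent.Lib.MP_f80667_ag.Pe.Hh
import Pool.Agent.Lib.MP_f80667_ag.Pe.Lift

/-! Smooth points over `Ur ⊥ (N l ^ j)`, `l = 2` or `l = 3`. -/

open ZC BE PE Polynomial IntermediateField CV GM

namespace NE

variable {F : Type} [Field F] {K Ω : Type} [Field K] [Field Ω] [Algebra K Ω] [Algebra F K]
  [Algebra F Ω] [IsScalarTower F K Ω] [CharZero K] [IsAlgClosure K Ω] {L : Ld K Ω} [L.Unr]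

private theorem mva_quad {k : Type} [CommRing k] {f : Polynomial k} (hf : f.Monic)
    (hd : f.natDegree = 2) (z : k) : f.eval z = z ^ 2 + f.coeff 1 * z + f.coeff 0 := by
  have h2 : f.coeff 2 = 1 := by
    rw [← hd]
    exact hf.coeff_natDegree
  rw [eval_eq_sum_range, hd, Finset.sum_range_succ, Finset.sum_range_succ, Finset.sum_range_one,
    h2]
  ring

private theorem mva_cub {k : Type} [CommRing k] {f : Polynomial k} (hf : f.Monic)
    (hd : f.natDegree = 3) (z : k) :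
    f.eval z = z ^ 3 + f.coeff 2 * z ^ 2 + f.coeff 1 * z + f.coeff 0 := by
  have h3 : f.coeff 3 = 1 := by
    rw [← hd]
    exact hf.coeff_natDegree
  rw [eval_eq_sum_range, hd, Finset.sum_range_succ, Finset.sum_range_succ, Finset.sum_range_succ,
    Finset.sum_range_one, h3]
  ring

omit [CharZero K] [IsAlgClosure K Ω] [L.Unr] in
/-- The Frobenius. -/
private theorem mva_phi (N : ℕ) : ∃ φ : L.κ →+* L.κ, ∀ x, φ x = x ^ L.p ^ N := by
  have hch := L.char_κ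
  have hpr : Fact L.p.Prime := ⟨L.pp⟩
  exact ⟨iterateFrobenius L.κ L.p N, fun x => by rw [iterateFrobenius_def]⟩

omit [CharZero K] [IsAlgClosure K Ω] [L.Unr] in
private theorem mva_pow {N : ℕ} {r : L.κ} (h : r ^ L.p ^ N = r) (d : ℕ) :
    r ^ L.p ^ (N * d) = r := by
  rw [pow_mul]
  induction d with
  | zero => rw [pow_zero, pow_one]
  | succ d ih => rw [pow_succ, pow_mul, ih, h]

/-- A residue which is a root of a polynomial of degree `l` over the residues of `Te N` is the residue of a number of `Te (N l)` or there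
is a root in the residues of `Te N`. Here `l = 2`: a monic polynomial of degree `2` with coefficients in the residues of
`Te N`: all roots are residues of `Te (2 N)`. Proof: the Frobenius `x ↦ x ^ (p ^ N)` permutes the two roots. -/
theorem mv_two {N : ℕ} (hN : N ≠ 0) {f : Polynomial L.κ} (hf : f.Monic) (hd : f.natDegree = 2)
    (hc : ∀ i, f.coeff i ^ L.p ^ N = f.coeff i) {z : L.κ} (hz : f.eval z = 0) :
    z ^ L.p ^ (N * 2) = z := by
  obtain ⟨φ, hφ⟩ := mva_phi (L := L) N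
  have hc' : ∀ i, φ (f.coeff i) = f.coeff i := fun i => by rw [hφ, hc]
  have h2 : z ^ L.p ^ (N * 2) = φ (φ z) := by
    rw [hφ, hφ, ← pow_mul, mul_two, pow_add]
  rw [h2]
  rw [mva_quad hf hd] at hz
  have h3 := congrArg φ hz
  simp only [map_add, map_mul, map_pow, map_zero, hc'] at h3
  have h4 : (φ z - z) * (φ z + z + f.coeff 1) = 0 := by linear_combination h3 - hz
  rcases mul_eq_zero.1 h4 with h5 | h5
  · have h6 : φ z = z := sub_eq_zero.1 h5
    rw [h6, h6]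
  · have h6 : φ z = -z - f.coeff 1 := by linear_combination h5
    rw [h6, map_sub, map_neg, h6, hc']
    ring

/-- A monic polynomial of degree `3` with coefficients in the residues of `Te N` has a root in the residues of `Te (3 N)`. Proof:
the Frobenius permutes the roots; if it has no fixed root it is a cyclic permutation of three roots (or all roots are equal,
then it is fixed). -/
theorem mv_three {N : ℕ} (hN : N ≠ 0) {f : Polynomial L.κ} (hf : f.Monic) (hd : f.natDegree = 3)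
    (hc : ∀ i, f.coeff i ^ L.p ^ N = f.coeff i) : ∃ z : L.κ, f.eval z = 0 ∧ z ^ L.p ^ (N * 3) = z := by
  have hac : IsAlgClosed Ω := IsAlgClosure.isAlgClosed K
  have hκ : IsAlgClosed L.κ := L.κ_closed
  obtain ⟨φ, hφ⟩ := mva_phi (L := L) N
  have hc' : ∀ i, φ (f.coeff i) = f.coeff i := fun i => by rw [hφ, hc]
  have h3 : ∀ z : L.κ, z ^ L.p ^ (N * 3) = φ (φ (φ z)) := fun z => by
    rw [hφ, hφ, hφ, ← pow_mul, ← pow_mul, ← pow_add, ← pow_add,
      show N * 3 = N + (N + N) by ring]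
  have hroot : ∀ z : L.κ, f.eval z = 0 → f.eval (φ z) = 0 := by
    intro z hz
    rw [mva_cub hf hd] at hz ⊢
    have h4 := congrArg φ hz
    simpa only [map_add, map_mul, map_pow, map_zero, hc'] using h4
  obtain ⟨z₁, h1⟩ := IsAlgClosed.exists_root f (by
    rw [degree_eq_natDegree hf.ne_zero, hd]
    norm_num)
  by_cases h : φ z₁ = z₁
  · exact ⟨z₁, h1, by rw [h3, h, h, h]⟩
  obtain ⟨z₂, hz₂⟩ : ∃ z₂, z₂ = φ z₁ := ⟨_, rfl⟩
  rw [← hz₂] at h
  have e1 : f.eval z₁ = 0 := h1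
  have e2 : f.eval z₂ = 0 := by
    rw [hz₂]
    exact hroot _ e1
  have e3 : f.eval (φ z₂) = 0 := hroot _ e2
  obtain ⟨z₃, hz₃⟩ : ∃ z₃, z₃ = -f.coeff 2 - z₁ - z₂ := ⟨_, rfl⟩
  rw [mva_cub hf hd] at e1 e2 e3
  have q : z₁ ^ 2 + z₁ * z₂ + z₂ ^ 2 + f.coeff 2 * (z₁ + z₂) + f.coeff 1 = 0 := by
    have h4 : (z₂ - z₁) * (z₁ ^ 2 + z₁ * z₂ + z₂ ^ 2 + f.coeff 2 * (z₁ + z₂) + f.coeff 1) = 0 := by
      linear_combination e2 - e1
    exact (mul_eq_zero.1 h4).resolve_left (sub_ne_zero.2 h)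
  have h4 : (φ z₂ - z₁) * (φ z₂ - z₂) * (φ z₂ - z₃) = 0 := by
    rw [hz₃]
    linear_combination e3 - e1 - (φ z₂ - z₁) * q
  have hφ₃ : φ z₃ = -f.coeff 2 - z₂ - φ z₂ := by
    rw [hz₃, map_sub, map_sub, map_neg, hc', ← hz₂]
  rcases mul_eq_zero.1 h4 with h4 | h4
  · rcases mul_eq_zero.1 h4 with h4 | h4
    · have h5 : φ z₂ = z₁ := sub_eq_zero.1 h4
      have h6 : φ z₃ = z₃ := by
        rw [hφ₃, h5, hz₃]
        ring
      refine ⟨z₃, ?_, by rw [h3, h6, h6, h6]⟩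
      rw [mva_cub hf hd, hz₃]
      linear_combination e1 + (-f.coeff 2 - z₁ - z₂ - z₁) * q
    · have h5 : φ z₂ = φ z₁ := by
        rw [← hz₂]
        exact sub_eq_zero.1 h4
      exact absurd (φ.injective h5) h
  · have h5 : φ z₂ = z₃ := sub_eq_zero.1 h4
    refine ⟨z₁, h1, ?_⟩
    rw [h3, ← hz₂, h5, hφ₃, h5, hz₃]
    ring

omit [Algebra F K] [Algebra F Ω] [IsScalarTower F K Ω] in
/-- Representatives of residues. -/
private theorem mva_lift {m : ℕ} {r : L.κ} (hr : r ^ L.p ^ m = r) :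
    ∃ z ∈ L.Te m, L.rs.Hv z r := by
  obtain ⟨x, hx⟩ := L.hv_surj r
  obtain ⟨N', hN', z, hz, hxz⟩ := Ld.te_rep (L := L) (L.hv_int hx)
  have hzr : L.rs.Hv z r := Ld.lifta_hv hx (by rw [L.sub_comm]; exact hxz)
  refine ⟨z, ?_, hzr⟩
  have h1 : L.rs.Hv (z ^ L.p ^ m) (r ^ L.p ^ m) := hzr.pow _
  have h2 : z ^ L.p ^ m ∈ L.Te N' := by
    change (z ^ L.p ^ m) ^ L.p ^ N' = z ^ L.p ^ m
    rw [← pow_mul, mul_comm, pow_mul, show z ^ L.p ^ N' = z from hz]
  exact Ld.te_inj hN' h2 hz ((L.hv_sub h1 hzr).1 hr)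

/-- The residues of the coefficients. -/
private theorem mva_fix {M : IntermediateField K Ω} {N : ℕ} (hM : L.Rf M N) {a : F}
    (ha : L.nm (algebraMap F Ω a) ≤ 1) :
    L.rr (algebraMap F Ω a) ^ L.p ^ N = L.rr (algebraMap F Ω a) := by
  obtain ⟨z, hz, h⟩ := hM.res _ (Ld.lifta_mem M a) ha
  have h2 : L.rs.Hv z (L.rr (algebraMap F Ω a)) :=
    Ld.lifta_hv (L.hv_rr ha) (by rw [L.sub_comm]; exact h)
  have h3 := h2.pow (L.p ^ N)
  rw [show z ^ L.p ^ N = z from hz] at h3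
  exact h3.uniq h2

private theorem mva_te {m : ℕ} {w : Ω} {r : L.κ} (hw : w ∈ L.Te m) (hr : L.rs.Hv w r) :
    r ^ L.p ^ m = r := by
  have h3 := hr.pow (L.p ^ m)
  rw [show w ^ L.p ^ m = w from hw] at h3
  exact h3.uniq hr

/-- The point from its residues. -/
private theorem mva_fin {W : WeierstrassCurve F} (h : L.It W) {m : ℕ} (hm : m ≠ 0) {r s : L.κ}
    (hr : r ^ L.p ^ m = r) (hs : s ^ L.p ^ m = s)
    (he : s ^ 2 + (L.rc W).a₁ * r * s + (L.rc W).a₃ * s -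
      (r ^ 3 + (L.rc W).a₂ * r ^ 2 + (L.rc W).a₄ * r + (L.rc W).a₆) = 0)
    (hd : 2 * s + (L.rc W).a₁ * r + (L.rc W).a₃ ≠ 0) :
    ∃ x y : Ω, x ∈ L.Ur ⊥ m ∧ y ∈ L.Ur ⊥ m ∧ L.nm x ≤ 1 ∧ L.nm y ≤ 1 ∧
      fe W x y = 0 ∧ L.nm (dy W x y) = 1 := by
  obtain ⟨x₀, hx₀, hxr⟩ := mva_lift hr
  obtain ⟨y₀, hy₀, hys⟩ := mva_lift hs
  have hfd : FiniteDimensional K (L.Ur ⊥ m) := Ld.ur_fin ⊥ m hm
  have h1 : L.nm (fe W x₀ y₀) < 1 := by
    have h2 := Ld.lifta_fe h hxr hys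
    rw [he] at h2
    exact L.hv_zero.1 h2
  have h2 : L.nm (dy W x₀ y₀) = 1 := (L.hv_ne (Ld.lifta_dy h hxr hys)).1 hd
  obtain ⟨x, hx, y, hy, h3, h4, h5⟩ := Ld.lifta_pt h (L.Ur ⊥ m) (Ld.te_ur hx₀) (Ld.te_ur hy₀)
    (L.hv_int hxr) (L.hv_int hys) h1 (Or.inr h2)
  have h6 : L.rs.Hv x r := Ld.lifta_hv hxr h4
  have h7 : L.rs.Hv y s := Ld.lifta_hv hys h5
  exact ⟨x, y, hx, hy, L.hv_int h6, L.hv_int h7, h3, (L.hv_ne (Ld.lifta_dy h h6 h7)).1 hd⟩

/-- The discriminant polynomial over the residue field. -/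
private noncomputable def mvD (E : WeierstrassCurve L.κ) : Polynomial L.κ :=
  (C E.a₁ * X + C E.a₃) ^ 2 + 4 * (X ^ 3 + C E.a₂ * X ^ 2 + C E.a₄ * X + C E.a₆)

private theorem mva_D_eval (E : WeierstrassCurve L.κ) (r : L.κ) : (mvD E).eval r =
    (E.a₁ * r + E.a₃) ^ 2 + 4 * (r ^ 3 + E.a₂ * r ^ 2 + E.a₄ * r + E.a₆) := by
  simp [mvD]

private theorem mva_D {W : WeierstrassCurve F} (h : L.Hd W) : mvD (L.rc W) ≠ 0 := by
  have b₁ := L.hv_rr h.a₁
  have b₃ := L.hv_rr h.a₃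
  have hch := L.char_κ
  by_cases hp : L.p = 2
  · have h4 : (4 : (L.κ)[X]) = 0 := by
      have h5 : ((2 : ℕ) : L.κ) = 0 := by
        have h6 := CharP.cast_eq_zero L.κ L.p
        rwa [hp] at h6
      have h6 : (4 : (L.κ)[X]) = C (((2 : ℕ) : L.κ)) * 2 := by
        rw [Nat.cast_ofNat, map_ofNat]
        norm_num
      rw [h6, h5, map_zero, zero_mul]
    unfold mvD
    rw [h4, zero_mul, add_zero]
    refine pow_ne_zero 2 fun h0 => ?_
    have c1 := congrArg (fun q => Polynomial.coeff q 1) h0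
    have c0 := congrArg (fun q => Polynomial.coeff q 0) h0
    simp only [coeff_add, coeff_C_mul, coeff_X_one, coeff_X_zero, coeff_C_zero, mul_one,
      mul_zero, zero_add, coeff_zero, coeff_C_succ, add_zero] at c1 c0
    rcases Ld.dy_two h hp with h1 | h1
    · exact (L.hv_ne b₁).2 h1 c1
    · exact (L.hv_ne b₃).2 h1 c0
  · have h4 : (4 : L.κ) ≠ 0 := by
      intro h5
      have h6 : ((4 : ℕ) : L.κ) = 0 := by
        rw [Nat.cast_ofNat]
        exact h5
      have h7 := (CharP.cast_eq_zero_iff L.κ L.p 4).1 h6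
      have h8 : L.p ∣ 2 := L.pp.dvd_of_dvd_pow (n := 2) (by norm_num; exact h7)
      exact hp ((Nat.prime_dvd_prime_iff_eq L.pp Nat.prime_two).1 h8)
    have h5 : mvD (L.rc W) =
        (⟨4, (L.rc W).a₁ ^ 2 + 4 * (L.rc W).a₂, 2 * (L.rc W).a₁ * (L.rc W).a₃ +
          4 * (L.rc W).a₄, (L.rc W).a₃ ^ 2 + 4 * (L.rc W).a₆⟩ : Cubic L.κ).toPoly := by
      simp only [mvD, Cubic.toPoly, map_add, map_mul, map_pow, map_ofNat]
      ring
    rw [h5]
    exact Cubic.ne_zero_of_a_ne_zero h4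

/-- The equation for the second coordinate. -/
private noncomputable def mvQ (E : WeierstrassCurve L.κ) (r : L.κ) : Polynomial L.κ :=
  X ^ 2 + C (E.a₁ * r + E.a₃) * X + C (-(r ^ 3 + E.a₂ * r ^ 2 + E.a₄ * r + E.a₆))

private theorem mva_Q_mon (E : WeierstrassCurve L.κ) (r : L.κ) : (mvQ E r).Monic := by
  unfold mvQ
  monicity!

private theorem mva_Q_deg (E : WeierstrassCurve L.κ) (r : L.κ) : (mvQ E r).natDegree = 2 := by
  unfold mvQ
  compute_degree!

private theorem mva_Q_eval (E : WeierstrassCurve L.κ) (r s : L.κ) : (mvQ E r).eval s =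
    s ^ 2 + E.a₁ * r * s + E.a₃ * s - (r ^ 3 + E.a₂ * r ^ 2 + E.a₄ * r + E.a₆) := by
  simp only [mvQ, eval_add, eval_mul, eval_pow, eval_X, eval_C]
  ring

/-- The equation for the first coordinate. -/
private noncomputable def mvR (E : WeierstrassCurve L.κ) (s : L.κ) : Polynomial L.κ :=
  X ^ 3 + C E.a₂ * X ^ 2 + C (E.a₄ - E.a₁ * s) * X + C (E.a₆ - s ^ 2 - E.a₃ * s)

private theorem mva_R_mon (E : WeierstrassCurve L.κ) (s : L.κ) : (mvR E s).Monic := by
  unfold mvR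
  monicity!

private theorem mva_R_deg (E : WeierstrassCurve L.κ) (s : L.κ) : (mvR E s).natDegree = 3 := by
  unfold mvR
  compute_degree!

private theorem mva_R_eval (E : WeierstrassCurve L.κ) (s r : L.κ) : (mvR E s).eval r =
    -(s ^ 2 + E.a₁ * r * s + E.a₃ * s - (r ^ 3 + E.a₂ * r ^ 2 + E.a₄ * r + E.a₆)) := by
  simp only [mvR, eval_add, eval_mul, eval_pow, eval_X, eval_C]
  ring

/-- **A smooth point.** Proof: `l = 2`: `x ∈ Te (N 2 ^ j)` outside the roots of `bk² + 4 fk` (`gab_disc`, private in `Pe/Ga.lean`, copy it;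
`exists_res`), `y` modulo `m` by `mv_two`, lift to `Te`, then `hens` for `T² + B T - F`. `l = 3`: `y ∈ Te (N 3 ^ j)`
outside the residues `s` of the points `(r, s)` of the reduction with `2 s + a₁ r + a₃ = 0` (finitely many `r`: roots of
`bk² + 4 fk`), `x` modulo `m` by `mv_three` for the cubic polynomial in `x`, lift `x` to `Te`, then `hens` for `y`. The residues of
the coefficients of `W` (in `K`) are residues of `Te N` (`Rf`). -/
theorem exists_sm {l : ℕ} (hl : l = 2 ∨ l = 3) {W : WeierstrassCurve F} (h : L.Hd W)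
    {M : IntermediateField K Ω} {N : ℕ} (hM : L.Rf M N) :
    ∃ (j : ℕ) (x y : Ω), x ∈ L.Ur ⊥ (N * l ^ j) ∧ y ∈ L.Ur ⊥ (N * l ^ j) ∧ L.nm x ≤ 1 ∧ L.nm y ≤ 1 ∧
      fe W x y = 0 ∧ L.nm (dy W x y) = 1 := by
  classical
  have hac : IsAlgClosed Ω := IsAlgClosure.isAlgClosed K
  have hκ : IsAlgClosed L.κ := L.κ_closed
  have f₁ : (L.rc W).a₁ ^ L.p ^ N = (L.rc W).a₁ := mva_fix hM h.a₁
  have f₂ : (L.rc W).a₂ ^ L.p ^ N = (L.rc W).a₂ := mva_fix hM h.a₂
  have f₃ : (L.rc W).a₃ ^ L.p ^ N = (L.rc W).a₃ := mva_fix hM h.a₃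
  have f₄ : (L.rc W).a₄ ^ L.p ^ N = (L.rc W).a₄ := mva_fix hM h.a₄
  have f₆ : (L.rc W).a₆ ^ L.p ^ N = (L.rc W).a₆ := mva_fix hM h.a₆
  have hD := mva_D h
  rcases hl with rfl | rfl
  · obtain ⟨j, w, hw, r, hwr, hr⟩ := Ld.exists_res (L := L) (mvD (L.rc W)).roots.toFinset hM.ne
      (one_lt_two : 1 < 2)
    obtain ⟨m, hm⟩ : ∃ m, m = N * 2 ^ j := ⟨_, rfl⟩
    have hm0 : m ≠ 0 := by
      rw [hm]
      exact mul_ne_zero hM.ne (pow_ne_zero _ two_ne_zero)
    rw [← hm] at hw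
    have hrm := mva_te hw hwr
    have hDr : (mvD (L.rc W)).eval r ≠ 0 := fun h0 => hr (by
      rw [Multiset.mem_toFinset, mem_roots hD]
      exact h0)
    obtain ⟨s, hs⟩ := IsAlgClosed.exists_root (mvQ (L.rc W) r) (by
      rw [degree_eq_natDegree (mva_Q_mon _ _).ne_zero, mva_Q_deg]
      norm_num)
    obtain ⟨φ, hφ⟩ := mva_phi (L := L) m
    have g : ∀ {a : L.κ}, a ^ L.p ^ N = a → φ a = a := fun {a} ha => by
      rw [hφ, hm]
      exact mva_pow ha _
    have gr : φ r = r := by rw [hφ, hrm]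
    have hc : ∀ i, (mvQ (L.rc W) r).coeff i ^ L.p ^ m = (mvQ (L.rc W) r).coeff i := by
      intro i
      rw [← hφ, ← Polynomial.coeff_map]
      refine congrArg (fun q => Polynomial.coeff q i) ?_
      simp only [mvQ, Polynomial.map_add, Polynomial.map_mul, Polynomial.map_pow,
        Polynomial.map_neg, Polynomial.map_X, Polynomial.map_C, map_add, map_mul, map_pow,
        map_neg, gr]
      rw [g f₁, g f₂, g f₃, g f₄, g f₆]
    have hs2 := mv_two hm0 (mva_Q_mon _ _) (mva_Q_deg _ _) hc hs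
    have he : (mvQ (L.rc W) r).eval s = 0 := hs
    rw [mva_Q_eval] at he
    obtain ⟨x, y, h1⟩ := mva_fin h.toIt (mul_ne_zero hm0 two_ne_zero) (mva_pow hrm 2) hs2 he
      (fun h0 => hDr (by
        rw [mva_D_eval]
        linear_combination (2 * s + (L.rc W).a₁ * r + (L.rc W).a₃) * h0 - 4 * he))
    refine ⟨j + 1, x, y, ?_⟩
    rw [pow_succ, ← mul_assoc, ← hm]
    exact h1
  · obtain ⟨j, w, hw, s, hws, hs⟩ := Ld.exists_res (L := L)
      ((mvD (L.rc W)).roots.toFinset.biUnion fun r => (mvQ (L.rc W) r).roots.toFinset) hM.ne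
      (by norm_num : 1 < 3)
    obtain ⟨m, hm⟩ : ∃ m, m = N * 3 ^ j := ⟨_, rfl⟩
    have hm0 : m ≠ 0 := by
      rw [hm]
      exact mul_ne_zero hM.ne (pow_ne_zero _ three_ne_zero)
    rw [← hm] at hw
    have hsm := mva_te hw hws
    obtain ⟨φ, hφ⟩ := mva_phi (L := L) m
    have g : ∀ {a : L.κ}, a ^ L.p ^ N = a → φ a = a := fun {a} ha => by
      rw [hφ, hm]
      exact mva_pow ha _
    have gs : φ s = s := by rw [hφ, hsm]
    have hc : ∀ i, (mvR (L.rc W) s).coeff i ^ L.p ^ m = (mvR (L.rc W) s).coeff i := by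
      intro i
      rw [← hφ, ← Polynomial.coeff_map]
      refine congrArg (fun q => Polynomial.coeff q i) ?_
      simp only [mvR, Polynomial.map_add, Polynomial.map_sub, Polynomial.map_mul,
        Polynomial.map_pow, Polynomial.map_X, Polynomial.map_C, map_sub, map_mul, map_pow, gs]
      rw [g f₁, g f₂, g f₃, g f₄, g f₆]
    obtain ⟨r, hr, hr3⟩ := mv_three hm0 (mva_R_mon _ _) (mva_R_deg _ _) hc
    rw [mva_R_eval, neg_eq_zero] at hr
    obtain ⟨x, y, h1⟩ := mva_fin h.toIt (mul_ne_zero hm0 three_ne_zero) hr3 (mva_pow hsm 3) hr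
      (fun h0 => hs (by
        rw [Finset.mem_biUnion]
        refine ⟨r, ?_, ?_⟩
        · rw [Multiset.mem_toFinset, mem_roots hD, IsRoot.def, mva_D_eval]
          linear_combination (2 * s + (L.rc W).a₁ * r + (L.rc W).a₃) * h0 - 4 * hr
        · rw [Multiset.mem_toFinset, mem_roots (mva_Q_mon _ _).ne_zero, IsRoot.def, mva_Q_eval]
          exact hr))
    refine ⟨j + 1, x, y, ?_⟩
    rw [pow_succ, ← mul_assoc, ← hm]
    exact h1

end NE
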