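import Pool.Agent.Lib.MP_f80667_ag.Nf.Df
import Pool.Agent.Lib.MP_f80667_ag.Pe.Tm

/-! The sum over the roots of the minimal polynomial is the norm. -/

open ZC BE PE Polynomial IntermediateField CV GM

namespace NE

variable {F : Type} [Field F] {K Ω : Type} [Field K] [Field Ω] [Algebra K Ω] [Algebra F K]
  [Algebra F Ω] [IsScalarTower F K Ω] [CharZero K] [IsAlgClosure K Ω] {L : Ld K Ω}

open Classical in
/-- The sum over the roots of `m` is the norm. Proof: `Tm.conj`, `Tm.fld`: the roots of `m` correspond to the cosets of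
`(Ur M (N D)).fixingSubgroup` in `(Ur ⊥ (N D)).fixingSubgroup`: `nm_rep`. -/
theorem nm_roots {M : IntermediateField K Ω} [FiniteDimensional K M] {N D e : ℕ} (hN : N ≠ 0)
    (hD : D ≠ 0) (hM : L.Rf M N) {π : Ω} {m : Polynomial Ω} (hm : L.Tm M N 0 π e m) (hπ : π ∈ M)
    {V : Vr F} [Hf V] {f : Ω → V.pt Ω}
    (hf : ∀ γ ∈ (L.Ur ⊥ (N * D)).fixingSubgroup, ∀ z, m.eval z = 0 → V.act γ (f z) = f (γ z)) :
    Nm (L.Ur ⊥ (N * D)) (L.Ur M (N * D)) (Finsupp.single (f π) (1 : ℤ) : V.pt Ω →₀ ℤ) =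
      ∑ z ∈ m.roots.toFinset, Finsupp.single (f z) (1 : ℤ) := by
  have hfd : FiniteDimensional K (L.Ur M (N * D)) := Ld.ur_fin M (N * D) (mul_ne_zero hN hD)
  obtain ⟨s, -, h1, h2, h3⟩ := nm_rep (Ld.ur_mono (L := L)
    (bot_le : (⊥ : IntermediateField K Ω) ≤ M) (N * D))
  have hfix : ∀ γ ∈ (L.Ur (⊥ : IntermediateField K Ω) (N * D)).fixingSubgroup, ∀ x ∈
      L.Ur (⊥ : IntermediateField K Ω) (N * D), γ x = x := fun γ hγ =>
    (IntermediateField.mem_fixingSubgroup_iff _ γ).1 hγ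
  have hroot : ∀ γ ∈ (L.Ur (⊥ : IntermediateField K Ω) (N * D)).fixingSubgroup,
      m.eval (γ π) = 0 := by
    intro γ hγ
    have h4 : ∀ i, γ (m.coeff i) = m.coeff i := fun i =>
      hfix γ hγ _ (Ld.ur_dvd ⊥ (dvd_mul_right N D) (hm.ip i).1)
    have h5 : γ (m.eval π) = m.eval (γ π) := by
      rw [eval_eq_sum_range, eval_eq_sum_range, map_sum]
      exact Finset.sum_congr rfl fun i _ => by rw [map_mul, map_pow, h4]
    rw [← h5, hm.root, map_zero]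
  have hs : ∀ γ ∈ s, (γ • (Finsupp.single (f π) (1 : ℤ) : V.pt Ω →₀ ℤ)) =
      Finsupp.single (f (γ π)) (1 : ℤ) := by
    intro γ hγ
    rw [CV.smul_single, hf γ (h1 γ hγ) π hm.root]
  rw [h3, Finset.sum_congr rfl hs]
  refine Finset.sum_bij (fun γ _ => γ π) ?_ ?_ ?_ ?_
  · intro γ hγ
    rw [Multiset.mem_toFinset, mem_roots hm.monic.ne_zero]
    exact hroot γ (h1 γ hγ)
  · intro γ hγ δ hδ hγδ
    obtain ⟨ε, -, hε⟩ := h2 δ (h1 δ hδ)
    have h6 : γ⁻¹ * δ ∈ (L.Ur M (N * D)).fixingSubgroup := by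
      refine hm.fld D hD _ (mul_mem (inv_mem (h1 γ hγ)) (h1 δ hδ)) ?_
      rw [AlgEquiv.mul_apply, ← hγδ, ← AlgEquiv.mul_apply, inv_mul_cancel]
      rfl
    have h7 : δ⁻¹ * δ ∈ (L.Ur M (N * D)).fixingSubgroup := by
      rw [inv_mul_cancel]
      exact one_mem _
    rw [hε γ ⟨hγ, h6⟩, hε δ ⟨hδ, h7⟩]
  · intro z hz
    rw [Multiset.mem_toFinset, mem_roots hm.monic.ne_zero] at hz
    obtain ⟨γ, hγ, rfl⟩ := hm.conj D hD z hz
    obtain ⟨δ, ⟨hδ, hδγ⟩, -⟩ := h2 γ hγ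
    refine ⟨δ, hδ, ?_⟩
    have h8 : (δ⁻¹ * γ) π = π :=
      (IntermediateField.mem_fixingSubgroup_iff _ _).1 hδγ π (Ld.ur_le hπ)
    have h9 : δ ((δ⁻¹ * γ) π) = γ π := by
      rw [← AlgEquiv.mul_apply, mul_inv_cancel_left]
    rw [h8] at h9
    exact h9
  · intro γ _
    rfl

end NE
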