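import Pool.Agent.Lib.MP_f80667_ag.Nf.Rel
import Pool.Agent.Lib.MP_f80667_ag.Nf.NmA
import Pool.Agent.Lib.MP_f80667_ag.Pe.Tm

/-!
The norm of the point `(x, y)` is rationally equivalent to unramified points.
-/

open ZC BE PE Polynomial IntermediateField CV GM

namespace NE

variable {F : Type} [Field F] {K Ω : Type} [Field K] [Field Ω] [Algebra K Ω] [Algebra F K]
  [Algebra F Ω] [IsScalarTower F K Ω] [CharZero K] [IsAlgClosure K Ω] {L : Ld K Ω} {n : ℕ}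
  {W : Fin n → WeierstrassCurve F} [∀ i, (W i).IsElliptic]

omit [Algebra F K] [Algebra F Ω] [IsScalarTower F K Ω] [CharZero K] [IsAlgClosure K Ω] [Field F] in
private theorem nm_map {U : IntermediateField K Ω} {f : Polynomial Ω} (hf : ∀ j, f.coeff j ∈ U)
    {γ : Ω ≃ₐ[K] Ω} (hγ : γ ∈ U.fixingSubgroup) :
    f.map (γ : Ω →+* Ω) = f := by
  ext j
  rw [coeff_map]
  exact (IntermediateField.mem_fixingSubgroup_iff _ γ).1 hγ _ (hf j)

omit [Algebra F K] [Algebra F Ω] [IsScalarTower F K Ω] [CharZero K] [IsAlgClosure K Ω] [Field F] in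
private theorem nm_ev {U : IntermediateField K Ω} {f : Polynomial Ω} (hf : ∀ j, f.coeff j ∈ U)
    {γ : Ω ≃ₐ[K] Ω} (hγ : γ ∈ U.fixingSubgroup) (z : Ω) : f.eval (γ z) = γ (f.eval z) := by
  have h1 : (f.map (γ : Ω →+* Ω)).eval ((γ : Ω →+* Ω) z) = (γ : Ω →+* Ω) (f.eval z) := by
    rw [eval_map, eval₂_hom]
  rw [nm_map hf hγ] at h1
  exact h1

/-- The point is determined by `P` if `P` is a simple point of the fibre. Proof: `rt_uniq`, `rt_fe`, `tg_dY`. -/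
theorem pw_uniq {r : Fin n → Polynomial Ω} {w : Fin n → Ω} {P : Ω × Ω} {x x' : (Xn W).pt Ω}
    (h : Pw W r w P x) (h' : Pw W r w P x') (hd : ev₂ P (dY (To Ω W r w)) ≠ 0) : x = x' := by
  obtain ⟨η, hn, hs, rfl⟩ := h
  obtain ⟨η', hn', hs', rfl⟩ := h'
  rw [To, tg_dY] at hd
  have h1 := (rt_fe (W := W) (w := w) (x := fun i => (r i).eval P.1) (T := P.2) (η := η)).2
    ⟨fun i => fe_zero (hn i), hs⟩
  have h2 := (rt_fe (W := W) (w := w) (x := fun i => (r i).eval P.1) (T := P.2) (η := η')).2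
    ⟨fun i => fe_zero (hn' i), hs'⟩
  have h3 := rt_uniq hd h1 h2
  funext i
  exact Pt.aff_congr rfl (congrFun h3 i)

/-- The action of the Galois group. -/
theorem pw_act {U : IntermediateField K Ω} {r : Fin n → Polynomial Ω} {w : Fin n → Ω}
    (hr : ∀ i j, (r i).coeff j ∈ U) (hw : ∀ i, w i ∈ U) {P : Ω × Ω} {x : (Xn W).pt Ω}
    (h : Pw W r w P x) {γ : Ω ≃ₐ[K] Ω} (hγ : γ ∈ U.fixingSubgroup) :
    Pw W r w (γ P.1, γ P.2) ((Xn W).act γ x) := by
  obtain ⟨η, hn, hs, rfl⟩ := h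
  have hg : ∀ u ∈ U, γ u = u := (IntermediateField.mem_fixingSubgroup_iff _ γ).1 hγ
  have hx : ∀ i, (r i).eval (γ P.1) = γ ((r i).eval P.1) := fun i => nm_ev (hr i) hγ P.1
  have hn' : ∀ i, ((W i).baseChange Ω).toAffine.Nonsingular ((r i).eval (γ P.1)) (γ (η i)) := by
    intro i
    rw [hx i]
    exact (act_aff γ (hn i)).choose
  refine ⟨fun i => γ (η i), hn', ?_, ?_⟩
  · have h1 := congrArg γ hs
    rw [map_sum] at h1
    rw [← h1]
    refine Finset.sum_congr rfl fun i _ => ?_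
    rw [map_mul, hg _ (hw i)]
  · funext i
    have h1 := (act_aff γ (hn i)).choose_spec
    have h2 : (Xn W).act γ (fun i => (Pt.aff _ _ (hn i) : Pt (W i) Ω)) i =
        γ • (Pt.aff _ _ (hn i) : Pt (W i) Ω) := rfl
    rw [h2, h1]
    exact Pt.aff_congr (hx i).symm rfl

/-- The point is defined over `M` if `P` is. Proof: `pw_uniq`, `pw_act`. -/
theorem pw_fp {M : IntermediateField K Ω} {r : Fin n → Polynomial Ω} {w : Fin n → Ω}
    (hr : ∀ i j, (r i).coeff j ∈ M) (hw : ∀ i, w i ∈ M) {P : Ω × Ω} (h1 : P.1 ∈ M) (h2 : P.2 ∈ M)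
    {x : (Xn W).pt Ω} (h : Pw W r w P x) (hd : ev₂ P (dY (To Ω W r w)) ≠ 0) :
    Fp (Xn W) M x := by
  intro γ hγ
  have hg : ∀ u ∈ M, γ u = u := (IntermediateField.mem_fixingSubgroup_iff _ γ).1 hγ
  have h3 := pw_act hr hw h hγ
  rw [hg _ h1, hg _ h2] at h3
  exact pw_uniq h3 h hd

omit [Algebra F K] [IsScalarTower F K Ω] [CharZero K] [IsAlgClosure K Ω]
  [∀ i, (W i).IsElliptic] in
private theorem nm_tf (γ : Ω ≃ₐ[K] Ω) (w x : Fin n → Ω) (T : Ω) [Algebra F K]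
    [IsScalarTower F K Ω] :
    (Tf (fun i => (W i).baseChange Ω) (fun i => γ (w i)) (fun i => γ (x i))).eval (γ T) =
      γ ((Tf (fun i => (W i).baseChange Ω) w x).eval T) := by
  have h0 : ∀ c : F, (γ : Ω →+* Ω) (algebraMap F Ω c) = algebraMap F Ω c := fun c => by
    change γ (algebraMap F Ω c) = _
    rw [IsScalarTower.algebraMap_apply F K Ω, AlgEquiv.commutes]
  have h1 : (Tf (fun i => (W i).baseChange Ω) w x).map (γ : Ω →+* Ω) =
      Tf (fun i => (W i).baseChange Ω) (fun i => γ (w i)) (fun i => γ (x i)) := by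
    unfold Tf
    rw [th_map]
    simp only [map_add, map_mul, map_pow, WeierstrassCurve.baseChange, WeierstrassCurve.map, h0]
    rfl
  rw [← h1]
  change ((Tf (fun i => (W i).baseChange Ω) w x).map (γ : Ω →+* Ω)).eval ((γ : Ω →+* Ω) T) =
    (γ : Ω →+* Ω) ((Tf (fun i => (W i).baseChange Ω) w x).eval T)
  rw [eval_map, eval₂_hom]

omit [CharZero K] [IsAlgClosure K Ω] [∀ i, (W i).IsElliptic] in
/-- The values of the curve and the action. -/
private theorem nm_to {U : IntermediateField K Ω} {r : Fin n → Polynomial Ω} {w : Fin n → Ω}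
    (hr : ∀ i j, (r i).coeff j ∈ U) (hw : ∀ i, w i ∈ U) {γ : Ω ≃ₐ[K] Ω}
    (hγ : γ ∈ U.fixingSubgroup) (z T : Ω) :
    ev₂ (γ z, γ T) (To Ω W r w) = γ (ev₂ (z, T) (To Ω W r w)) := by
  have hg : ∀ u ∈ U, γ u = u := (IntermediateField.mem_fixingSubgroup_iff _ γ).1 hγ
  rw [To, tg_ev, tg_ev]
  have h2 := nm_tf (W := W) γ w (fun i => (r i).eval z) T
  rw [← h2]
  have h3 : (fun i => γ (w i)) = w := funext fun i => hg _ (hw i)
  have h4 : (fun i => γ ((r i).eval z)) = fun i => (r i).eval (γ z) :=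
    funext fun i => (nm_ev (hr i) hγ z).symm
  rw [h3, h4]

omit [CharZero K] [IsAlgClosure K Ω] in
open Classical in
/-- Sums over stable sets of unramified points. -/
private theorem nm_uk {V : Vr F} [Hf V] {U : IntermediateField K Ω} {ι : Type} {S : Finset ι}
    {f : ι → V.pt Ω} (a : (Ω ≃ₐ[K] Ω) → ι → ι) (ha : ∀ γ, Function.Injective (a γ))
    (hS : ∀ γ ∈ U.fixingSubgroup, ∀ i ∈ S, a γ i ∈ S)
    (hf : ∀ γ ∈ U.fixingSubgroup, ∀ i ∈ S, V.act γ (f i) = f (a γ i))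
    (hN : ∀ i ∈ S, ∃ N : ℕ, N ≠ 0 ∧ Fp V (L.Ur ⊥ N) (f i)) :
    ∑ i ∈ S, Finsupp.single (f i) (1 : ℤ) ∈ Uk L V U := by
  refine ⟨fun γ hγ => ?_, fun x hx => ?_⟩
  · have h1 : S.image (a γ) = S := by
      refine Finset.eq_of_subset_of_card_le ?_ ?_
      · intro y hy
        obtain ⟨i, hi, rfl⟩ := Finset.mem_image.1 hy
        exact hS γ hγ i hi
      · rw [Finset.card_image_of_injective _ (ha γ)]
    rw [Finset.smul_sum]
    calc ∑ i ∈ S, γ • Finsupp.single (f i) (1 : ℤ) =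
        ∑ i ∈ S, Finsupp.single (f (a γ i)) (1 : ℤ) :=
          Finset.sum_congr rfl fun i hi => by rw [smul_single, hf γ hγ i hi]
      _ = ∑ i ∈ S.image (a γ), Finsupp.single (f i) (1 : ℤ) :=
          (Finset.sum_image (f := fun i => (Finsupp.single (f i) (1 : ℤ) : V.pt Ω →₀ ℤ))
            fun i _ j _ h => ha γ h).symm
      _ = ∑ i ∈ S, Finsupp.single (f i) (1 : ℤ) := by rw [h1]
  · obtain ⟨i, hi, hx'⟩ := Finset.mem_biUnion.1 (Finsupp.support_finsetSum hx)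
    have h1 := Finset.mem_singleton.1 (Finsupp.support_single_subset hx')
    rw [h1]
    exact hN i hi

/-- **The norm.** Proof: `rel_sum`; the roots of `m` give the norm (`nm_roots` with `f z = pt (z, A z)`), the other roots and the points
over the roots of `b` are unramified (`Ch.za`, `Ch.zb`, `pw_fp`), the sums are invariant (`pw_act`, `pw_uniq`: the Galois group permutes
the roots). -/
theorem rel_nm {M : IntermediateField K Ω} [FiniteDimensional K M] {N D e : ℕ} (hN : N ≠ 0)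
    (hD : D ≠ 0) (hM : L.Rf M N) {π : Ω} {m : Polynomial Ω} (hm : L.Tm M N 0 π e m) (hπ : π ∈ M)
    {r : Fin n → Polynomial Ω} {w : Fin n → Ω} {A b : Polynomial Ω} {d : ℕ}
    (h : Ch L W (L.Ur ⊥ (N * D)) m r w A b d) {x : (Xn W).pt Ω} (hx : Pw W r w (π, A.eval π) x) :
    Nm (L.Ur ⊥ (N * D)) (L.Ur M (N * D)) (Finsupp.single x (1 : ℤ) : (Xn W).pt Ω →₀ ℤ) ∈
      (Xn W).ratEq (L.Ur ⊥ (N * D)) Ω ⊔ Uk L (Xn W) (L.Ur ⊥ (N * D)) := by
  classical
  set U := L.Ur (⊥ : IntermediateField K Ω) (N * D) with hU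
  obtain ⟨pt, hpt, hrel⟩ := rel_sum h
  have hND : N * D ≠ 0 := mul_ne_zero hN hD
  have hr : ∀ i j, (r i).coeff j ∈ U := fun i j => (h.ri i j).1
  have hA : ∀ j, A.coeff j ∈ U := fun j => (h.Ai j).1
  have hb : ∀ j, b.coeff j ∈ U := fun j => (h.bi j).1
  have hNU : L.Ur (⊥ : IntermediateField K Ω) N ≤ U := Ld.ur_dvd ⊥ (dvd_mul_right N D)
  have hmc : ∀ j, m.coeff j ∈ U := fun j => hNU (hm.ip j).1
  -- the roots of `ν`
  have hν : ∀ z, ((To Ω W r w).eval A).eval z = ev₂ (z, A.eval z) (To Ω W r w) := fun z => by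
    rw [To, tg_evA, tg_ev]
  have hν0 : (To Ω W r w).eval A ≠ 0 := by
    refine (tg_monic (fun i => (W i).baseChange Ω) h.rd w h.Am ?_).ne_zero
    rw [h.Ad]
    omega
  have hνg : ∀ γ ∈ U.fixingSubgroup, ∀ z, ((To Ω W r w).eval A).eval (γ z) =
      γ (((To Ω W r w).eval A).eval z) := fun γ hγ z => by
    rw [hν, hν, nm_ev hA hγ z, nm_to hr h.wi hγ]
  have hev0 : ∀ z, ((To Ω W r w).eval A).eval z = 0 → ev₂ (z, A.eval z) (To Ω W r w) = 0 :=
    fun z hz => by rw [← hν, hz]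
  have hact : ∀ γ ∈ U.fixingSubgroup, ∀ z, ((To Ω W r w).eval A).eval z = 0 →
      (Xn W).act γ (pt (z, A.eval z)) = pt (γ z, A.eval (γ z)) := by
    intro γ hγ z hz
    have h1 := pw_act hr h.wi (hpt _ (hev0 z hz)) hγ
    have hz' : ((To Ω W r w).eval A).eval (γ z) = 0 := by rw [hνg γ hγ, hz, map_zero]
    have h2 := hpt _ (hev0 _ hz')
    rw [nm_ev hA hγ z] at h2
    have h3 := (h.za _ hz').2.1
    rw [nm_ev hA hγ z] at h3
    rw [nm_ev hA hγ z]
    exact pw_uniq h1 h2 h3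
  have hmem : ∀ z, z ∈ ((To Ω W r w).eval A).roots.toFinset ↔
      ((To Ω W r w).eval A).eval z = 0 := fun z => by
    rw [Multiset.mem_toFinset, mem_roots hν0, IsRoot.def]
  have hmm : ∀ z, z ∈ m.roots.toFinset ↔ m.eval z = 0 := fun z => by
    rw [Multiset.mem_toFinset, mem_roots hm.monic.ne_zero, IsRoot.def]
  have hbm : ∀ z, z ∈ b.roots.toFinset ↔ b.eval z = 0 := fun z => by
    rw [Multiset.mem_toFinset, mem_roots h.bm.ne_zero, IsRoot.def]
  have hsub : m.roots.toFinset ⊆ ((To Ω W r w).eval A).roots.toFinset := fun z hz =>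
    (hmem z).2 (h.zm z ((hmm z).1 hz))
  -- the norm
  have hxπ : x = pt (π, A.eval π) := by
    have h1 := h.zm π hm.root
    exact pw_uniq hx (hpt _ (hev0 _ h1)) (h.za π h1).2.1
  have hnm : Nm U (L.Ur M (N * D)) (Finsupp.single x (1 : ℤ) : (Xn W).pt Ω →₀ ℤ) =
      ∑ z ∈ m.roots.toFinset, Finsupp.single (pt (z, A.eval z)) (1 : ℤ) := by
    have h1 := nm_roots hN hD hM hm hπ (V := Xn W) (f := fun z => pt (z, A.eval z))
      (fun γ hγ z hz => hact γ hγ z (h.zm z hz))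
    rw [hxπ]
    exact h1
  -- the other roots of `ν`
  have hfp : ∀ (N₁ : ℕ), N₁ ≠ 0 → ∀ z T, z ∈ L.Ur (⊥ : IntermediateField K Ω) (N₁ * (N * D)) →
      T ∈ L.Ur (⊥ : IntermediateField K Ω) (N₁ * (N * D)) → ev₂ (z, T) (To Ω W r w) = 0 →
      ev₂ (z, T) (dY (To Ω W r w)) ≠ 0 → ∃ N' : ℕ, N' ≠ 0 ∧ Fp (Xn W) (L.Ur ⊥ N') (pt (z, T)) := by
    intro N₁ hN₁ z T hz hT h0 h1
    have hle : U ≤ L.Ur (⊥ : IntermediateField K Ω) (N₁ * (N * D)) :=
      Ld.ur_dvd ⊥ (dvd_mul_left (N * D) N₁)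
    exact ⟨N₁ * (N * D), mul_ne_zero hN₁ hND, pw_fp (fun i j => hle (hr i j))
      (fun i => hle (h.wi i)) hz hT (hpt _ h0) h1⟩
  have hev : ∀ {N₁ : ℕ} {z : Ω}, z ∈ L.Ur (⊥ : IntermediateField K Ω) (N₁ * (N * D)) →
      A.eval z ∈ L.Ur (⊥ : IntermediateField K Ω) (N₁ * (N * D)) := by
    intro N₁ z hz
    have hle : U ≤ L.Ur (⊥ : IntermediateField K Ω) (N₁ * (N * D)) :=
      Ld.ur_dvd ⊥ (dvd_mul_left (N * D) N₁)
    rw [eval_eq_sum_range]
    exact sum_mem fun i _ => mul_mem (hle (hA i)) (pow_mem hz i)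
  have hO : ∑ z ∈ ((To Ω W r w).eval A).roots.toFinset \ m.roots.toFinset,
      Finsupp.single (pt (z, A.eval z)) (1 : ℤ) ∈ Uk L (Xn W) U := by
    refine nm_uk (f := fun z => pt (z, A.eval z)) (fun γ z => γ z) (fun γ => γ.injective)
      (fun γ hγ z hz => ?_) (fun γ hγ z hz => ?_) (fun z hz => ?_)
    · rw [Finset.mem_sdiff, hmem, hmm] at hz ⊢
      refine ⟨by rw [hνg γ hγ, hz.1, map_zero], fun h1 => hz.2 ?_⟩
      rw [nm_ev hmc hγ] at h1
      exact (map_eq_zero_iff γ γ.injective).1 h1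
    · rw [Finset.mem_sdiff, hmem] at hz
      exact hact γ hγ z hz.1
    · rw [Finset.mem_sdiff, hmem, hmm] at hz
      obtain ⟨h1, h2, h3⟩ := h.za z hz.1
      obtain ⟨N₁, hN₁, hz₁⟩ := h3.resolve_left hz.2
      have hz₂ := Ld.ur_dvd (L := L) ⊥ (dvd_mul_right N₁ (N * D)) hz₁
      exact hfp N₁ hN₁ z _ hz₂ (hev hz₂) (hev0 z hz.1) h2
  -- the points over the roots of `b`
  have hB : ∑ z ∈ b.roots.toFinset, ∑ T ∈ ((To Ω W r w).map (evalRingHom z)).roots.toFinset,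
      Finsupp.single (pt (z, T)) (1 : ℤ) ∈ Uk L (Xn W) U := by
    have hTm : ∀ z T, T ∈ ((To Ω W r w).map (evalRingHom z)).roots.toFinset ↔
        ev₂ (z, T) (To Ω W r w) = 0 := by
      intro z T
      have h1 : ((To Ω W r w).map (evalRingHom z)).Monic := by
        rw [To, tg_fib]
        exact (th_monic _ _ _).1
      rw [Multiset.mem_toFinset, mem_roots h1.ne_zero, IsRoot.def, To, tg_fib, tg_ev]
    rw [Finset.sum_sigma']
    refine nm_uk (f := fun q : (_ : Ω) × Ω => pt (q.1, q.2)) (fun γ q => ⟨γ q.1, γ q.2⟩)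
      (fun γ q q' hq => ?_) (fun γ hγ q hq => ?_) (fun γ hγ q hq => ?_) (fun q hq => ?_)
    · obtain ⟨z, T⟩ := q
      obtain ⟨z', T'⟩ := q'
      simp only [Sigma.mk.injEq, heq_eq_eq, EmbeddingLike.apply_eq_iff_eq] at hq
      obtain ⟨rfl, rfl⟩ := hq
      rfl
    · rw [Finset.mem_sigma, hbm, hTm] at hq ⊢
      refine ⟨?_, ?_⟩
      · change b.eval (γ q.1) = 0
        rw [nm_ev hb hγ, hq.1, map_zero]
      · change ev₂ (γ q.1, γ q.2) (To Ω W r w) = 0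
        rw [nm_to hr h.wi hγ, hq.2, map_zero]
    · rw [Finset.mem_sigma, hbm, hTm] at hq
      have h1 := pw_act hr h.wi (hpt _ hq.2) hγ
      have hb' : b.eval (γ q.1) = 0 := by rw [nm_ev hb hγ, hq.1, map_zero]
      have h0 : ev₂ (γ q.1, γ q.2) (To Ω W r w) = 0 := by
        rw [nm_to hr h.wi hγ, hq.2, map_zero]
      exact pw_uniq h1 (hpt _ h0) ((h.zb _ hb').2.2 _ h0).1
    · rw [Finset.mem_sigma, hbm, hTm] at hq
      obtain ⟨h1, ⟨N₁, hN₁, hz₁⟩, h3⟩ := h.zb q.1 hq.1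
      obtain ⟨h4, N₂, hN₂, hT₂⟩ := h3 q.2 hq.2
      have hz : q.1 ∈ L.Ur (⊥ : IntermediateField K Ω) (N₁ * N₂ * (N * D)) :=
        Ld.ur_dvd (L := L) ⊥ ((dvd_mul_right N₁ N₂).mul_right _) hz₁
      have hT : q.2 ∈ L.Ur (⊥ : IntermediateField K Ω) (N₁ * N₂ * (N * D)) :=
        Ld.ur_dvd (L := L) ⊥ ((dvd_mul_left N₂ N₁).mul_right _) hT₂
      exact hfp (N₁ * N₂) (mul_ne_zero hN₁ hN₂) _ _ hz hT hq.2 h4
  rw [hnm]
  have hsplit := Finset.sum_sdiff (f := fun z => (Finsupp.single (pt (z, A.eval z)) (1 : ℤ) :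
    (Xn W).pt Ω →₀ ℤ)) hsub
  have key : ∑ z ∈ m.roots.toFinset, Finsupp.single (pt (z, A.eval z)) (1 : ℤ) =
      (∑ z ∈ ((To Ω W r w).eval A).roots.toFinset, Finsupp.single (pt (z, A.eval z)) (1 : ℤ) -
        ∑ z ∈ b.roots.toFinset, ∑ T ∈ ((To Ω W r w).map (evalRingHom z)).roots.toFinset,
          Finsupp.single (pt (z, T)) (1 : ℤ)) +
      (∑ z ∈ b.roots.toFinset, ∑ T ∈ ((To Ω W r w).map (evalRingHom z)).roots.toFinset,
          Finsupp.single (pt (z, T)) (1 : ℤ) -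
        ∑ z ∈ ((To Ω W r w).eval A).roots.toFinset \ m.roots.toFinset,
          Finsupp.single (pt (z, A.eval z)) (1 : ℤ)) := by
    rw [← hsplit]
    abel
  rw [key]
  exact AddSubgroup.add_mem_sup hrel (sub_mem hB hO)

end NE
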