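import Pool.Agent.Lib.MP_f80667_ag.Gm.GpL

/-! Orders. -/

open Polynomial GM

namespace NE

variable {Ω : Type} [Field Ω]

/-- The substitution `z = c + t` in the polynomials in `z`. -/
private noncomputable def relA_s (c : Ω) : Polynomial Ω →+* PowerSeries Ω :=
  eval₂RingHom (PowerSeries.C (R := Ω)) (PowerSeries.C c + PowerSeries.X)

private theorem relA_s_eq (c : Ω) (b : Polynomial Ω) :
    relA_s c b = ((taylor c b : Polynomial Ω) : PowerSeries Ω) := by
  have key : relA_s c = (coeToPowerSeries.ringHom (R := Ω)).comp (compRingHom (X + C c)) := by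
    refine Polynomial.ringHom_ext (fun a => ?_) ?_
    · simp [relA_s, Polynomial.coeToPowerSeries.ringHom]
    · simp [relA_s, Polynomial.coeToPowerSeries.ringHom, add_comm]
  have h := congrArg (fun φ => φ b) key
  simpa [taylor_apply, Polynomial.coeToPowerSeries.ringHom] using h

private theorem relA_pse (c : Ω) (W : PowerSeries Ω) (A : Polynomial (Polynomial Ω)) :
    pse c W A = (A.map (relA_s c)).eval W := by
  rw [eval_map]
  rfl

/-- The order of `b(c + t)` at a simple zero `c` of `b`. -/
private theorem relA_ord {b : Polynomial Ω} {c : Ω} (h0 : b.eval c = 0)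
    (h1 : (derivative b).eval c ≠ 0) : (relA_s c b).order = 1 := by
  rw [relA_s_eq]
  refine PowerSeries.order_eq_nat.2 ⟨?_, ?_⟩
  · rw [Polynomial.coeff_coe, taylor_coeff_one]
    exact h1
  · intro i hi
    have h2 : i = 0 := by omega
    rw [h2, Polynomial.coeff_coe, taylor_coeff_zero]
    exact h0

private theorem relA_zero {φ : PowerSeries Ω} (h : PowerSeries.constantCoeff φ ≠ 0) : φ.order = 0 := by
  by_contra h2
  exact h (PowerSeries.order_ne_zero_iff_constCoeff_eq_zero.1 h2)

/-- The order of `A - T` at a simple zero of `Θ(z, A)`. Proof: `Θ(c + t, W) = 0` for the Hensel root `W`;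
`Θ(c + t, A(c + t)) = (A(c + t) - W) u`, the constant coefficient of `u` is `Θ_T(P) ≠ 0` (`Polynomial.evalSubFactor`,
`Polynomial.binomExpansion`), the left side has order `1`. -/
theorem odp_A {g : Polynomial (Polynomial Ω)} {A : Polynomial Ω} {c : Ω} (h0 : (g.eval A).eval c = 0)
    (h1 : (derivative (g.eval A)).eval c ≠ 0) (h2 : ev₂ (c, A.eval c) (dY g) ≠ 0) :
    odp g (c, A.eval c) (C A - X) = 1 := by
  have hev : ∀ B : Polynomial (Polynomial Ω), ev₂ (c, A.eval c) B = (B.eval A).eval c := by
    intro B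
    have key : ev₂ (c, A.eval c) = (evalRingHom c).comp (evalRingHom A) := by
      refine Polynomial.ringHom_ext' (Polynomial.ringHom_ext' (RingHom.ext fun a => ?_) ?_) ?_
      · simp [ev₂]
      · simp [ev₂]
      · simp [ev₂]
    exact congrArg (fun φ => φ B) key
  have hg : ev₂ (c, A.eval c) g = 0 := by rw [hev, h0]
  have hr := hrt_hr hg (isUnit_iff_ne_zero.2 h2)
  obtain ⟨W, hW⟩ : ∃ W, W = hrt g (c, A.eval c) := ⟨_, rfl⟩
  rw [← hW] at hr
  have hc : PowerSeries.constantCoeff W = A.eval c := hr.1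
  have hz : (g.map (relA_s c)).eval W = 0 := by
    rw [← relA_pse]
    exact hr.2
  have hα : (g.map (relA_s c)).eval (relA_s c A) = relA_s c (g.eval A) := by
    rw [eval_map, eval₂_hom]
  obtain ⟨r, hr2⟩ := (g.map (relA_s c)).binomExpansion W (relA_s c A - W)
  rw [add_sub_cancel, hα, hz, zero_add] at hr2
  have hcA : PowerSeries.constantCoeff (relA_s c A) = A.eval c := by
    rw [relA_s_eq, ← PowerSeries.coeff_zero_eq_constantCoeff_apply, Polynomial.coeff_coe,
      taylor_coeff_zero]
  have hcd : PowerSeries.constantCoeff ((g.map (relA_s c)).derivative.eval W) =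
      ev₂ (c, A.eval c) (dY g) := by
    rw [derivative_map, ← relA_pse]
    exact cst_pse (c, A.eval c) hc _
  have hfac : relA_s c (g.eval A) =
      (relA_s c A - W) * ((g.map (relA_s c)).derivative.eval W + r * (relA_s c A - W)) := by
    rw [hr2]
    ring
  have hu : ((g.map (relA_s c)).derivative.eval W + r * (relA_s c A - W)).order = 0 := by
    refine relA_zero ?_
    rw [map_add, map_mul, map_sub, hcA, hc, sub_self, mul_zero, add_zero, hcd]
    exact h2
  have ho := relA_ord h0 h1
  rw [hfac, PowerSeries.order_mul, hu, add_zero] at ho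
  unfold odp
  rw [← hW, map_sub, pse_Y]
  have e : pse c W (C A) = relA_s c A := by
    rw [relA_pse, map_C, eval_C]
  rw [e, ho]
  rfl

/-- The order of a polynomial in `z` at a simple zero. -/
theorem odp_b {g : Polynomial (Polynomial Ω)} {b : Polynomial Ω} {P : Ω × Ω} (h0 : b.eval P.1 = 0)
    (h1 : (derivative b).eval P.1 ≠ 0) (hg : ev₂ P g = 0) (h2 : ev₂ P (dY g) ≠ 0) :
    odp g P (C b) = 1 := by
  unfold odp
  rw [relA_pse, map_C, eval_C, relA_ord h0 h1]
  rfl

/-- The order at a point which is not a zero. -/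
theorem odp_zero {g A : Polynomial (Polynomial Ω)} {P : Ω × Ω} (h0 : ev₂ P A ≠ 0) (hg : ev₂ P g = 0)
    (h2 : ev₂ P (dY g) ≠ 0) : odp g P A = 0 := by
  have hr := hrt_hr hg (isUnit_iff_ne_zero.2 h2)
  have h3 : PowerSeries.constantCoeff (pse P.1 (hrt g P) A) ≠ 0 := by
    rw [cst_pse P hr.1]
    exact h0
  unfold odp
  rw [relA_zero h3]
  rfl

end NE
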