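import Pool.Agent.Lib.MP_f80667_ag.Nf.Gpe
import Pool.Agent.Lib.MP_f80667_ag.Nf.RelA

/-!
The relation given by the function `(A - T) / b` on the curve `Θ(z, T) = 0`.
-/

open ZC BE PE Polynomial IntermediateField CV GM

namespace NE

section aux

variable {k : Type} [Field k]

private theorem rel_deg {A : k[X]} {D : ℕ} (hA : A.Monic) (hD : A.natDegree = D) (h0 : 0 < D) :
    (A - X ^ D).natDegree < D := by
  by_cases h : A - X ^ D = 0
  · rw [h, natDegree_zero]
    exact h0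
  · rw [natDegree_lt_iff_degree_lt h]
    have h1 : A.degree = (X ^ D : k[X]).degree := by
      rw [degree_X_pow, degree_eq_natDegree hA.ne_zero, hD]
    have h2 := degree_sub_lt_left h1 hA.ne_zero (by rw [hA.leadingCoeff, leadingCoeff_X_pow])
    rwa [h1, degree_X_pow] at h2

private theorem rel_utx {A : k[X]} {d : ℕ} (hA : A.Monic) (hD : A.natDegree = 2 * d + 1) :
    Ut (2 * d) (2 * d + 1) (C A - X : k[X][X]) := by
  have h1 := rel_deg hA hD (Nat.succ_pos _)
  have e : (C A - X - C (X ^ (2 * d + 1)) : k[X][X]) = C (A - X ^ (2 * d + 1)) - X := by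
    rw [C_sub]
    ring
  unfold Ut
  rw [e]
  intro j hj
  rcases j with - | j
  · rw [coeff_sub, coeff_C_zero, coeff_X_zero, sub_zero, Nat.zero_mul, Nat.add_zero]
    exact h1
  rcases j with - | j
  · rw [coeff_sub, coeff_C_succ, coeff_X_one, zero_sub, natDegree_neg, natDegree_one]
    omega
  · exact absurd (by rw [coeff_sub, coeff_C_succ, coeff_X, if_neg (by omega), sub_zero]) hj

private theorem rel_uty {b : k[X]} {d : ℕ} (hb : b.Monic) (hD : b.natDegree = 2 * d + 1) :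
    Ut (2 * d) (2 * d + 1) (C b : k[X][X]) := by
  have h1 := rel_deg hb hD (Nat.succ_pos _)
  have e : (C b - C (X ^ (2 * d + 1)) : k[X][X]) = C (b - X ^ (2 * d + 1)) := by
    rw [C_sub]
  unfold Ut
  rw [e]
  intro j hj
  rcases j with - | j
  · rw [coeff_C_zero, Nat.zero_mul, Nat.add_zero]
    exact h1
  · exact absurd coeff_C_succ hj

private theorem rel_evx (A : k[X]) (P : k × k) : ev₂ P (C A - X) = A.eval P.1 - P.2 := by
  simp [ev₂]

private theorem rel_evy (b : k[X]) (P : k × k) : ev₂ P (C b) = b.eval P.1 := by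
  simp [ev₂]

open Classical in
/-- The sum over the points. -/
private theorem rel_fin {α : Type} {A : k[X]} {TT : k → Finset k} (Z₁ Z₂ : Finset k)
    (f : k × k → α) (ox oy : k × k → ℕ)
    (hx : ∀ P : k × k, (P.1 ∈ Z₁ ∧ P.2 = A.eval P.1) ∨ (P.1 ∈ Z₂ ∧ P.2 ∈ TT P.1) →
      ox P = if P.1 ∈ Z₁ ∧ P.2 = A.eval P.1 then 1 else 0)
    (hy : ∀ P : k × k, (P.1 ∈ Z₁ ∧ P.2 = A.eval P.1) ∨ (P.1 ∈ Z₂ ∧ P.2 ∈ TT P.1) →
      oy P = if P.1 ∈ Z₂ ∧ P.2 ∈ TT P.1 then 1 else 0) :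
    ∃ Φ : Finset (k × k), (∀ P, P ∈ Φ ↔
      (P.1 ∈ Z₁ ∧ P.2 = A.eval P.1) ∨ (P.1 ∈ Z₂ ∧ P.2 ∈ TT P.1)) ∧
      ∑ P ∈ Φ, Finsupp.single (f P) ((ox P : ℤ) - oy P) =
        ∑ z ∈ Z₁, Finsupp.single (f (z, A.eval z)) (1 : ℤ) -
          ∑ z ∈ Z₂, ∑ T ∈ TT z, Finsupp.single (f (z, T)) (1 : ℤ) := by
  have m1 : ∀ P : k × k, P ∈ Z₁.image (fun z => (z, A.eval z)) ↔ P.1 ∈ Z₁ ∧ P.2 = A.eval P.1 := by
    rintro ⟨z, T⟩
    rw [Finset.mem_image]
    constructor
    · rintro ⟨z', hz', h⟩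
      obtain ⟨rfl, rfl⟩ := Prod.mk.inj h
      exact ⟨hz', rfl⟩
    · rintro ⟨h1, h2⟩
      exact ⟨z, h1, Prod.ext rfl h2.symm⟩
  have m2 : ∀ P : k × k, P ∈ Z₂.biUnion (fun z => (TT z).image fun T => (z, T)) ↔
      P.1 ∈ Z₂ ∧ P.2 ∈ TT P.1 := by
    rintro ⟨z, T⟩
    rw [Finset.mem_biUnion]
    constructor
    · rintro ⟨z', hz', h⟩
      rw [Finset.mem_image] at h
      obtain ⟨T', hT', h⟩ := h
      obtain ⟨rfl, rfl⟩ := Prod.mk.inj h
      exact ⟨hz', hT'⟩
    · rintro ⟨h1, h2⟩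
      exact ⟨z, h1, Finset.mem_image.2 ⟨T, h2, rfl⟩⟩
  refine ⟨Z₁.image (fun z => (z, A.eval z)) ∪ Z₂.biUnion (fun z => (TT z).image fun T => (z, T)),
    fun P => ?_, ?_⟩
  · rw [Finset.mem_union, m1, m2]
  · have e1 : ∑ P ∈ Z₁.image (fun z => (z, A.eval z)) ∪
        Z₂.biUnion (fun z => (TT z).image fun T => (z, T)), Finsupp.single (f P) ((ox P : ℤ)) =
        ∑ z ∈ Z₁, Finsupp.single (f (z, A.eval z)) (1 : ℤ) := by
      rw [← Finset.sum_image (g := fun z => (z, A.eval z))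
        (f := fun P => Finsupp.single (f P) (1 : ℤ)) (fun a _ b _ h => (Prod.mk.inj h).1)]
      symm
      refine Finset.sum_subset_zero_on_sdiff Finset.subset_union_left (fun P hP => ?_)
        (fun P hP => ?_)
      · rw [Finset.mem_sdiff, Finset.mem_union, m1, m2] at hP
        rw [hx P hP.1, if_neg hP.2]
        simp
      · have h1 := (m1 P).1 hP
        rw [hx P (Or.inl h1), if_pos h1]
        simp
    have e2 : ∑ P ∈ Z₁.image (fun z => (z, A.eval z)) ∪
        Z₂.biUnion (fun z => (TT z).image fun T => (z, T)), Finsupp.single (f P) ((oy P : ℤ)) =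
        ∑ z ∈ Z₂, ∑ T ∈ TT z, Finsupp.single (f (z, T)) (1 : ℤ) := by
      have e3 : ∑ z ∈ Z₂, ∑ T ∈ TT z, Finsupp.single (f (z, T)) (1 : ℤ) =
          ∑ P ∈ Z₂.biUnion (fun z => (TT z).image fun T => (z, T)),
            Finsupp.single (f P) (1 : ℤ) := by
        rw [Finset.sum_biUnion]
        · refine Finset.sum_congr rfl fun z _ => ?_
          rw [Finset.sum_image fun a _ b _ h => (Prod.mk.inj h).2]
        · intro z _ z' _ hz
          rw [Function.onFun, Finset.disjoint_left]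
          intro P h1 h2
          rw [Finset.mem_image] at h1 h2
          obtain ⟨T, -, rfl⟩ := h1
          obtain ⟨T', -, h⟩ := h2
          exact hz (Prod.mk.inj h).1.symm
      rw [e3]
      symm
      refine Finset.sum_subset_zero_on_sdiff Finset.subset_union_right (fun P hP => ?_)
        (fun P hP => ?_)
      · rw [Finset.mem_sdiff, Finset.mem_union, m1, m2] at hP
        rw [hy P hP.1, if_neg hP.2]
        simp
      · have h1 := (m2 P).1 hP
        rw [hy P (Or.inr h1), if_pos h1]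
        simp
    rw [← e1, ← e2, ← Finset.sum_sub_distrib]
    refine Finset.sum_congr rfl fun P _ => ?_
    rw [Finsupp.single_sub]

end aux

variable {F : Type} [Field F] {K Ω : Type} [Field K] [Field Ω] [Algebra K Ω] [Algebra F K]
  [Algebra F Ω] [IsScalarTower F K Ω] [CharZero K] [IsAlgClosure K Ω] {L : Ld K Ω} {n : ℕ}
  {W : Fin n → WeierstrassCurve F} [∀ i, (W i).IsElliptic]

open Classical in
/-- **The relation.** Proof: `pr_m` (`Gm/GpL.lean`) for `g = Θ`, `x = C A - X`, `y = C b`, `ρ = 2 d`, `D = 2 d + 1` (`tg_mc`, `tg_rm`),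
`Φ` the set of the points with `x = 0` or `y = 0` (a common zero of `A - T` and `b` has both orders `1`), `gpm_E`, `odp_A`, `odp_b`,
`odp_zero`. The points exist: `root_rt`, `aff_of_fe`. -/
theorem rel_sum {U : IntermediateField K Ω} {m : Polynomial Ω} {r : Fin n → Polynomial Ω}
    {w : Fin n → Ω} {A b : Polynomial Ω} {d : ℕ} (h : Ch L W U m r w A b d) :
    ∃ pt : Ω × Ω → (Xn W).pt Ω, (∀ P, ev₂ P (To Ω W r w) = 0 → Pw W r w P (pt P)) ∧
      ∑ z ∈ ((To Ω W r w).eval A).roots.toFinset, Finsupp.single (pt (z, A.eval z)) (1 : ℤ) -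
        ∑ z ∈ b.roots.toFinset, ∑ T ∈ ((To Ω W r w).map (evalRingHom z)).roots.toFinset,
          Finsupp.single (pt (z, T)) (1 : ℤ) ∈ (Xn W).ratEq U Ω := by
  have hΩ : IsAlgClosed Ω := IsAlgClosure.isAlgClosed K
  -- the points
  have hex : ∀ P : Ω × Ω, ∃ x : (Xn W).pt Ω, ev₂ P (To Ω W r w) = 0 → Pw W r w P x := by
    intro P
    by_cases h0 : ev₂ P (To Ω W r w) = 0
    · have h1 := h0
      rw [tg_ev] at h1
      obtain ⟨η, hη⟩ := root_rt h1
      obtain ⟨h2, h3⟩ := rt_fe.1 hη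
      exact ⟨fun i => Pt.aff _ _ (aff_of_fe (h2 i)), fun _ => ⟨η, fun i => aff_of_fe (h2 i), h3, rfl⟩⟩
    · exact ⟨fun i => (0 : Pt (W i) Ω), fun h1 => absurd h1 h0⟩
  choose pt hpt using hex
  refine ⟨pt, hpt, ?_⟩
  -- the curve
  have hmc := tg_mc (fun i => (W i).baseChange Ω) h.rd w
  have hri : ∀ i j, (r i).coeff j ∈ U := fun i j => (h.ri i j).1
  have hrm : Rm U (To Ω W r w) := tg_rm hri h.wi
  have hν : ((To Ω W r w).eval A).Monic :=
    tg_monic (fun i => (W i).baseChange Ω) h.rd w h.Am (by rw [h.Ad]; omega)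
  have hev : ∀ z, ((To Ω W r w).eval A).eval z = ev₂ (z, A.eval z) (To Ω W r w) := by
    intro z
    rw [tg_evA, tg_ev]
  have r1 : ∀ z, z ∈ ((To Ω W r w).eval A).roots.toFinset ↔
      ((To Ω W r w).eval A).eval z = 0 := by
    intro z
    rw [Multiset.mem_toFinset, mem_roots hν.ne_zero, IsRoot.def]
  have r2 : ∀ z, z ∈ b.roots.toFinset ↔ b.eval z = 0 := by
    intro z
    rw [Multiset.mem_toFinset, mem_roots h.bm.ne_zero, IsRoot.def]
  have r3 : ∀ z T, T ∈ ((To Ω W r w).map (evalRingHom z)).roots.toFinset ↔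
      ev₂ (z, T) (To Ω W r w) = 0 := by
    intro z T
    rw [Multiset.mem_toFinset, mem_roots (hmc.monic.map _).ne_zero, IsRoot.def, tg_ev, tg_fib]
  have key : ∀ P : Ω × Ω, (P.1 ∈ ((To Ω W r w).eval A).roots.toFinset ∧ P.2 = A.eval P.1) ∨
      (P.1 ∈ b.roots.toFinset ∧ P.2 ∈ ((To Ω W r w).map (evalRingHom P.1)).roots.toFinset) →
      ev₂ P (To Ω W r w) = 0 ∧ ev₂ P (dY (To Ω W r w)) ≠ 0 := by
    rintro ⟨z, T⟩ hP
    rcases hP with ⟨h1, h2⟩ | ⟨h1, h2⟩
    · change z ∈ _ at h1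
      change T = A.eval z at h2
      subst h2
      rw [r1] at h1
      exact ⟨(hev z) ▸ h1, (h.za z h1).2.1⟩
    · change z ∈ _ at h1
      change T ∈ _ at h2
      rw [r2] at h1
      rw [r3] at h2
      exact ⟨h2, ((h.zb z h1).2.2 T h2).1⟩
  obtain ⟨Φ, hΦ, hsum⟩ := rel_fin (A := A)
    (TT := fun z => ((To Ω W r w).map (evalRingHom z)).roots.toFinset)
    ((To Ω W r w).eval A).roots.toFinset b.roots.toFinset pt
    (fun P => odp (To Ω W r w) P (C A - X)) (fun P => odp (To Ω W r w) P (C b))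
    (fun P hP => by
      obtain ⟨k1, k2⟩ := key P hP
      obtain ⟨z, T⟩ := P
      change odp (To Ω W r w) (z, T) (C A - X) = if z ∈ _ ∧ T = A.eval z then 1 else 0
      by_cases hT : T = A.eval z
      · subst hT
        rw [← hev] at k1
        rw [if_pos ⟨(r1 z).2 k1, rfl⟩]
        exact odp_A k1 (h.za z k1).1 k2
      · rw [if_neg fun h1 => hT h1.2]
        refine odp_zero ?_ k1 k2
        rw [rel_evx]
        exact fun h1 => hT (sub_eq_zero.1 h1).symm)
    (fun P hP => by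
      obtain ⟨k1, k2⟩ := key P hP
      obtain ⟨z, T⟩ := P
      change odp (To Ω W r w) (z, T) (C b) = if z ∈ _ ∧ T ∈ _ then 1 else 0
      by_cases hT : b.eval z = 0
      · rw [if_pos ⟨(r2 z).2 hT, (r3 z T).2 k1⟩]
        exact odp_b hT (h.zb z hT).1 k1 k2
      · rw [if_neg fun h1 => hT ((r2 z).1 h1.1)]
        refine odp_zero ?_ k1 k2
        rw [rel_evy]
        exact hT)
  rw [← hsum]
  refine pr_m (Xn W) (M := U) hrm (fun i j => ?_) (fun i j => ?_) hmc (rel_utx h.Am h.Ad)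
    (rel_uty h.bm h.bd) (fun P hP => key P ((hΦ P).1 hP)) (fun P h1 h2 => ?_)
    (gpm_E hri h.wi (fun P hP => key P ((hΦ P).1 hP)) fun P hP => hpt P (key P ((hΦ P).1 hP)).1)
  · rw [coeff_sub, coeff_C, coeff_X, coeff_sub]
    refine sub_mem ?_ ?_
    · split_ifs
      · exact (h.Ai j).1
      · rw [coeff_zero]
        exact U.zero_mem
    · split_ifs
      · rw [coeff_one]
        split_ifs
        · exact U.one_mem
        · exact U.zero_mem
      · rw [coeff_zero]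
        exact U.zero_mem
  · rw [coeff_C]
    split_ifs
    · exact (h.bi j).1
    · rw [coeff_zero]
      exact U.zero_mem
  · rw [hΦ]
    rcases h2 with h2 | h2
    · left
      rw [rel_evx, sub_eq_zero] at h2
      refine ⟨(r1 P.1).2 ?_, h2.symm⟩
      rw [hev, h2]
      exact h1
    · right
      rw [rel_evy] at h2
      exact ⟨(r2 P.1).2 h2, (r3 P.1 P.2).2 h1⟩

end NE
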