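import Pool.Agent.Lib.MP_f80667_ag.Pe.Zc

/-!
The formal properties of the symbols with the entries `x i`, `i : ι`, and the calculus of the symbols which are multiples of `l`.
-/

open ZC BE PE Polynomial IntermediateField

namespace NE

/-- The formal properties of the symbols `{x i}_M`: additivity and the projection formula in every entry. -/
structure Sn (ι : Type) [DecidableEq ι] (K Ω : Type) [Field K] [Field Ω] [Algebra K Ω]
    (A : ι → Type) [∀ i, AddCommGroup (A i)] [∀ i, DistribMulAction (Ω ≃ₐ[K] Ω) (A i)]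
    (G : Type) [AddCommGroup G] where
  /-- the symbol -/
  sy : IntermediateField K Ω → (∀ i, A i) → G
  add : ∀ (M : IntermediateField K Ω) [FiniteDimensional K M] (i : ι) (x : ∀ i, A i) (P P' : A i),
    (∀ j, j ≠ i → Fx M (x j)) → Fx M P → Fx M P' →
    sy M (Function.update x i (P + P')) =
      sy M (Function.update x i P) + sy M (Function.update x i P')
  nm : ∀ (M N : IntermediateField K Ω) [FiniteDimensional K N] (i : ι) (x : ∀ i, A i) (P : A i),
    M ≤ N → (∀ j, j ≠ i → Fx M (x j)) → Fx N P →
    sy N (Function.update x i P) = sy M (Function.update x i (Nm M N P))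

namespace Sn

variable {ι : Type} [DecidableEq ι] {K Ω : Type} [Field K] [Field Ω] [Algebra K Ω]
  {A : ι → Type} [∀ i, AddCommGroup (A i)] [∀ i, DistribMulAction (Ω ≃ₐ[K] Ω) (A i)]
  {G : Type} [AddCommGroup G]

section df

variable (S : Sn ι K Ω A G)

/-- The group generated by the symbols. -/
def T : AddSubgroup G :=
  AddSubgroup.closure {g | ∃ (M : IntermediateField K Ω) (x : ∀ i, A i), FiniteDimensional K M ∧
    (∀ i, Fx M (x i)) ∧ g = S.sy M x}

/-- The symbol is a multiple of `l`. -/
def Z (l : ℕ) (M : IntermediateField K Ω) (x : ∀ i, A i) : Prop := ∃ g ∈ S.T, S.sy M x = l • g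

end df

variable [CharZero K] [IsAlgClosure K Ω] {S : Sn ι K Ω A G} {l : ℕ} {M N : IntermediateField K Ω}

private theorem sn_mem (S : Sn ι K Ω A G) (M : IntermediateField K Ω) [FiniteDimensional K M]
    {x : ∀ i, A i} (hx : ∀ i, Fx M (x i)) : S.sy M x ∈ S.T :=
  AddSubgroup.subset_closure ⟨M, x, inferInstance, hx, rfl⟩

private theorem sn_fx {i : ι} {x : ∀ i, A i} {P : A i} (hx : ∀ j, j ≠ i → Fx M (x j))
    (hP : Fx M P) (j : ι) : Fx M (Function.update x i P j) := by
  by_cases h : j = i
  · subst h
    rw [Function.update_self]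
    exact hP
  · rw [Function.update_of_ne h]
    exact hx j h

private theorem sn_zero [FiniteDimensional K M] {i : ι} {x : ∀ i, A i}
    (hx : ∀ j, j ≠ i → Fx M (x j)) : S.sy M (Function.update x i 0) = 0 := by
  have h1 := S.add M i x 0 0 hx Fx.zero Fx.zero
  rw [add_zero] at h1
  exact left_eq_add.1 h1

private theorem sn_nsmul [FiniteDimensional K M] {i : ι} {x : ∀ i, A i} {P : A i}
    (hx : ∀ j, j ≠ i → Fx M (x j)) (hP : Fx M P) (n : ℕ) :
    S.sy M (Function.update x i (n • P)) = n • S.sy M (Function.update x i P) := by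
  induction n with
  | zero =>
    rw [zero_nsmul, zero_nsmul]
    exact sn_zero hx
  | succ n ih => rw [succ_nsmul, S.add M i x _ _ hx (hP.nsmul n) hP, ih, succ_nsmul]

/-- Proof: as `Sc.z_add₁` (`Pe/Zc.lean`). -/
theorem z_add [FiniteDimensional K M] {i : ι} {x : ∀ i, A i} {P P' : A i}
    (hx : ∀ j, j ≠ i → Fx M (x j)) (hP : Fx M P) (hP' : Fx M P')
    (h : S.Z l M (Function.update x i P)) (h' : S.Z l M (Function.update x i P')) :
    S.Z l M (Function.update x i (P + P')) := by
  obtain ⟨g, hg, e⟩ := h
  obtain ⟨g', hg', e'⟩ := h'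
  exact ⟨g + g', S.T.add_mem hg hg', by rw [S.add M i x P P' hx hP hP', e, e', nsmul_add]⟩

theorem z_neg [FiniteDimensional K M] {i : ι} {x : ∀ i, A i} {P : A i}
    (hx : ∀ j, j ≠ i → Fx M (x j)) (hP : Fx M P) (h : S.Z l M (Function.update x i P)) :
    S.Z l M (Function.update x i (-P)) := by
  obtain ⟨g, hg, e⟩ := h
  refine ⟨-g, S.T.neg_mem hg, ?_⟩
  have h1 := S.add M i x (-P) P hx hP.neg hP
  rw [neg_add_cancel, sn_zero hx] at h1
  rw [smul_neg, ← e]
  exact eq_neg_of_add_eq_zero_left h1.symm

/-- Proof: as `Sc.z_mul₁`. -/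
theorem z_mul [FiniteDimensional K M] {i : ι} {x : ∀ i, A i} {P : A i}
    (hx : ∀ j, j ≠ i → Fx M (x j)) (hP : Fx M P) : S.Z l M (Function.update x i (l • P)) :=
  ⟨S.sy M (Function.update x i P), sn_mem S M (sn_fx hx hP), sn_nsmul hx hP l⟩

theorem z_nm (h : M ≤ N) [FiniteDimensional K N] {i : ι} {x : ∀ i, A i} {P : A i}
    (hx : ∀ j, j ≠ i → Fx M (x j)) (hP : Fx N P) :
    S.Z l M (Function.update x i (Nm M N P)) ↔ S.Z l N (Function.update x i P) := by
  unfold Z
  rw [← S.nm M N i x P h hx hP]

/-- Extensions of degree prime to `l`. Proof: as `Sc.z_cop`, for one entry. -/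
theorem z_cop [Nonempty ι] (h : M ≤ N) [FiniteDimensional K N] {x : ∀ i, A i}
    (hx : ∀ j, Fx M (x j)) (hc : (N.fixingSubgroup.relIndex M.fixingSubgroup).Coprime l)
    (hz : S.Z l N x) : S.Z l M x := by
  have hM : FiniteDimensional K M :=
    FiniteDimensional.of_injective (IntermediateField.inclusion h).toLinearMap
      (IntermediateField.inclusion_injective h)
  obtain ⟨i⟩ := (inferInstance : Nonempty ι)
  obtain ⟨g, hg, e⟩ := hz
  set n := N.fixingSubgroup.relIndex M.fixingSubgroup with hn
  have hx' : ∀ j, j ≠ i → Fx M (x j) := fun j _ => hx j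
  have h1 : n • S.sy M x = l • g := by
    have h2 := sn_nsmul (S := S) hx' (hx i) n
    have h3 := S.nm M N i x (x i) h hx' ((hx i).mono h)
    rw [nm_const h (hx i), h2, Function.update_eq_self] at h3
    rw [← h3, e]
  obtain ⟨a, b, hab⟩ := Nat.isCoprime_iff_coprime.2 hc
  refine ⟨a • g + b • S.sy M x,
    S.T.add_mem (S.T.zsmul_mem hg a) (S.T.zsmul_mem (sn_mem S M hx) b), ?_⟩
  have h2 : S.sy M x = (a * (n : ℤ) + b * (l : ℤ)) • S.sy M x := by
    rw [hab, one_zsmul]
  have h3 : (n : ℤ) • S.sy M x = (l : ℤ) • g := by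
    rw [natCast_zsmul, natCast_zsmul, h1]
  calc S.sy M x = (a * (n : ℤ) + b * (l : ℤ)) • S.sy M x := h2
    _ = a • ((n : ℤ) • S.sy M x) + (l : ℤ) • (b • S.sy M x) := by
      rw [add_zsmul, mul_comm b, mul_smul, mul_smul]
    _ = (l : ℤ) • (a • g + b • S.sy M x) := by
      rw [h3, smul_comm a, ← smul_add]
    _ = l • (a • g + b • S.sy M x) := natCast_zsmul _ _

/-- The entries modulo multiples of `l`. Proof: by induction on the set of the entries which are changed (`z_add`, `z_mul`). -/
theorem z_rep [Fintype ι] [FiniteDimensional K M] {q c : ∀ i, A i} (hq : ∀ i, Fx M (q i))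
    (hc : ∀ i, Fx M (c i)) (h : S.Z l M q) : S.Z l M (fun i => q i + l • c i) := by
  have key : ∀ s : Finset ι, S.Z l M (fun i => if i ∈ s then q i + l • c i else q i) := by
    intro s
    induction s using Finset.induction_on with
    | empty =>
      have h1 : (fun i => if i ∈ (∅ : Finset ι) then q i + l • c i else q i) = q := by
        funext i
        rw [if_neg (Finset.notMem_empty i)]
      rw [h1]
      exact h
    | insert a s has ih =>
      obtain ⟨y, hy⟩ : ∃ y : ∀ i, A i, y = fun i => if i ∈ s then q i + l • c i else q i :=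
        ⟨_, rfl⟩
      rw [← hy] at ih
      have hya : y a = q a := by
        rw [hy]
        exact if_neg has
      have hyF : ∀ j, j ≠ a → Fx M (y j) := by
        intro j _
        rw [hy]
        change Fx M (if j ∈ s then q j + l • c j else q j)
        by_cases hj : j ∈ s
        · rw [if_pos hj]
          exact (hq j).add ((hc j).nsmul l)
        · rw [if_neg hj]
          exact hq j
      have h1 : (fun i => if i ∈ insert a s then q i + l • c i else q i) =
          Function.update y a (q a + l • c a) := by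
        funext i
        by_cases hi : i = a
        · subst hi
          rw [if_pos (Finset.mem_insert_self i s), Function.update_self]
        · rw [Function.update_of_ne hi, hy]
          change _ = if i ∈ s then q i + l • c i else q i
          by_cases his : i ∈ s
          · rw [if_pos his, if_pos (Finset.mem_insert_of_mem his)]
          · rw [if_neg his, if_neg fun hc => his ((Finset.mem_insert.1 hc).resolve_left hi)]
      rw [h1]
      refine z_add hyF (hq a) ((hc a).nsmul l) ?_ (z_mul hyF (hc a))
      rw [← hya, Function.update_eq_self]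
      exact ih
  have h1 := key Finset.univ
  have h2 : (fun i => if i ∈ (Finset.univ : Finset ι) then q i + l • c i else q i) =
      fun i => q i + l • c i := by
    funext i
    rw [if_pos (Finset.mem_univ i)]
  rw [h2] at h1
  exact h1

/-- If all symbols are multiples of `l` then all elements of `T` are multiples of `l` in `T`. -/
theorem t_div (h : ∀ (M : IntermediateField K Ω) (x : ∀ i, A i), FiniteDimensional K M →
    (∀ i, Fx M (x i)) → S.Z l M x) : ∀ g ∈ S.T, ∃ g' ∈ S.T, g = l • g' := by
  intro g hg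
  induction hg using AddSubgroup.closure_induction with
  | mem g hg =>
    obtain ⟨M, x, h1, h2, rfl⟩ := hg
    exact h M x h1 h2
  | zero => exact ⟨0, S.T.zero_mem, (smul_zero l).symm⟩
  | add x y _ _ hx hy =>
    obtain ⟨a, ha, rfl⟩ := hx
    obtain ⟨b, hb, rfl⟩ := hy
    exact ⟨a + b, S.T.add_mem ha hb, (nsmul_add a b l).symm⟩
  | neg x _ hx =>
    obtain ⟨a, ha, rfl⟩ := hx
    exact ⟨-a, S.T.neg_mem ha, (smul_neg l a).symm⟩

end Sn

end NE
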