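import Pool.Agent.Lib.MP_f80667_ag.Pe.ElgE

/-!
Two points with singular reduction.
-/

open ZC BE PE Polynomial IntermediateField

namespace NE

variable {F : Type} [Field F] {K Ω : Type} [Field K] [CharZero K] [Field Ω] [Algebra K Ω]
  [Algebra F K] [Algebra F Ω] [IsScalarTower F K Ω] [IsAlgClosure K Ω]

/-- The case of positive signs. -/
private theorem snb_la (L : Ld K Ω) {W₁ W₂ : WeierstrassCurve F} [W₁.IsElliptic] [W₂.IsElliptic]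
    (h₁ : L.Md W₁) (h₂ : L.Md W₂) {l : ℕ} (hl : l.Prime)
    {x₁ y₁ α₁ β₁ x₂ y₂ α₂ β₂ : Ω} (hc₁ : L.Nk W₁ x₁ y₁ α₁ β₁) (hc₂ : L.Nk W₂ x₂ y₂ α₂ β₂)
    (M : IntermediateField K Ω) [FiniteDimensional K M] {P : Pt W₁ Ω} {Q : Pt W₂ Ω}
    {w₁ w₂ : Ω} (hw₁ : w₁ ∈ M) (hw₂ : w₂ ∈ M)
    (hl₁ : L.La W₁ x₁ y₁ α₁ β₁ (L.nm w₁) P) (hl₂ : L.La W₂ x₂ y₂ α₂ β₂ (L.nm w₂) Q) :
    ∃ (N : IntermediateField K Ω) (P' : Pt W₁ Ω) (Q' : Pt W₂ Ω), M ≤ N ∧ FiniteDimensional K N ∧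
      Fx N P' ∧ Fx N Q' ∧ L.Ns (P - Nm M N P') ∧ L.Ns (Q - l • Q') := by
  obtain ⟨π, hπ, p0, p1, hv⟩ := L.unif M inferInstance
  have hlt : ∀ {W : WeierstrassCurve F} {x₀ y₀ α β : Ω} {r : ℝ} {R : Pt W Ω},
      L.La W x₀ y₀ α β r R → r < 1 := by
    rintro W x₀ y₀ α β r R ⟨x, y, hR, h1, h2, h3, h4⟩
    exact h3
  -- the levels
  have hlev : ∀ w ∈ M, 0 < L.nm w → L.nm w < 1 → ∃ i : ℕ, i ≠ 0 ∧ L.nm w = L.nm π ^ i := by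
    intro w hw h0 h1
    obtain ⟨n, hn⟩ := hv w hw (L.ne_zero h0)
    rw [hn] at h1
    have h5 : (0 : ℤ) < n := by
      rw [← zpow_lt_zpow_iff_right_of_lt_one₀ p0 p1, zpow_zero]
      exact h1
    refine ⟨n.toNat, by omega, ?_⟩
    rw [hn, ← zpow_natCast, Int.toNat_of_nonneg h5.le]
  obtain ⟨i, hi, ei⟩ := hlev w₁ hw₁ (Ld.la_pos hc₁.toNc hl₁) (hlt hl₁)
  obtain ⟨j, hj, ej⟩ := hlev w₂ hw₂ (Ld.la_pos hc₂.toNc hl₂) (hlt hl₂)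
  rw [ei] at hl₁
  rw [ej] at hl₂
  obtain ⟨N, w, hMN, hN, hwN, hwl, hdeg⟩ := L.exists_ram M hl.ne_zero hπ p0 p1 hv
  have hw : L.nm w ^ l = L.nm π := by rw [← L.pow, hwl]
  have w0 : 0 < L.nm w := by
    refine lt_of_le_of_ne (L.nonneg w) fun h => ?_
    rw [← h, zero_pow hl.ne_zero] at hw
    exact absurd hw p0.ne
  have w1 : L.nm w < 1 := by
    by_contra h
    have h1 := one_le_pow₀ (not_lt.1 h) (n := l)
    rw [hw] at h1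
    exact absurd p1 (not_lt.2 h1)
  have hwne : w ≠ 0 := L.ne_zero w0
  have hpw : ∀ k : ℕ, L.nm (w ^ k) ^ l = L.nm π ^ k := by
    intro k
    rw [L.pow, ← pow_mul, mul_comm, pow_mul, hw]
  have hle : ∀ k : ℕ, L.nm π ^ k ≤ L.nm (w ^ k) := by
    intro k
    rw [← hpw k]
    refine pow_le_of_le_one (L.nonneg _) ?_ hl.ne_zero
    rw [L.pow]
    exact pow_le_one₀ w0.le w1.le
  have hk1 : ∀ k : ℕ, k ≠ 0 → L.nm (w ^ k) < 1 := by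
    intro k hk
    rw [L.pow]
    exact pow_lt_one₀ w0.le w1 hk
  have hf₁ := Ld.la_half hc₁.toNc hl₁
  have hf₂ := Ld.la_half hc₂.toNc hl₂
  obtain ⟨P', hP', hlP'⟩ := Ld.la_ex h₁ hc₁ N (pow_mem hwN i) (pow_ne_zero i hwne) (hk1 i hi)
    (hf₁.trans (pow_le_pow_left₀ (pow_nonneg p0.le i) (hle i) 2))
  obtain ⟨Q', hQ', hlQ'⟩ := Ld.la_ex h₂ hc₂ N (pow_mem hwN j) (pow_ne_zero j hwne) (hk1 j hj)
    (hf₂.trans (pow_le_pow_left₀ (pow_nonneg p0.le j) (hle j) 2))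
  have hnm := Ld.la_nm h₁ hc₁ hMN hlP' hP' (by rw [hdeg, hpw]; exact hf₁)
  rw [hdeg, hpw] at hnm
  have hns₁ : L.Ns (P - Nm M N P') := Ld.la_ns h₁ hc₁.toNc hl₁ hnm
  have hms := Ld.la_nsmul h₂ hc₂.toNc hlQ' hl.ne_zero (by rw [hpw]; exact hf₂)
  rw [hpw] at hms
  have hns₂ : L.Ns (Q - l • Q') := Ld.la_ns h₂ hc₂.toNc hl₂ hms
  exact ⟨N, P', Q', hMN, hN, hP', hQ', hns₁, hns₂⟩

/-- `P` is a norm and `Q` a multiple of `l` over an extension `N`, up to points with nonsingular reduction. Proof: as `els_la` (`Pe/Elg.lean`;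
the part before the symbols) with the signs as in `elsE` (`Pe/ElgE.lean`): `la_or`, `exists_ram`, `la_ex`, `la_nm`, `la_nsmul`, `la_ns`. -/
theorem la_ram (L : Ld K Ω) {W₁ W₂ : WeierstrassCurve F} [W₁.IsElliptic] [W₂.IsElliptic]
    (h₁ : L.Gs W₁) (h₂ : L.Gs W₂) {l : ℕ} (hl : l.Prime) (M : IntermediateField K Ω)
    [FiniteDimensional K M] {P : Pt W₁ Ω} {Q : Pt W₂ Ω} (hP : Fx M P) (hQ : Fx M Q)
    (hPs : ¬ L.Ns P) (hQs : ¬ L.Ns Q) :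
    ∃ (N : IntermediateField K Ω) (P' : Pt W₁ Ω) (Q' : Pt W₂ Ω), M ≤ N ∧ FiniteDimensional K N ∧
      Fx N P' ∧ Fx N Q' ∧ L.Ns (P - Nm M N P') ∧ L.Ns (Q - l • Q') := by
  have hm₁ : L.Ms W₁ := h₁.resolve_left fun h => hPs (Ld.ns_good h P)
  have hm₂ : L.Ms W₂ := h₂.resolve_left fun h => hQs (Ld.ns_good h Q)
  obtain ⟨x₁, y₁, α₁, β₁, hc₁⟩ := hm₁.sp
  obtain ⟨x₂, y₂, α₂, β₂, hc₂⟩ := hm₂.sp
  obtain ⟨w₁, hw₁, hl₁⟩ := Ld.la_or hm₁.toMd hc₁ hPs M hP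
  obtain ⟨w₂, hw₂, hl₂⟩ := Ld.la_or hm₂.toMd hc₂ hQs M hQ
  have neg₁ : ∀ {N : IntermediateField K Ω} {P' : Pt W₁ Ω}, M ≤ N → FiniteDimensional K N →
      L.Ns (-P - Nm M N P') → L.Ns (P - Nm M N (-P')) := by
    intro N P' hMN hN h
    have h3 := nm_add hMN P' (-P')
    have h4 := nm_nsmul hMN (0 : Pt W₁ Ω) 0
    rw [zero_smul, zero_smul] at h4
    rw [add_neg_cancel, h4] at h3
    have h5 : Nm M N (-P') = -Nm M N P' := (neg_eq_of_add_eq_zero_right h3.symm).symm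
    have h6 := Ld.ns_neg h₁.it h
    rw [h5]
    have h7 : P - -Nm M N P' = -(-P - Nm M N P') := by abel
    rw [h7]
    exact h6
  have neg₂ : ∀ {Q' : Pt W₂ Ω}, L.Ns (-Q - l • Q') → L.Ns (Q - l • (-Q')) := by
    intro Q' h
    have h6 := Ld.ns_neg h₂.it h
    have h7 : Q - l • (-Q') = -(-Q - l • Q') := by
      rw [smul_neg]
      abel
    rw [h7]
    exact h6
  rcases hl₁ with hl₁ | hl₁ <;> rcases hl₂ with hl₂ | hl₂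
  · exact snb_la L hm₁.toMd hm₂.toMd hl hc₁ hc₂ M hw₁ hw₂ hl₁ hl₂
  · obtain ⟨N, P', Q', a1, a2, a3, a4, a5, a6⟩ :=
      snb_la L hm₁.toMd hm₂.toMd hl hc₁ hc₂ M hw₁ hw₂ hl₁ hl₂
    exact ⟨N, P', -Q', a1, a2, a3, a4.neg, a5, neg₂ a6⟩
  · obtain ⟨N, P', Q', a1, a2, a3, a4, a5, a6⟩ :=
      snb_la L hm₁.toMd hm₂.toMd hl hc₁ hc₂ M hw₁ hw₂ hl₁ hl₂
    exact ⟨N, -P', Q', a1, a2, a3.neg, a4, neg₁ a1 a2 a5, a6⟩
  · obtain ⟨N, P', Q', a1, a2, a3, a4, a5, a6⟩ :=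
      snb_la L hm₁.toMd hm₂.toMd hl hc₁ hc₂ M hw₁ hw₂ hl₁ hl₂
    exact ⟨N, -P', -Q', a1, a2, a3.neg, a4.neg, neg₁ a1 a2 a5, neg₂ a6⟩

end NE
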