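import Pool.Agent.Lib.MP_f80667_ag.Nf.Sna
import Pool.Agent.Lib.MP_f80667_ag.Pe.ElgE

/-!
Symbols with at most one entry with singular reduction.
-/

open ZC BE PE Polynomial IntermediateField

namespace NE

variable {F : Type} [Field F] {K Ω : Type} [Field K] [CharZero K] [Field Ω] [Algebra K Ω]
  [Algebra F K] [Algebra F Ω] [IsScalarTower F K Ω] [IsAlgClosure K Ω]
  {ι : Type} [DecidableEq ι] [Fintype ι] {W : ι → WeierstrassCurve F} [∀ i, (W i).IsElliptic]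

omit [DecidableEq ι] [Fintype ι] [∀ i, (W i).IsElliptic] in
/-- A point with nonsingular reduction over an unramified extension becomes divisible by `l`. Copy of the private `elgE_div` in `Pe/ElgE.lean`. -/
private theorem sn_div (L : Ld K Ω) (V : WeierstrassCurve F) [V.IsElliptic] (h : L.Gs V)
    {l : ℕ} (hl : l.Prime) (hpl : ¬ L.p ∣ l) {N : ℕ} (hN : N ≠ 0) {P : Pt V Ω}
    (hP : Fx (L.Ur ⊥ N) P) (hn : L.Ns P) : ∃ g ≠ 0, ∃ P' : Pt V Ω,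
      Fx (L.Ur ⊥ (N * g)) P' ∧ P = l • P' := by
  obtain ⟨R, hR, hc⟩ := Ld.dhs h hl.ne_zero hn
  obtain ⟨g, hg, hlf⟩ := Ld.lift_ur h.it hR
  have hN' : N * g ≠ 0 := mul_ne_zero hN hg
  obtain ⟨T, hT, hcT⟩ := hlf (N * g) hN' (dvd_mul_left g N)
  have hP' : Fx (L.Ur ⊥ (N * g)) P := hP.mono (Ld.ur_dvd ⊥ (dvd_mul_right N g))
  have h1 : L.Cg (l • T) (l • R) := by
    unfold Ld.Cg
    rw [← nsmul_sub]
    exact (Ld.fm_nsmul h.it hcT l).1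
  have h2 : L.Fm (P - l • T) := Ld.cg_trans h.it (Ld.cg_symm h.it hc) (Ld.cg_symm h.it h1)
  have hfin : FiniteDimensional K (L.Ur ⊥ (N * g)) := Ld.ur_fin ⊥ (N * g) hN'
  obtain ⟨c, -, hc', he⟩ := Ld.fm_div h.it (L.Ur ⊥ (N * g)) hpl h2 (hP'.sub (hT.nsmul l))
  refine ⟨g, hg, T + c, hT.add hc', ?_⟩
  rw [nsmul_add, he]
  abel

/-- All entries except the entry `i₁` have nonsingular reduction. Proof: as `elgE` (`Pe/ElgE.lean`). `exists_rf`: `f`, `M' = Ur M f`, `Rf M' f`. `x i₂ = Nm Q'`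
(`nss`), `z_nm`: the symbol over `M'`. The entries `≠ i₁` are `Q₀ i + l c i` with `Q₀ i` over `Ur ⊥ f` with nonsingular reduction (`lift_rf`, `fm_div`, `cg_ns`);
`Sn.z_rep`. `z_nm` for `Ur ⊥ f ≤ M'` and the entry `i₁`: `P₁ = Nm (x i₁)` over `Ur ⊥ f`; `P₁ = l P₂ + P₃`, `P₃` with nonsingular reduction over `Ur ⊥ f` (`ms_finE`; `P₂ = 0` if `W i₁` is
good), `P₃ = l P₄` over `Ur ⊥ (f g)` (`elgE_div` in `Pe/ElgE.lean`, private: copy), `Q₀ i₂ = Nm Q₂`, `Q₂` over `Ur ⊥ (f g)` (`nss`, `ur_ur`). -/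
theorem sn_one (L : Ld K Ω) (hW : ∀ i, L.Gs (W i)) {l : ℕ} (hl : l.Prime) (hlp : l ≠ L.p)
    (hj : ∀ i, L.Jc l (W i)) {G : Type} [AddCommGroup G]
    (S : Sn ι K Ω (fun i => Pt (W i) Ω) G) {i₁ i₂ : ι} (h12 : i₂ ≠ i₁) (M : IntermediateField K Ω)
    [FiniteDimensional K M] (x : ∀ i, Pt (W i) Ω) (hx : ∀ i, Fx M (x i))
    (hs : ∀ i, i ≠ i₁ → L.Ns (x i)) : S.Z l M x := by
  have hpl : ¬ L.p ∣ l := fun hd =>
    hlp ((Nat.prime_dvd_prime_iff_eq L.pp hl).1 hd).symm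
  obtain ⟨f, hf, hrf⟩ := Ld.exists_rf (L := L) M
  have hRf : L.Rf (L.Ur M f) f := hrf f hf dvd_rfl
  have hfin : FiniteDimensional K (L.Ur M f) := Ld.ur_fin M f hf
  -- the symbol over `Ur M f`
  obtain ⟨Q', hQ', hnQ', hQe⟩ := Ld.nss (hW i₂) M hf (hx i₂) (hs i₂ h12)
  have e1 : x = Function.update x i₂ (Nm M (L.Ur M f) Q') := by
    rw [hQe, Function.update_eq_self]
  rw [e1, Sn.z_nm Ld.ur_le (fun j _ => hx j) hQ']
  obtain ⟨y, hy⟩ : ∃ y : ∀ i, Pt (W i) Ω, y = Function.update x i₂ Q' := ⟨_, rfl⟩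
  rw [← hy]
  have hyF : ∀ i, Fx (L.Ur M f) (y i) := by
    intro i
    rw [hy]
    by_cases h : i = i₂
    · subst h
      rw [Function.update_self]
      exact hQ'
    · rw [Function.update_of_ne h]
      exact (hx i).mono Ld.ur_le
  have hyN : ∀ i, i ≠ i₁ → L.Ns (y i) := by
    intro i hi
    rw [hy]
    by_cases h : i = i₂
    · subst h
      rw [Function.update_self]
      exact hnQ'
    · rw [Function.update_of_ne h]
      exact hs i hi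
  clear hy
  -- the entries modulo multiples of `l`
  have key : ∀ i, ∃ q c : Pt (W i) Ω, Fx (L.Ur M f) q ∧ Fx (L.Ur M f) c ∧ y i = q + l • c ∧
      (i ≠ i₁ → Fx (L.Ur ⊥ f) q ∧ L.Ns q) := by
    intro i
    by_cases hi : i = i₁
    · exact ⟨y i, 0, hyF i, Fx.zero, by rw [smul_zero, add_zero], fun h => absurd hi h⟩
    · obtain ⟨Q₀, hQ₀, hc⟩ := Ld.lift_rf (hW i).it hRf (hyN i hi) (hyF i)
      have hQ₀' : Fx (L.Ur M f) Q₀ := hQ₀.mono (Ld.ur_bot_ur M f)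
      have hcs : L.Cg (y i) Q₀ := Ld.cg_symm (hW i).it hc
      have hnQ₀ : L.Ns Q₀ := Ld.cg_ns (hW i).it hcs (hyN i hi)
      obtain ⟨c, -, hc', he⟩ := Ld.fm_div (hW i).it (L.Ur M f) hpl hcs ((hyF i).sub hQ₀')
      refine ⟨Q₀, c, hQ₀', hc', ?_, fun _ => ⟨hQ₀, hnQ₀⟩⟩
      rw [he]
      abel
  choose q c hq hc hyq hqn using key
  have e2 : y = fun i => q i + l • c i := funext hyq
  rw [e2]
  refine Sn.z_rep hq hc ?_
  -- down to `Ur ⊥ f`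
  have hfinB : FiniteDimensional K (L.Ur ⊥ f) := Ld.ur_fin ⊥ f hf
  have hqB : ∀ j, j ≠ i₁ → Fx (L.Ur ⊥ f) (q j) := fun j hj => (hqn j hj).1
  have e3 : q = Function.update q i₁ (q i₁) := (Function.update_eq_self i₁ q).symm
  rw [e3, ← Sn.z_nm (Ld.ur_bot_ur M f) hqB (hq i₁)]
  have hP₁ : Fx (L.Ur ⊥ f) (Nm (L.Ur ⊥ f) (L.Ur M f) (q i₁)) :=
    nm_fx (Ld.ur_bot_ur M f) (hq i₁)
  generalize Nm (L.Ur ⊥ f) (L.Ur M f) (q i₁) = P₁ at hP₁ ⊢
  obtain ⟨P₂, hP₂, hn₃⟩ : ∃ P' : Pt (W i₁) Ω, Fx (L.Ur ⊥ f) P' ∧ L.Ns (P₁ - l • P') := by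
    rcases hW i₁ with h | h
    · exact ⟨0, Fx.zero, Ld.ns_good h _⟩
    · exact Ld.ms_finE h hl (hj i₁) hf hP₁
  have hP₃ : Fx (L.Ur ⊥ f) (P₁ - l • P₂) := hP₁.sub (hP₂.nsmul l)
  have hPe : P₁ = l • P₂ + (P₁ - l • P₂) := by abel
  rw [hPe]
  refine Sn.z_add hqB (hP₂.nsmul l) hP₃ (Sn.z_mul hqB hP₂) ?_
  -- up to `Ur ⊥ (f g)`
  obtain ⟨g, hg, P₄, hP₄, he₄⟩ := sn_div L (W i₁) (hW i₁) hl hpl hf hP₃ hn₃
  have hN' : f * g ≠ 0 := mul_ne_zero hf hg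
  have hfinC : FiniteDimensional K (L.Ur ⊥ (f * g)) := Ld.ur_fin ⊥ (f * g) hN'
  obtain ⟨Q₂, hQ₂, -, he₃⟩ := Ld.nss (hW i₂) (L.Ur ⊥ f) hN' (hqB i₂ h12) (hqn i₂ h12).2
  rw [Ld.ur_ur ⊥ (dvd_mul_right f g)] at hQ₂ he₃
  have hle : L.Ur ⊥ f ≤ L.Ur ⊥ (f * g) := Ld.ur_dvd ⊥ (dvd_mul_right f g)
  have e4 : Function.update q i₁ (P₁ - l • P₂) =
      Function.update (Function.update q i₁ (P₁ - l • P₂)) i₂
        (Nm (L.Ur ⊥ f) (L.Ur ⊥ (f * g)) Q₂) := by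
    rw [he₃]
    funext i
    by_cases h : i = i₂
    · subst h
      rw [Function.update_self, Function.update_of_ne h12]
    · rw [Function.update_of_ne h]
  rw [e4, Sn.z_nm hle ?_ hQ₂, Function.update_comm h12.symm, he₄]
  · refine Sn.z_mul (fun j hj' => ?_) hP₄
    by_cases h : j = i₂
    · subst h
      rw [Function.update_self]
      exact hQ₂
    · rw [Function.update_of_ne h]
      exact (hqB j hj').mono hle
  · intro j _
    by_cases h : j = i₁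
    · subst h
      rw [Function.update_self]
      exact hP₃
    · rw [Function.update_of_ne h]
      exact hqB j h

end NE
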