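import Pool.Agent.Lib.MP_f80667_ag.Nf.Snb
import Pool.Agent.Lib.MP_f80667_ag.Nf.Snc

/-!
All symbols are multiples of `l`, `l` different from the residue characteristic.
-/

open ZC BE PE Polynomial IntermediateField

namespace NE

variable {F : Type} [Field F] {K Ω : Type} [Field K] [CharZero K] [Field Ω] [Algebra K Ω]
  [Algebra F K] [Algebra F Ω] [IsScalarTower F K Ω] [IsAlgClosure K Ω]
  {ι : Type} [DecidableEq ι] [Fintype ι] {W : ι → WeierstrassCurve F} [∀ i, (W i).IsElliptic]

open Classical in
/-- the entries with singular reduction -/
private noncomputable def bad (L : Ld K Ω) (x : ∀ i, Pt (W i) Ω) : Finset ι :=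
  Finset.univ.filter fun i => ¬ L.Ns (x i)

omit [∀ i, (W i).IsElliptic] in
private theorem mem_bad {L : Ld K Ω} {x : ∀ i, Pt (W i) Ω} {i : ι} :
    i ∈ bad L x ↔ ¬ L.Ns (x i) := by
  classical
  simp [bad]

/-- Semistable curves. Proof: by strong induction on the number of the entries with singular reduction (for all `M`, `x`). At most one: `sn_one`. Otherwise let `i ≠ j` be
such entries: `la_ram`: `N`, `P'`, `Q'`. `x i = (x i - Nm P') + Nm P'` (`z_add`): the first symbol has fewer such entries; the second is the symbol over `N` with
the entry `P'` (`z_nm`), `x j = (x j - l Q') + l Q'` (`z_add`, `z_mul`): fewer such entries (the entry `j`). -/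
theorem sn_all (L : Ld K Ω) [Nontrivial ι] (hW : ∀ i, L.Gs (W i)) {l : ℕ} (hl : l.Prime)
    (hlp : l ≠ L.p) (hj : ∀ i, L.Jc l (W i)) {G : Type} [AddCommGroup G]
    (S : Sn ι K Ω (fun i => Pt (W i) Ω) G) (M : IntermediateField K Ω)
    (x : ∀ i, Pt (W i) Ω) (hM : FiniteDimensional K M) (hx : ∀ i, Fx M (x i)) : S.Z l M x := by
  obtain ⟨n, hn⟩ : ∃ n, (bad L x).card = n := ⟨_, rfl⟩
  induction n using Nat.strong_induction_on generalizing M x with
  | _ n ih =>
    by_cases h1 : 1 < (bad L x).card
    · obtain ⟨i, hi, j, hj', hij⟩ := Finset.one_lt_card.1 h1
      obtain ⟨N, P', Q', hMN, hN, hP', hQ', hP, hQ⟩ :=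
        la_ram L (hW i) (hW j) hl M (hx i) (hx j) (mem_bad.1 hi) (mem_bad.1 hj')
      have hNm : Fx M (Nm M N P') := nm_fx hMN hP'
      have e1 : x = Function.update x i ((x i - Nm M N P') + Nm M N P') := by
        rw [sub_add_cancel, Function.update_eq_self]
      rw [e1]
      refine Sn.z_add (fun k _ => hx k) ((hx i).sub hNm) hNm ?_ ?_
      · refine ih _ ?_ M _ hM (fun k => ?_) rfl
        · rw [← hn]
          refine Finset.card_lt_card ⟨fun k hk => ?_, fun h => ?_⟩
          · rw [mem_bad] at hk ⊢
            by_cases hki : k = i
            · subst hki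
              rw [Function.update_self] at hk
              exact absurd hP hk
            · rwa [Function.update_of_ne hki] at hk
          · have h2 := mem_bad.1 (h hi)
            rw [Function.update_self] at h2
            exact h2 hP
        · by_cases hki : k = i
          · subst hki
            rw [Function.update_self]
            exact (hx k).sub hNm
          · rw [Function.update_of_ne hki]
            exact hx k
      · rw [Sn.z_nm hMN (fun k _ => hx k) hP']
        obtain ⟨y, hy⟩ : ∃ y, y = Function.update x i P' := ⟨_, rfl⟩
        rw [← hy]
        have hyF : ∀ k, Fx N (y k) := by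
          intro k
          rw [hy]
          by_cases hki : k = i
          · subst hki
            rw [Function.update_self]
            exact hP'
          · rw [Function.update_of_ne hki]
            exact (hx k).mono hMN
        have hyj : y j = x j := by
          rw [hy, Function.update_of_ne hij.symm]
        have e2 : y = Function.update y j ((y j - l • Q') + l • Q') := by
          rw [sub_add_cancel, Function.update_eq_self]
        rw [e2]
        refine Sn.z_add (fun k _ => hyF k) ((hyF j).sub (hQ'.nsmul l)) (hQ'.nsmul l) ?_
          (Sn.z_mul (fun k _ => hyF k) hQ')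
        refine ih _ ?_ N _ hN (fun k => ?_) rfl
        · rw [← hn]
          refine Finset.card_lt_card ⟨fun k hk => ?_, fun h => ?_⟩
          · rw [mem_bad] at hk
            by_cases hkj : k = j
            · subst hkj
              rw [Function.update_self, hyj] at hk
              exact absurd hQ hk
            · rw [Function.update_of_ne hkj] at hk
              by_cases hki : k = i
              · rw [hki]
                exact hi
              · rw [hy, Function.update_of_ne hki] at hk
                exact mem_bad.2 hk
          · have h2 := mem_bad.1 (h hj')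
            rw [Function.update_self, hyj] at h2
            exact h2 hQ
        · by_cases hkj : k = j
          · subst hkj
            rw [Function.update_self]
            exact (hyF k).sub (hQ'.nsmul l)
          · rw [Function.update_of_ne hkj]
            exact hyF k
    · obtain ⟨i₁, hi₁⟩ : ∃ i₁ : ι, ∀ i, i ≠ i₁ → L.Ns (x i) := by
        rcases (bad L x).eq_empty_or_nonempty with h | ⟨i₁, h⟩
        · obtain ⟨i₁, -, -⟩ := exists_pair_ne ι
          refine ⟨i₁, fun i _ => ?_⟩
          by_contra hc
          have h2 := mem_bad.2 hc
          rw [h] at h2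
          exact Finset.notMem_empty i h2
        · refine ⟨i₁, fun i hi => ?_⟩
          by_contra hc
          exact h1 (Finset.one_lt_card.2 ⟨i, mem_bad.2 hc, i₁, h, hi⟩)
      obtain ⟨i₂, h12⟩ := exists_ne i₁
      exact sn_one L hW hl hlp hj S h12 M x hx hi₁

end NE
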