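import Pool.Agent.Lib.MP_f80667_ag.Nf.Df

/-!
The decomposition of a point of the product of the curves.

* `xt x S`: the point `x` on `S` and `0` outside.
* `tht S x`: the alternating sum of the points `xt x T`, `T ⊆ S`.
-/

open ZC BE PE Polynomial IntermediateField CV

namespace NE

variable {F : Type} [Field F] {n : ℕ} {W : Fin n → WeierstrassCurve F}
  {K Ω : Type} [Field K] [Field Ω] [Algebra K Ω] [Algebra F K] [Algebra F Ω]
  [IsScalarTower F K Ω]

variable (W Ω) in
/-- The base point. -/
noncomputable def oX : (Xn W).pt Ω := fun i => (0 : Pt (W i) Ω)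

/-- The point `x` on `S` and `0` outside. -/
noncomputable def xt (x : (Xn W).pt Ω) (S : Finset (Fin n)) : (Xn W).pt Ω :=
  fun i => if i ∈ S then x i else (0 : Pt (W i) Ω)

/-- The alternating sum of the points `xt x T`, `T ⊆ S`. -/
noncomputable def tht (S : Finset (Fin n)) (x : (Xn W).pt Ω) : (Xn W).pt Ω →₀ ℤ :=
  ∑ T ∈ S.powerset, (-1 : ℤ) ^ (S \ T).card • Finsupp.single (xt x T) 1

/-- One entry changed. -/
noncomputable def up (x : (Xn W).pt Ω) (i : Fin n) (P : Pt (W i) Ω) : (Xn W).pt Ω :=
  Function.update (β := fun i => Pt (W i) Ω) x i P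

private theorem sne_alt (T : Finset (Fin n)) :
    ∑ S ∈ Finset.univ.filter (fun S : Finset (Fin n) => T ⊆ S), (-1 : ℤ) ^ (S \ T).card =
      if T = Finset.univ then 1 else 0 := by
  have h1 : ∑ S ∈ Finset.univ.filter (fun S : Finset (Fin n) => T ⊆ S), (-1 : ℤ) ^ (S \ T).card =
      ∑ R ∈ (Finset.univ \ T).powerset, (-1 : ℤ) ^ R.card := by
    refine Finset.sum_nbij' (fun S => S \ T) (fun R => R ∪ T) ?_ ?_ ?_ ?_ ?_
    · intro S _
      exact Finset.mem_powerset.2 (Finset.sdiff_subset_sdiff (Finset.subset_univ S) le_rfl)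
    · intro R _
      exact Finset.mem_filter.2 ⟨Finset.mem_univ _, Finset.subset_union_right⟩
    · intro S hS
      exact Finset.sdiff_union_of_subset (Finset.mem_filter.1 hS).2
    · intro R hR
      rw [Finset.union_sdiff_right]
      refine Finset.sdiff_eq_self_of_disjoint ?_
      rw [Finset.disjoint_left]
      intro a ha hT
      exact (Finset.mem_sdiff.1 (Finset.mem_powerset.1 hR ha)).2 hT
    · intro S _
      rfl
  rw [h1, Finset.sum_powerset_neg_one_pow_card]
  refine if_congr ?_ rfl rfl
  rw [Finset.sdiff_eq_empty_iff_subset, Finset.univ_subset_iff]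

private theorem sne_univ (x : (Xn W).pt Ω) : xt x Finset.univ = x := by
  funext i
  exact if_pos (Finset.mem_univ i)

private theorem sne_emp (x : (Xn W).pt Ω) : xt x ∅ = oX W Ω := by
  funext i
  exact if_neg (Finset.notMem_empty i)

private theorem sne_ent {S : Finset (Fin n)} {i : Fin n} (hi : i ∈ S) (x : (Xn W).pt Ω) :
    tht S x = ∑ T ∈ (S.erase i).powerset, (-1 : ℤ) ^ ((S.erase i) \ T).card •
      (Finsupp.single (xt x (insert i T)) 1 - Finsupp.single (xt x T) 1 : (Xn W).pt Ω →₀ ℤ) := by
  unfold tht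
  have h0 : ∑ T ∈ S.powerset, (-1 : ℤ) ^ (S \ T).card •
      (Finsupp.single (xt x T) 1 : (Xn W).pt Ω →₀ ℤ) =
      ∑ T ∈ (insert i (S.erase i)).powerset, (-1 : ℤ) ^ (S \ T).card •
      (Finsupp.single (xt x T) 1 : (Xn W).pt Ω →₀ ℤ) := by rw [Finset.insert_erase hi]
  rw [h0, Finset.sum_powerset_insert (Finset.notMem_erase i S), ← Finset.sum_add_distrib]
  refine Finset.sum_congr rfl fun T hT => ?_
  rw [Finset.mem_powerset] at hT
  have hiT : i ∉ T := fun h => Finset.notMem_erase i S (hT h)
  have e1 : S \ insert i T = (S.erase i) \ T := by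
    ext a
    simp only [Finset.mem_sdiff, Finset.mem_insert, Finset.mem_erase]
    tauto
  have e2 : (S \ T).card = ((S.erase i) \ T).card + 1 := by
    have : S \ T = insert i ((S.erase i) \ T) := by
      ext a
      simp only [Finset.mem_sdiff, Finset.mem_insert, Finset.mem_erase]
      constructor
      · rintro ⟨h1, h2⟩
        by_cases h : a = i
        · exact Or.inl h
        · exact Or.inr ⟨⟨h, h1⟩, h2⟩
      · rintro (rfl | ⟨⟨h1, h2⟩, h3⟩)
        · exact ⟨hi, hiT⟩
        · exact ⟨h2, h3⟩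
    rw [this, Finset.card_insert_of_notMem]
    simp
  rw [e1, e2, pow_succ, smul_sub]
  simp only [mul_neg, mul_one, neg_smul]
  abel

/-- Proof: exchange the sums; `∑ (S ⊇ T) (-1)^|S - T| = 0` for `T ≠ univ`. -/
theorem tht_sum (x : (Xn W).pt Ω) : ∑ S : Finset (Fin n), tht S x = Finsupp.single x 1 := by
  unfold tht
  rw [Finset.sum_comm' (t' := Finset.univ)
    (s' := fun T => Finset.univ.filter (fun S : Finset (Fin n) => T ⊆ S))]
  · simp_rw [← Finset.sum_smul, sne_alt, ite_smul, one_smul, zero_smul]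
    rw [Finset.sum_ite_eq' Finset.univ Finset.univ, if_pos (Finset.mem_univ _), sne_univ]
  · intro S T
    simp

theorem tht_emp (x : (Xn W).pt Ω) :
    tht ∅ x = Finsupp.single (oX W Ω) 1 := by
  unfold tht
  rw [Finset.powerset_empty, Finset.sum_singleton, sne_emp, Finset.sdiff_self, Finset.card_empty,
    pow_zero, one_smul]

theorem tht_one (x : (Xn W).pt Ω) (i : Fin n) :
    tht {i} x = Finsupp.single (xt x {i}) 1 - Finsupp.single (oX W Ω) 1 := by
  rw [sne_ent (Finset.mem_singleton_self i)]
  have h : ({i} : Finset (Fin n)).erase i = ∅ := by simp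
  rw [h, Finset.powerset_empty, Finset.sum_singleton, sne_emp, Finset.sdiff_self,
    Finset.card_empty, pow_zero, one_smul, insert_empty_eq]

/-- The entry `i`. Proof: the subsets `T` of `S` with and without `i`. -/
theorem tht_ent {S : Finset (Fin n)} {i : Fin n} (hi : i ∈ S) (x : (Xn W).pt Ω) :
    tht S x = ∑ T ∈ (S.erase i).powerset, (-1 : ℤ) ^ ((S.erase i) \ T).card •
      (Finsupp.single (xt x (insert i T)) 1 - Finsupp.single (xt x T) 1 : (Xn W).pt Ω →₀ ℤ) := by
  exact sne_ent hi x

/-- The entries outside `S` do not matter. -/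
theorem tht_congr {S : Finset (Fin n)} {x y : (Xn W).pt Ω} (h : ∀ i ∈ S, x i = y i) :
    tht S x = tht S y := by
  unfold tht
  refine Finset.sum_congr rfl fun T hT => ?_
  rw [Finset.mem_powerset] at hT
  have : xt x T = xt y T := by
    funext i
    unfold xt
    by_cases hi : i ∈ T
    · rw [if_pos hi, if_pos hi]
      exact h i (hT hi)
    · rw [if_neg hi, if_neg hi]
  rw [this]

/-- Proof: `tht_ent`. -/
theorem tht_zero {S : Finset (Fin n)} {i : Fin n} (hi : i ∈ S) {x : (Xn W).pt Ω}
    (h : x i = (0 : Pt (W i) Ω)) : tht S x = 0 := by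
  rw [tht_ent hi]
  refine Finset.sum_eq_zero fun T _ => ?_
  have : xt x (insert i T) = xt x T := by
    funext j
    unfold xt
    by_cases hj : j = i
    · subst hj
      rw [if_pos (Finset.mem_insert_self _ _)]
      by_cases hT : j ∈ T
      · rw [if_pos hT]
      · rw [if_neg hT]
        exact h
    · by_cases hT : j ∈ T
      · rw [if_pos hT, if_pos (Finset.mem_insert_of_mem hT)]
      · rw [if_neg hT, if_neg]
        rw [Finset.mem_insert]
        tauto
  rw [this, sub_self, smul_zero]

/-- The push-forward to the factor `i`. Proof: `tht_ent` for an element `j ≠ i` of `S`. -/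
theorem tht_pr {S : Finset (Fin n)} (hS : 2 ≤ S.card) (i : Fin n) (x : (Xn W).pt Ω) :
    Finsupp.mapDomain (fun y : (Xn W).pt Ω => y i) (tht S x) = 0 := by
  obtain ⟨j, hj, hji⟩ : ∃ j ∈ S, j ≠ i := by
    by_contra hcon
    push Not at hcon
    have : S ⊆ {i} := fun a ha => Finset.mem_singleton.2 (hcon a ha)
    have := Finset.card_le_card this
    rw [Finset.card_singleton] at this
    omega
  rw [tht_ent hj, ← Finsupp.mapDomain.addMonoidHom_apply, map_sum]
  refine Finset.sum_eq_zero fun T _ => ?_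
  have h : xt x (insert j T) i = xt x T i := by
    unfold xt
    by_cases hT : i ∈ T
    · rw [if_pos hT, if_pos (Finset.mem_insert_of_mem hT)]
    · rw [if_neg hT, if_neg]
      rw [Finset.mem_insert]
      rintro (h | h)
      · exact hji h.symm
      · exact hT h
  rw [map_zsmul, map_sub, Finsupp.mapDomain.addMonoidHom_apply,
    Finsupp.mapDomain.addMonoidHom_apply, Finsupp.mapDomain_single, Finsupp.mapDomain_single, h,
    sub_self, smul_zero]

/-- The degree. -/
theorem tht_deg {S : Finset (Fin n)} (hS : S.Nonempty) (x : (Xn W).pt Ω) :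
    (Xn W).deg Ω (tht S x) = 0 := by
  obtain ⟨i, hi⟩ := hS
  rw [tht_ent hi, map_sum]
  refine Finset.sum_eq_zero fun T _ => ?_
  rw [map_zsmul, map_sub]
  have : ∀ y : (Xn W).pt Ω, (Xn W).deg Ω (Finsupp.single y 1) = 1 := by
    intro y
    unfold Vr.deg
    simp
  rw [this, this, sub_self, smul_zero]

/-- The Galois action. -/
theorem tht_act (γ : Ω ≃ₐ[K] Ω) (S : Finset (Fin n)) (x : (Xn W).pt Ω) :
    Finsupp.mapDomain ((Xn W).act γ) (tht S x) = tht S ((Xn W).act γ x) := by
  unfold tht
  rw [← Finsupp.mapDomain.addMonoidHom_apply, map_sum]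
  refine Finset.sum_congr rfl fun T _ => ?_
  rw [map_zsmul, Finsupp.mapDomain.addMonoidHom_apply, Finsupp.mapDomain_single]
  have : (Xn W).act γ (xt x T) = xt ((Xn W).act γ x) T := by
    funext i
    by_cases hi : i ∈ T
    · have e1 : xt ((Xn W).act γ x) T i = (Xn W).act γ x i := if_pos hi
      have e2 : xt x T i = x i := if_pos hi
      rw [e1]
      change Pt.map (W i) _ (xt x T i) = Pt.map (W i) _ (x i)
      rw [e2]
    · have e1 : xt ((Xn W).act γ x) T i = (0 : Pt (W i) Ω) := if_neg hi
      have e2 : xt x T i = (0 : Pt (W i) Ω) := if_neg hi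
      rw [e1]
      change Pt.map (W i) _ (xt x T i) = 0
      rw [e2]
      exact map_zero _
  rw [this]

end NE
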