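import Pool.Agent.Lib.MP_f80667_ag.Nf.Sne

/-!
The linear extension of `tht S` in one entry.
-/

open ZC BE PE Polynomial IntermediateField CV

namespace NE

variable {F : Type} [Field F] {n : ℕ} {W : Fin n → WeierstrassCurve F}
  {K Ω : Type} [Field K] [Field Ω] [Algebra K Ω] [Algebra F K] [Algebra F Ω]
  [IsScalarTower F K Ω]

/-- The linear extension of `tht S` in the entry `i`. -/
noncomputable def thl (S : Finset (Fin n)) (x : (Xn W).pt Ω) (i : Fin n) :
    (Pt (W i) Ω →₀ ℤ) →+ ((Xn W).pt Ω →₀ ℤ) :=
  Finsupp.liftAddHom fun P => zmultiplesHom _ (tht S (up x i P))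

theorem thl_single (S : Finset (Fin n)) (x : (Xn W).pt Ω) (i : Fin n) (P : Pt (W i) Ω) :
    thl S x i (Finsupp.single P 1) = tht S (up x i P) := by
  unfold thl
  rw [Finsupp.liftAddHom_apply_single, zmultiplesHom_apply, one_smul]

private theorem sneB_ins (x : (Xn W).pt Ω) (i : Fin n) (P : Pt (W i) Ω) {T : Finset (Fin n)}
    (hT : i ∉ T) : xt (up x i P) (insert i T) = up (xt x T) i P := by
  funext j
  by_cases hj : j = i
  · subst hj
    have e1 : xt (up x j P) (insert j T) j = up x j P j := if_pos (Finset.mem_insert_self _ _)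
    have e2 : up x j P j = P := Function.update_self (β := fun i => Pt (W i) Ω) j P x
    have e3 : up (xt x T) j P j = P := Function.update_self (β := fun i => Pt (W i) Ω) j P (xt x T)
    rw [e1, e2, e3]
  · have e3 : up (xt x T) i P j = xt x T j :=
      Function.update_of_ne (β := fun i => Pt (W i) Ω) hj P (xt x T)
    have e2 : up x i P j = x j := Function.update_of_ne (β := fun i => Pt (W i) Ω) hj P x
    rw [e3]
    by_cases h : j ∈ T
    · have e1 : xt (up x i P) (insert i T) j = up x i P j :=
        if_pos (Finset.mem_insert_of_mem h)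
      have e4 : xt x T j = x j := if_pos h
      rw [e1, e2, e4]
    · have h' : j ∉ insert i T := by
        rw [Finset.mem_insert]
        tauto
      have e1 : xt (up x i P) (insert i T) j = (0 : Pt (W j) Ω) := if_neg h'
      have e4 : xt x T j = (0 : Pt (W j) Ω) := if_neg h
      rw [e1, e4]

private theorem sneB_out (x : (Xn W).pt Ω) (i : Fin n) (P : Pt (W i) Ω) {T : Finset (Fin n)}
    (hT : i ∉ T) : xt (up x i P) T = xt x T := by
  funext j
  by_cases h : j ∈ T
  · have hj : j ≠ i := by
      rintro rfl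
      exact hT h
    have e1 : xt (up x i P) T j = up x i P j := if_pos h
    have e2 : up x i P j = x j := Function.update_of_ne (β := fun i => Pt (W i) Ω) hj P x
    have e4 : xt x T j = x j := if_pos h
    rw [e1, e2, e4]
  · have e1 : xt (up x i P) T j = (0 : Pt (W j) Ω) := if_neg h
    have e4 : xt x T j = (0 : Pt (W j) Ω) := if_neg h
    rw [e1, e4]

private theorem sneB_dg {A : Type} (a : A) (k : ℤ) : dg (Finsupp.single a k) = k := by
  simp [dg]

private theorem sneB_all {S : Finset (Fin n)} {i : Fin n} (hi : i ∈ S) (x : (Xn W).pt Ω)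
    (u : Pt (W i) Ω →₀ ℤ) :
    thl S x i u = ∑ T ∈ (S.erase i).powerset, (-1 : ℤ) ^ ((S.erase i) \ T).card •
      (Finsupp.mapDomain (up (xt x T) i) u - dg u • Finsupp.single (xt x T) 1) := by
  induction u using Finsupp.induction_linear with
  | zero =>
    rw [map_zero]
    symm
    refine Finset.sum_eq_zero fun T _ => ?_
    rw [Finsupp.mapDomain_zero, map_zero, zero_smul, sub_zero, smul_zero]
  | add u v hu hv =>
    rw [map_add, hu, hv, ← Finset.sum_add_distrib]
    refine Finset.sum_congr rfl fun T _ => ?_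
    rw [Finsupp.mapDomain_add, map_add, add_smul, ← smul_add]
    congr 1
    abel
  | single P k =>
    have h1 : (Finsupp.single P k : Pt (W i) Ω →₀ ℤ) = k • Finsupp.single P 1 := by
      rw [Finsupp.smul_single, smul_eq_mul, mul_one]
    rw [h1, map_zsmul, thl_single, tht_ent hi, Finset.smul_sum]
    refine Finset.sum_congr rfl fun T hT => ?_
    rw [Finset.mem_powerset] at hT
    have hiT : i ∉ T := fun h => Finset.notMem_erase i S (hT h)
    have h2 : Finsupp.mapDomain (up (xt x T) i) (k • (Finsupp.single P 1 : Pt (W i) Ω →₀ ℤ)) =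
        k • Finsupp.single (up (xt x T) i P) 1 := by
      rw [Finsupp.mapDomain_smul, Finsupp.mapDomain_single]
    have h3 : dg (k • (Finsupp.single P 1 : Pt (W i) Ω →₀ ℤ)) = k := by
      rw [← h1, sneB_dg]
    rw [sneB_ins x i P hiT, sneB_out x i P hiT, h2, h3, smul_comm, smul_sub]

/-- Proof: `tht_ent`; `xt (up x i P) T = xt x T` if `i ∉ T`. -/
theorem thl_eq {S : Finset (Fin n)} {i : Fin n} (hi : i ∈ S) (x : (Xn W).pt Ω)
    {u : Pt (W i) Ω →₀ ℤ} (hd : dg u = 0) :
    thl S x i u = ∑ T ∈ (S.erase i).powerset, (-1 : ℤ) ^ ((S.erase i) \ T).card •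
      Finsupp.mapDomain (up (xt x T) i) u := by
  rw [sneB_all hi x u, hd]
  refine Finset.sum_congr rfl fun T _ => ?_
  rw [zero_smul, sub_zero]

end NE
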