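import Pool.Agent.Lib.MP_f80667_ag.Nf.SneB
import Pool.Agent.Lib.MP_f80667_ag.Nf.Ee

/-!
Divisors of degree `0` and sum `0` in one entry.
-/

open ZC BE PE Polynomial IntermediateField CV

namespace NE

variable {F : Type} [Field F] {n : ℕ} {W : Fin n → WeierstrassCurve F} [∀ i, (W i).IsElliptic]
  {K Ω : Type} [Field K] [Field Ω] [Algebra K Ω] [Algebra F K] [Algebra F Ω]
  [IsScalarTower F K Ω] [CharZero K] [IsAlgClosure K Ω]

section aux

omit [∀ i, (W i).IsElliptic]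

/-- One coordinate of the new point. -/
private theorem snf_coord {S₀ : Vr F} {M : IntermediateField K Ω} (D : Vr F) [Kp D]
    (f : S₀.pt Ω → D.pt Ω)
    (hf : (∃ φ : Mo S₀ D, ∀ x, f x = φ.f Ω x) ∨ ∃ y : D.pt Ω, Fp D M y ∧ ∀ x, f x = y)
    (E : Type) [Field E] [Algebra M E] [Algebra F E] [IsScalarTower F M E]
    (x : S₀.pt (AlgebraicClosure E)) (hx : S₀.Rat E x) :
    ∃ x' : D.pt (AlgebraicClosure E), D.Rat E x' ∧
      ∀ (W : Place M (AlgebraicClosure E) Ω) (p : S₀.pt Ω), S₀.red W x p → D.red W x' (f p) := by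
  rcases hf with ⟨φ, hφ⟩ | ⟨y, hy, hfy⟩
  · refine ⟨φ.f _ x, fun σ => ?_, fun W p hp => ?_⟩
    · change D.map _ (φ.f _ x) = φ.f _ x
      rw [φ.nat]
      exact congrArg (φ.f _) (hx σ)
    · rw [hφ]
      exact φ.red _ _ _ W x p hp
  · obtain ⟨x', hx', hr⟩ := Kp.cst K Ω M y hy E
    refine ⟨x', hx', fun W p _ => ?_⟩
    rw [hfy]
    exact hr W

/-- Proof: as `Mo.ratEq` (`Cv/Mo.lean`); a point of `C i` over `M` is the constant point over the algebraic closure
of the function field `E / M` (`fp_val`), its value at every place `W` over `M` is the point (`W.mem`, `W.res_k`). -/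
private theorem snf_mor {V : Fin n → Vr F} [∀ i, Kp (V i)] {S₀ : Vr F} {M : IntermediateField K Ω}
    (f : S₀.pt Ω → (Vpi V).pt Ω)
    (hf : ∀ i, (∃ φ : Mo S₀ (V i), ∀ x, f x i = φ.f Ω x) ∨
      ∃ y : (V i).pt Ω, Fp (V i) M y ∧ ∀ x, f x i = y)
    {z : S₀.pt Ω →₀ ℤ} (hz : z ∈ S₀.ratEq M Ω) :
    Finsupp.mapDomain f z ∈ (Vpi V).ratEq M Ω := by
  have h : S₀.ratEq M Ω ≤ ((Vpi V).ratEq M Ω).comap
      (Finsupp.mapDomain.addMonoidHom f) := by
    rw [Vr.ratEq, AddSubgroup.closure_le]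
    rintro _ ⟨E, i1, i2, i3, i4, hE, g, x, hg, hx, S, m, y, hS, hv, rfl⟩
    change Finsupp.mapDomain f _ ∈ (Vpi V).ratEq M Ω
    rw [Finsupp.mapDomain_finsetSum]
    choose x' hx' hr using fun i => snf_coord (V i) (fun p => f p i) (hf i) E x hx
    refine AddSubgroup.subset_closure ⟨E, i1, i2, i3, i4, hE, g, x', hg, fun σ => ?_, S, m,
      fun w => f (y w), hS, fun w hw => ⟨(hv w hw).1, ?_⟩, ?_⟩
    · exact funext fun i => hx' i σ
    · obtain ⟨W, h1, h2, h3⟩ := (hv w hw).2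
      exact ⟨W, h1, h2, fun i => hr i W (y w) h3⟩
    · refine Finset.sum_congr rfl fun w _ => ?_
      rw [Finsupp.mapDomain_single]
  exact h hz


end aux

/-- The embedding of the curve `i` by a point over `M`. Proof: as `mor_ratEq` (`Cv/NfA.lean`; for varieties: `Nf/Loc.lean`, private), `Kp.cst`. -/
theorem up_ratEq {M : IntermediateField K Ω} {w : (Xn W).pt Ω} (hw : Fp (Xn W) M w) (i : Fin n)
    {u : Pt (W i) Ω →₀ ℤ} (hu : u ∈ (Ev (W i)).ratEq M Ω) :
    Finsupp.mapDomain (up w i) u ∈ (Xn W).ratEq M Ω := by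
  refine snf_mor (V := fun j => Ev (W j)) (S₀ := Ev (W i)) (up w i) (fun j => ?_) hu
  rcases eq_or_ne j i with rfl | h
  · exact Or.inl ⟨⟨fun L _ _ x => x, fun _ _ _ _ _ _ _ _ => rfl,
      fun _ _ _ _ _ _ _ _ _ _ _ _ _ h => h⟩,
      fun x => Function.update_self (β := fun i => Pt (W i) Ω) j x w⟩
  · exact Or.inr ⟨w j, fun γ hγ => congrFun (hw γ hγ) j,
      fun x => Function.update_of_ne (β := fun i => Pt (W i) Ω) h x w⟩

omit [∀ i, (W i).IsElliptic] [IsScalarTower F K Ω] [CharZero K] [IsAlgClosure K Ω] [Algebra K Ω]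
  [Algebra F K] [Field K] in
private theorem snf_s (w : (Xn W).pt Ω) (i : Fin n) (P : Pt (W i) Ω) : up w i P i = P :=
  Function.update_self (β := fun i => Pt (W i) Ω) i P w

omit [∀ i, (W i).IsElliptic] [IsScalarTower F K Ω] [CharZero K] [IsAlgClosure K Ω] [Algebra K Ω]
  [Algebra F K] [Field K] in
private theorem snf_n (w : (Xn W).pt Ω) {i j : Fin n} (h : j ≠ i) (P : Pt (W i) Ω) :
    up w i P j = w j :=
  Function.update_of_ne (β := fun i => Pt (W i) Ω) h P w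

omit [∀ i, (W i).IsElliptic] [CharZero K] [IsAlgClosure K Ω] in
private theorem snf_act {M : IntermediateField K Ω} {w : (Xn W).pt Ω} (hw : Fp (Xn W) M w)
    (i : Fin n) (P : Pt (W i) Ω) {γ : Ω ≃ₐ[K] Ω} (hγ : γ ∈ M.fixingSubgroup) :
    (Xn W).act γ (up w i P) = up w i ((Ev (W i)).act γ P) := by
  funext j
  rcases eq_or_ne j i with rfl | h
  · exact (congrArg ((Ev (W j)).act γ) (snf_s w j P)).trans (snf_s w j _).symm
  · exact (congrArg ((Ev (W j)).act γ) (snf_n w h P)).trans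
      ((congrFun (hw γ hγ) j).trans (snf_n w h _).symm)

omit [∀ i, (W i).IsElliptic] [CharZero K] [IsAlgClosure K Ω] in
private theorem snf_fx {M : IntermediateField K Ω} {w : (Xn W).pt Ω} (hw : Fp (Xn W) M w)
    (i : Fin n) {u : Pt (W i) Ω →₀ ℤ} (hu : Fx (A := (Ev (W i)).pt Ω →₀ ℤ) M u) {γ : Ω ≃ₐ[K] Ω}
    (hγ : γ ∈ M.fixingSubgroup) :
    (γ • (Finsupp.mapDomain (up w i) u : (Xn W).pt Ω →₀ ℤ) : (Xn W).pt Ω →₀ ℤ) =
      Finsupp.mapDomain (up w i) u := by
  have h1 : Finsupp.mapDomain ((Ev (W i)).act γ) u = u := hu γ hγ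
  rw [CV.smul_def]
  conv_rhs => rw [← h1]
  refine (Finsupp.mapDomain_comp (v := u) (f := up w i) (g := (Xn W).act γ)).symm.trans ?_
  refine Eq.trans ?_ (Finsupp.mapDomain_comp (v := u) (f := (Ev (W i)).act γ) (g := up w i))
  exact congrArg (fun g => Finsupp.mapDomain g u) (funext fun P => snf_act hw i P hγ)

private theorem snf_abel {E : WeierstrassCurve F} [E.IsElliptic] {M : IntermediateField K Ω}
    {u : Pt E Ω →₀ ℤ} (hu : Fx (A := (Ev E).pt Ω →₀ ℤ) M u) (hd : dg u = 0) (hs : sm u = 0) :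
    u ∈ (Ev E).ratEq M Ω := by
  have hO : IsAlgClosed Ω := IsAlgClosure.isAlgClosed K
  have hM : IsAlgClosure M Ω := ⟨hO, inferInstance⟩
  refine (AddSubgroup.closure_le _).2 (fun y hy => pv_ratEq_ev hy)
    (abel (K := M) u (fun σ => ?_) hd hs)
  have hγ : σ.restrictScalars K ∈ M.fixingSubgroup := by
    rw [IntermediateField.mem_fixingSubgroup_iff]
    intro x hx
    exact σ.commutes ⟨x, hx⟩
  exact hu (σ.restrictScalars K) hγ

/-- A divisor of degree `0` and sum `0` in one entry. Proof: `thl_eq`, `abel` over `M` (`Pe/Ab.lean`; as `pr_abel` in `Nf/Pr.lean`), `up_ratEq`, `nm_ratEq` (`Cv/HdA.lean`). -/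
theorem thl_zero {M : IntermediateField K Ω} [FiniteDimensional K M] {S : Finset (Fin n)}
    {i : Fin n} (hi : i ∈ S) {x : (Xn W).pt Ω} (hx : ∀ j, j ≠ i → Fx M (cx x j))
    {u : Pt (W i) Ω →₀ ℤ} (hu : Fx (A := (Ev (W i)).pt Ω →₀ ℤ) M u) (hd : dg u = 0)
    (hs : sm u = 0) :
    Nm (⊥ : IntermediateField K Ω) M (thl S x i u : (Xn W).pt Ω →₀ ℤ) ∈ (Xn W).ratEq K Ω := by
  have hw : ∀ T ∈ (S.erase i).powerset, Fp (Xn W) M (xt x T) := by
    intro T hT
    refine fpX.2 fun j => ?_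
    by_cases hj : j ∈ T
    · have e : cx (xt x T) j = cx x j := if_pos hj
      rw [e]
      refine hx j fun h => ?_
      exact Finset.notMem_erase i S (Finset.mem_powerset.1 hT (h ▸ hj))
    · have e : cx (xt x T) j = (0 : Pt (W j) Ω) := if_neg hj
      rw [e]
      exact Fx.zero (A := Pt (W j) Ω) (M := M)
  have hr := snf_abel hu hd hs
  rw [thl_eq hi x hd]
  refine nm_ratEq (sum_mem fun T hT => zsmul_mem (up_ratEq (hw T hT) i hr) _) fun γ hγ => ?_
  rw [Finset.smul_sum]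
  refine Finset.sum_congr rfl fun T hT => ?_
  rw [smul_comm γ, snf_fx (hw T hT) i hu hγ]

end NE
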