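import Pool.Agent.Lib.MP_f80667_ag.Nf.Sna
import Pool.Agent.Lib.MP_f80667_ag.Nf.Snf

/-!
The symbols of the product of the curves.
-/

open ZC BE PE Polynomial IntermediateField CV

namespace NE

variable {F : Type} [Field F] {n : ℕ} {W : Fin n → WeierstrassCurve F} [∀ i, (W i).IsElliptic]
  {K Ω : Type} [Field K] [Field Ω] [Algebra K Ω] [Algebra F K] [Algebra F Ω]
  [IsScalarTower F K Ω] [CharZero K] [IsAlgClosure K Ω]

/-- The point of the product with the coordinates `x` on `S` and `0` outside. -/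
noncomputable def ex (S : Finset (Fin n)) (x : ∀ i : {i // i ∈ S}, Pt (W i) Ω) : (Xn W).pt Ω :=
  fun i => if h : i ∈ S then x ⟨i, h⟩ else (0 : Pt (W i) Ω)

omit [∀ i, (W i).IsElliptic] in
private theorem ex_up (S : Finset (Fin n)) (x : ∀ i : {i // i ∈ S}, Pt (W i) Ω)
    (i : {i // i ∈ S}) (P : Pt (W i) Ω) :
    ex S (Function.update x i P) = up (ex S x) i.1 P := by
  funext j
  by_cases hj : j = i.1
  · subst hj
    have h1 : up (ex S x) i.1 P i.1 = P := Function.update_self _ _ _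
    rw [h1]
    unfold ex
    rw [dif_pos i.2]
    exact Function.update_self _ _ _
  · have h1 : up (ex S x) i.1 P j = ex S x j := Function.update_of_ne hj _ _
    rw [h1]
    unfold ex
    by_cases hS : j ∈ S
    · rw [dif_pos hS, dif_pos hS]
      exact Function.update_of_ne (fun h => hj (congrArg Subtype.val h)) _ _
    · rw [dif_neg hS, dif_neg hS]

omit [∀ i, (W i).IsElliptic] [CharZero K] [IsAlgClosure K Ω] in
private theorem ex_fx {M : IntermediateField K Ω} {S : Finset (Fin n)}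
    {x : ∀ i : {i // i ∈ S}, Pt (W i) Ω} {i : {i // i ∈ S}}
    (hx : ∀ j, j ≠ i → Fx M (x j)) (j : Fin n) (hj : j ≠ i.1) : Fx M (cx (ex S x) j) := by
  unfold cx ex
  by_cases hS : j ∈ S
  · rw [dif_pos hS]
    exact hx ⟨j, hS⟩ fun h => hj (congrArg Subtype.val h)
  · rw [dif_neg hS]
    exact fun γ _ => smul_zero γ

omit [∀ i, (W i).IsElliptic] [CharZero K] [IsAlgClosure K Ω] in
private theorem up_act {M : IntermediateField K Ω} {e : (Xn W).pt Ω} {i : Fin n}
    (he : ∀ j, j ≠ i → Fx M (cx e j)) (P : Pt (W i) Ω) {γ : Ω ≃ₐ[K] Ω}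
    (hγ : γ ∈ M.fixingSubgroup) : (Xn W).act γ (up e i P) = up e i (γ • P) := by
  funext j
  change γ • cx (up e i P) j = cx (up e i (γ • P)) j
  by_cases hj : j = i
  · subst hj
    have h1 : cx (up e j P) j = P := Function.update_self _ _ _
    have h2 : cx (up e j (γ • P)) j = γ • P := Function.update_self _ _ _
    rw [h1, h2]
  · have h1 : cx (up e i P) j = cx e j := Function.update_of_ne hj _ _
    have h2 : cx (up e i (γ • P)) j = cx e j := Function.update_of_ne hj _ _
    rw [h1, h2]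
    exact he j hj γ hγ

omit [∀ i, (W i).IsElliptic] [CharZero K] [IsAlgClosure K Ω] in
private theorem up_zero (S : Finset (Fin n)) {i : Fin n} (hi : i ∈ S) (e : (Xn W).pt Ω) :
    tht S (up e i 0) = 0 :=
  tht_zero hi (Function.update_self _ _ _)

private theorem snfb_dg {A : Type} (P : A) : dg (Finsupp.single P 1 : A →₀ ℤ) = 1 := by
  simp [dg]

private theorem snfb_sm {A : Type} [AddCommGroup A] (P : A) :
    sm (Finsupp.single P 1 : A →₀ ℤ) = P := by
  simp [sm]

omit [∀ i, (W i).IsElliptic] [CharZero K] [IsAlgClosure K Ω] in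
private theorem snfb_fx {M : IntermediateField K Ω} {i : Fin n} {P : Pt (W i) Ω}
    (hP : Fx M P) :
    Fx (A := (Ev (W i)).pt Ω →₀ ℤ) M (Finsupp.single P 1 : Pt (W i) Ω →₀ ℤ) :=
  fx_single (fpE.2 hP) 1

/-- **The symbols.** The symbol `{x}_M` is the class of the trace of `tht S x`. Proof of the additivity: `thl_zero` for `u = [P + P'] - [P] - [P'] + [0]`
(`thl_single`, `tht_zero`). Proof of the projection formula: `nm_tr`; `Nm M N (tht S (up x i P)) = thl S x i (Nm M N [P])` (`nm_rep`, `tht_act`); `thl_zero` for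
`u = Nm M N [P] - [Nm M N P] - (d - 1) [0]`. -/
theorem exists_sn (S : Finset (Fin n)) :
    ∃ Y : Sn {i // i ∈ S} K Ω (fun i => Pt (W i) Ω)
      (((Xn W).pt Ω →₀ ℤ) ⧸ (Xn W).ratEq K Ω), ∀ (M : IntermediateField K Ω)
      (x : ∀ i : {i // i ∈ S}, Pt (W i) Ω), Y.sy M x =
        QuotientAddGroup.mk' ((Xn W).ratEq K Ω)
          (Nm (⊥ : IntermediateField K Ω) M (tht S (ex S x) : (Xn W).pt Ω →₀ ℤ)) := by
  refine ⟨⟨fun M x => QuotientAddGroup.mk' ((Xn W).ratEq K Ω)
    (Nm (⊥ : IntermediateField K Ω) M (tht S (ex S x) : (Xn W).pt Ω →₀ ℤ)), ?_, ?_⟩,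
    fun M x => rfl⟩
  · intro M _ i x P P' hx hP hP'
    rw [ex_up, ex_up, ex_up, ← map_add, ← sub_eq_zero, ← map_sub]
    refine (QuotientAddGroup.eq_zero_iff _).2 ?_
    have he := ex_fx hx
    generalize ex S x = e at he ⊢
    have h1 : Fx (A := (Ev (W i)).pt Ω →₀ ℤ) M
        (Finsupp.single (P + P') 1 - Finsupp.single P 1 - Finsupp.single P' 1 +
          Finsupp.single 0 1 : Pt (W i) Ω →₀ ℤ) :=
      (((snfb_fx (hP.add hP')).sub (snfb_fx hP)).sub (snfb_fx hP')).add (snfb_fx Fx.zero)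
    have h2 := thl_zero (K := K) (M := M) i.2 he h1
      (by rw [map_add, map_sub, map_sub, snfb_dg, snfb_dg, snfb_dg, snfb_dg]; norm_num)
      (by rw [map_add, map_sub, map_sub, snfb_sm, snfb_sm, snfb_sm, snfb_sm]; abel)
    rw [map_add, map_sub, map_sub, thl_single, thl_single, thl_single, thl_single,
      up_zero S i.2, add_zero] at h2
    obtain ⟨s, -, -, -, h3⟩ := nm_rep (K := K) (M := (⊥ : IntermediateField K Ω)) (N := M) bot_le
    rw [h3] at h2 ⊢
    rw [h3, h3, ← Finset.sum_add_distrib, ← Finset.sum_sub_distrib]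
    simp only [sub_sub, smul_sub, smul_add] at h2
    exact h2
  · intro M N _ i x P h hx hP
    have hM : FiniteDimensional K M := fin_le h
    rw [ex_up, ex_up, ← sub_eq_zero, ← map_sub]
    refine (QuotientAddGroup.eq_zero_iff _).2 ?_
    have he := ex_fx hx
    generalize ex S x = e at he ⊢
    have heN : ∀ j, j ≠ (i : Fin n) → Fx N (cx e j) := fun j hj => (he j hj).mono h
    have hf : Fx N (tht S (up e i P) : (Xn W).pt Ω →₀ ℤ) := by
      intro γ hγ
      rw [CV.smul_def, tht_act, up_act heN P hγ, hP γ hγ]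
    rw [nm_tr bot_le h hf]
    obtain ⟨s, -, h1, -, h3⟩ := nm_rep h
    have h4 : Nm M N (tht S (up e i P) : (Xn W).pt Ω →₀ ℤ) =
        thl S e i (∑ γ ∈ s, Finsupp.single (γ • P) 1) := by
      rw [h3, map_sum]
      refine Finset.sum_congr rfl fun γ hγ => ?_
      rw [CV.smul_def, tht_act, up_act he P (h1 γ hγ), thl_single]
    have h5 : Fx (A := (Ev (W i)).pt Ω →₀ ℤ) M
        (∑ γ ∈ s, Finsupp.single (γ • P) 1 : Pt (W i) Ω →₀ ℤ) := by
      have h6 := nm_fx (A := (Ev (W i)).pt Ω →₀ ℤ) h (snfb_fx hP)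
      rw [h3] at h6
      have h7 : ∑ γ ∈ s, γ • (Finsupp.single P 1 : (Ev (W i)).pt Ω →₀ ℤ) =
          (∑ γ ∈ s, Finsupp.single (γ • P) 1 : Pt (W i) Ω →₀ ℤ) :=
        Finset.sum_congr rfl fun γ _ => smul_single (V := Ev (W i)) γ P 1
      rw [← h7]
      exact h6
    have h8 : Fx M (Nm M N P) := nm_fx h hP
    have h9 : Fx (A := (Ev (W i)).pt Ω →₀ ℤ) M
        (∑ γ ∈ s, Finsupp.single (γ • P) 1 - Finsupp.single (Nm M N P) 1 -
          s.card • Finsupp.single 0 1 + Finsupp.single 0 1 : Pt (W i) Ω →₀ ℤ) :=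
      ((h5.sub (snfb_fx h8)).sub ((snfb_fx Fx.zero).nsmul _)).add (snfb_fx Fx.zero)
    have h10 := thl_zero (K := K) (M := M) i.2 he h9
      (by
        rw [map_add, map_sub, map_sub, map_sum, map_nsmul, snfb_dg, snfb_dg,
          Finset.sum_congr rfl fun γ _ => snfb_dg (γ • P)]
        simp)
      (by
        rw [map_add, map_sub, map_sub, map_sum, map_nsmul, snfb_sm, snfb_sm,
          Finset.sum_congr rfl fun γ _ => snfb_sm (γ • P), h3]
        simp)
    rw [map_add, map_sub, map_sub, map_nsmul, thl_single, thl_single, up_zero S i.2, smul_zero,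
      add_zero, sub_zero, ← h4] at h10
    obtain ⟨s', -, -, -, h3'⟩ :=
      nm_rep (K := K) (M := (⊥ : IntermediateField K Ω)) (N := M) bot_le
    rw [h3'] at h10 ⊢
    rw [h3', ← Finset.sum_sub_distrib]
    simp only [smul_sub] at h10
    exact h10

end NE
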