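import Mathlib.Algebra.QuadraticAlgebra.Basic
import Pool.Agent.Lib.MP_f80667_ag.Gm.GpD

/-!
The polynomial whose roots are the sums `∑ w_i η_i`, `η_i` a root of `η² + B_i η = F_i`.

* `qe w B F Q`: `Q(X - w η)` in the quadratic algebra `η² = F - B η` over `R[X]`.
* `nq w B F Q`: its norm: the product of the `Q(X - w η)` over the two roots.
* `th w B F`: for families, by recursion.
-/

open Polynomial

namespace NE

section

variable {R : Type} [CommRing R]

/-- `Q(X - w η)`. -/
noncomputable def qe (w B F : R) (Q : R[X]) : QuadraticAlgebra R[X] (C F) (-C B) :=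
  Q.eval₂ ((algebraMap R[X] (QuadraticAlgebra R[X] (C F) (-C B))).comp C) ⟨X, -C w⟩

private theorem qe_add (w B F : R) (P Q : R[X]) : qe w B F (P + Q) = qe w B F P + qe w B F Q :=
  eval₂_add _ _

private theorem qe_C (w B F : R) (a : R) : qe w B F (C a) = ⟨C a, 0⟩ := by
  rw [qe, eval₂_C]
  rfl

private theorem qe_mul_X (w B F : R) (Q : R[X]) :
    qe w B F (Q * X) = qe w B F Q * ⟨X, -C w⟩ := by
  rw [qe, eval₂_mul_X]
  rfl

/-- The product of `Q(X - w η)` over the roots `η` of `η² + B η = F`. -/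
noncomputable def nq (w B F : R) (Q : R[X]) : R[X] := (qe w B F Q).norm

/-- The product of `X - ∑ w_i η_i`. -/
noncomputable def th : ∀ {n : ℕ}, (Fin n → R) → (Fin n → R) → (Fin n → R) → R[X]
  | 0, _, _, _ => X
  | _ + 1, w, B, F => nq (w 0) (B 0) (F 0) (th (Fin.tail w) (Fin.tail B) (Fin.tail F))

private theorem qe_lift {w B F η : R} (h : η * η = F - B * η) (Q : R[X]) :
    (qe w B F Q).re + (qe w B F Q).im * C η = Q.comp (X - C (w * η)) := by
  have h0 : (C η : R[X]) * C η = (C F : R[X]) • (1 : R[X]) + (-C B : R[X]) • (C η : R[X]) := by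
    rw [smul_eq_mul, smul_eq_mul, mul_one, ← C_mul, h, C_sub, C_mul]
    ring
  set φ : QuadraticAlgebra R[X] (C F) (-C B) →ₐ[R[X]] R[X] := QuadraticAlgebra.lift ⟨C η, h0⟩ with hφ
  have h1 : ∀ z : QuadraticAlgebra R[X] (C F) (-C B), φ z = z.re + z.im * C η := by
    intro z
    rw [hφ]
    simp [QuadraticAlgebra.lift]
  have h2 : φ (qe w B F Q) = Q.comp (X - C (w * η)) := by
    have h3 : (φ : QuadraticAlgebra R[X] (C F) (-C B) →+* R[X]).comp
        ((algebraMap R[X] (QuadraticAlgebra R[X] (C F) (-C B))).comp C) = (C : R →+* R[X]) := by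
      refine RingHom.ext fun a => ?_
      change φ (algebraMap R[X] (QuadraticAlgebra R[X] (C F) (-C B)) (C a)) = C a
      rw [AlgHom.commutes]
      rfl
    have h4 := Polynomial.hom_eval₂ Q ((algebraMap R[X] (QuadraticAlgebra R[X] (C F) (-C B))).comp C)
      (φ : QuadraticAlgebra R[X] (C F) (-C B) →+* R[X]) ⟨X, -C w⟩
    rw [h3] at h4
    change φ (qe w B F Q) = _
    refine h4.trans ?_
    rw [Polynomial.comp]
    congr 1
    change φ ⟨X, -C w⟩ = _
    rw [h1, C_mul]
    ring
  rw [← h1, h2]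

/-- Proof: the homomorphisms `R[X][η] → R[X]`, `η ↦ C η`, `η ↦ C η'` (`QuadraticAlgebra.lift` or by hand: `a + b η ↦ a + b C η`
is a ring homomorphism because `η² = F - B η`); the norm of `a + b η` is `(a + b η) (a + b η')`. -/
theorem nq_eq {w B F η η' : R} (h1 : η + η' = -B) (h2 : η * η' = -F) (Q : R[X]) :
    nq w B F Q = Q.comp (X - C (w * η)) * Q.comp (X - C (w * η')) := by
  have e1 : η * η = F - B * η := by linear_combination η * h1 - h2
  have e2 : η' * η' = F - B * η' := by linear_combination η' * h1 - h2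
  rw [← qe_lift e1, ← qe_lift e2, nq, QuadraticAlgebra.norm_def]
  have g1 : (C η : R[X]) + C η' = -C B := by rw [← C_add, h1, C_neg]
  have g2 : (C η : R[X]) * C η' = -C F := by rw [← C_mul, h2, C_neg]
  linear_combination (-((qe w B F Q).re * (qe w B F Q).im)) * g1 -
    ((qe w B F Q).im * (qe w B F Q).im) * g2

/-- Proof: `qe` is compatible with ring homomorphisms: the map `(a, b) ↦ (f a, f b)` of quadratic algebras (induction on
`Q`: `Polynomial.induction_on'`). -/
theorem nq_map {R' : Type} [CommRing R'] (f : R →+* R') (w B F : R) (Q : R[X]) :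
    (nq w B F Q).map f = nq (f w) (f B) (f F) (Q.map f) := by
  have key : (qe w B F Q).re.map f = (qe (f w) (f B) (f F) (Q.map f)).re ∧
      (qe w B F Q).im.map f = (qe (f w) (f B) (f F) (Q.map f)).im := by
    induction Q using Polynomial.induction_on' with
    | add p q hp hq =>
      rw [qe_add, Polynomial.map_add, qe_add, QuadraticAlgebra.re_add, QuadraticAlgebra.im_add,
        QuadraticAlgebra.re_add, QuadraticAlgebra.im_add, Polynomial.map_add, Polynomial.map_add,
        hp.1, hp.2, hq.1, hq.2]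
      exact ⟨rfl, rfl⟩
    | monomial n a =>
      induction n with
      | zero =>
        rw [monomial_zero_left, map_C, qe_C, qe_C]
        simp
      | succ n ih =>
        rw [← monomial_mul_X, qe_mul_X, Polynomial.map_mul, map_X, qe_mul_X]
        simp only [QuadraticAlgebra.re_mul, QuadraticAlgebra.im_mul, Polynomial.map_add,
          Polynomial.map_mul, Polynomial.map_neg, map_C, map_X, ih.1, ih.2]
        exact ⟨by trivial, by trivial⟩
  rw [nq, nq, QuadraticAlgebra.norm_def, QuadraticAlgebra.norm_def, ← key.1, ← key.2]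
  simp

theorem th_map {R' : Type} [CommRing R'] (f : R →+* R') {n : ℕ} (w B F : Fin n → R) :
    (th w B F).map f = th (fun i => f (w i)) (fun i => f (B i)) (fun i => f (F i)) := by
  induction n with
  | zero => simp [th]
  | succ n ih =>
    rw [th, th, nq_map, ih]
    rfl

/-- Proof: `nq_eq`, induction. -/
theorem th_prod {n : ℕ} {w B F : Fin n → R} {η : Fin n → Bool → R}
    (h1 : ∀ i, η i false + η i true = -B i) (h2 : ∀ i, η i false * η i true = -F i) :
    th w B F = ∏ ε : Fin n → Bool, (X - C (∑ i, w i * η i (ε i))) := by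
  induction n with
  | zero => simp [th]
  | succ n ih =>
    have h3 := ih (w := Fin.tail w) (B := Fin.tail B) (F := Fin.tail F)
      (η := fun i => η i.succ) (fun i => h1 i.succ) (fun i => h2 i.succ)
    have hs : ∀ g : (Fin (n + 1) → Bool) → R[X], ∏ ε, g ε =
        (∏ ε : Fin n → Bool, g (Fin.cons true ε)) * ∏ ε : Fin n → Bool, g (Fin.cons false ε) := by
      intro g
      rw [← (Fin.consEquiv (fun _ : Fin (n + 1) => Bool)).prod_comp g, Fintype.prod_prod_type,
        Fintype.prod_bool]
      rfl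
    rw [hs, th, nq_eq (h1 0) (h2 0), h3, Polynomial.prod_comp, Polynomial.prod_comp, mul_comm]
    congr 1
    · refine Finset.prod_congr rfl fun ε _ => ?_
      rw [sub_comp, X_comp, C_comp, Fin.sum_univ_succ]
      simp only [Fin.cons_zero, Fin.cons_succ, Fin.tail, C_add]
      ring
    · refine Finset.prod_congr rfl fun ε _ => ?_
      rw [sub_comp, X_comp, C_comp, Fin.sum_univ_succ]
      simp only [Fin.cons_zero, Fin.cons_succ, Fin.tail, C_add]
      ring

private theorem qe_deg (w B F : R) (d : ℕ) : ∀ Q : R[X], Q.natDegree ≤ d →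
    (qe w B F Q).re.degree ≤ d ∧ (qe w B F Q).re.coeff d = Q.coeff d ∧
      (qe w B F Q).im.degree < d := by
  induction d with
  | zero =>
    intro Q hQ
    rw [Polynomial.eq_C_of_natDegree_le_zero hQ, qe_C]
    refine ⟨degree_C_le, rfl, ?_⟩
    change (0 : R[X]).degree < _
    rw [degree_zero]
    exact WithBot.bot_lt_coe _
  | succ d ih =>
    intro Q hQ
    have hdiv : Q.divX.natDegree ≤ d := by
      rw [natDegree_divX_eq_natDegree_tsub_one]
      omega
    obtain ⟨h1, h2, h3⟩ := ih Q.divX hdiv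
    have hQe : qe w B F Q = qe w B F Q.divX * ⟨X, -C w⟩ + ⟨C (Q.coeff 0), 0⟩ := by
      conv_lhs => rw [← divX_mul_X_add Q]
      rw [qe_add, qe_mul_X, qe_C]
    set z := qe w B F Q.divX with hz
    have hre : (qe w B F Q).re = z.re * X + (C (-(F * w)) * z.im + C (Q.coeff 0)) := by
      rw [hQe, QuadraticAlgebra.re_add, QuadraticAlgebra.re_mul]
      simp only [C_neg, C_mul]
      ring
    have him : (qe w B F Q).im = z.im * X + (C (-w) * z.re + C (B * w) * z.im) := by
      rw [hQe, QuadraticAlgebra.im_add, QuadraticAlgebra.im_mul]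
      simp only [C_neg, C_mul]
      ring
    have hd1 : ((d : ℕ) : WithBot ℕ) < ((d + 1 : ℕ) : WithBot ℕ) := by
      exact_mod_cast Nat.lt_succ_self d
    have hlow : (C (-(F * w)) * z.im + C (Q.coeff 0)).degree ≤ d := by
      refine (degree_add_le _ _).trans (max_le ?_ ?_)
      · refine (degree_mul_le _ _).trans ?_
        calc (C (-(F * w)) : R[X]).degree + z.im.degree ≤ 0 + z.im.degree :=
              add_le_add_left degree_C_le _
          _ = z.im.degree := zero_add _
          _ ≤ d := h3.le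
      · exact degree_C_le.trans (by exact_mod_cast Nat.zero_le d)
    refine ⟨?_, ?_, ?_⟩
    · rw [hre]
      refine (degree_add_le _ _).trans (max_le ?_ (hlow.trans hd1.le))
      refine (degree_mul_le _ _).trans ?_
      calc z.re.degree + (X : R[X]).degree ≤ (d : WithBot ℕ) + 1 :=
            add_le_add h1 degree_X_le
        _ = ((d + 1 : ℕ) : WithBot ℕ) := by push_cast; rfl
    · rw [hre, coeff_add, coeff_mul_X, h2, coeff_divX,
        coeff_eq_zero_of_degree_lt (lt_of_le_of_lt hlow hd1), add_zero]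
    · rw [him]
      refine lt_of_le_of_lt (degree_add_le _ _) (max_lt ?_ ?_)
      · refine lt_of_le_of_lt (degree_mul_le _ _) ?_
        by_cases h0 : z.im = 0
        · rw [h0, degree_zero, WithBot.bot_add]
          exact WithBot.bot_lt_coe _
        · rw [degree_eq_natDegree h0] at h3 ⊢
          have h4 : z.im.natDegree < d := by exact_mod_cast h3
          calc (z.im.natDegree : WithBot ℕ) + (X : R[X]).degree ≤ (z.im.natDegree : WithBot ℕ) + 1 :=
                add_le_add_right degree_X_le _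
            _ < ((d + 1 : ℕ) : WithBot ℕ) := by exact_mod_cast Nat.succ_lt_succ h4
      · refine lt_of_le_of_lt (degree_add_le _ _) (max_lt ?_ ?_)
        · refine lt_of_le_of_lt (degree_mul_le _ _) ?_
          calc (C (-w) : R[X]).degree + z.re.degree ≤ 0 + (d : WithBot ℕ) :=
                add_le_add degree_C_le h1
            _ = d := zero_add _
            _ < _ := hd1
        · refine lt_of_le_of_lt (degree_mul_le _ _) ?_
          calc (C (B * w) : R[X]).degree + z.im.degree ≤ 0 + (d : WithBot ℕ) :=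
                add_le_add degree_C_le h3.le
            _ = d := zero_add _
            _ < _ := hd1

/-- Proof: `Q(X - w η) = U + V η` with `U` monic of the degree of `Q`, `deg V < deg Q`; the norm is `U² - B U V - F V²`. -/
theorem nq_monic [Nontrivial R] (w B F : R) {Q : R[X]} (hQ : Q.Monic) :
    (nq w B F Q).Monic ∧ (nq w B F Q).natDegree = 2 * Q.natDegree := by
  obtain ⟨h1, h2, h3⟩ := qe_deg w B F Q.natDegree Q le_rfl
  set U := (qe w B F Q).re with hU
  set V := (qe w B F Q).im with hV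
  set d := Q.natDegree with hd
  have hUm : U.Monic := monic_of_degree_le d h1 (h2.trans hQ.coeff_natDegree)
  have hUd : U.natDegree = d := by
    refine le_antisymm (natDegree_le_iff_degree_le.2 h1) (le_natDegree_of_ne_zero ?_)
    rw [h2, hQ.coeff_natDegree]
    exact one_ne_zero
  have hUU : (U * U).Monic := hUm.mul hUm
  have hUUd : (U * U).natDegree = 2 * d := by
    rw [hUm.natDegree_mul hUm, hUd]
    ring
  have hUUdeg : (U * U).degree = ((2 * d : ℕ) : WithBot ℕ) := by
    rw [degree_eq_natDegree hUU.ne_zero, hUUd]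
  have hnq : nq w B F Q = U * U + (-(C B) * U * V - C F * V * V) := by
    rw [nq, QuadraticAlgebra.norm_def]
    ring
  have hlt : (-(C B) * U * V - C F * V * V).degree < (U * U).degree := by
    rw [hUUdeg]
    by_cases hV0 : V = 0
    · rw [hV0]
      simp only [mul_zero, sub_zero, degree_zero]
      exact WithBot.bot_lt_coe _
    · have h4 : V.natDegree < d := by
        rw [degree_eq_natDegree hV0] at h3
        exact_mod_cast h3
      refine lt_of_le_of_lt (degree_sub_le _ _) (max_lt ?_ ?_)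
      · refine lt_of_le_of_lt degree_le_natDegree ?_
        have h5 : (-(C B) * U * V).natDegree ≤ d + V.natDegree := by
          refine natDegree_mul_le.trans (Nat.add_le_add_right ?_ _)
          refine natDegree_mul_le.trans ?_
          rw [natDegree_neg, natDegree_C, hUd, zero_add]
        exact_mod_cast (by omega : (-(C B) * U * V).natDegree < 2 * d)
      · refine lt_of_le_of_lt degree_le_natDegree ?_
        have h5 : (C F * V * V).natDegree ≤ V.natDegree + V.natDegree := by
          refine natDegree_mul_le.trans (Nat.add_le_add_right ?_ _)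
          refine natDegree_mul_le.trans ?_
          rw [natDegree_C, zero_add]
        exact_mod_cast (by omega : (C F * V * V).natDegree < 2 * d)
  rw [hnq]
  exact ⟨hUU.add_of_left hlt, (natDegree_add_eq_left_of_degree_lt hlt).trans hUUd⟩

theorem th_monic [Nontrivial R] {n : ℕ} (w B F : Fin n → R) :
    (th w B F).Monic ∧ (th w B F).natDegree = 2 ^ n := by
  induction n with
  | zero => exact ⟨monic_X, natDegree_X⟩
  | succ n ih =>
    obtain ⟨h1, h2⟩ := ih (Fin.tail w) (Fin.tail B) (Fin.tail F)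
    obtain ⟨h3, h4⟩ := nq_monic (w 0) (B 0) (F 0) h1
    refine ⟨h3, ?_⟩
    rw [th, h4, h2, pow_succ]
    ring

end

section wt

variable {k : Type} [Field k]

/-- The weights of the coefficients, shifted by `c ρ`. -/
private def Wd (ρ c m : ℕ) (A : k[X][X]) : Prop :=
  ∀ j n, (A.coeff j).coeff n ≠ 0 → n + (j + c) * ρ ≤ m

private theorem Wd.add {ρ c m : ℕ} {A B : k[X][X]} (hA : Wd ρ c m A) (hB : Wd ρ c m B) :
    Wd ρ c m (A + B) := by
  intro j n h
  by_cases h1 : (A.coeff j).coeff n = 0
  · refine hB j n fun h2 => h ?_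
    rw [coeff_add, coeff_add, h1, h2, add_zero]
  · exact hA j n h1

private theorem Wd.neg {ρ c m : ℕ} {A : k[X][X]} (hA : Wd ρ c m A) : Wd ρ c m (-A) := by
  intro j n h
  refine hA j n fun h2 => h ?_
  rw [coeff_neg, coeff_neg, h2, neg_zero]

private theorem Wd.zero (ρ c m : ℕ) : Wd ρ c m (0 : k[X][X]) := by
  intro j n h
  exact absurd (by rw [coeff_zero, coeff_zero]) h

private theorem Wd.mono {ρ c m m' : ℕ} {A : k[X][X]} (hA : Wd ρ c m A) (h : m ≤ m') :
    Wd ρ c m' A := fun j n hn => (hA j n hn).trans h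

private theorem Wd.mul {ρ c c' m m' : ℕ} {A B : k[X][X]} (hA : Wd ρ c m A) (hB : Wd ρ c' m' B) :
    Wd ρ (c + c') (m + m') (A * B) := by
  intro j n h
  rw [coeff_mul, finset_sum_coeff] at h
  obtain ⟨p, hp, h1⟩ := Finset.exists_ne_zero_of_sum_ne_zero h
  rw [coeff_mul] at h1
  obtain ⟨q, hq, h2⟩ := Finset.exists_ne_zero_of_sum_ne_zero h1
  have h3 := hA p.1 q.1 (left_ne_zero_of_mul h2)
  have h4 := hB p.2 q.2 (right_ne_zero_of_mul h2)
  rw [Finset.HasAntidiagonal.mem_antidiagonal] at hp hq
  have h5 : (p.1 + p.2 + (c + c')) * ρ = (p.1 + c) * ρ + (p.2 + c') * ρ := by ring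
  rw [← hp, ← hq, h5]
  omega

private theorem Wd.shift {ρ c e m : ℕ} {A : k[X][X]} (hA : Wd ρ (c + e) (e * ρ + m) A) :
    Wd ρ c m A := by
  intro j n h
  have h1 := hA j n h
  have h2 : (j + (c + e)) * ρ = (j + c) * ρ + e * ρ := by ring
  omega

private theorem Wd.C {ρ m : ℕ} {a : k[X]} (h : a.natDegree ≤ m) :
    Wd ρ 0 m (Polynomial.C a) := by
  intro j n hn
  rw [coeff_C] at hn
  by_cases hj : j = 0
  · rw [if_pos hj] at hn
    rw [hj, zero_add, zero_mul, add_zero]
    exact (le_natDegree_of_ne_zero hn).trans h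
  · rw [if_neg hj, coeff_zero] at hn
    exact absurd rfl hn

private theorem Wd.X (ρ : ℕ) : Wd ρ 0 ρ (Polynomial.X : k[X][X]) := by
  intro j n hn
  rw [coeff_X] at hn
  by_cases hj : 1 = j
  · rw [if_pos hj, coeff_one] at hn
    by_cases h0 : n = 0
    · rw [h0, ← hj]
      omega
    · rw [if_neg h0] at hn
      exact absurd rfl hn
  · rw [if_neg hj, coeff_zero] at hn
    exact absurd rfl hn

private theorem Wd.im (ρ : ℕ) (w : k) : Wd ρ 1 ρ (-Polynomial.C (Polynomial.C w) : k[X][X]) := by
  refine Wd.neg ?_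
  intro j n hn
  rw [coeff_C] at hn
  by_cases hj : j = 0
  · rw [if_pos hj, coeff_C] at hn
    by_cases h0 : n = 0
    · rw [h0, hj]
      omega
    · rw [if_neg h0] at hn
      exact absurd rfl hn
  · rw [if_neg hj, coeff_zero] at hn
    exact absurd rfl hn

/-- The weight of an element of the quadratic algebra. -/
private def Wz (ρ m : ℕ) {B F : k[X]}
    (z : QuadraticAlgebra k[X][X] (Polynomial.C F) (-Polynomial.C B)) : Prop :=
  Wd ρ 0 m z.re ∧ Wd ρ 1 m z.im

private theorem Wz.mul {ρ m m' : ℕ} {B F : k[X]} (hB : B.natDegree ≤ ρ) (hF : F.natDegree ≤ 2 * ρ)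
    {z z' : QuadraticAlgebra k[X][X] (Polynomial.C F) (-Polynomial.C B)} (h : Wz ρ m z)
    (h' : Wz ρ m' z') : Wz ρ (m + m') (z * z') := by
  constructor
  · rw [QuadraticAlgebra.re_mul]
    refine (h.1.mul h'.1).add ?_
    have h1 := ((Wd.C (ρ := ρ) hF).mul h.2).mul h'.2
    refine Wd.shift (c := 0) (e := 2) ?_
    rw [← Nat.add_assoc]
    exact h1
  · rw [QuadraticAlgebra.im_mul]
    refine ((h.1.mul h'.2).add (h.2.mul h'.1)).add ?_
    have h1 := (((Wd.C (ρ := ρ) hB).neg).mul h.2).mul h'.2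
    refine Wd.shift (c := 1) (e := 1) ?_
    rw [one_mul, ← Nat.add_assoc]
    exact h1

private theorem Wz.pow {ρ m : ℕ} {B F : k[X]} (hB : B.natDegree ≤ ρ) (hF : F.natDegree ≤ 2 * ρ)
    {z : QuadraticAlgebra k[X][X] (Polynomial.C F) (-Polynomial.C B)} (h : Wz ρ m z) (e : ℕ) :
    Wz ρ (e * m) (z ^ e) := by
  induction e with
  | zero =>
    rw [pow_zero]
    refine ⟨?_, Wd.zero _ _ _⟩
    change Wd ρ 0 _ (1 : k[X][X])
    rw [← Polynomial.C_1]
    exact Wd.C (by rw [natDegree_one]; exact Nat.zero_le _)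
  | succ e ih =>
    rw [pow_succ, Nat.succ_mul]
    exact ih.mul hB hF h

private theorem Wz_qe {w : k} {B F : k[X]} {ρ m : ℕ} (hB : B.natDegree ≤ ρ)
    (hF : F.natDegree ≤ 2 * ρ) {Q : k[X][X]}
    (hQ : ∀ j, Q.coeff j ≠ 0 → (Q.coeff j).natDegree + j * ρ ≤ m) :
    Wz ρ m (qe (Polynomial.C w) B F Q) := by
  rw [qe, eval₂_eq_sum, Polynomial.sum]
  refine Finset.sum_induction _ (fun z => Wz ρ m z) (fun a b ha hb => ⟨ha.1.add hb.1, ha.2.add hb.2⟩)
    ⟨Wd.zero _ _ _, Wd.zero _ _ _⟩ fun e he => ?_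
  have h1 : Wz ρ (e * ρ) ((⟨Polynomial.X, -Polynomial.C (Polynomial.C w)⟩ :
      QuadraticAlgebra k[X][X] (Polynomial.C F) (-Polynomial.C B)) ^ e) :=
    Wz.pow hB hF ⟨Wd.X ρ, Wd.im ρ w⟩ e
  have h2 : Wz ρ (Q.coeff e).natDegree
      (((algebraMap k[X][X] (QuadraticAlgebra k[X][X] (Polynomial.C F) (-Polynomial.C B))).comp
        Polynomial.C) (Q.coeff e)) := ⟨Wd.C le_rfl, Wd.zero _ _ _⟩
  have h3 := h2.mul hB hF h1
  have h4 := hQ e (mem_support_iff.1 he)
  exact ⟨h3.1.mono h4, h3.2.mono h4⟩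

/-- The weights: `X` has weight `ρ`, the inner variable weight `1`. Proof: for the elements `U + V η` of the quadratic algebra over
`k[X][X]` with `natDegree (U.coeff j) + j ρ ≤ m`, `natDegree (V.coeff j) + (j + 1) ρ ≤ m` (`V.coeff j = 0` if `m < (j + 1) ρ`): these
conditions are multiplicative (`natDegree B ≤ ρ`, `natDegree F ≤ 2 ρ`), so `Q(X - w η)` has the weight of `Q`, and the norm twice the
weight. -/
theorem nq_wt {w : k} {B F : k[X]} {ρ m : ℕ} (hB : B.natDegree ≤ ρ) (hF : F.natDegree ≤ 2 * ρ)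
    {Q : k[X][X]} (hQ : ∀ j, Q.coeff j ≠ 0 → (Q.coeff j).natDegree + j * ρ ≤ m) (j : ℕ)
    (hj : (nq (C w) B F Q).coeff j ≠ 0) : ((nq (C w) B F Q).coeff j).natDegree + j * ρ ≤ 2 * m := by
  obtain ⟨h1, h2⟩ := Wz_qe (w := w) hB hF hQ
  have key : Wd ρ 0 (2 * m) (nq (C w) B F Q) := by
    rw [nq, QuadraticAlgebra.norm_def, sub_eq_add_neg]
    refine Wd.add (Wd.add ?_ ?_) (Wd.neg ?_)
    · rw [two_mul]
      exact h1.mul h1
    · have h3 := (((Wd.C (ρ := ρ) hB).neg).mul h1).mul h2
      refine Wd.shift (c := 0) (e := 1) ?_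
      rw [one_mul, two_mul, ← Nat.add_assoc]
      exact h3
    · have h3 := ((Wd.C (ρ := ρ) hF).mul h2).mul h2
      refine Wd.shift (c := 0) (e := 2) ?_
      rw [two_mul m, ← Nat.add_assoc]
      exact h3
  have h4 := key j ((nq (C w) B F Q).coeff j).natDegree (by
    rw [coeff_natDegree]
    exact leadingCoeff_ne_zero.2 hj)
  rwa [add_zero] at h4

/-- Proof: `th_monic`, `nq_wt` (with `m = 2 ^ n ρ`). -/
theorem th_mc {n : ℕ} {w : Fin n → k} {B F : Fin n → k[X]} {ρ : ℕ}
    (hB : ∀ i, (B i).natDegree ≤ ρ) (hF : ∀ i, (F i).natDegree ≤ 2 * ρ) :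
    GM.Mc ρ (2 ^ n) (th (fun i => C (w i)) B F) := by
  obtain ⟨h1, h2⟩ := th_monic (fun i => C (w i)) B F
  refine ⟨h1, h2, fun j => ?_⟩
  have key : ∀ j, (th (fun i => C (w i)) B F).coeff j ≠ 0 →
      ((th (fun i => C (w i)) B F).coeff j).natDegree + j * ρ ≤ 2 ^ n * ρ := by
    clear h1 h2 j
    induction n with
    | zero =>
      intro j hj
      have hj' : (X : k[X][X]).coeff j ≠ 0 := hj
      change ((X : k[X][X]).coeff j).natDegree + j * ρ ≤ _
      rw [coeff_X] at hj' ⊢
      by_cases h : 1 = j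
      · rw [if_pos h, natDegree_one, ← h]
        omega
      · rw [if_neg h] at hj'
        exact absurd rfl hj'
    | succ n ih =>
      intro j hj
      have h3 := ih (w := Fin.tail w) (B := Fin.tail B) (F := Fin.tail F)
        (fun i => hB i.succ) (fun i => hF i.succ)
      have h4 := nq_wt (w := w 0) (hB 0) (hF 0) h3 j hj
      rw [pow_succ]
      refine le_trans h4 (le_of_eq ?_)
      ring
  by_cases h0 : (th (fun i => C (w i)) B F).coeff j = 0
  · rw [h0, natDegree_zero]
    exact Nat.zero_le _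
  · have h3 := key j h0
    rw [Nat.sub_mul]
    omega

end wt

end NE
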