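import Pool.Agent.Lib.MP_f80667_ag.Nf.Tha

/-!
The roots of `th w B F` over a field.
-/

open Polynomial

namespace NE

variable {k : Type} [Field k] {n : ℕ}

/-- The values of `η_i` with `η_i² + B_i η_i = F_i` for all `i` and `∑ w_i η_i = T`. -/
def Rt (w B F : Fin n → k) (T : k) (η : Fin n → k) : Prop :=
  (∀ i, η i ^ 2 + B i * η i = F i) ∧ ∑ i, w i * η i = T

/-- `th_prod` with the subsets instead of the sign vectors -/
private theorem thb_prod {w B F η : Fin n → k} (h : ∀ i, η i ^ 2 + B i * η i = F i) :
    th w B F = ∏ S : Finset (Fin n),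
      (X - C (∑ i, w i * η i - ∑ i ∈ S, w i * (2 * η i + B i))) := by
  classical
  have h1 : ∀ i, (if (false = true) then -B i - η i else η i) +
      (if (true = true) then -B i - η i else η i) = -B i := by
    intro i
    simp
  have h2 : ∀ i, (if (false = true) then -B i - η i else η i) *
      (if (true = true) then -B i - η i else η i) = -F i := by
    intro i
    have h0 := h i
    simp only [Bool.false_eq_true, if_false, if_true]
    linear_combination -h0
  rw [th_prod (w := w) (η := fun (i : Fin n) (b : Bool) => if b = true then -B i - η i else η i)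
    h1 h2]
  refine Fintype.prod_bijective
    (fun ε : Fin n → Bool => (Finset.univ.filter fun i => ε i = true)) ?_ _ _ ?_
  · constructor
    · intro ε ε' he
      funext i
      have h3 : i ∈ (Finset.univ.filter fun i => ε i = true) ↔
          i ∈ (Finset.univ.filter fun i => ε' i = true) := by
        have h4 : (Finset.univ.filter fun i => ε i = true) =
          (Finset.univ.filter fun i => ε' i = true) := he
        rw [h4]
      rw [Finset.mem_filter, Finset.mem_filter] at h3
      simp only [Finset.mem_univ, true_and] at h3
      cases hε : ε i <;> cases hε' : ε' i <;> simp_all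
    · intro S
      refine ⟨fun i => decide (i ∈ S), ?_⟩
      ext i
      simp
  · intro ε
    have h3 : ∑ i, w i * (if ε i = true then -B i - η i else η i) =
        ∑ i, w i * η i - ∑ i ∈ Finset.univ.filter (fun i => ε i = true),
          w i * (2 * η i + B i) := by
      rw [Finset.sum_filter, ← Finset.sum_sub_distrib]
      refine Finset.sum_congr rfl fun i _ => ?_
      by_cases hi : ε i = true
      · rw [if_pos hi, if_pos hi]
        ring
      · rw [if_neg hi, if_neg hi]
        ring
    show X - C (∑ i, w i * (if ε i = true then -B i - η i else η i)) = _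
    rw [h3]

/-- the derivative at the root `∑ w_i η_i` -/
private theorem thb_der {w B F η : Fin n → k} {T : k} (h : Rt w B F T η) :
    (derivative (th w B F)).eval T = ∏ S ∈ (Finset.univ : Finset (Finset (Fin n))).erase ∅,
      ∑ i ∈ S, w i * (2 * η i + B i) := by
  classical
  rw [thb_prod h.1, ← Finset.mul_prod_erase Finset.univ _ (Finset.mem_univ ∅), derivative_mul,
    eval_add, eval_mul, eval_mul]
  simp only [Finset.sum_empty, sub_zero, h.2, derivative_sub, derivative_X, derivative_C,
    eval_sub, eval_X, eval_C, eval_one, eval_prod, sub_self, zero_mul, add_zero, one_mul]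
  refine Finset.prod_congr rfl fun S _ => ?_
  ring

/-- Proof: the second root is `- B i - η i`: `th_prod`. -/
theorem rt_root {w B F : Fin n → k} {T : k} {η : Fin n → k} (h : Rt w B F T η) :
    (th w B F).eval T = 0 := by
  classical
  rw [thb_prod h.1, eval_prod]
  refine Finset.prod_eq_zero (Finset.mem_univ ∅) ?_
  simp [h.2]

/-- Proof: `th_prod` (the polynomials `X² + B i X - F i` split). -/
theorem root_rt [IsAlgClosed k] {w B F : Fin n → k} {T : k} (h : (th w B F).eval T = 0) :
    ∃ η, Rt w B F T η := by
  classical
  have h1 : ∀ i, ∃ e : k, e ^ 2 + B i * e = F i := by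
    intro i
    have hdeg : (X ^ 2 + C (B i) * X - C (F i) : k[X]).degree ≠ 0 := by
      have h2 : (X ^ 2 + C (B i) * X - C (F i) : k[X]).degree = 2 := by
        compute_degree!
      rw [h2]
      decide
    obtain ⟨e, he⟩ := IsAlgClosed.exists_root _ hdeg
    refine ⟨e, ?_⟩
    have h3 : e ^ 2 + B i * e - F i = 0 := by
      simpa [IsRoot] using he
    linear_combination h3
  choose η hη using h1
  rw [thb_prod hη, eval_prod, Finset.prod_eq_zero_iff] at h
  obtain ⟨S, -, hS⟩ := h
  rw [eval_sub, eval_X, eval_C] at hS
  refine ⟨fun i => if i ∈ S then -B i - η i else η i, fun i => ?_, ?_⟩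
  · have h0 := hη i
    by_cases hi : i ∈ S
    · simp only [hi, if_true]
      linear_combination h0
    · simp only [hi, if_false]
      exact h0
  · have h3 : ∑ i, w i * (if i ∈ S then -B i - η i else η i) =
        ∑ i, w i * η i - ∑ i ∈ S, w i * (2 * η i + B i) := by
      have h4 : ∑ i ∈ S, w i * (2 * η i + B i) =
          ∑ i, if i ∈ S then w i * (2 * η i + B i) else 0 := by
        rw [Finset.sum_ite_mem, Finset.univ_inter]
      rw [h4, ← Finset.sum_sub_distrib]
      refine Finset.sum_congr rfl fun i _ => ?_
      by_cases hi : i ∈ S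
      · rw [if_pos hi, if_pos hi]
        ring
      · rw [if_neg hi, if_neg hi]
        ring
    rw [h3]
    linear_combination -hS

/-- A simple root belongs to only one family. Proof: `th_prod` with the roots `η i`, `- B i - η i`: `η'` is given by an `ε'`, two
different `ε`, `ε'` with the same sum give a double root; `ε`, `ε'` with `η_i(ε_i) = η_i(ε'_i)` for all `i` give the same family:
choose the representation so that `ε' i = ε i` if `η' i = η i`. -/
theorem rt_uniq {w B F : Fin n → k} {T : k} (hd : (derivative (th w B F)).eval T ≠ 0)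
    {η η' : Fin n → k} (h : Rt w B F T η) (h' : Rt w B F T η') : η = η' := by
  classical
  by_contra hne
  refine hd ?_
  rw [thb_der h]
  set S : Finset (Fin n) := Finset.univ.filter fun i => η' i ≠ η i with hS
  have hSne : S ≠ ∅ := by
    intro h0
    refine hne ?_
    funext i
    by_contra hi
    have h1 : i ∈ S := by
      rw [hS, Finset.mem_filter]
      exact ⟨Finset.mem_univ i, fun h2 => hi h2.symm⟩
    rw [h0] at h1
    exact Finset.notMem_empty i h1
  refine Finset.prod_eq_zero (Finset.mem_erase.2 ⟨hSne, Finset.mem_univ S⟩) ?_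
  have h1 : ∑ i ∈ S, w i * (2 * η i + B i) = ∑ i, (w i * η i - w i * η' i) := by
    rw [hS, Finset.sum_filter]
    refine Finset.sum_congr rfl fun i _ => ?_
    by_cases hi : η' i ≠ η i
    · rw [if_pos hi]
      have h2 := h.1 i
      have h3 := h'.1 i
      have h4 : (η' i - η i) * (η' i + η i + B i) = 0 := by
        linear_combination h3 - h2
      rcases mul_eq_zero.1 h4 with h5 | h5
      · exact absurd (sub_eq_zero.1 h5) hi
      · linear_combination w i * h5
    · rw [if_neg hi]
      rw [not_not] at hi
      rw [hi, sub_self]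
  rw [h1, Finset.sum_sub_distrib, h.2, h'.2, sub_self]

/-- The derivative at a root. Proof: `th_prod`; the derivative at the root is the product over `S ≠ ∅` of
`∑ (i ∈ S) w_i (2 η_i + B_i)`. -/
theorem rt_der {w B F : Fin n → k} {T : k} {η : Fin n → k} (h : Rt w B F T η)
    (hS : ∀ S : Finset (Fin n), S.Nonempty → ∑ i ∈ S, w i * (2 * η i + B i) ≠ 0) :
    (derivative (th w B F)).eval T ≠ 0 := by
  classical
  rw [thb_der h]
  refine Finset.prod_ne_zero_iff.2 fun S hS0 => ?_
  exact hS S (Finset.nonempty_iff_ne_empty.2 (Finset.mem_erase.1 hS0).1)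

/-- The value. Proof: `th_prod`. -/
theorem th_val {w B F η : Fin n → k} (h : ∀ i, η i ^ 2 + B i * η i = F i) (T : k) :
    (th w B F).eval T = ∏ S : Finset (Fin n),
      (T - ∑ i, w i * η i + ∑ i ∈ S, w i * (2 * η i + B i)) := by
  classical
  rw [thb_prod h, eval_prod]
  refine Finset.prod_congr rfl fun S _ => ?_
  rw [eval_sub, eval_X, eval_C]
  ring

end NE
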