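import Pool.Agent.Lib.MP_f80667_ag.Nf.Thb
import Pool.Agent.Lib.MP_f80667_ag.Pe.Ga
import Pool.Agent.Lib.MP_f80667_ag.Gm.GpL

/-!
The curve `Θ(z, T) = 0` for Weierstrass curves: `Tg W r w` is the product of `T - ∑ w_i η_i`, `η_i` the `y`-coordinates of the points
of `W i` with `x`-coordinate `r i`; `Tf W w x` the fibre.
-/

open Polynomial PE GM

namespace NE

section gen

variable {k : Type} [Field k] {n : ℕ} (W : Fin n → WeierstrassCurve k)

/-- The curve. -/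
noncomputable def Tg (r : Fin n → k[X]) (w : Fin n → k) : k[X][X] :=
  th (fun i => C (w i)) (fun i => bk (W i) (r i)) (fun i => fk (W i) (r i))

/-- The fibre. -/
noncomputable def Tf (w x : Fin n → k) : k[X] :=
  th w (fun i => (W i).a₁ * x i + (W i).a₃)
    (fun i => x i ^ 3 + (W i).a₂ * x i ^ 2 + (W i).a₄ * x i + (W i).a₆)

/-- Proof: `th_map` for `evalRingHom c`. -/
theorem tg_fib (r : Fin n → k[X]) (w : Fin n → k) (c : k) :
    (Tg W r w).map (evalRingHom c) = Tf W w (fun i => (r i).eval c) := by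
  unfold Tg Tf
  rw [th_map]
  simp only [bk, fk, map_add, map_mul, map_pow, coe_evalRingHom, eval_C]

private theorem thc_ev {R R' : Type} [CommRing R] [CommRing R'] (f : R →+* R') (P : R[X]) (a : R) :
    f (P.eval a) = (P.map f).eval (f a) := by
  rw [eval_map, eval₂_at_apply]

/-- Proof: `tg_fib`. -/
theorem tg_ev (r : Fin n → k[X]) (w : Fin n → k) (P : k × k) :
    ev₂ P (Tg W r w) = (Tf W w fun i => (r i).eval P.1).eval P.2 := by
  rw [← tg_fib]
  change evalRingHom P.1 ((Tg W r w).eval (C P.2)) = _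
  rw [thc_ev]
  simp only [coe_evalRingHom, eval_C]

/-- Proof: `tg_fib`. -/
theorem tg_dY (r : Fin n → k[X]) (w : Fin n → k) (P : k × k) :
    ev₂ P (dY (Tg W r w)) = (derivative (Tf W w fun i => (r i).eval P.1)).eval P.2 := by
  rw [← tg_fib, derivative_map]
  change evalRingHom P.1 ((derivative (Tg W r w)).eval (C P.2)) = _
  rw [thc_ev]
  simp only [coe_evalRingHom, eval_C]

/-- The value at `A`. -/
theorem tg_evA (r : Fin n → k[X]) (w : Fin n → k) (A : k[X]) (c : k) :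
    ((Tg W r w).eval A).eval c = (Tf W w fun i => (r i).eval c).eval (A.eval c) := by
  rw [← tg_fib]
  change evalRingHom c ((Tg W r w).eval A) = _
  rw [thc_ev]
  simp only [coe_evalRingHom]

/-- Proof: `th_map`. -/
theorem tg_map {k' : Type} [Field k'] (f : k →+* k') (r : Fin n → k[X]) (w : Fin n → k) :
    up₂ f (Tg W r w) = Tg (fun i => (W i).map f) (fun i => (r i).map f) (fun i => f (w i)) := by
  change (Tg W r w).map (mapRingHom f) = _
  unfold Tg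
  rw [th_map]
  simp only [bk, fk, map_add, map_mul, map_pow, coe_mapRingHom, map_C, WeierstrassCurve.map_a₁,
    WeierstrassCurve.map_a₂, WeierstrassCurve.map_a₃, WeierstrassCurve.map_a₄,
    WeierstrassCurve.map_a₆]

/-- Proof: `th_mc`. -/
theorem tg_mc {r : Fin n → k[X]} {d : ℕ} (h : ∀ i, (r i).natDegree ≤ d) (w : Fin n → k) :
    Mc (2 * d) (2 ^ n) (Tg W r w) := by
  refine th_mc (fun i => ?_) (fun i => ?_)
  · have h1 := h i
    unfold bk
    refine (natDegree_add_le _ _).trans (max_le ((natDegree_C_mul_le _ _).trans (by omega)) ?_)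
    rw [natDegree_C]
    exact Nat.zero_le _
  · have h1 := h i
    unfold fk
    refine (natDegree_add_le _ _).trans (max_le ((natDegree_add_le _ _).trans (max_le
      ((natDegree_add_le _ _).trans (max_le ?_ ?_)) ?_)) ?_)
    · exact natDegree_pow_le.trans (by omega)
    · exact (natDegree_C_mul_le _ _).trans (natDegree_pow_le.trans (by omega))
    · exact (natDegree_C_mul_le _ _).trans (by omega)
    · rw [natDegree_C]
      exact Nat.zero_le _

/-- The value at a monic polynomial of large degree. Proof: `tg_mc`: the coefficient of `T ^ j` has degree `≤ (2 ^ n - j) 2 d`. -/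
theorem tg_monic {r : Fin n → k[X]} {d : ℕ} (h : ∀ i, (r i).natDegree ≤ d) (w : Fin n → k) {A : k[X]}
    (hA : A.Monic) (hd : 2 * d < A.natDegree) : ((Tg W r w).eval A).Monic := by
  have hg := tg_mc W h w
  obtain ⟨g, hge⟩ : ∃ g, g = Tg W r w := ⟨_, rfl⟩
  rw [← hge] at hg ⊢
  rw [eval_eq_sum_range, Finset.sum_range_succ]
  have h1 : g.coeff g.natDegree = 1 := hg.monic.coeff_natDegree
  rw [h1, one_mul]
  refine (hA.pow _).add_of_right ?_
  have h2 : (A ^ g.natDegree).degree = ((g.natDegree * A.natDegree : ℕ) : WithBot ℕ) := by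
    rw [degree_eq_natDegree (hA.pow _).ne_zero, hA.natDegree_pow]
  rw [h2]
  refine lt_of_le_of_lt (degree_sum_le _ _) ?_
  rw [Finset.sup_lt_iff (WithBot.bot_lt_coe _)]
  intro j hj
  rw [Finset.mem_range] at hj
  refine lt_of_le_of_lt degree_le_natDegree ?_
  have h3 : (g.coeff j * A ^ j).natDegree ≤ (2 ^ n - j) * (2 * d) + j * A.natDegree := by
    refine natDegree_mul_le.trans (Nat.add_le_add (hg.le j) ?_)
    rw [hA.natDegree_pow]
  have hn : g.natDegree = 2 ^ n := hg.deg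
  rw [hn] at hj ⊢
  obtain ⟨q, hq⟩ := Nat.exists_eq_add_of_lt hj
  have h4 : (2 ^ n - j) * (2 * d) + j * A.natDegree < 2 ^ n * A.natDegree := by
    have h5 : 2 ^ n - j = q + 1 := by omega
    rw [h5]
    have h6 : 2 ^ n * A.natDegree = (q + 1) * A.natDegree + j * A.natDegree := by
      rw [hq]
      ring
    rw [h6]
    have h7 : (q + 1) * (2 * d) < (q + 1) * A.natDegree :=
      Nat.mul_lt_mul_of_pos_left hd (Nat.succ_pos q)
    omega
  exact_mod_cast lt_of_le_of_lt h3 h4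

end gen

section lift

variable {S : Type} [CommRing S] {n : ℕ}

private noncomputable def tg₀ (W : Fin n → WeierstrassCurve S) (r : Fin n → S[X]) (w : Fin n → S) :
    S[X][X] :=
  th (fun i => C (w i)) (fun i => C (W i).a₁ * r i + C (W i).a₃)
    (fun i => r i ^ 3 + C (W i).a₂ * r i ^ 2 + C (W i).a₄ * r i + C (W i).a₆)

private noncomputable def tf₀ (W : Fin n → WeierstrassCurve S) (w x : Fin n → S) : S[X] :=
  th w (fun i => (W i).a₁ * x i + (W i).a₃)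
    (fun i => x i ^ 3 + (W i).a₂ * x i ^ 2 + (W i).a₄ * x i + (W i).a₆)

private theorem tg₀_map {k : Type} [Field k] (f : S →+* k) (W : Fin n → WeierstrassCurve S)
    (r : Fin n → S[X]) (w : Fin n → S) :
    (tg₀ W r w).map (mapRingHom f) =
      Tg (fun i => (W i).map f) (fun i => (r i).map f) (fun i => f (w i)) := by
  unfold tg₀ Tg
  rw [th_map]
  simp only [bk, fk, map_add, map_mul, map_pow, coe_mapRingHom, map_C, WeierstrassCurve.map_a₁,
    WeierstrassCurve.map_a₂, WeierstrassCurve.map_a₃, WeierstrassCurve.map_a₄,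
    WeierstrassCurve.map_a₆]

private theorem tf₀_map {k : Type} [Field k] (f : S →+* k) (W : Fin n → WeierstrassCurve S)
    (w x : Fin n → S) :
    (tf₀ W w x).map f = Tf (fun i => (W i).map f) (fun i => f (w i)) (fun i => f (x i)) := by
  unfold tf₀ Tf
  rw [th_map]
  simp only [map_add, map_mul, map_pow, WeierstrassCurve.map_a₁,
    WeierstrassCurve.map_a₂, WeierstrassCurve.map_a₃, WeierstrassCurve.map_a₄,
    WeierstrassCurve.map_a₆]

private theorem tg₀_ev {k : Type} [Field k] (f : S →+* k) (W : Fin n → WeierstrassCurve S)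
    (r : Fin n → S[X]) (w : Fin n → S) (A : S[X]) :
    ((tg₀ W r w).eval A).map f =
      (Tg (fun i => (W i).map f) (fun i => (r i).map f) (fun i => f (w i))).eval (A.map f) := by
  rw [← tg₀_map, ← coe_mapRingHom, thc_ev]

/-- Families with values in a subring. -/
private theorem thc_ex {k : Type} [Field k] (S : Subring k) {W : Fin n → WeierstrassCurve k}
    (h : ∀ i, (W i).a₁ ∈ S ∧ (W i).a₂ ∈ S ∧ (W i).a₃ ∈ S ∧ (W i).a₄ ∈ S ∧ (W i).a₆ ∈ S) :
    ∃ W₀ : Fin n → WeierstrassCurve S, (fun i => (W₀ i).map S.subtype) = W := by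
  refine ⟨fun i => ⟨⟨(W i).a₁, (h i).1⟩, ⟨(W i).a₂, (h i).2.1⟩, ⟨(W i).a₃, (h i).2.2.1⟩,
    ⟨(W i).a₄, (h i).2.2.2.1⟩, ⟨(W i).a₆, (h i).2.2.2.2⟩⟩, ?_⟩
  funext i
  rfl

private theorem thc_el {k : Type} [Field k] (S : Subring k) {w : Fin n → k}
    (h : ∀ i, w i ∈ S) : ∃ w₀ : Fin n → S, (fun i => S.subtype (w₀ i)) = w :=
  ⟨fun i => ⟨w i, h i⟩, rfl⟩

private theorem thc_po {k : Type} [Field k] (S : Subring k) {r : k[X]}
    (h : ∀ j, r.coeff j ∈ S) : ∃ r₀ : S[X], r₀.map S.subtype = r := by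
  have h1 : r ∈ lifts S.subtype := by
    rw [lifts_iff_coeff_lifts]
    intro j
    exact ⟨⟨_, h j⟩, rfl⟩
  exact (mem_lifts _).1 h1

private theorem thc_pf {k : Type} [Field k] (S : Subring k) {r : Fin n → k[X]}
    (h : ∀ i j, (r i).coeff j ∈ S) : ∃ r₀ : Fin n → S[X], (fun i => (r₀ i).map S.subtype) = r := by
  choose r₀ hr₀ using fun i => thc_po S (h i)
  exact ⟨r₀, funext hr₀⟩

private theorem tg_sub {k : Type} [Field k] (S : Subring k) {W : Fin n → WeierstrassCurve k}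
    (h : ∀ i, (W i).a₁ ∈ S ∧ (W i).a₂ ∈ S ∧ (W i).a₃ ∈ S ∧ (W i).a₄ ∈ S ∧ (W i).a₆ ∈ S)
    {r : Fin n → k[X]} (hr : ∀ i j, (r i).coeff j ∈ S) {w : Fin n → k} (hw : ∀ i, w i ∈ S)
    (i j : ℕ) : ((Tg W r w).coeff i).coeff j ∈ S := by
  obtain ⟨W₀, rfl⟩ := thc_ex S h
  obtain ⟨r₀, rfl⟩ := thc_pf S hr
  obtain ⟨w₀, rfl⟩ := thc_el S hw
  rw [← tg₀_map, coeff_map, coe_mapRingHom, coeff_map]
  exact (((tg₀ W₀ r₀ w₀).coeff i).coeff j).2

private theorem tg_sube {k : Type} [Field k] (S : Subring k) {W : Fin n → WeierstrassCurve k}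
    (h : ∀ i, (W i).a₁ ∈ S ∧ (W i).a₂ ∈ S ∧ (W i).a₃ ∈ S ∧ (W i).a₄ ∈ S ∧ (W i).a₆ ∈ S)
    {r : Fin n → k[X]} (hr : ∀ i j, (r i).coeff j ∈ S) {w : Fin n → k} (hw : ∀ i, w i ∈ S)
    {A : k[X]} (hA : ∀ j, A.coeff j ∈ S) (j : ℕ) : ((Tg W r w).eval A).coeff j ∈ S := by
  obtain ⟨W₀, rfl⟩ := thc_ex S h
  obtain ⟨r₀, rfl⟩ := thc_pf S hr
  obtain ⟨w₀, rfl⟩ := thc_el S hw
  obtain ⟨A₀, rfl⟩ := thc_po S hA
  rw [← tg₀_ev, coeff_map]
  exact (((tg₀ W₀ r₀ w₀).eval A₀).coeff j).2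

private theorem tf_sub {k : Type} [Field k] (S : Subring k) {W : Fin n → WeierstrassCurve k}
    (h : ∀ i, (W i).a₁ ∈ S ∧ (W i).a₂ ∈ S ∧ (W i).a₃ ∈ S ∧ (W i).a₄ ∈ S ∧ (W i).a₆ ∈ S)
    {w x : Fin n → k} (hw : ∀ i, w i ∈ S) (hx : ∀ i, x i ∈ S) (j : ℕ) :
    (Tf W w x).coeff j ∈ S := by
  obtain ⟨W₀, rfl⟩ := thc_ex S h
  obtain ⟨w₀, rfl⟩ := thc_el S hw
  obtain ⟨x₀, rfl⟩ := thc_el S hx
  rw [← tf₀_map, coeff_map]
  exact ((tf₀ W₀ w₀ x₀).coeff j).2

end lift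

section red

variable {F : Type} [Field F] {K Ω : Type} [Field K] [Field Ω] [Algebra K Ω] [Algebra F K]
  [Algebra F Ω] [IsScalarTower F K Ω] {L : Ld K Ω} {n : ℕ} {W : Fin n → WeierstrassCurve F}

private theorem thc_hp {f : Polynomial Ω} {f' : Polynomial L.κ} (h : L.Hp f f') :
    ∃ F : Polynomial L.V, F.map L.V.subtype = f ∧ F.map (IsLocalRing.residue L.V) = f' := by
  have h1 : f ∈ Polynomial.lifts L.V.subtype := by
    rw [Polynomial.lifts_iff_coeff_lifts]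
    intro n
    exact ⟨⟨f.coeff n, (h n).1⟩, rfl⟩
  obtain ⟨F, rfl⟩ := (Polynomial.mem_lifts f).1 h1
  refine ⟨F, rfl, ?_⟩
  ext i
  have h2 : L.rs.Hv ((F.map L.V.subtype).coeff i) (IsLocalRing.residue L.V (F.coeff i)) := by
    rw [coeff_map]
    exact ⟨(F.coeff i).2, rfl⟩
  rw [coeff_map]
  exact h2.uniq (h i)

private theorem thc_hp' (F : Polynomial L.V) :
    L.Hp (F.map L.V.subtype) (F.map (IsLocalRing.residue L.V)) := by
  intro i
  rw [coeff_map, coeff_map]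
  exact ⟨(F.coeff i).2, rfl⟩

private theorem thc_hv {x : Ω} {x' : L.κ} (h : L.rs.Hv x x') :
    ∃ y : L.V, L.V.subtype y = x ∧ IsLocalRing.residue L.V y = x' := by
  obtain ⟨h1, rfl⟩ := h
  exact ⟨⟨x, h1⟩, rfl, rfl⟩

omit [Algebra F K] [IsScalarTower F K Ω] in
private theorem thc_w {W : WeierstrassCurve F} (h : L.It W) :
    ∃ W₀ : WeierstrassCurve L.V, W₀.map L.V.subtype = W.baseChange Ω ∧
      W₀.map (IsLocalRing.residue L.V) = L.rc W := by
  obtain ⟨a₁, h1, h1'⟩ := thc_hv (L.hv_rr h.a₁)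
  obtain ⟨a₂, h2, h2'⟩ := thc_hv (L.hv_rr h.a₂)
  obtain ⟨a₃, h3, h3'⟩ := thc_hv (L.hv_rr h.a₃)
  obtain ⟨a₄, h4, h4'⟩ := thc_hv (L.hv_rr h.a₄)
  obtain ⟨a₆, h6, h6'⟩ := thc_hv (L.hv_rr h.a₆)
  refine ⟨⟨a₁, a₂, a₃, a₄, a₆⟩, ?_, ?_⟩
  · exact WeierstrassCurve.ext h1 h2 h3 h4 h6
  · exact WeierstrassCurve.ext h1' h2' h3' h4' h6'

/-- The reduction of the curve. Proof: lift all coefficients to `L.V` (`It`, `Hp`, `Hv`): `th_map` for `L.V.subtype` and for the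
residue map. -/
theorem tg_hp (h : ∀ i, L.It (W i)) {r : Fin n → Polynomial Ω} {r' : Fin n → Polynomial L.κ}
    (hr : ∀ i, L.Hp (r i) (r' i)) {w : Fin n → Ω} {w' : Fin n → L.κ} (hw : ∀ i, L.rs.Hv (w i) (w' i))
    {A : Polynomial Ω} {A' : Polynomial L.κ} (hA : L.Hp A A') :
    L.Hp ((Tg (fun i => (W i).baseChange Ω) r w).eval A) ((Tg (fun i => L.rc (W i)) r' w').eval A') := by
  choose W₀ h1 h1' using fun i => thc_w (h i)
  choose r₀ h2 h2' using fun i => thc_hp (hr i)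
  choose w₀ h3 h3' using fun i => thc_hv (hw i)
  obtain ⟨A₀, h4, h4'⟩ := thc_hp hA
  have e1 : (Tg (fun i => (W i).baseChange Ω) r w).eval A = ((tg₀ W₀ r₀ w₀).eval A₀).map L.V.subtype := by
    rw [tg₀_ev, h4]
    congr 1
    rw [← funext h1, ← funext h2, ← funext h3]
  have e2 : (Tg (fun i => L.rc (W i)) r' w').eval A' =
      ((tg₀ W₀ r₀ w₀).eval A₀).map (IsLocalRing.residue L.V) := by
    rw [tg₀_ev, h4']
    congr 1
    rw [← funext h1', ← funext h2', ← funext h3']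
  rw [e1, e2]
  exact thc_hp' _

/-- The reduction of the fibre. -/
theorem tf_hp (h : ∀ i, L.It (W i)) {w x : Fin n → Ω} {w' x' : Fin n → L.κ}
    (hw : ∀ i, L.rs.Hv (w i) (w' i)) (hx : ∀ i, L.rs.Hv (x i) (x' i)) :
    L.Hp (Tf (fun i => (W i).baseChange Ω) w x) (Tf (fun i => L.rc (W i)) w' x') := by
  choose W₀ h1 h1' using fun i => thc_w (h i)
  choose w₀ h3 h3' using fun i => thc_hv (hw i)
  choose x₀ h4 h4' using fun i => thc_hv (hx i)
  have e1 : Tf (fun i => (W i).baseChange Ω) w x = (tf₀ W₀ w₀ x₀).map L.V.subtype := by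
    rw [tf₀_map, ← funext h1, ← funext h3, ← funext h4]
  have e2 : Tf (fun i => L.rc (W i)) w' x' = (tf₀ W₀ w₀ x₀).map (IsLocalRing.residue L.V) := by
    rw [tf₀_map, ← funext h1', ← funext h3', ← funext h4']
  rw [e1, e2]
  exact thc_hp' _

private theorem thc_bc (U : IntermediateField K Ω) (W : WeierstrassCurve F) :
    (W.baseChange Ω).a₁ ∈ U ∧ (W.baseChange Ω).a₂ ∈ U ∧ (W.baseChange Ω).a₃ ∈ U ∧
      (W.baseChange Ω).a₄ ∈ U ∧ (W.baseChange Ω).a₆ ∈ U := by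
  have h1 : ∀ a : F, algebraMap F Ω a ∈ U := by
    intro a
    rw [IsScalarTower.algebraMap_apply F K Ω]
    exact U.algebraMap_mem _
  exact ⟨h1 _, h1 _, h1 _, h1 _, h1 _⟩

/-- The coefficients of the curve are in `U`. -/
theorem tg_rm {U : IntermediateField K Ω} {r : Fin n → Polynomial Ω} (hr : ∀ i j, (r i).coeff j ∈ U)
    {w : Fin n → Ω} (hw : ∀ i, w i ∈ U) : Rm U (Tg (fun i => (W i).baseChange Ω) r w) :=
  tg_sub U.toSubfield.toSubring (fun i => thc_bc U (W i)) hr hw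

/-- Integrality. -/
theorem tg_ip (h : ∀ i, L.It (W i)) {U : IntermediateField K Ω} {r : Fin n → Polynomial Ω}
    (hr : ∀ i, L.Ip U (r i)) {w : Fin n → Ω} (hw : ∀ i, w i ∈ U) (hw1 : ∀ i, L.nm (w i) ≤ 1)
    {A : Polynomial Ω} (hA : L.Ip U A) :
    L.Ip U ((Tg (fun i => (W i).baseChange Ω) r w).eval A) := by
  intro j
  obtain ⟨h1, h2⟩ : ((Tg (fun i => (W i).baseChange Ω) r w).eval A).coeff j ∈
      U.toSubfield.toSubring ⊓ L.V.toSubring := by
    refine tg_sube (U.toSubfield.toSubring ⊓ L.V.toSubring) (fun i => ?_)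
      (fun i j => Subring.mem_inf.2 ⟨(hr i j).1, (hr i j).2⟩)
      (fun i => Subring.mem_inf.2 ⟨hw i, hw1 i⟩)
      (fun j => Subring.mem_inf.2 ⟨(hA j).1, (hA j).2⟩) j
    obtain ⟨b1, b2, b3, b4, b6⟩ := thc_bc U (W i)
    exact ⟨⟨b1, (h i).a₁⟩, ⟨b2, (h i).a₂⟩, ⟨b3, (h i).a₃⟩, ⟨b4, (h i).a₄⟩, ⟨b6, (h i).a₆⟩⟩
  exact ⟨h1, h2⟩

/-- Integrality of the fibre. -/
theorem tf_ip (h : ∀ i, L.It (W i)) {U : IntermediateField K Ω} {w x : Fin n → Ω} (hw : ∀ i, w i ∈ U)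
    (hw1 : ∀ i, L.nm (w i) ≤ 1) (hx : ∀ i, x i ∈ U) (hx1 : ∀ i, L.nm (x i) ≤ 1) :
    L.Ip U (Tf (fun i => (W i).baseChange Ω) w x) := by
  intro j
  obtain ⟨h1, h2⟩ : (Tf (fun i => (W i).baseChange Ω) w x).coeff j ∈
      U.toSubfield.toSubring ⊓ L.V.toSubring := by
    refine tf_sub (U.toSubfield.toSubring ⊓ L.V.toSubring) (fun i => ?_)
      (fun i => Subring.mem_inf.2 ⟨hw i, hw1 i⟩) (fun i => Subring.mem_inf.2 ⟨hx i, hx1 i⟩) j
    obtain ⟨b1, b2, b3, b4, b6⟩ := thc_bc U (W i)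
    exact ⟨⟨b1, (h i).a₁⟩, ⟨b2, (h i).a₂⟩, ⟨b3, (h i).a₃⟩, ⟨b4, (h i).a₄⟩, ⟨b6, (h i).a₆⟩⟩
  exact ⟨h1, h2⟩

/-- The families over the points. -/
theorem rt_fe {w x : Fin n → Ω} {T : Ω} {η : Fin n → Ω} :
    Rt w (fun i => ((W i).baseChange Ω).a₁ * x i + ((W i).baseChange Ω).a₃)
      (fun i => x i ^ 3 + ((W i).baseChange Ω).a₂ * x i ^ 2 + ((W i).baseChange Ω).a₄ * x i +
        ((W i).baseChange Ω).a₆) T η ↔ (∀ i, fe (W i) (x i) (η i) = 0) ∧ ∑ i, w i * η i = T := by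
  unfold Rt
  refine and_congr_left' (forall_congr' fun i => ?_)
  beta_reduce
  have e1 : ((W i).baseChange Ω).a₁ = algebraMap F Ω (W i).a₁ := rfl
  have e2 : ((W i).baseChange Ω).a₂ = algebraMap F Ω (W i).a₂ := rfl
  have e3 : ((W i).baseChange Ω).a₃ = algebraMap F Ω (W i).a₃ := rfl
  have e4 : ((W i).baseChange Ω).a₄ = algebraMap F Ω (W i).a₄ := rfl
  have e6 : ((W i).baseChange Ω).a₆ = algebraMap F Ω (W i).a₆ := rfl
  rw [e1, e2, e3, e4, e6]
  unfold fe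
  constructor
  · intro h
    linear_combination h
  · intro h
    linear_combination h

end red

end NE
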