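import Pool.Agent.Lib.MP_f80667_ag.Nf.Df
import Pool.Agent.Lib.MP_f80667_ag.Pe.Tm
import Pool.Agent.Lib.MP_f80667_ag.Pe.Hh

/-!
The value of `Θ(z, A(z))` at `z = 0`.
-/

open ZC BE PE Polynomial IntermediateField CV GM

namespace NE

variable {F : Type} [Field F] {K Ω : Type} [Field K] [Field Ω] [Algebra K Ω] [Algebra F K]
  [Algebra F Ω] [IsScalarTower F K Ω] [CharZero K] [IsAlgClosure K Ω] {L : Ld K Ω} [L.Unr] {n : ℕ}
  {W : Fin n → WeierstrassCurve F} {M : IntermediateField K Ω} {N : ℕ} {x y : Fin n → Ω}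

omit [CharZero K] [Algebra F K] [Algebra F Ω] [IsScalarTower F K Ω] [IsAlgClosure K Ω] [L.Unr] in
private theorem va_comb {u v s t : Ω} (hu : u ∈ L.V) (hv : v ∈ L.V) (hs : L.nm s < 1)
    (ht : L.nm t < 1) : L.nm (u * s + v * t) < 1 := by
  refine (L.add _ _).trans_lt (max_lt ?_ ?_)
  · rw [L.mul]
    exact mul_lt_one_of_nonneg_of_lt_one_right hu (L.nonneg _) hs
  · rw [L.mul]
    exact mul_lt_one_of_nonneg_of_lt_one_right hv (L.nonneg _) ht

omit [CharZero K] [Algebra F K] [IsScalarTower F K Ω] [IsAlgClosure K Ω] [L.Unr] in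
/-- The equation and its derivatives at two close points. -/
private theorem va_cg {W : WeierstrassCurve F} (h : L.It W) {x y x' y' : Ω} (hx : L.nm x ≤ 1)
    (hy : L.nm y ≤ 1) (hx' : L.nm x' ≤ 1) (hy' : L.nm y' ≤ 1) (hxx : L.nm (x - x') < 1)
    (hyy : L.nm (y - y') < 1) : L.nm (fe W x y - fe W x' y') < 1 ∧
      L.nm (dx W x y - dx W x' y') < 1 ∧ L.nm (dy W x y - dy W x' y') < 1 := by
  have hx : x ∈ L.V := hx
  have hy : y ∈ L.V := hy
  have hx' : x' ∈ L.V := hx'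
  have hy' : y' ∈ L.V := hy'
  have h1 : algebraMap F Ω W.a₁ ∈ L.V := h.a₁
  have h2 : algebraMap F Ω W.a₂ ∈ L.V := h.a₂
  have h3 : algebraMap F Ω W.a₃ ∈ L.V := h.a₃
  have h4 : algebraMap F Ω W.a₄ ∈ L.V := h.a₄
  have e2 : (2 : Ω) ∈ L.V := ofNat_mem L.V 2
  have e3 : (3 : Ω) ∈ L.V := ofNat_mem L.V 3
  refine ⟨?_, ?_, ?_⟩
  · have e : fe W x y - fe W x' y' = (algebraMap F Ω W.a₁ * y' - (x ^ 2 + x * x' + x' ^ 2) -
        algebraMap F Ω W.a₂ * (x + x') - algebraMap F Ω W.a₄) * (x - x') +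
        (y + y' + algebraMap F Ω W.a₁ * x + algebraMap F Ω W.a₃) * (y - y') := by
      simp only [fe]
      ring
    rw [e]
    refine va_comb ?_ ?_ hxx hyy
    · exact sub_mem (sub_mem (sub_mem (mul_mem h1 hy') (add_mem (add_mem (pow_mem hx 2)
        (mul_mem hx hx')) (pow_mem hx' 2))) (mul_mem h2 (add_mem hx hx'))) h4
    · exact add_mem (add_mem (add_mem hy hy') (mul_mem h1 hx)) h3
  · have e : dx W x y - dx W x' y' = (3 * (x + x') + 2 * algebraMap F Ω W.a₂) * (x - x') +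
        (-algebraMap F Ω W.a₁) * (y - y') := by
      simp only [dx]
      ring
    rw [e]
    exact va_comb (add_mem (mul_mem e3 (add_mem hx hx')) (mul_mem e2 h2)) (neg_mem h1) hxx hyy
  · have e : dy W x y - dy W x' y' = algebraMap F Ω W.a₁ * (x - x') + 2 * (y - y') := by
      simp only [dy]
      ring
    rw [e]
    exact va_comb h1 e2 hxx hyy

omit [CharZero K] [Algebra F K] [Algebra F Ω] [IsScalarTower F K Ω] [IsAlgClosure K Ω] [L.Unr] in
private theorem va_lt {u v : Ω} (h : L.nm (u - v) < 1) (hv : L.nm v < 1) : L.nm u < 1 := by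
  have h1 := L.add (u - v) v
  rw [sub_add_cancel] at h1
  exact h1.trans_lt (max_lt h hv)

omit [CharZero K] [Algebra F K] [Algebra F Ω] [IsScalarTower F K Ω] [IsAlgClosure K Ω] [L.Unr] in
private theorem va_le {u v : Ω} (h : L.nm (u - v) < 1) (hv : L.nm v ≤ 1) : L.nm u ≤ 1 := by
  have h1 := L.add (u - v) v
  rw [sub_add_cancel] at h1
  exact h1.trans (max_le h.le hv)

omit [CharZero K] [Algebra F K] [Algebra F Ω] [IsScalarTower F K Ω] [IsAlgClosure K Ω] [L.Unr] in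
private theorem va_one {u v : Ω} (h : L.nm (u - v) < 1) (hv : L.nm v = 1) : L.nm u = 1 := by
  rw [← hv]
  exact L.eq_of_close (by rw [hv]; exact h)

omit [CharZero K] [Algebra F K] [Algebra F Ω] [IsScalarTower F K Ω] [IsAlgClosure K Ω] [L.Unr] in
private theorem va_tri {u v z : Ω} (h : L.nm (u - v) < 1) (h' : L.nm (v - z) < 1) :
    L.nm (u - z) < 1 := by
  have h1 := L.add (u - v) (v - z)
  rw [sub_add_sub_cancel] at h1
  exact h1.trans_lt (max_lt h h')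

omit [CharZero K] [Algebra F K] [Algebra F Ω] [IsScalarTower F K Ω] [IsAlgClosure K Ω] [L.Unr] in
private theorem va_sum {ι : Type} (s : Finset ι) {f : ι → Ω} (h : ∀ i ∈ s, L.nm (f i) < 1) :
    L.nm (∑ i ∈ s, f i) < 1 := by
  classical
  induction s using Finset.induction_on with
  | empty =>
    rw [Finset.sum_empty, L.zero]
    exact zero_lt_one
  | insert a s ha ih =>
    rw [Finset.sum_insert ha]
    exact (L.add _ _).trans_lt (max_lt (h a (Finset.mem_insert_self a s))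
      (ih fun i hi => h i (Finset.mem_insert_of_mem hi)))

omit [CharZero K] [Algebra F K] [Algebra F Ω] [IsScalarTower F K Ω] [IsAlgClosure K Ω] [L.Unr] in
private theorem va_prod {ι : Type} (s : Finset ι) (f : ι → Ω) :
    L.nm (∏ i ∈ s, f i) = ∏ i ∈ s, L.nm (f i) := by
  classical
  induction s using Finset.induction_on with
  | empty => rw [Finset.prod_empty, Finset.prod_empty, L.one]
  | insert a s ha ih => rw [Finset.prod_insert ha, Finset.prod_insert ha, L.mul, ih]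

omit [CharZero K] [Algebra F K] [IsScalarTower F K Ω] [IsAlgClosure K Ω] [L.Unr] in
/-- The roots near a singular point. -/
private theorem va_sing {W : WeierstrassCurve F} (h : L.It W) {x y x₀ η : Ω} (hx1 : L.nm x ≤ 1)
    (hy1 : L.nm y ≤ 1) (he : fe W x y = 0) (hd : L.nm (dy W x y) < 1) (hx0 : L.nm x₀ ≤ 1)
    (hxx : L.nm (x₀ - x) < 1) (hη : fe W x₀ η = 0) : L.nm (η - y) < 1 := by
  have hyy : L.nm (y - y) < 1 := by
    rw [sub_self, L.zero]
    exact zero_lt_one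
  obtain ⟨k1, -, k3⟩ := va_cg h hx0 hy1 hx1 hy1 hxx hyy
  rw [he, sub_zero] at k1
  have k4 := va_lt k3 hd
  have e : (η - y) ^ 2 = -((η - y) * dy W x₀ y + fe W x₀ y) := by
    have h1 : (η - y) ^ 2 = fe W x₀ η - ((η - y) * dy W x₀ y + fe W x₀ y) := by
      simp only [fe, dy]
      ring
    rw [h1, hη, zero_sub]
  by_contra hc
  rw [not_lt] at hc
  have e2 : L.nm (η - y) ^ 2 ≤ max (L.nm (η - y) * L.nm (dy W x₀ y)) (L.nm (fe W x₀ y)) := by
    rw [← L.pow, e, L.neg, ← L.mul]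
    exact L.add _ _
  have h0 := L.nonneg (dy W x₀ y)
  rcases le_max_iff.1 e2 with h2 | h2
  · nlinarith
  · nlinarith

/-- The smooth point of the fibre at `z = 0`: `x₀ = r(0) ∈ U`, congruent to `x`, `dy W x y` a unit: there is a root `η ∈ U` near `y`.
Proof: `hens` for `T² + (a₁ x₀ + a₃) T - f(x₀)` at an element of `Te N` congruent to `y` (`Rf`). -/
theorem va_root {W : WeierstrassCurve F} (h : L.It W) {D : ℕ} (hD : D ≠ 0) (hM : L.Rf M N) {x y x₀ : Ω}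
    (hy : y ∈ M) (hx1 : L.nm x ≤ 1) (hy1 : L.nm y ≤ 1) (he : fe W x y = 0)
    (hd : L.nm (dy W x y) = 1) (hx0 : x₀ ∈ L.Ur ⊥ (N * D)) (hxx : L.nm (x₀ - x) < 1) :
    ∃ η ∈ L.Ur ⊥ (N * D), fe W x₀ η = 0 ∧ L.nm (η - y) < 1 := by
  have hN : N ≠ 0 := hM.ne
  have hND : N * D ≠ 0 := mul_ne_zero hN hD
  have hfd : FiniteDimensional K (L.Ur ⊥ (N * D)) := Ld.ur_fin ⊥ (N * D) hND
  obtain ⟨v₀, hv₀T, hyv⟩ := hM.res y hy hy1
  have hv₀m : v₀ ∈ L.Ur ⊥ (N * D) := Ld.te_ur (Ld.te_dvd (dvd_mul_right N D) hv₀T)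
  have hv₀1 : L.nm v₀ ≤ 1 := Ld.te_int hN hv₀T
  have hvy : L.nm (v₀ - y) < 1 := by
    rw [L.sub_comm]
    exact hyv
  have hx1' : L.nm x₀ ≤ 1 := va_le hxx hx1
  obtain ⟨k1, -, k3⟩ := va_cg h hx1' hv₀1 hx1 hy1 hxx hvy
  have hdy : L.nm (dy W x₀ v₀) = 1 := va_one k3 hd
  have hfe : L.nm (fe W x₀ v₀) < 1 := va_lt k1 (by
    rw [he, L.zero]
    exact zero_lt_one)
  obtain ⟨B, hB⟩ : ∃ B, B = algebraMap F Ω W.a₁ * x₀ + algebraMap F Ω W.a₃ := ⟨_, rfl⟩
  obtain ⟨G, hG⟩ : ∃ G, G = x₀ ^ 3 + algebraMap F Ω W.a₂ * x₀ ^ 2 +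
    algebraMap F Ω W.a₄ * x₀ + algebraMap F Ω W.a₆ := ⟨_, rfl⟩
  have hx1V : x₀ ∈ L.V := hx1'
  have hBm : B ∈ L.Ur ⊥ (N * D) := by
    rw [hB]
    exact add_mem (mul_mem (Ld.hha_mem _ _) hx0) (Ld.hha_mem _ _)
  have hB1 : L.nm B ≤ 1 := by
    have h1 : algebraMap F Ω W.a₁ ∈ L.V := h.a₁
    have h3 : algebraMap F Ω W.a₃ ∈ L.V := h.a₃
    rw [hB]
    exact add_mem (mul_mem h1 hx1V) h3
  have hGm : G ∈ L.Ur ⊥ (N * D) := by
    rw [hG]
    exact add_mem (add_mem (add_mem (pow_mem hx0 3) (mul_mem (Ld.hha_mem _ _) (pow_mem hx0 2)))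
      (mul_mem (Ld.hha_mem _ _) hx0)) (Ld.hha_mem _ _)
  have hG1 : L.nm G ≤ 1 := by
    have h2 : algebraMap F Ω W.a₂ ∈ L.V := h.a₂
    have h4 : algebraMap F Ω W.a₄ ∈ L.V := h.a₄
    have h6 : algebraMap F Ω W.a₆ ∈ L.V := h.a₆
    rw [hG]
    exact add_mem (add_mem (add_mem (pow_mem hx1V 3) (mul_mem h2 (pow_mem hx1V 2)))
      (mul_mem h4 hx1V)) h6
  have hfeq : ∀ y, fe W x₀ y = y ^ 2 + B * y - G := by
    intro y
    rw [hB, hG, fe]
    ring
  have hdeq : ∀ y, dy W x₀ y = 2 * y + B := by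
    intro y
    rw [hB, dy]
    ring
  have hmon : (X ^ 2 + (C B * X - C G) : Polynomial Ω).Monic := by
    refine monic_X_pow_add (n := 2) ?_
    refine (degree_sub_le _ _).trans_lt (max_lt ?_ ?_)
    · refine (degree_C_mul_X_le B).trans_lt ?_
      exact_mod_cast (by norm_num : (1 : ℕ) < 2)
    · refine degree_C_le.trans_lt ?_
      exact_mod_cast (by norm_num : (0 : ℕ) < 2)
  have hgip : L.Ip (L.Ur ⊥ (N * D)) (X ^ 2 + (C B * X - C G) : Polynomial Ω) :=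
    (Ld.Ip.X.pow 2).add (((Ld.Ip.C hBm hB1).mul Ld.Ip.X).sub (Ld.Ip.C hGm hG1))
  have hge : ∀ y, (X ^ 2 + (C B * X - C G) : Polynomial Ω).eval y = fe W x₀ y := by
    intro y
    rw [hfeq]
    simp only [eval_add, eval_sub, eval_mul, eval_pow, eval_X, eval_C]
    ring
  have hgd : ∀ y, (derivative (X ^ 2 + (C B * X - C G) : Polynomial Ω)).eval y =
      dy W x₀ y := by
    intro y
    rw [hdeq]
    simp [derivative_pow]
  obtain ⟨Y, hY, hY0, hYv⟩ := L.hens _ hfd _ hmon hgip v₀ hv₀m hv₀1 (by rw [hge]; exact hfe)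
    (by rw [hgd]; exact hdy)
  rw [hge] at hY0
  exact ⟨Y, hY, hY0, va_tri hYv hvy⟩

omit [CharZero K] [Algebra F K] [IsScalarTower F K Ω] [IsAlgClosure K Ω] [L.Unr] in
/-- The value as a product. -/
private theorem va_val {r : Fin n → Polynomial Ω} {w η : Fin n → Ω} (A : Polynomial Ω)
    (hη : ∀ i, fe (W i) ((r i).eval 0) (η i) = 0) :
    ((To Ω W r w).eval A).eval 0 = ∏ S : Finset (Fin n),
      (A.eval 0 - ∑ i, w i * η i + ∑ i ∈ S, w i * dy (W i) ((r i).eval 0) (η i)) := by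
  have h1 := tg_evA (fun i => (W i).baseChange Ω) r w A 0
  rw [show (To Ω W r w) = Tg (fun i => (W i).baseChange Ω) r w from rfl, h1]
  unfold Tf
  rw [th_val (η := η) (fun i => ?_)]
  · refine Finset.prod_congr rfl fun S _ => ?_
    congr 1
    refine Finset.sum_congr rfl fun i _ => ?_
    congr 1
    simp only [dy]
    show 2 * η i + (algebraMap F Ω (W i).a₁ * (r i).eval 0 + algebraMap F Ω (W i).a₃) = _
    ring
  · have h2 := hη i
    simp only [fe] at h2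
    show η i ^ 2 + (algebraMap F Ω (W i).a₁ * (r i).eval 0 + algebraMap F Ω (W i).a₃) * η i =
      (r i).eval 0 ^ 3 + algebraMap F Ω (W i).a₂ * (r i).eval 0 ^ 2 +
        algebraMap F Ω (W i).a₄ * (r i).eval 0 + algebraMap F Ω (W i).a₆
    linear_combination h2

/-- **The value at `0`.** `A = A₁ + l m` with `A(π) = ∑ w_i y_i`. Let `U = Ur ⊥ (N D)`. Proof: `x_i⁰ = r_i(0)` is congruent to
`r_i(π) = x_i`. All points smooth: `η_i⁰` from `va_root`; by `th_val` the value is the product over `S` of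
`A(0) - ∑ w_i η_i⁰ + ∑ (i ∈ S) w_i (2 η_i⁰ + B_i)`; for `S ≠ ∅` the factor is congruent to `∑ (i ∈ S) w_i dy_i`, a unit (`hS`); for
`S = ∅` it is `A₁(0) - ∑ w_i η_i⁰ + l m(0)`, the first part is in `U` and congruent to `0`, so its norm is at most `nm p` (`ur_lt`),
`nm (m(0)) = nm p` (`Tm.val`): exclude one residue of `l` (if the first part is `a m(0)` exclude `l ≡ - a`). A singular point `i₀`:
`η_i⁰` from `va_root` for `i ≠ i₀`, `v = (A(0) - ∑ (i ≠ i₀) w_i η_i⁰) / w_(i₀) ∈ Ur ⊥ N'` is congruent to `y_(i₀)`; both roots of the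
equation over `x_(i₀)⁰` are congruent to `y_(i₀)`; the product of the two factors `S = ∅`, `{i₀}` is `w_(i₀)² fe (x⁰, v)`, of norm
`nm p` by `nod_fe`; the factors with `S ⊄ {i₀}` are units. -/
theorem va_zero (h : Gn L W M N x y) {π : Ω} {e : ℕ} {m : Polynomial Ω} (hm : L.Tm M N 0 π e m)
    (hu : L.Uf M π) {D : ℕ} (hD : D ≠ 0) {r : Fin n → Polynomial Ω}
    (hr : ∀ i, L.Ip (L.Ur ⊥ (N * D)) (r i)) (hr0 : ∀ i, (r i).eval π = x i) {w : Fin n → Ω}
    (hw : ∀ i, w i ∈ L.Ur ⊥ (N * D)) (hw1 : ∀ i, L.nm (w i) = 1) {A₁ : Polynomial Ω}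
    (hA : L.Ip (L.Ur ⊥ (N * D)) A₁) (hA0 : A₁.eval π = ∑ i, w i * y i)
    (hS : ∀ S : Finset (Fin n), (∃ i ∈ S, L.nm (dy (W i) (x i) (y i)) = 1) →
      L.nm (∑ i ∈ S, w i * dy (W i) (x i) (y i)) = 1) :
    ∃ s : Finset L.κ, ∀ (l : Ω) (ρ : L.κ), (∃ D', D' ≠ 0 ∧ D ∣ D' ∧ l ∈ L.Ur ⊥ (N * D')) →
      L.rs.Hv l ρ → ρ ∉ s →
      L.nm (((To Ω W r w).eval (A₁ + C l * m)).eval 0) = L.nm (L.p : Ω) := by
  classical
  have hN : N ≠ 0 := h.rf.ne
  have hND : N * D ≠ 0 := mul_ne_zero hN hD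
  have hp0 : 0 < L.nm (L.p : Ω) := L.p_pos
  have hp1 : L.nm (L.p : Ω) < 1 := L.lt
  have h01 : L.nm (0 : Ω) ≤ 1 := by
    rw [L.zero]
    exact zero_le_one
  have h0π : L.nm (0 - π) < 1 := by
    rw [zero_sub, L.neg]
    exact hu.lt
  have hmv := hm.val
  have hle : L.Ur ⊥ N ≤ L.Ur ⊥ (N * D) := Ld.ur_dvd ⊥ (Dvd.intro D rfl)
  have hx0 : ∀ i, (r i).eval 0 ∈ L.Ur ⊥ (N * D) := fun i => ((hr i).eval (zero_mem _) h01).1
  have hx0' : ∀ i, L.nm ((r i).eval 0) ≤ 1 := fun i => ((hr i).eval (zero_mem _) h01).2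
  have hxx : ∀ i, L.nm ((r i).eval 0 - x i) < 1 := by
    intro i
    rw [← hr0 i]
    exact (hr i).close h01 h0π
  obtain ⟨hA1, hA1'⟩ := hA.eval (zero_mem (L.Ur ⊥ (N * D))) h01
  obtain ⟨hm1, hm1'⟩ := hm.ip.eval (zero_mem (L.Ur ⊥ N)) h01
  have hAA : L.nm (A₁.eval 0 - ∑ i, w i * y i) < 1 := by
    rw [← hA0]
    exact hA.close h01 h0π
  have hlm : ∀ l : Ω, L.nm l ≤ 1 → L.nm (l * m.eval 0) < 1 := by
    intro l hl
    rw [L.mul, hmv]
    exact mul_lt_one_of_nonneg_of_lt_one_right hl (L.nonneg _) hp1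
  have hev : ∀ l : Ω, (A₁ + C l * m).eval 0 = A₁.eval 0 + l * m.eval 0 := by
    intro l
    rw [eval_add, eval_mul, eval_C]
  -- the families near `y`
  have hsm : ∀ η : Fin n → Ω, (∀ i, L.nm (η i - y i) < 1) → ∀ l : Ω, L.nm l ≤ 1 →
      L.nm ((A₁ + C l * m).eval 0 - ∑ i, w i * η i) < 1 := by
    intro η hη l hl
    have e : (A₁ + C l * m).eval 0 - ∑ i, w i * η i = (A₁.eval 0 - ∑ i, w i * y i) +
        l * m.eval 0 - ∑ i, w i * (η i - y i) := by
      have e1 : ∑ i, w i * (η i - y i) = ∑ i, w i * η i - ∑ i, w i * y i := by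
        rw [← Finset.sum_sub_distrib]
        exact Finset.sum_congr rfl fun i _ => mul_sub _ _ _
      rw [hev, e1]
      ring
    rw [e]
    refine Ld.dy_sub_lt (Ld.dy_add_lt hAA (hlm l hl)) (va_sum _ fun i _ => ?_)
    rw [L.mul, hw1, one_mul]
    exact hη i
  have hun : ∀ η : Fin n → Ω, (∀ i, L.nm (η i - y i) < 1) → ∀ l : Ω, L.nm l ≤ 1 →
      ∀ S : Finset (Fin n), (∃ i ∈ S, L.nm (dy (W i) (x i) (y i)) = 1) →
      L.nm ((A₁ + C l * m).eval 0 - ∑ i, w i * η i +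
        ∑ i ∈ S, w i * dy (W i) ((r i).eval 0) (η i)) = 1 := by
    intro η hη l hl S hSi
    refine va_one (v := ∑ i ∈ S, w i * dy (W i) (x i) (y i)) ?_ (hS S hSi)
    have e : (A₁ + C l * m).eval 0 - ∑ i, w i * η i +
        ∑ i ∈ S, w i * dy (W i) ((r i).eval 0) (η i) - ∑ i ∈ S, w i * dy (W i) (x i) (y i) =
        ((A₁ + C l * m).eval 0 - ∑ i, w i * η i) +
          ∑ i ∈ S, w i * (dy (W i) ((r i).eval 0) (η i) - dy (W i) (x i) (y i)) := by
      have e1 : ∑ i ∈ S, w i * (dy (W i) ((r i).eval 0) (η i) - dy (W i) (x i) (y i)) =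
          ∑ i ∈ S, w i * dy (W i) ((r i).eval 0) (η i) -
            ∑ i ∈ S, w i * dy (W i) (x i) (y i) := by
        rw [← Finset.sum_sub_distrib]
        exact Finset.sum_congr rfl fun i _ => mul_sub _ _ _
      rw [e1]
      ring
    rw [e]
    refine Ld.dy_add_lt (hsm η hη l hl) (va_sum _ fun i _ => ?_)
    rw [L.mul, hw1, one_mul]
    exact (va_cg (h.hd i).toIt (hx0' i) (va_le (hη i) (h.yl i)) (h.xl i) (h.yl i) (hxx i)
      (hη i)).2.2
  by_cases hall : ∀ i, L.nm (dy (W i) (x i) (y i)) = 1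
  · -- all points are smooth
    choose η hηm hη0 hηy using fun i => va_root (h.hd i).toIt hD h.rf (h.ym i) (h.xl i)
      (h.yl i) (h.eq i) (hall i) (hx0 i) (hxx i)
    obtain ⟨v₀, hv₀⟩ : ∃ v₀, v₀ = A₁.eval 0 - ∑ i, w i * η i := ⟨_, rfl⟩
    have hv₀m : v₀ ∈ L.Ur ⊥ (N * D) := by
      rw [hv₀]
      exact sub_mem hA1 (sum_mem fun i _ => mul_mem (hw i) (hηm i))
    have hv₀1 : L.nm v₀ < 1 := by
      have h1 := hsm η hηy 0 h01
      rwa [hev, zero_mul, add_zero, ← hv₀] at h1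
    have hm0 : m.eval 0 ≠ 0 := L.ne_zero (by rw [hmv]; exact hp0)
    have hvY : L.nm v₀ ≤ L.nm (L.p : Ω) := Ld.hha_lt hND hv₀m hv₀1
    obtain ⟨c, hc⟩ : ∃ c, c = v₀ / m.eval 0 := ⟨_, rfl⟩
    have hc1 : L.nm c ≤ 1 := by
      rw [hc, L.div, hmv]
      exact div_le_one_of_le₀ hvY (L.nonneg _)
    refine ⟨{-L.rr c}, ?_⟩
    intro l ρ _ hl hρ
    rw [Finset.mem_singleton] at hρ
    have hl1 : L.nm l ≤ 1 := L.hv_int hl
    have hcl : L.nm (c + l) = 1 := by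
      rw [← L.hv_ne ((L.hv_rr hc1).add hl)]
      intro h0
      exact hρ (eq_neg_of_add_eq_zero_right h0)
    rw [va_val _ hη0, va_prod, Finset.prod_eq_single (∅ : Finset (Fin n))]
    · have e : (A₁ + C l * m).eval 0 - ∑ i, w i * η i +
          ∑ i ∈ (∅ : Finset (Fin n)), w i * dy (W i) ((r i).eval 0) (η i) =
          m.eval 0 * (c + l) := by
        rw [Finset.sum_empty, hev, mul_add, hc, mul_div_cancel₀ _ hm0, hv₀]
        ring
      rw [e, L.mul, hcl, hmv, mul_one]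
    · intro S _ hS0
      obtain ⟨i, hi⟩ := Finset.nonempty_iff_ne_empty.2 hS0
      exact hun η hηy l hl1 S ⟨i, hi, hall i⟩
    · intro h1
      exact absurd (Finset.mem_univ _) h1
  · -- a singular point
    rw [not_forall] at hall
    obtain ⟨i₀, hi₀⟩ := hall
    obtain ⟨hdx, hdy⟩ : L.nm (dx (W i₀) (x i₀) (y i₀)) < 1 ∧
        L.nm (dy (W i₀) (x i₀) (y i₀)) < 1 := (h.sg i₀).resolve_left hi₀
    have hsmooth : ∀ i, i ≠ i₀ → L.nm (dy (W i) (x i) (y i)) = 1 := fun i hi =>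
      (h.one i i₀ hi).resolve_right hi₀
    have hex : ∀ i, ∃ η : Ω, fe (W i) ((r i).eval 0) η = 0 ∧ L.nm (η - y i) < 1 ∧
        (i ≠ i₀ → η ∈ L.Ur ⊥ (N * D)) := by
      intro i
      by_cases hi : i = i₀
      · subst hi
        obtain ⟨η, hη⟩ := Ld.dy_root K (W i) ((r i).eval 0)
        exact ⟨η, hη, va_sing (h.hd i).toIt (h.xl i) (h.yl i) (h.eq i) hdy (hx0' i) (hxx i) hη,
          fun h1 => absurd rfl h1⟩
      · obtain ⟨η, h1, h2, h3⟩ := va_root (h.hd i).toIt hD h.rf (h.ym i) (h.xl i)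
          (h.yl i) (h.eq i) (hsmooth i hi) (hx0 i) (hxx i)
        exact ⟨η, h2, h3, fun _ => h1⟩
    choose η hη0 hηy hηm using hex
    refine ⟨∅, ?_⟩
    rintro l ρ ⟨D', hD', hDD, hlD⟩ hl -
    have hl1 : L.nm l ≤ 1 := L.hv_int hl
    have hle1 : L.Ur ⊥ (N * D) ≤ L.Ur ⊥ (N * D') := Ld.ur_dvd ⊥ (Nat.mul_dvd_mul_left N hDD)
    have hw0 : w i₀ ≠ 0 := L.ne_zero (by rw [hw1]; exact zero_lt_one)
    obtain ⟨v, hv⟩ : ∃ v, v = ((A₁ + C l * m).eval 0 - ∑ i ∈ Finset.univ.erase i₀, w i * η i) /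
        w i₀ := ⟨_, rfl⟩
    have hsum : ∑ i, w i * η i = w i₀ * η i₀ + ∑ i ∈ Finset.univ.erase i₀, w i * η i :=
      (Finset.add_sum_erase Finset.univ (fun i => w i * η i) (Finset.mem_univ i₀)).symm
    have hvw : (A₁ + C l * m).eval 0 - ∑ i, w i * η i = w i₀ * (v - η i₀) := by
      rw [mul_sub, hv, mul_div_cancel₀ _ hw0, hsum]
      ring
    have hvm : v ∈ L.Ur ⊥ (N * D') := by
      rw [hv, hev]
      refine div_mem (sub_mem (add_mem (hle1 hA1) (mul_mem hlD (hle1 (hle hm1))))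
        (sum_mem fun i hi => mul_mem (hle1 (hw i)) (hle1 (hηm i (Finset.ne_of_mem_erase hi)))))
        (hle1 (hw i₀))
    have hvη : L.nm (v - η i₀) < 1 := by
      have h1 := hsm η hηy l hl1
      rwa [hvw, L.mul, hw1, one_mul] at h1
    have hvy : L.nm (v - y i₀) < 1 := va_tri hvη (hηy i₀)
    have hv1 : L.nm v ≤ 1 := va_le hvy (h.yl i₀)
    obtain ⟨k1, k2, k3⟩ := va_cg (h.hd i₀).toIt (hx0' i₀) hv1 (h.xl i₀) (h.yl i₀) (hxx i₀) hvy
    have hfe : L.nm (fe (W i₀) ((r i₀).eval 0) v) = L.nm (L.p : Ω) := by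
      refine Ld.nod_fe (h.hd i₀) (mul_ne_zero hN hD') (hle1 (hx0 i₀)) hvm (hx0' i₀) hv1 ?_
        (va_lt k2 hdx) (va_lt k3 hdy)
      refine va_lt k1 ?_
      rw [h.eq i₀, L.zero]
      exact zero_lt_one
    have hne : (∅ : Finset (Fin n)) ≠ {i₀} := (Finset.singleton_ne_empty i₀).symm
    rw [va_val _ hη0, va_prod, Finset.prod_eq_mul (∅ : Finset (Fin n)) {i₀} hne]
    · rw [← L.mul, Finset.sum_empty, Finset.sum_singleton, hvw, add_zero]
      have e : w i₀ * (v - η i₀) * (w i₀ * (v - η i₀) +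
          w i₀ * dy (W i₀) ((r i₀).eval 0) (η i₀)) =
          w i₀ ^ 2 * fe (W i₀) ((r i₀).eval 0) v := by
        have h1 := hη0 i₀
        have h2 : w i₀ ^ 2 * fe (W i₀) ((r i₀).eval 0) v = w i₀ ^ 2 *
            (fe (W i₀) ((r i₀).eval 0) v - fe (W i₀) ((r i₀).eval 0) (η i₀)) := by
          rw [h1, sub_zero]
        rw [h2]
        simp only [fe, dy]
        ring
      rw [e, L.mul, L.pow, hw1, one_pow, one_mul, hfe]
    · rintro S - ⟨hS0, hS1⟩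
      obtain ⟨i, hi, hii⟩ : ∃ i ∈ S, i ≠ i₀ := by
        by_contra hc
        push Not at hc
        rcases S.eq_empty_or_nonempty with h1 | ⟨j, hj⟩
        · exact hS0 h1
        · refine hS1 (Finset.eq_singleton_iff_unique_mem.2 ⟨?_, hc⟩)
          rw [← hc j hj]
          exact hj
      exact hun η hηy l hl1 S ⟨i, hi, hsmooth i hii⟩
    · intro h1
      exact absurd (Finset.mem_univ _) h1
    · intro h1
      exact absurd (Finset.mem_univ _) h1

end NE
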